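import Pool.Agent.P.MP_7cb106_nt.Q2.IfaceC

/-! Proofs of the steps PWC PWS PWI LIE1 LIE2 LIE3 CONT LFIN SEP IR1 IR2 IR3 IR4 IR5 IRR. -/

set_option autoImplicit false

namespace Pool.Agent.P.MP_7cb106_nt.Q2

section
open Filter MonoidAlgebra

theorem pwc_one {p c : ℕ} {G : Type} [Group G] {Γ : ℕ → Subgroup G} (h : UF p c Γ) (x z : G)
    (j : ℕ) : (x ^ p)⁻¹ * (x * z) ^ p ∈ Γ (j + 1) ↔ z ∈ Γ j := by
  have hx : x ∈ Γ 0 := by rw [h.top]; exact Subgroup.mem_top x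
  have e : (x ^ p)⁻¹ * (x * z) ^ p = z ^ p * ((x ^ p * z ^ p)⁻¹ * (x * z) ^ p) := by group
  have hw : ∀ i, z ∈ Γ i → (x ^ p * z ^ p)⁻¹ * (x * z) ^ p ∈ Γ (i + 2) := fun i hz => by
    have := h.pow_mul 0 i x z hx hz
    rwa [zero_add] at this
  rw [e]
  constructor
  · induction j with
    | zero => intro _; rw [h.top]; exact Subgroup.mem_top z
    | succ j ih =>
      intro h1
      have hz := ih (h.anti (Nat.le_succ _) h1)
      exact h.pow_inj (j + 1) z ((Subgroup.mul_mem_cancel_right _ (hw j hz)).1 h1)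
  · intro hz
    exact mul_mem (h.pow_mem j z hz) (h.anti (Nat.le_succ _) (hw j hz))

theorem p_PWC :
    S_PWC := by
  intro p c G _ Γ h r j x y
  induction r with
  | zero => simp
  | succ r ih =>
    have h1 := pwc_one h (x ^ p ^ r) ((x ^ p ^ r)⁻¹ * y ^ p ^ r) (r + j)
    rw [mul_inv_cancel_left] at h1
    rw [pow_succ, pow_mul, pow_mul, show r + 1 + j = r + j + 1 by omega, h1, ih]

end

section
open Filter MonoidAlgebra

theorem p_PWS :
    S_PWS := by
  intro p c G _ Γ h j r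
  induction r with
  | zero => exact ⟨fun x hx => by simpa using hx, fun g hg => ⟨g, hg, by simp⟩⟩
  | succ r ih =>
    refine ⟨fun x hx => ?_, fun g hg => ?_⟩
    · rw [pow_succ, pow_mul]
      exact h.pow_mem _ _ (ih.1 x hx)
    · obtain ⟨y, hy, rfl⟩ := h.pow_surj (j + r) g hg
      obtain ⟨x, hx, rfl⟩ := ih.2 y hy
      exact ⟨x, hx, by rw [pow_succ, pow_mul]⟩

end

section
open Filter MonoidAlgebra

theorem p_PWI (hPWC : S_PWC) (hPWS : S_PWS) :
    S_PWI := by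
  intro p c G _ Γ h s s' r x y hx hy
  induction r with
  | zero => simp
  | succ r ih =>
    have a := (hPWC p c G Γ h 1 _ _ _).2 ih
    have b := h.pow_mul _ _ _ _ ((hPWS p c G Γ h s r).1 x hx) ((hPWS p c G Γ h s' r).1 y hy)
    rw [pow_one] at a
    have := mul_mem (h.anti (show s + s' + (r + 1) + 1 ≤ _ by omega) b)
      (h.anti (show s + s' + (r + 1) + 1 ≤ _ by omega) a)
    rwa [mul_assoc, mul_inv_cancel_left, ← pow_mul, ← pow_mul, ← pow_mul, ← pow_succ] at this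

end

section
open Filter MonoidAlgebra

theorem p_LIE1 (hPWC : S_PWC) (hPWS : S_PWS) :
    S_LIE1 := by
  intro p c G _ Γ h x y
  have hC := hPWC p c G Γ h
  have hS := hPWS p c G Γ h
  have hm : ∀ (r : ℕ) (a : G), a ^ p ^ r ∈ Γ r := fun r a => by
    have := (hS 0 r).1 a (by rw [h.top]; trivial)
    rwa [zero_add] at this
  have hz : ∀ r : ℕ, ∃ z : G, z ^ p ^ r = x ^ p ^ r * y ^ p ^ r := fun r => by
    obtain ⟨z, -, e⟩ := (hS 0 r).2 (x ^ p ^ r * y ^ p ^ r)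
      (by rw [zero_add]; exact mul_mem (hm r x) (hm r y))
    exact ⟨z, e⟩
  choose w hw using hz
  let C : ℕ → Set G := fun r => {z | (w r)⁻¹ * z ∈ Γ r}
  have hanti : Antitone C := by
    refine antitone_nat_of_succ_le fun r z hz => ?_
    have h1 : (w (r + 1) ^ p ^ (r + 1))⁻¹ * z ^ p ^ (r + 1) ∈ Γ (r + 1 + (r + 1)) :=
      (hC (r + 1) (r + 1) _ _).2 hz
    have h2 := h.pow_mul r r _ _ (hm r x) (hm r y)
    rw [← hw r, ← pow_mul, ← pow_mul, ← pow_mul, ← pow_succ, ← hw (r + 1),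
      show r + r + 2 = r + 1 + (r + 1) by ring] at h2
    have h3 := mul_mem (inv_mem h2) h1
    rw [mul_inv_rev, inv_inv, mul_assoc, mul_inv_cancel_left] at h3
    exact h.anti (Nat.le_succ r) ((hC (r + 1) (r + 1) _ _).1 h3)
  obtain ⟨z, hz⟩ := h.cpt (Set.range C) (Set.range_nonempty _) (by
      rintro _ ⟨a, rfl⟩ _ ⟨b, rfl⟩
      exact ⟨_, ⟨max a b, rfl⟩, hanti (le_max_left _ _), hanti (le_max_right _ _)⟩)
    (by
      rintro _ ⟨a, rfl⟩
      exact ⟨w a, by simp [C]⟩)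
    (by
      rintro _ ⟨a, rfl⟩
      refine ⟨a, fun u hu g hg => ?_⟩
      change (w a)⁻¹ * (u * g) ∈ Γ a
      rw [← mul_assoc]
      exact mul_mem hu hg)
  refine ⟨z, fun r => ?_⟩
  rw [← hw r, two_mul]
  exact (hC r r _ _).2 (hz _ ⟨r, rfl⟩)

end

section
open Filter MonoidAlgebra

/-- a copy of the group -/
structure LIE2L (G : Type) where
  /-- the underlying element -/
  val : G

theorem p_LIE2 (hPWC : S_PWC) (hPWS : S_PWS) (hLIE1 : S_LIE1) :
    S_LIE2 := by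
  intro p c G _ Γ U
  have hn := U.normal
  choose s hs using hLIE1 p c G Γ U
  have hs' : ∀ x y r, ((s x y : G) : G ⧸ Γ (2 * r)) ^ p ^ r =
      (x : G ⧸ Γ (2 * r)) ^ p ^ r * (y : G ⧸ Γ (2 * r)) ^ p ^ r := fun x y r => by
    simpa using (QuotientGroup.eq.2 (hs x y r)).symm
  have ext : ∀ x y : G,
      (∀ r, (x : G ⧸ Γ (2 * r)) ^ p ^ r = (y : G ⧸ Γ (2 * r)) ^ p ^ r) → x = y := by
    intro x y h
    refine inv_mul_eq_one.1 (U.sep _ fun r => (hPWC p c G Γ U r r x y).1 ?_)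
    rw [← two_mul]
    exact QuotientGroup.eq.1 (by simpa using h r)
  letI : Add (LIE2L G) := ⟨fun a b => ⟨s a.val b.val⟩⟩
  letI : Zero (LIE2L G) := ⟨⟨1⟩⟩
  letI : Neg (LIE2L G) := ⟨fun a => ⟨a.val⁻¹⟩⟩
  letI : AddGroup (LIE2L G) := AddGroup.ofLeftAxioms
    (fun a b d => congrArg LIE2L.mk (ext (s (s a.val b.val) d.val) (s a.val (s b.val d.val))
      fun r => by simp only [hs', mul_assoc]))
    (fun a => congrArg LIE2L.mk (ext (s 1 a.val) a.val fun r => by simp [hs']))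
    (fun a => congrArg LIE2L.mk (ext (s a.val⁻¹ a.val) 1 fun r => by simp [hs']))
  letI : AddCommGroup (LIE2L G) :=
    { (inferInstance : AddGroup (LIE2L G)) with
      add_comm := fun a b => congrArg LIE2L.mk (ext (s a.val b.val) (s b.val a.val) fun r => by
        have h1 : ∀ x : G, x ^ p ^ r ∈ Γ r := fun x => by
          simpa using (hPWS p c G Γ U 0 r).1 x (by rw [U.top]; trivial)
        have h2 := (QuotientGroup.eq_one_iff _).2 (U.anti (by omega : 2 * r ≤ r + r + c)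
          (U.comm r r _ _ (h1 a.val) (h1 b.val)))
        rw [hs', hs']
        simpa [mul_inv_eq_iff_eq_mul] using h2) }
  exact ⟨LIE2L G, inferInstance, ⟨LIE2L.val, LIE2L.mk, fun _ => rfl, fun _ => rfl⟩,
    fun a b r => hs a.val b.val r⟩

end

section
open Filter MonoidAlgebra

theorem p_LIE3 (hPWC : S_PWC) (hPWS : S_PWS) (hPWI : S_PWI) :
    S_LIE3 := by
  intro p c G L _ _ Γ ex U hs
  have hn := U.normal
  have hs' : ∀ a b r, ((ex (a + b) : G) : G ⧸ Γ (2 * r)) ^ p ^ r =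
      (ex a : G ⧸ Γ (2 * r)) ^ p ^ r * (ex b : G ⧸ Γ (2 * r)) ^ p ^ r := fun x y r => by
    simpa using (QuotientGroup.eq.2 (hs x y r)).symm
  have ext : ∀ x y : G,
      (∀ r, (x : G ⧸ Γ (2 * r)) ^ p ^ r = (y : G ⧸ Γ (2 * r)) ^ p ^ r) → x = y := by
    intro x y h
    refine inv_mul_eq_one.1 (U.sep _ fun r => (hPWC p c G Γ U r r x y).1 ?_)
    rw [← two_mul]
    exact QuotientGroup.eq.1 (by simpa using h r)
  have h0 : ex 0 = 1 := ext _ _ fun r => by
    have := hs' 0 0 r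
    rw [add_zero] at this
    simpa using this
  have hneg : ∀ a, ex (-a) = (ex a)⁻¹ := fun a => ext _ _ fun r => by
    have := hs' (-a) a r
    rw [neg_add_cancel, h0] at this
    simpa using eq_inv_of_mul_eq_one_left (by simpa using this.symm)
  have hsm : ∀ (n : ℕ) a, ex (n • a) = ex a ^ n := by
    intro n a
    induction n with
    | zero => simpa using h0
    | succ n ih =>
      refine ext _ _ fun r => ?_
      rw [succ_nsmul, hs', ih, QuotientGroup.mk_pow, QuotientGroup.mk_pow, ← pow_mul, ← pow_mul,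
        ← pow_add, add_mul, one_mul]
  letI : SMul G L := ⟨fun g a => ex.symm (g * ex a * g⁻¹)⟩
  have hact : ∀ (g : G) a, ex (g • a) = g * ex a * g⁻¹ := fun g a => ex.apply_symm_apply _
  letI : DistribMulAction G L :=
    { one_smul := fun a => ex.injective (by rw [hact]; simp)
      mul_smul := fun g h a => ex.injective (by rw [hact, hact, hact]; group)
      smul_zero := fun g => ex.injective (by rw [hact, h0]; simp)
      smul_add := fun g a b => ex.injective (ext _ _ fun r => by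
        rw [hs', hact, hact, hact]
        simp only [QuotientGroup.mk_mul, QuotientGroup.mk_inv, conj_pow, hs']
        group) }
  have hLp : ∀ j a, a ∈ Lp p L j ↔ ex a ∈ Γ j := by
    intro j a
    have h1 := hPWS p c G Γ U 0 j
    rw [zero_add] at h1
    constructor
    · rintro ⟨b, rfl⟩
      rw [nsmulAddMonoidHom_apply, hsm]
      exact h1.1 _ (by rw [U.top]; trivial)
    · intro h
      obtain ⟨x, -, hx⟩ := h1.2 _ h
      exact mem_Lp.2 ⟨ex.symm x, ex.injective (by rw [hsm, ex.apply_symm_apply, hx])⟩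
  refine ⟨inferInstance, h0, hneg, hsm, hact, fun j a b => ?_, fun r s a b ha hb => ?_⟩
  · have h1 := hs' b (a - b) j
    rw [add_sub_cancel] at h1
    have h2 := hPWC p c G Γ U j j 1 (ex (a - b))
    have h3 := hPWC p c G Γ U j j (ex b) (ex a)
    rw [one_pow, inv_one, one_mul, one_mul] at h2
    rw [hLp, ← h2, ← h3, ← two_mul, ← QuotientGroup.eq_one_iff, ← QuotientGroup.eq_one_iff]
    simp [h1]
  · have h1 := hPWI p c G Γ U r s (r + s + 1) _ _ ((hLp r a).1 ha) ((hLp s b).1 hb)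
    have h2 := hs a b (r + s + 1)
    refine (hPWC p c G Γ U (r + s + 1) (r + s + 1) _ _).1 ?_
    have h3 := (Γ _).mul_mem ((Γ _).inv_mem
      (U.anti (by omega : r + s + 1 + (r + s + 1) ≤ r + s + (r + s + 1) + 1) h1))
      (U.anti (by omega : r + s + 1 + (r + s + 1) ≤ 2 * (r + s + 1)) h2)
    simpa [mul_assoc] using h3

end

section
open Filter MonoidAlgebra

theorem p_CONT :
    S_CONT := by
  intro p c G L _ _ _ Γ ex hU hL
  have h1 : ∀ j a, a ∈ Lp p L j ↔ ex a ∈ Γ j := by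
    intro j a
    have := hL.cong j a 0
    rwa [sub_zero, hL.zero, inv_one, one_mul] at this
  refine ⟨h1, fun s j g a hg ha => ?_⟩
  rw [hL.cong, hL.act]
  have := hU.comm j s (ex a)⁻¹ g ((Γ j).inv_mem ((h1 j a).1 ha)) hg
  rw [inv_inv, Nat.add_comm j s] at this
  simpa only [mul_assoc] using this

end

section
open Filter MonoidAlgebra

theorem p_LFIN (hCONT : S_CONT) :
    S_LFIN := by
  intro p c G L _ _ _ Γ ex hU hL
  refine ⟨fun j => ?_, fun S hS hc hop hsep m => ?_⟩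
  · have := hU.fin j
    refine Finite.of_surjective (fun q : G ⧸ Γ j => (QuotientAddGroup.mk (ex.symm q.out) :
      L ⧸ Lp p L j)) fun a => ?_
    obtain ⟨a, rfl⟩ := QuotientAddGroup.mk_surjective a
    refine ⟨QuotientGroup.mk (ex a), QuotientAddGroup.eq.2 ?_⟩
    rw [neg_add_eq_sub, hL.cong, Equiv.apply_symm_apply]
    exact QuotientGroup.eq.1 (Quotient.out_eq _)
  · by_contra hcon
    push Not at hcon
    refine (hU.cpt ((fun E : AddSubgroup L => {g | ex.symm g ∈ E ∧ ex.symm g ∉ Lp p L m}) '' S)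
      (hS.image _) ?_ ?_ ?_).elim fun x hx => ?_
    · rintro _ ⟨A, hA, rfl⟩ _ ⟨B, hB, rfl⟩
      rcases hc.total hA hB with h | h
      · exact ⟨_, ⟨A, hA, rfl⟩, fun _ hg => hg, fun _ hg => ⟨h hg.1, hg.2⟩⟩
      · exact ⟨_, ⟨B, hB, rfl⟩, fun _ hg => ⟨h hg.1, hg.2⟩, fun _ hg => hg⟩
    · rintro _ ⟨A, hA, rfl⟩
      obtain ⟨a, h1, h2⟩ := SetLike.not_le_iff_exists.1 (hcon A hA)
      exact ⟨ex a, by simpa using h1, by simpa using h2⟩
    · rintro _ ⟨A, hA, rfl⟩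
      obtain ⟨j, hj⟩ := hop A hA
      refine ⟨max j m, fun x hx g hg => ?_⟩
      have d : ex.symm (x * g) - ex.symm x ∈ Lp p L (max j m) := by
        rw [hL.cong]; simpa using hg
      refine ⟨?_, fun h => hx.2 ?_⟩
      · simpa using add_mem (hj (Lp_anti p L (le_max_left j m) d)) hx.1
      · simpa using sub_mem h (Lp_anti p L (le_max_right j m) d)
    · obtain ⟨E, hE⟩ := hS
      have h0 := (hx _ ⟨E, hE, rfl⟩).2
      obtain ⟨E', hE', hn⟩ := hsep (ex.symm x) fun h => h0 (h ▸ zero_mem _)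
      exact hn (hx _ ⟨E', hE', rfl⟩).1

end

section
open Filter MonoidAlgebra

theorem sep_smul {p m : ℕ} {G L : Type} [Group G] [AddCommGroup L] [DistribMulAction G L]
    (g : G) {a : L} (h : a ∈ Lp p L m) : g • a ∈ Lp p L m := by
  obtain ⟨b, rfl⟩ := mem_Lp.1 h
  exact mem_Lp.2 ⟨g • b, (smul_comm g (p ^ m) b).symm⟩

theorem p_SEP (hCONT : S_CONT) :
    S_SEP := by
  intro p c G L _ _ _ Γ ex hU hL hZ j
  obtain ⟨h1, h2⟩ := hCONT p c G L Γ ex hU hL
  by_contra hn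
  have hne : ∀ m, ∃ g : G, (∀ a : L, g • a - a ∈ Lp p L m) ∧ g ∉ Γ j := by
    intro m
    by_contra h
    exact hn ⟨m, fun g hg => by_contra fun e => h ⟨g, hg, e⟩⟩
  let C : ℕ → Set G := fun m => {g | (∀ a : L, g • a - a ∈ Lp p L m) ∧ g ∉ Γ j}
  have hanti : ∀ m m', m ≤ m' → C m' ⊆ C m := fun m m' e g hg =>
    ⟨fun a => Lp_anti p L e (hg.1 a), hg.2⟩
  obtain ⟨g, hg⟩ := hU.cpt (Set.range C) ⟨C 0, 0, rfl⟩
    (by
      rintro _ ⟨m, rfl⟩ _ ⟨m', rfl⟩
      exact ⟨C (max m m'), ⟨_, rfl⟩, hanti _ _ (le_max_left _ _), hanti _ _ (le_max_right _ _)⟩)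
    (by
      rintro _ ⟨m, rfl⟩
      exact hne m)
    (by
      rintro _ ⟨m, rfl⟩
      refine ⟨max j m, fun x hx z hz => ⟨fun a => ?_, fun e => hx.2 ?_⟩⟩
      · have e : (x * z) • a - a = x • (z • a - a) + (x • a - a) := by
          rw [mul_smul, smul_sub]; abel
        rw [e]
        refine add_mem (sep_smul x ?_) (hx.1 a)
        have h3 := h2 (max j m) 0 z a hz (mem_Lp.2 ⟨a, by rw [pow_zero, one_smul]⟩)
        exact Lp_anti p L (by have := le_max_right j m; omega) h3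
      · have h3 : z ∈ Γ j := hU.anti (le_max_left j m) hz
        have h4 := (Γ j).mul_mem e ((Γ j).inv_mem h3)
        rwa [mul_inv_cancel_right] at h4)
  have hg' : ∀ m, g ∈ C m := fun m => hg _ ⟨m, rfl⟩
  have hfix : ∀ a : L, g • a = a := by
    intro a
    have h3 : ex (g • a - a) = 1 := hU.sep _ fun r => (h1 r _).1 ((hg' r).1 a)
    rw [← hL.zero] at h3
    exact sub_eq_zero.1 (ex.injective h3)
  have h5 : g = 1 := hZ g fun x => by
    have h3 := hL.act g (ex.symm x)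
    rw [hfix, ex.apply_symm_apply] at h3
    conv_rhs => rw [h3]
    rw [inv_mul_cancel_right]
  exact (hg' 0).2 (h5 ▸ (Γ j).one_mem)

end

section
open Filter MonoidAlgebra

section
variable {p : ℕ} {L : Type} [AddCommGroup L] {E : AddSubgroup L}

theorem ir1_iso (h : Iso p E) (a : ℕ) (x : L) (hx : p ^ a • x ∈ E) : x ∈ E := by
  induction a with
  | zero => simpa using hx
  | succ a ih => exact ih (h _ (by rwa [← mul_smul, ← pow_succ']))

theorem ir1_Lp (a : ℕ) {b : ℕ} {x : L} (hx : x ∈ Lp p L b) : p ^ a • x ∈ Lp p L (a + b) := by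
  obtain ⟨l, rfl⟩ := mem_Lp.1 hx
  exact mem_Lp.2 ⟨l, by rw [pow_add, mul_smul]⟩

theorem ir1_sup (a : ℕ) {b : ℕ} {x : L} (hx : x ∈ E ⊔ Lp p L b) :
    p ^ a • x ∈ E ⊔ Lp p L (a + b) := by
  obtain ⟨e, he, l, hl, rfl⟩ := AddSubgroup.mem_sup.1 hx
  rw [smul_add]
  exact AddSubgroup.add_mem_sup (E.nsmul_mem he _) (ir1_Lp a hl)

theorem ir1_mono {a b : ℕ} (h : a ≤ b) : E ⊔ Lp p L b ≤ E ⊔ Lp p L a :=
  sup_le_sup_left (Lp_anti p L h) E

theorem ir1_pow {c m : ℕ} (D : AddMonoid.End L) (hc : c ≤ m) (hE : Iso p E)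
    (h1 : ∀ a, D a ∈ Lp p L c) (h2 : ∀ e ∈ E, D e ∈ E ⊔ Lp p L m) (y : L)
    (hy : D y ∈ E ⊔ Lp p L m) (j : ℕ) :
    (D ^ (j + 1)) y ∈ Lp p L (j * c + c) ∧ (D ^ (j + 1)) y ∈ E ⊔ Lp p L (j * c + m) := by
  induction j with
  | zero => simpa using ⟨h1 y, hy⟩
  | succ j ih =>
    rw [pow_succ']
    change D ((D ^ (j + 1)) y) ∈ _ ∧ D ((D ^ (j + 1)) y) ∈ _
    generalize (D ^ (j + 1)) y = x at ih
    obtain ⟨⟨u, rfl⟩, hx⟩ := ih
    change p ^ (j * c + c) • u ∈ _ at hx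
    change D (p ^ (j * c + c) • u) ∈ _ ∧ D (p ^ (j * c + c) • u) ∈ _
    refine ⟨by rw [map_nsmul, add_mul, one_mul]; exact ir1_Lp _ (h1 u), ?_⟩
    obtain ⟨e, he, l, hl, el⟩ := AddSubgroup.mem_sup.1 hx
    obtain ⟨e', rfl⟩ := mem_Lp.1 (show e ∈ Lp p L (j * c + c) by
      rw [eq_sub_of_add_eq el]
      exact sub_mem (mem_Lp.2 ⟨u, rfl⟩) (Lp_anti p L (by omega) hl))
    obtain ⟨l', rfl⟩ := mem_Lp.1 hl
    rw [← el, map_add, map_nsmul, map_nsmul, add_mul, one_mul]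
    refine add_mem (ir1_sup _ (h2 _ (ir1_iso hE _ _ he))) (AddSubgroup.mem_sup_right ?_)
    rw [add_right_comm]
    exact ir1_Lp _ (h1 l')

theorem ir1_bin (D : AddMonoid.End L) (n : ℕ) (y : L) :
    ((D + 1) ^ n) y - y - n • D y =
      ∑ j ∈ Finset.range n, n.choose (j + 2) • (D ^ (j + 1 + 1)) y := by
  have e : (D + 1) ^ n = ∑ j ∈ Finset.range (n + 1 + 1), n.choose j • D ^ j := by
    rw [(Commute.one_right D).add_pow, Finset.sum_range_succ _ (n + 1), Nat.choose_succ_self,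
      zero_smul, add_zero]
    exact Finset.sum_congr rfl fun j _ => by rw [one_pow, mul_one, nsmul_eq_mul, Nat.cast_comm]
  rw [e, Finset.sum_range_succ', Finset.sum_range_succ']
  have s : (∑ j ∈ Finset.range n, n.choose (j + 1 + 1) • D ^ (j + 1 + 1)) y =
      ∑ j ∈ Finset.range n, n.choose (j + 2) • (D ^ (j + 1 + 1)) y :=
    AddMonoidHom.finsetSum_apply _ _ _
  rw [← s]
  change (∑ j ∈ Finset.range n, n.choose (j + 1 + 1) • D ^ (j + 1 + 1)) y +
    n.choose (0 + 1) • (D ^ (0 + 1)) y + n.choose 0 • (D ^ 0) y - y - n • D y = _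
  simp

end

theorem p_IR1 :
    S_IR1 := by
  intro p c m hp L _ E A c1 cm hE h1 h2 y hy
  let D : AddMonoid.End L := A - AddMonoidHom.id L
  have eA : ∀ n : ℕ, A^[n] y = ((D + 1) ^ n) y := fun n => by
    rw [AddMonoid.End.coe_pow]
    congr 1
    funext x
    exact (sub_add_cancel _ _).symm
  have k := fun j => (ir1_pow D cm hE h1 h2 y hy j).2
  have k1 : ∀ j, (D ^ (j + 1 + 1)) y ∈ E ⊔ Lp p L (m + 1) := fun j =>
    ir1_mono (by nlinarith) (k (j + 1))
  refine ⟨fun n => ?_, fun c2 => ?_⟩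
  · rw [eA]
    exact (ir1_bin D n y).symm ▸ sum_mem fun j _ => AddSubgroup.nsmul_mem _ (k1 j) _
  · rw [eA]
    refine (ir1_bin D p y).symm ▸ sum_mem fun j _ => ?_
    rcases lt_or_ge (j + 2) p with h | h
    · obtain ⟨q, hq⟩ := hp.out.dvd_choose_self (by omega) h
      rw [hq, mul_comm, mul_smul]
      refine AddSubgroup.nsmul_mem _ ?_ _
      have := ir1_sup 1 (k1 j)
      rwa [pow_one, add_comm 1] at this
    · refine AddSubgroup.nsmul_mem _ (ir1_mono ?_ (k (j + 1))) _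
      have := Nat.mul_le_mul_right c (show p - 1 ≤ j + 1 by omega)
      omega

end

section
open Filter MonoidAlgebra

theorem ir2_ind {p c : ℕ} {L : Type} [AddCommGroup L] {E : AddSubgroup L} (hC : Cld p E)
    (A : L →+ L) (h0 : ∀ a, A a - a ∈ Lp p L c)
    (hs : ∀ m, c ≤ m → (∀ e ∈ E, A e - e ∈ E ⊔ Lp p L m) →
      ∀ e ∈ E, A e - e ∈ E ⊔ Lp p L (m + 1)) : ∀ e ∈ E, A e ∈ E := by
  have h : ∀ m, c ≤ m → ∀ e ∈ E, A e - e ∈ E ⊔ Lp p L m := by
    intro m hm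
    induction m, hm using Nat.le_induction with
    | base => exact fun e _ => AddSubgroup.mem_sup_right (h0 e)
    | succ m hm ih => exact hs m hm ih
  intro e he
  have := hC (A e - e) fun j =>
    sup_le_sup_left (Lp_anti p L (Nat.le_add_left j c)) E (h (c + j) (Nat.le_add_right _ _) e he)
  simpa using E.add_mem this he

theorem ir2_mem {L : Type} [AddCommGroup L] {E M : AddSubgroup L} {a e x : L} (ha : a ∈ E)
    (he : e ∈ E) (h : a - e - x ∈ E ⊔ M) : x ∈ E ⊔ M := by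
  have := (E ⊔ M).sub_mem (AddSubgroup.mem_sup_left (E.sub_mem ha he)) h
  simpa using this

theorem ir2_a (hIR1 : S_IR1) {p c : ℕ} [Fact p.Prime] {L : Type} [AddCommGroup L]
    {E : AddSubgroup L} (c1 : 1 ≤ c) (c2 : 2 ≤ (p - 1) * c) (hI : Iso p E) (hC : Cld p E)
    (A : L →+ L) (h0 : ∀ a, A a - a ∈ Lp p L c) (hp : ∀ e ∈ E, A^[p] e ∈ E) :
    ∀ e ∈ E, A e ∈ E := by
  refine ir2_ind hC A h0 fun m hm ih e he => ?_
  have h1 := ir2_mem (hp e he) he ((hIR1 p c m L E A c1 hm hI h0 ih e (ih e he)).2 c2)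
  obtain ⟨e', he', z, hz, h⟩ := AddSubgroup.mem_sup.1 h1
  obtain ⟨b, rfl⟩ := mem_Lp.1 hz
  have h2 : A e - e - p ^ (m + 1) • b ∈ E := hI _ (by
    rw [smul_sub, ← h, ← mul_smul, ← pow_succ']
    simpa using he')
  exact AddSubgroup.mem_sup.2 ⟨_, h2, _, mem_Lp.2 ⟨b, rfl⟩, sub_add_cancel _ _⟩

theorem ir2_b (hIR1 : S_IR1) {p c : ℕ} [hp : Fact p.Prime] {L : Type} [AddCommGroup L]
    {E : AddSubgroup L} (c1 : 1 ≤ c) (hI : Iso p E) (hC : Cld p E)
    (A : L →+ L) (h0 : ∀ a, A a - a ∈ Lp p L c) {u : ℕ} (hu : ¬ p ∣ u)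
    (hA : ∀ e ∈ E, A^[u] e ∈ E) : ∀ e ∈ E, A e ∈ E := by
  refine ir2_ind hC A h0 fun m hm ih e he => ?_
  have h1 := ir2_mem (hA e he) he ((hIR1 p c m L E A c1 hm hI h0 ih e (ih e he)).1 u)
  have h2 : p • (A e - e) ∈ E ⊔ Lp p L (m + 1) := by
    obtain ⟨e', he', z, hz, h⟩ := AddSubgroup.mem_sup.1 (ih e he)
    obtain ⟨b, rfl⟩ := mem_Lp.1 hz
    refine AddSubgroup.mem_sup.2 ⟨_, E.nsmul_mem he' p, _, mem_Lp.2 ⟨b, rfl⟩, ?_⟩
    rw [← h, smul_add, ← mul_smul, ← pow_succ']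
  obtain ⟨v, w, h⟩ := Nat.isCoprime_iff_coprime.2 ((hp.out.coprime_iff_not_dvd).2 hu)
  have h3 := AddSubgroup.add_mem _ (AddSubgroup.zsmul_mem _ h2 v) (AddSubgroup.zsmul_mem _ h1 w)
  rwa [← natCast_zsmul, ← natCast_zsmul, ← mul_smul, ← mul_smul, ← add_smul, h, one_smul] at h3

theorem ir2_it {G L : Type} [Group G] [AddCommGroup L] [DistribMulAction G L] (h : G) (n : ℕ)
    (a : L) : (DistribSMul.toAddMonoidHom L h)^[n] a = h ^ n • a := by
  induction n with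
  | zero => simp
  | succ n ih => rw [Function.iterate_succ_apply', ih, pow_succ', mul_smul]; rfl

theorem p_IR2 (hIR1 : S_IR1) (hCONT : S_CONT) :
    S_IR2 := by
  intro p c hp G L _ _ _ Γ ex hU hL E hI hC hf g
  have h0 : ∀ (h : G) a, DistribSMul.toAddMonoidHom L h a - a ∈ Lp p L c := fun h a => by
    have := (hCONT p c G L Γ ex hU hL).2 0 0 h a (by rw [hU.top]; trivial)
      (mem_Lp.2 ⟨a, by simp⟩)
    simpa using this
  obtain ⟨i, j, hij, h⟩ := Set.Finite.exists_lt_map_eq_of_forall_mem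
    (f := fun i : ℕ => mv (g ^ i) E) (fun i => Set.mem_range_self (f := fun g : G => mv g E) _) hf
  obtain ⟨n, rfl⟩ := Nat.exists_eq_add_of_lt hij
  have h1 : ∀ e ∈ E, g ^ (n + 1) • e ∈ E := fun e he => by
    have : g ^ (i + n + 1) • e ∈ mv (g ^ i) E := by
      rw [h]
      exact ⟨e, he, rfl⟩
    obtain ⟨e', he', h'⟩ := this
    have h2 : g ^ i • e' = g ^ i • g ^ (n + 1) • e := by
      rw [← mul_smul, ← pow_add]
      exact h'
    rwa [← smul_left_cancel _ h2]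
  obtain ⟨s, u, hu, hn⟩ := Nat.exists_eq_pow_mul_and_not_dvd n.succ_ne_zero p hp.out.ne_one
  rw [show n + 1 = p ^ s * u from hn, pow_mul] at h1
  have h2 : ∀ e ∈ E, g ^ p ^ s • e ∈ E :=
    ir2_b hIR1 hU.c1 hI hC _ (h0 _) hu fun e he => by rw [ir2_it]; exact h1 e he
  clear h1 hn
  induction s with
  | zero => simpa using h2
  | succ s ih =>
    refine ih (ir2_a hIR1 hU.c1 hU.c2 hI hC _ (h0 _) fun e he => ?_)
    rw [ir2_it, ← pow_mul, ← pow_succ]
    exact h2 e he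

end

section
open Filter MonoidAlgebra

section
variable {p : ℕ} {L : Type} [AddCommGroup L] {E : AddSubgroup L}

theorem ir3_iso (hI : Iso p E) {m : ℕ} {u : L} :
    p • u ∈ E ⊔ Lp p L (m + 1) ↔ u ∈ E ⊔ Lp p L m := by
  constructor
  · intro h
    obtain ⟨e, he, z, hz, h⟩ := AddSubgroup.mem_sup.1 h
    obtain ⟨b, rfl⟩ := mem_Lp.1 hz
    refine AddSubgroup.mem_sup.2 ⟨u - p ^ m • b, hI _ ?_, p ^ m • b, mem_Lp.2 ⟨b, rfl⟩,
      sub_add_cancel _ _⟩
    rwa [smul_sub, ← h, ← mul_smul, ← pow_succ', add_sub_cancel_right]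
  · intro h
    obtain ⟨e, he, z, hz, rfl⟩ := AddSubgroup.mem_sup.1 h
    obtain ⟨b, rfl⟩ := mem_Lp.1 hz
    rw [smul_add]
    exact add_mem (AddSubgroup.mem_sup_left (nsmul_mem he p))
      (AddSubgroup.mem_sup_right (mem_Lp.2 ⟨b, by rw [← mul_smul, pow_succ']⟩))

theorem ir3_mono {m n : ℕ} (h : m ≤ n) {u : L} (hu : u ∈ E ⊔ Lp p L n) : u ∈ E ⊔ Lp p L m :=
  sup_le_sup_left (Lp_anti p L h) E hu

end

theorem ir3_isop {p : ℕ} {L : Type} [AddCommGroup L] {E : AddSubgroup L} (hI : Iso p E) (i : ℕ)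
    {m : ℕ} {u : L} : p ^ i • u ∈ E ⊔ Lp p L (m + i) ↔ u ∈ E ⊔ Lp p L m := by
  induction i with
  | zero => rw [pow_zero, one_smul, add_zero]
  | succ i ih => rw [pow_succ', mul_smul, ← add_assoc, ir3_iso hI, ih]

theorem ir3_com {p c : ℕ} {G L : Type} [Group G] [AddCommGroup L] [DistribMulAction G L]
    {Γ : ℕ → Subgroup G} {ex : L ≃ G} (hU : UF p c Γ) (hL : Lie p Γ ex) {s : ℕ} {a b : L}
    (hb : b ∈ Lp p L s) (hu : ex a • b - b ∈ Lp p L (s + s)) :
    have := hU.normal (s + s + s + 1)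
    QuotientGroup.mk' (Γ (s + s + s + 1)) (ex (ex a • b - b)) =
      QuotientGroup.mk' _ (ex a * ex b * (ex a)⁻¹ * (ex b)⁻¹) := by
  intro _
  have h := hL.add _ _ _ _ hu hb
  rw [sub_add_cancel, hL.act, ← QuotientGroup.eq, ← QuotientGroup.mk'_apply,
    ← QuotientGroup.mk'_apply, map_mul] at h
  rw [map_mul, ← h, map_inv, mul_inv_cancel_right]

theorem p_IR3 (hIR1 : S_IR1) (hCONT : S_CONT) :
    S_IR3 := by
  intro p c _ G L _ _ _ Γ ex hU hL E hI hC hE a ha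
  obtain ⟨c1, c2⟩ := hCONT p c G L Γ ex hU hL
  have c0 : ∀ (g : G) (b : L), g • b - b ∈ Lp p L c := fun g b => by
    have := c2 0 0 g b (by rw [hU.top]; trivial) (mem_Lp.2 ⟨b, by rw [pow_zero, one_smul]⟩)
    rwa [zero_add, zero_add] at this
  have key : ∀ m, c ≤ m → ∀ b : L, ex a • b - b ∈ E ⊔ Lp p L m := by
    intro m hm
    induction m, hm using Nat.le_induction with
    | base => exact fun b => AddSubgroup.mem_sup_right (c0 _ b)
    | succ m hm ih =>
      intro b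
      have h1 : ∀ i, ex a ^ p ^ i • b - b - p ^ i • (ex a • b - b) ∈ E ⊔ Lp p L (m + i + 1) := by
        intro i
        induction i with
        | zero =>
          rw [pow_zero, pow_one, one_smul, sub_self]
          exact zero_mem _
        | succ i ih2 =>
          have h2 : ex a ^ p ^ i • b - b ∈ E ⊔ Lp p L (m + i) := by
            have := add_mem (ir3_mono (Nat.le_succ _) ih2) ((ir3_isop hI i).2 (ih b))
            rwa [sub_add_cancel] at this
          have h3 := (hIR1 p c (m + i) L E (DistribSMul.toAddMonoidHom L (ex a ^ p ^ i)) hU.c1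
            (by omega) hI (c0 _) (fun e he => AddSubgroup.mem_sup_left (sub_mem (hE _ e he) he))
            b h2).2 hU.c2
          have h4 : (DistribSMul.toAddMonoidHom L (ex a ^ p ^ i))^[p] b =
              ex a ^ p ^ (i + 1) • b := by
            rw [pow_succ, pow_mul]
            exact smul_iterate_apply _ _ _
          have h5 := add_mem h3 ((ir3_iso hI).2 ih2)
          rw [h4, smul_sub p (_ - b), ← mul_smul, ← pow_succ'] at h5
          exact sub_add_sub_cancel (ex a ^ p ^ (i + 1) • b - b) _ _ ▸ h5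
      obtain ⟨s, hs⟩ : ∃ s, s = m + 1 := ⟨_, rfl⟩
      have m1 : ∀ z : L, p ^ s • z ∈ Lp p L s := fun z => mem_Lp.2 ⟨z, rfl⟩
      have m2 : ∀ y z : L, ex (p ^ s • y) • p ^ s • z - p ^ s • z ∈ Lp p L (s + s) := fun y z =>
        Lp_anti p L (Nat.le_add_right _ c) (c2 s s _ _ ((c1 s _).1 (m1 y)) (m1 z))
      have := hU.normal (s + s + s + 1)
      have h6 : ex (p ^ s • a) • p ^ s • b - p ^ s • b -
          -(ex (p ^ s • b) • p ^ s • a - p ^ s • a) ∈ Lp p L (s + s + s + 1) := by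
        rw [hL.cong, hL.neg, inv_inv, ← QuotientGroup.eq_one_iff, ← QuotientGroup.mk'_apply,
          map_mul, ir3_com hU hL (m1 b) (m2 a b), ir3_com hU hL (m1 a) (m2 b a), ← map_mul,
          ← map_one (QuotientGroup.mk' (Γ (s + s + s + 1)))]
        congr 1
        group
      have h7 := add_mem (AddSubgroup.mem_sup_right (S := E) h6) (AddSubgroup.mem_sup_left
        (neg_mem (sub_mem (hE (ex (p ^ s • b)) _ (nsmul_mem ha (p ^ s))) (nsmul_mem ha (p ^ s)))))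
      rw [sub_add_cancel, smul_comm, ← smul_sub, show s + s + s + 1 = s + s + 1 + s by omega,
        ir3_isop hI, hL.nsmul] at h7
      have h8 := sub_mem (ir3_mono (by omega : m + s + 1 ≤ s + s + 1) h7) (h1 s)
      rwa [sub_sub_cancel, show m + s + 1 = m + 1 + s by omega, ir3_isop hI] at h8
  exact fun b => hC _ fun j => ir3_mono (Nat.le_add_left j c) (key _ (Nat.le_add_right c j) b)

end

section
open Filter MonoidAlgebra

theorem ir4_div {p m : ℕ} {L : Type} [AddCommGroup L] {E : AddSubgroup L} (hI : Iso p E) {x : L}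
    (h : p • x ∈ E ⊔ Lp p L (m + 1)) : x ∈ E ⊔ Lp p L m := by
  obtain ⟨e, he, _, ⟨w, rfl⟩, h⟩ := AddSubgroup.mem_sup.1 h
  refine AddSubgroup.mem_sup.2 ⟨x - p ^ m • w, hI _ ?_, p ^ m • w, ⟨w, rfl⟩, sub_add_cancel _ _⟩
  rw [smul_sub, ← h, ← mul_smul, ← pow_succ', nsmulAddMonoidHom_apply, add_sub_cancel_right]
  exact he

theorem ir4_root (hIR1 : S_IR1) {p c : ℕ} [Fact p.Prime] {G L : Type} [Group G] [AddCommGroup L]
    [DistribMulAction G L] {E : AddSubgroup L} (c1 : 1 ≤ c) (c2 : 2 ≤ (p - 1) * c) (hI : Iso p E)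
    (hC : Cld p E) (hE : ∀ g : G, ∀ e ∈ E, g • e ∈ E) {h : G} (h0 : ∀ b : L, h • b - b ∈ Lp p L c)
    (hp : ∀ b : L, h ^ p • b - b ∈ E) (b : L) : h • b - b ∈ E := by
  have key : ∀ m, ∀ b : L, h • b - b ∈ E ⊔ Lp p L (c + m) := fun m => by
    induction m with
    | zero => exact fun b => AddSubgroup.mem_sup_right (h0 b)
    | succ m ih =>
      intro b
      have := (hIR1 p c (c + m) L E (DistribSMul.toAddMonoidHom L h) c1 (Nat.le_add_right _ _) hI
        h0 (fun e _ => ih e) b (ih b)).2 c2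
      have e : (DistribSMul.toAddMonoidHom L h)^[p] b = h ^ p • b :=
        congrFun (smul_iterate h p) b
      rw [e] at this
      have := sub_mem (AddSubgroup.mem_sup_left (T := Lp p L (c + m + 2)) (hp b)) this
      rw [sub_sub_cancel] at this
      exact ir4_div hI this
  exact hC _ fun j => sup_le_sup_left (Lp_anti p L (Nat.le_add_left j c)) E (key j b)

theorem p_IR4 (hIR1 : S_IR1) (hCONT : S_CONT) (hIR3 : S_IR3) (hPWS : S_PWS) :
    S_IR4 := by
  intro p c _ G L _ _ _ Γ ex hU hL hA E hI hC hE h0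
  obtain ⟨-, hc⟩ := hCONT p c G L Γ ex hU hL
  have t : ∀ b : L, b ∈ Lp p L 0 := fun b => ⟨b, by simp⟩
  let H : Subgroup G :=
    { carrier := {g | ∀ b : L, g • b - b ∈ E}
      one_mem' := fun b => by simp
      mul_mem' := fun {x y} hx hy b => by
        have := add_mem (hx (y • b)) (hy b)
        rwa [sub_add_sub_cancel, ← mul_smul] at this
      inv_mem' := fun {x} hx b => by
        have := neg_mem (hx (x⁻¹ • b))
        rwa [neg_sub, smul_inv_smul] at this }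
  have hN : H.Normal := ⟨fun x hx g b => by
    have := hE g _ (hx (g⁻¹ • b))
    rwa [smul_sub, smul_inv_smul, ← mul_smul, ← mul_smul] at this⟩
  rcases hA H hN fun x hx b => hC _ fun j => by
      obtain ⟨y, hy, hz⟩ := hx j
      have := add_mem (AddSubgroup.mem_sup_left (T := Lp p L j) (hy ((y⁻¹ * x) • b)))
        (AddSubgroup.mem_sup_right (Lp_anti p L (by omega) (hc j 0 _ b hz (t b))))
      rwa [sub_add_sub_cancel, ← mul_smul, mul_inv_cancel_left] at this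
    with h | ⟨j, hj⟩
  · refine absurd ((AddSubgroup.eq_bot_iff_forall _).2 fun a ha => ex.injective ?_) h0
    have : ex a ∈ H := hIR3 p c G L Γ ex hU hL E hI hC hE a ha
    rw [h, Subgroup.mem_bot] at this
    rw [this, hL.zero]
  have key : ∀ n, ∀ g : G, g ^ p ^ n ∈ H → g ∈ H := fun n => by
    induction n with
    | zero => intro g hg; simpa using hg
    | succ n ih =>
      intro g hg
      rw [pow_succ', pow_mul] at hg
      exact ir4_root hIR1 hU.c1 hU.c2 hI hC hE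
        (fun b => by simpa using hc 0 0 g b (by rw [hU.top]; trivial) (t b)) (ih _ hg)
  have pw : ∀ n, ∀ g : G, g ^ p ^ n ∈ Γ n := fun n g => by
    induction n with
    | zero => rw [hU.top]; trivial
    | succ n ih => rw [pow_succ, pow_mul]; exact hU.pow_mem n _ ih
  exact fun g => key j g (hj (pw j g))

end

section
open Filter MonoidAlgebra

section
variable {p : ℕ} {L : Type} [AddCommGroup L] {E : AddSubgroup L}

theorem ir5_iso (hI : Iso p E) {m : ℕ} {u : L} :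
    p • u ∈ E ⊔ Lp p L (m + 1) ↔ u ∈ E ⊔ Lp p L m := by
  constructor
  · intro h
    obtain ⟨e, he, z, hz, h⟩ := AddSubgroup.mem_sup.1 h
    obtain ⟨b, rfl⟩ := mem_Lp.1 hz
    refine AddSubgroup.mem_sup.2 ⟨u - p ^ m • b, hI _ ?_, p ^ m • b, mem_Lp.2 ⟨b, rfl⟩,
      sub_add_cancel _ _⟩
    rwa [smul_sub, ← h, ← mul_smul, ← pow_succ', add_sub_cancel_right]
  · intro h
    obtain ⟨e, he, z, hz, rfl⟩ := AddSubgroup.mem_sup.1 h
    obtain ⟨b, rfl⟩ := mem_Lp.1 hz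
    rw [smul_add]
    exact add_mem (AddSubgroup.mem_sup_left (nsmul_mem he p))
      (AddSubgroup.mem_sup_right (mem_Lp.2 ⟨b, by rw [← mul_smul, pow_succ']⟩))

theorem ir5_mono {m n : ℕ} (h : m ≤ n) {u : L} (hu : u ∈ E ⊔ Lp p L n) : u ∈ E ⊔ Lp p L m :=
  sup_le_sup_left (Lp_anti p L h) E hu

end

section
variable {p c : ℕ} {G L : Type} [Group G] [AddCommGroup L] [DistribMulAction G L]
  {Γ : ℕ → Subgroup G} {ex : L ≃ G} {E : AddSubgroup L}

/-- The sets which approximate the image of `E`. -/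
def ir5_S (p : ℕ) (Γ : ℕ → Subgroup G) (ex : L ≃ G) (E : AddSubgroup L) (r j : ℕ) (g : G) : Prop :=
  g ∈ Γ r ∧ ex.symm g ∈ E ⊔ Lp p L (r + j)

theorem ir5_one (hL : Lie p Γ ex) (r j : ℕ) : ir5_S p Γ ex E r j 1 :=
  ⟨one_mem _, by rw [← hL.zero, ex.symm_apply_apply]; exact zero_mem _⟩

theorem ir5_inv (hL : Lie p Γ ex) {r j : ℕ} {g : G} (h : ir5_S p Γ ex E r j g) :
    ir5_S p Γ ex E r j g⁻¹ := by
  obtain ⟨u, rfl⟩ := ex.surjective g
  refine ⟨inv_mem h.1, ?_⟩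
  rw [← hL.neg, ex.symm_apply_apply]
  exact neg_mem (ex.symm_apply_apply u ▸ h.2)

theorem ir5_conj (hU : UF p c Γ) (hL : Lie p Γ ex) (hE : ∀ (g : G) (b : L), g • b - b ∈ E)
    {r j : ℕ} {x : G} (h : ir5_S p Γ ex E r j x) (g : G) : ir5_S p Γ ex E r j (g * x * g⁻¹) := by
  obtain ⟨u, rfl⟩ := ex.surjective x
  refine ⟨(hU.normal r).conj_mem _ h.1 g, ?_⟩
  rw [← hL.act, ex.symm_apply_apply, ← sub_add_cancel (g • u) u]
  exact add_mem (AddSubgroup.mem_sup_left (hE g u)) (ex.symm_apply_apply u ▸ h.2)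

theorem ir5_add (hL : Lie p Γ ex) {r m : ℕ} {u v : L} (hu : u ∈ Lp p L r) (hv : v ∈ Lp p L r)
    (hm : m ≤ r + r + 1) (h : u + v ∈ E ⊔ Lp p L m) : ex.symm (ex u * ex v) ∈ E ⊔ Lp p L m := by
  have h1 := hL.add r r u v hu hv
  rw [← ex.apply_symm_apply (ex u * ex v), ← hL.cong] at h1
  have h2 := sub_mem h (AddSubgroup.mem_sup_right (Lp_anti p L hm h1))
  rwa [sub_sub_cancel] at h2

/-- The statement which is proved by descending induction. -/
def ir5_T (p : ℕ) (Γ : ℕ → Subgroup G) (ex : L ≃ G) (E : AddSubgroup L) (r j : ℕ) : Prop :=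
  (∀ x y, ir5_S p Γ ex E (r + 1) j x → ir5_S p Γ ex E (r + 1) j y →
    ir5_S p Γ ex E (r + 1) j (x * y)) ∧
  ∀ g x, x ∈ Γ r → ir5_S p Γ ex E (r + 1) j (g * x * g⁻¹ * x⁻¹)

theorem ir5_cm (hU : UF p c Γ) {r : ℕ} (g : G) {x : G} (hx : x ∈ Γ r) :
    g * x * g⁻¹ * x⁻¹ ∈ Γ (r + 1) :=
  hU.anti (by have := hU.c1; omega) (hU.comm 0 r g x (by rw [hU.top]; trivial) hx)

theorem ir5_base (hU : UF p c Γ) (hL : Lie p Γ ex) (c1 : ∀ j a, a ∈ Lp p L j ↔ ex a ∈ Γ j)
    (hE : ∀ (g : G) (b : L), g • b - b ∈ E) (j : ℕ) : ir5_T p Γ ex E j j := by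
  refine ⟨fun x y hx hy => ⟨mul_mem hx.1 hy.1, ?_⟩, fun g x hx => ⟨ir5_cm hU g hx, ?_⟩⟩
  · obtain ⟨u, rfl⟩ := ex.surjective x
    obtain ⟨v, rfl⟩ := ex.surjective y
    exact ir5_add hL ((c1 _ u).2 hx.1) ((c1 _ v).2 hy.1) (by omega)
      (add_mem (ex.symm_apply_apply u ▸ hx.2) (ex.symm_apply_apply v ▸ hy.2))
  · obtain ⟨u, rfl⟩ := ex.surjective x
    rw [← hL.act, ← hL.neg]
    refine ir5_add hL ((c1 j _).2 ?_) (neg_mem ((c1 j u).2 hx)) (by omega) ?_
    · rw [hL.act]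
      exact (hU.normal j).conj_mem _ hx g
    · rw [← sub_eq_add_neg]
      exact AddSubgroup.mem_sup_left (hE g u)

theorem ir5_step (hU : UF p c Γ) (hL : Lie p Γ ex) (hI : Iso p E)
    (hE : ∀ (g : G) (b : L), g • b - b ∈ E) {r j : ℕ} (h : ir5_T p Γ ex E (r + 1) j) :
    ir5_T p Γ ex E r j := by
  obtain ⟨N, hN⟩ : ∃ N : Subgroup G, ∀ g, g ∈ N ↔ ir5_S p Γ ex E (r + 1 + 1) j g :=
    ⟨⟨⟨⟨{g | ir5_S p Γ ex E (r + 1 + 1) j g}, fun a b => h.1 _ _ a b⟩, ir5_one hL _ _⟩,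
      fun a => ir5_inv hL a⟩, fun _ => Iff.rfl⟩
  have : N.Normal := ⟨fun x hx g => (hN _).2 (ir5_conj hU hL hE ((hN x).1 hx) g)⟩
  obtain ⟨π, hπ⟩ : ∃ π : G →* G ⧸ N, ∀ g, π g = 1 ↔ g ∈ N :=
    ⟨QuotientGroup.mk' N, fun g => QuotientGroup.eq_one_iff g⟩
  have cen : ∀ x ∈ Γ (r + 1), ∀ g, Commute (π g) (π x) := fun x hx g => by
    have := (hπ _).2 ((hN _).2 (h.2 g x hx))
    rwa [map_mul, map_mul, map_mul, map_inv, map_inv, mul_inv_eq_one, mul_inv_eq_iff_eq_mul] at this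
  have ker : ∀ x ∈ Γ (r + 1), ir5_S p Γ ex E (r + 1) j x ↔ π x ^ p = 1 := fun x hx => by
    obtain ⟨u, rfl⟩ := ex.surjective x
    rw [← map_pow, hπ, hN, ir5_S, ir5_S, and_iff_right hx, and_iff_right (hU.pow_mem _ _ hx),
      ← hL.nsmul, ex.symm_apply_apply, ex.symm_apply_apply,
      show r + 1 + 1 + j = r + 1 + j + 1 by omega, ir5_iso hI]
  refine ⟨fun x y hx hy => ?_, fun g x hx => ?_⟩
  · rw [ker _ (mul_mem hx.1 hy.1), map_mul, (cen y hy.1 x).mul_pow, (ker x hx.1).1 hx,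
      (ker y hy.1).1 hy, mul_one]
  · have h1 := ir5_cm hU g hx
    have h2 := (cen _ h1 x).symm.mul_pow p
    rw [← map_mul, inv_mul_cancel_right, ← map_pow, conj_pow, map_mul, map_mul, map_inv,
      (cen _ (hU.pow_mem _ _ hx) g).eq, mul_inv_cancel_right, map_pow] at h2
    rw [ker _ h1]
    exact right_eq_mul.1 h2

end

theorem p_IR5 (hCONT : S_CONT) :
    S_IR5 := by
  intro p c _ G L _ _ _ Γ ex hU hL hA E hI hC h0 hE
  obtain ⟨c1, -⟩ := hCONT p c G L Γ ex hU hL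
  have hT : ∀ j, ir5_T p Γ ex E 0 j := fun j =>
    Nat.decreasingInduction (n := j) (motive := fun r _ => ir5_T p Γ ex E r j)
      (fun _ _ h => ir5_step hU hL hI hE h) (ir5_base hU hL c1 hE j) (Nat.zero_le j)
  obtain ⟨N, hN⟩ : ∃ N : Subgroup G, ∀ g, g ∈ N ↔ ∀ j, ir5_S p Γ ex E (0 + 1) j g :=
    ⟨⟨⟨⟨{g | ∀ j, ir5_S p Γ ex E (0 + 1) j g}, fun a b j => (hT j).1 _ _ (a j) (b j)⟩,
      fun _ => ir5_one hL _ _⟩, fun a j => ir5_inv hL (a j)⟩, fun _ => Iff.rfl⟩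
  rcases hA N ⟨fun x hx g => (hN _).2 fun j => ir5_conj hU hL hE ((hN x).1 hx j) g⟩
    (fun x hx => (hN x).2 fun j => by
      obtain ⟨y, hy, e⟩ := hx (0 + 1 + j)
      have h1 := (hN y).1 hy j
      refine ⟨by simpa using mul_mem h1.1 (hU.anti (Nat.le_add_right _ j) e), ?_⟩
      rw [← ex.apply_symm_apply x, ← ex.apply_symm_apply y, ← hL.cong] at e
      have h2 := add_mem (AddSubgroup.mem_sup_right e) h1.2
      rwa [sub_add_cancel] at h2) with h | ⟨m, h⟩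
  · refine (h0 (eq_bot_iff.2 fun e he => ?_)).elim
    have h1 : ex (p • e) ∈ N := (hN _).2 fun j =>
      ⟨(c1 _ _).1 (mem_Lp.2 ⟨e, by rw [zero_add, pow_one]⟩), by
        rw [ex.symm_apply_apply]
        exact AddSubgroup.mem_sup_left (nsmul_mem he p)⟩
    rw [h, Subgroup.mem_bot, hL.nsmul] at h1
    exact ex.injective ((hU.sep _ fun r => hU.pow_inj r _ (h1 ▸ one_mem _)).trans hL.zero.symm)
  · refine eq_top_iff.2 fun b _ => ?_
    have h1 : p ^ m • b ∈ E := hC _ fun j => by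
      have := ((hN _).1 (h ((c1 m _).1 (mem_Lp.2 ⟨b, rfl⟩))) j).2
      rw [ex.symm_apply_apply] at this
      exact ir5_mono (Nat.le_add_left j _) this
    clear h
    induction m with
    | zero => rwa [pow_zero, one_smul] at h1
    | succ m ih => exact ih (hI _ (by rwa [← mul_smul, ← pow_succ']))

end

section
open Filter MonoidAlgebra

theorem p_IRR (hIR2 : S_IR2) (hIR4 : S_IR4) (hIR5 : S_IR5) :
    S_IRR := by
  intro p c _ G L _ _ _ Γ ex hU hL hA E h1 h2 h3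
  by_cases h : E = ⊥
  · exact Or.inl h
  · exact Or.inr (hIR5 p c G L Γ ex hU hL hA E h1 h2 h
      (hIR4 p c G L Γ ex hU hL hA E h1 h2 (hIR2 p c G L Γ ex hU hL E h1 h2 h3) h))

end

end Pool.Agent.P.MP_7cb106_nt.Q2
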