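import Pool.Agent.P.MP_7cb106_nt.Q2.IfaceC

/-! Proofs of the steps NR1 NR2 NR3 NR4 KK UN1 UN2 UN3 ZORN TV BALL LAG APX ITER UNU. -/

set_option autoImplicit false

namespace Pool.Agent.P.MP_7cb106_nt.Q2

section
open Filter MonoidAlgebra

theorem nr1_pow_comm {O : Type} [Ring O] {t : O} (ht : ∀ o, t * o = o * t) (s : ℕ) (o : O) :
    t ^ s * o = o * t ^ s :=
  (Commute.pow_left (show Commute t o from ht o) s).eq

/-- The graded piece `{z | t^s z ∈ Y + (t^(s+1))}`, a left ideal when `t` is central. -/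
def nr1_gr {O : Type} [Ring O] {t : O} (ht : ∀ o, t * o = o * t) (s : ℕ) (Y : Ideal O) :
    Ideal O where
  carrier := {z | t ^ s * z ∈ Y ⊔ Ideal.span {t ^ (s + 1)}}
  add_mem' := by
    intro a b ha hb
    simp only [Set.mem_ofPred_eq] at ha hb ⊢
    rw [mul_add]
    exact Ideal.add_mem _ ha hb
  zero_mem' := by
    simp only [Set.mem_ofPred_eq, mul_zero]
    exact Ideal.zero_mem _
  smul_mem' := by
    intro c z hz
    simp only [Set.mem_ofPred_eq, smul_eq_mul] at hz ⊢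
    rw [← mul_assoc, nr1_pow_comm ht s c, mul_assoc]
    exact Ideal.mul_mem_left _ c hz

theorem nr1_mem_gr {O : Type} [Ring O] {t : O} (ht : ∀ o, t * o = o * t) (s : ℕ) (Y : Ideal O)
    (z : O) : z ∈ nr1_gr ht s Y ↔ t ^ s * z ∈ Y ⊔ Ideal.span {t ^ (s + 1)} := Iff.rfl

theorem nr1_gr_mono_Y {O : Type} [Ring O] {t : O} (ht : ∀ o, t * o = o * t) (s : ℕ)
    {Y Y' : Ideal O} (h : Y ≤ Y') : nr1_gr ht s Y ≤ nr1_gr ht s Y' := by
  intro z hz
  rw [nr1_mem_gr] at hz ⊢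
  exact sup_le_sup_right h _ hz

theorem nr1_gr_succ {O : Type} [Ring O] {t : O} (ht : ∀ o, t * o = o * t) (s : ℕ)
    (Y : Ideal O) : nr1_gr ht s Y ≤ nr1_gr ht (s + 1) Y := by
  intro z hz
  rw [nr1_mem_gr] at hz ⊢
  obtain ⟨y, hy, w, hw, hyw⟩ := Submodule.mem_sup.1 hz
  obtain ⟨c, rfl⟩ := Ideal.mem_span_singleton'.1 hw
  have : t ^ (s + 1) * z = t * y + c * t ^ (s + 1 + 1) := by
    rw [pow_succ' t s, mul_assoc, ← hyw, mul_add, ← mul_assoc, ht c, mul_assoc,
      ← pow_succ' t (s + 1)]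
  rw [this]
  exact Submodule.add_mem_sup (Ideal.mul_mem_left _ _ hy)
    (Ideal.mul_mem_left _ _ (Ideal.subset_span rfl))

theorem nr1_gr_mono_s {O : Type} [Ring O] {t : O} (ht : ∀ o, t * o = o * t) (Y : Ideal O) :
    Monotone fun s => nr1_gr ht s Y :=
  monotone_nat_of_le_succ fun s => nr1_gr_succ ht s Y

theorem nr1_span_le_gr {O : Type} [Ring O] {t : O} (ht : ∀ o, t * o = o * t) (s : ℕ)
    (Y : Ideal O) : Ideal.span {t} ≤ nr1_gr ht s Y := by
  rw [Ideal.span_le]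
  rintro z rfl
  show z ∈ nr1_gr ht s Y
  rw [nr1_mem_gr, ← pow_succ]
  exact Submodule.mem_sup_right (Ideal.subset_span rfl)

theorem nr1_key {O : Type} [Ring O] {t : O} (ht : ∀ o, t * o = o * t) {Y Y' : Ideal O}
    (hY : Y ≤ Y') (a : ℕ) (x : O) (hx : x ∈ Y') :
    ∀ b, a ≤ b → (∀ s, a ≤ s → s < b → nr1_gr ht s Y' ≤ nr1_gr ht s Y) →
      t ^ a * x ∈ Y ⊔ Ideal.span {t ^ b} := by
  intro b hab
  induction b, hab using Nat.le_induction with
  | base =>
    intro _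
    rw [nr1_pow_comm ht]
    exact Submodule.mem_sup_right (Ideal.mul_mem_left _ _ (Ideal.subset_span rfl))
  | succ b hab ih =>
    intro h
    have h1 := ih fun s h1 h2 => h s h1 (Nat.lt_succ_of_lt h2)
    obtain ⟨y, hy, w, hw, hyw⟩ := Submodule.mem_sup.1 h1
    obtain ⟨c, rfl⟩ := Ideal.mem_span_singleton'.1 hw
    have hc : c ∈ nr1_gr ht b Y' := by
      rw [nr1_mem_gr, nr1_pow_comm ht]
      refine Submodule.mem_sup_left ?_
      have : c * t ^ b = t ^ a * x - y := by rw [← hyw]; abel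
      rw [this]
      exact Ideal.sub_mem _ (Ideal.mul_mem_left _ _ hx) (hY hy)
    have hc' := h b hab (Nat.lt_succ_self b) hc
    rw [nr1_mem_gr, nr1_pow_comm ht] at hc'
    rw [← hyw]
    exact Ideal.add_mem _ (Submodule.mem_sup_left hy) hc'

theorem p_NR1 :
    S_NR1 := by
  intro O _ t ρ ht hlen Y K x hY hK hx
  by_contra hcon
  push Not at hcon
  have hstep : ∀ i ≤ ρ, nr1_gr ht (K i) (Y i) < nr1_gr ht (K (i + 1)) (Y (i + 1)) := by
    intro i hi
    have hYi : Y i ≤ Y (i + 1) := hY (Nat.le_succ i)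
    have hKi : K i ≤ K (i + 1) := hK (Nat.le_succ i)
    have : ¬ ∀ s, K i ≤ s → s < K (i + 1) → nr1_gr ht s (Y (i + 1)) ≤ nr1_gr ht s (Y i) :=
      fun h => hcon i hi (nr1_key ht hYi (K i) (x i) (hx i) (K (i + 1)) hKi h)
    push Not at this
    obtain ⟨s, hs1, hs2, hs⟩ := this
    calc nr1_gr ht (K i) (Y i) ≤ nr1_gr ht s (Y i) := nr1_gr_mono_s ht (Y i) hs1
      _ < nr1_gr ht s (Y (i + 1)) := lt_of_le_not_ge (nr1_gr_mono_Y ht s hYi) hs
      _ ≤ nr1_gr ht (K (i + 1)) (Y (i + 1)) := nr1_gr_mono_s ht (Y (i + 1)) hs2.le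
  have hind : ∀ i ≤ ρ + 1, Order.coheight (nr1_gr ht (K i) (Y i)) + (i : ℕ∞) ≤
      Order.coheight (nr1_gr ht (K 0) (Y 0)) := by
    intro i
    induction i with
    | zero => intro _; simp
    | succ i ih =>
      intro hi
      have h1 := ih (by omega)
      have h2 := Order.coheight_add_one_le (hstep i (by omega))
      calc Order.coheight (nr1_gr ht (K (i + 1)) (Y (i + 1))) + ((i + 1 : ℕ) : ℕ∞)
          = Order.coheight (nr1_gr ht (K (i + 1)) (Y (i + 1))) + 1 + (i : ℕ∞) := by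
            push_cast; ring
        _ ≤ Order.coheight (nr1_gr ht (K i) (Y i)) + (i : ℕ∞) := by gcongr
        _ ≤ _ := h1
  have h1 := hind (ρ + 1) le_rfl
  have h2 : Order.coheight (nr1_gr ht (K 0) (Y 0)) ≤ Order.coheight (Ideal.span {t}) :=
    Order.coheight_anti (nr1_span_le_gr ht _ _)
  rw [Module.length_quotient] at hlen
  have h3 : ((ρ + 1 : ℕ) : ℕ∞) ≤ (ρ : ℕ∞) := le_trans le_add_self (h1.trans (h2.trans hlen))
  have h4 : ρ + 1 ≤ ρ := by exact_mod_cast h3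
  omega

end

section
open Filter MonoidAlgebra

theorem nr2_mono {O : Type} [Ring O] {t y : O} {a b : ℕ} (q : ℕ) (h : a ≤ b)
    (e : ∃ o, y = o * t ^ (b * q)) : ∃ o, y = o * t ^ (a * q) := by
  obtain ⟨c, rfl⟩ := Nat.exists_eq_add_of_le' h
  obtain ⟨o, rfl⟩ := e
  exact ⟨o * t ^ (c * q), by rw [add_mul, pow_add, mul_assoc]⟩

theorem p_NR2 (hNR1 : S_NR1) :
    S_NR2 := by
  classical
  intro p O _ t ρ hc hl x
  let Q : ℕ → ℕ → ℕ → ℕ → Prop := fun i K M r => ∃ l : ℕ → O r, ∃ o,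
    t r ^ (K * p ^ r) * x i r - ∑ j ∈ Finset.range i, l j * x j r = o * t r ^ (M * p ^ r)
  by_contra H
  have A : ∀ i K, ∃ M, K ≤ M ∧ (i ≤ ρ → ∀ᶠ r in (hyperfilter ℕ : Filter ℕ), ¬ Q i K M r) := by
    intro i K
    by_contra h
    have h1 : ∀ r, ∃ l : ℕ → O r, ∀ M ≤ r, Q i K M r → ∃ o,
        t r ^ (K * p ^ r) * x i r - ∑ j ∈ Finset.range i, l j * x j r = o * t r ^ (M * p ^ r) := by
      intro r
      obtain ⟨l, e⟩ := Nat.findGreatest_spec (P := fun M => Q i K M r) (Nat.zero_le r)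
        ⟨0, _, by rw [zero_mul (p ^ r), pow_zero, mul_one]⟩
      exact ⟨l, fun M a b => nr2_mono _ (Nat.le_findGreatest a b) e⟩
    choose l h1 using h1
    refine H ⟨i, by_contra fun a => h ⟨K, le_rfl, fun b => absurd b a⟩, K, fun j r => l r j,
      fun M => ?_⟩
    have h2 : ∀ᶠ r in (hyperfilter ℕ : Filter ℕ), Q i K (max K M) r := by_contra fun a =>
      h ⟨_, le_max_left K M, fun _ => Ultrafilter.eventually_not.2 a⟩
    filter_upwards [h2, Nat.hyperfilter_le_atTop (eventually_ge_atTop (max K M))] with r a b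
    exact nr2_mono _ (le_max_right K M) (h1 r _ b a)
  choose f f1 f2 using A
  let K : ℕ → ℕ := fun i => Nat.rec 0 f i
  obtain ⟨r, hr⟩ := ((eventually_all_finite (Set.finite_Iic ρ)).2 fun i a => f2 i (K i) a).exists
  obtain ⟨i, a, b⟩ := hNR1 (O r) (t r) ρ (hc r) (hl r)
    (fun i => Ideal.span ((fun j => x j r) '' (Finset.range i : Set ℕ))) (fun i => K i * p ^ r)
    (fun j => x j r) (fun i j h => Ideal.span_mono (Set.image_mono (Finset.range_mono h)))
    (monotone_nat_of_le_succ fun i => Nat.mul_le_mul_right _ (f1 i _))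
    fun i => Ideal.subset_span ⟨i, Finset.self_mem_range_succ i, rfl⟩
  obtain ⟨y, hy, z, hz, e⟩ := Submodule.mem_sup.1 b
  obtain ⟨l, rfl⟩ := (Submodule.mem_span_image_finset_iff_exists_fun' _).1 hy
  obtain ⟨o, rfl⟩ := Ideal.mem_span_singleton'.1 hz
  exact hr i a ⟨l, o, sub_eq_of_eq_add' e.symm⟩

end

section
open Filter MonoidAlgebra

open OreLocalization in
theorem nr3_loc {A : Type} [Ring A] (τ : A) (hc : ∀ o, τ * o = o * τ) :
    ∃ (N : Type) (_ : Ring N) (φ : A →+* N), IsUnit (φ τ) ∧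
      (∀ o, ∃ (K : ℕ) (a : A), φ τ ^ K * o = φ a) ∧ (∀ a, φ a = 0 → ∃ K : ℕ, τ ^ K * a = 0) := by
  have hcp : ∀ (K : ℕ) (o : A), τ ^ K * o = o * τ ^ K := fun K o =>
    ((show Commute τ o from hc o).pow_left K).eq
  let S : Submonoid A := Submonoid.powers τ
  have hS : ∀ (s : S) (o : A), (s : A) * o = o * s := by
    rintro ⟨s, K, rfl⟩ o
    exact hcp K o
  let _ : OreSet S :=
    { ore_right_cancel := fun r₁ r₂ s h => ⟨s, by rw [hS, hS, h]⟩
      oreNum := fun r _ => r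
      oreDenom := fun _ s => s
      ore_eq := fun r s => hS s r }
  refine ⟨OreLocalization S A, inferInstance, numeratorRingHom, ?_, ?_, ?_⟩
  · exact numerator_isUnit (⟨τ, Submonoid.mem_powers τ⟩ : S)
  · intro o
    induction o using OreLocalization.ind with
    | _ a s =>
      obtain ⟨s, K, rfl⟩ := s
      refine ⟨K, a, ?_⟩
      rw [← map_pow]
      exact OreLocalization.mul_cancel
  · intro a ha
    have ha' : (a /ₒ (1 : S)) = (0 : A) /ₒ (1 : S) := ha.trans OreLocalization.zero_def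
    obtain ⟨u, v, h1, h2⟩ := oreDiv_eq_iff.1 ha'
    obtain ⟨u, K, rfl⟩ := u
    refine ⟨K, ?_⟩
    have h3 : τ ^ K = v := by simpa using h2
    rw [h3]
    simpa using h1.symm

theorem p_NR3 :
    S_NR3 := by
  intro A _ τ ρ hc hone hne hdep
  obtain ⟨N, _, φ, hu, hfr, hz⟩ := nr3_loc τ hc
  have hcp : ∀ (K : ℕ) (o : A), τ ^ K * o = o * τ ^ K := fun K o =>
    ((show Commute τ o from hc o).pow_left K).eq
  have hcen : ∀ x : N, φ τ * x = x * φ τ := by
    intro x
    obtain ⟨K, a, h⟩ := hfr x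
    refine (hu.pow K).mul_left_cancel ?_
    rw [← mul_assoc, ← pow_succ, pow_succ', mul_assoc, h, ← mul_assoc, h, ← map_mul, ← map_mul, hc]
  refine ⟨N, inferInstance, φ, ⟨⟨τ, rfl⟩, hcen, hu, ?_, ?_, ?_, ?_⟩⟩
  · rintro x ⟨a, rfl⟩
    have := (hone a).map φ
    simpa using this
  · intro x
    obtain ⟨K, a, h⟩ := hfr x
    exact ⟨K, a, h.symm⟩
  · intro h
    obtain ⟨K, hK⟩ := hz 1 (by rw [map_one, h])
    exact hne K (by simpa using hK)
  · rw [isArtinian_iff, wellFounded_iff_isEmpty_descending_chain]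
    refine ⟨fun ⟨J, hJ⟩ => ?_⟩
    have hanti : Antitone J := antitone_nat_of_succ_le fun n => (hJ n).le
    have hx : ∀ n, ∃ a : A, φ a ∈ J n ∧ φ a ∉ J (n + 1) := by
      intro n
      obtain ⟨x, hx1, hx2⟩ := SetLike.exists_of_lt (hJ n)
      obtain ⟨K, a, h⟩ := hfr x
      refine ⟨a, ?_, fun h' => hx2 ?_⟩
      · rw [← h]
        exact (J n).smul_mem _ hx1
      · obtain ⟨u, hu'⟩ := hu.pow K
        have : x = ↑u⁻¹ * φ a := by rw [← h, ← hu', Units.inv_mul_cancel_left]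
        rw [this]
        exact (J (n + 1)).smul_mem _ h'
    choose a ha1 ha2 using hx
    obtain ⟨i, hi, K, l, h⟩ := hdep fun i => a (ρ - i)
    apply ha2 (ρ - i)
    obtain ⟨u, hu'⟩ := hu.pow K
    have h1 : φ (a (ρ - i)) = ↑u⁻¹ * ∑ j ∈ Finset.range i, φ (l j) * φ (a (ρ - j)) := by
      have h2 := congrArg φ h
      simp only [map_mul, map_pow, map_sum] at h2
      rw [← h2, ← hu', Units.inv_mul_cancel_left]
    rw [h1]
    refine (J (ρ - i + 1)).smul_mem _ (Submodule.sum_mem _ fun j hj => ?_)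
    refine (J (ρ - i + 1)).smul_mem _ (hanti ?_ (ha1 (ρ - j)))
    have := Finset.mem_range.1 hj
    omega

end

section
open Filter MonoidAlgebra

/-- the negligible sequences -/
def nr4_I (p : ℕ) (O : ℕ → Type) [∀ r, Ring (O r)] (t : ∀ r, O r) : Ideal (∀ r, O r) where
  carrier := {x | ∀ M : ℕ, ∀ᶠ r in (hyperfilter ℕ : Filter ℕ), ∃ o, x r = o * t r ^ (M * p ^ r)}
  add_mem' := fun {x y} hx hy M => by
    filter_upwards [hx M, hy M] with r ⟨o, h⟩ ⟨o', h'⟩
    exact ⟨o + o', by rw [Pi.add_apply, h, h', add_mul]⟩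
  zero_mem' := fun M => Eventually.of_forall fun r => ⟨0, by simp⟩
  smul_mem' := fun c x hx M => by
    filter_upwards [hx M] with r ⟨o, h⟩
    exact ⟨c r * o, by rw [smul_eq_mul, Pi.mul_apply, h, mul_assoc]⟩

theorem p_NR4 (hNR2 : S_NR2) (hNR3 : S_NR3) :
    S_NR4 := by
  intro p hp R _ F b ρ h
  choose O inst t io hcen hF hN hne hb hlen using fun r : ℕ => h (p ^ (2 * r))
  choose u hu using hb
  have hp1 : 1 < p := hp.out.one_lt
  have hc : ∀ r (o : O r) (n : ℕ), Commute (t r ^ n) o := fun r o n =>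
    Commute.pow_left (hcen r o) n
  have hU : (hyperfilter ℕ : Filter ℕ) ≤ atTop := Nat.hyperfilter_le_atTop
  have hev : ∀ m : ℕ, ∀ᶠ r in atTop, m < p ^ r := fun m =>
    (tendsto_pow_atTop_atTop_of_one_lt hp1).eventually_gt_atTop m
  set I := nr4_I p O t with hI
  have two : I.IsTwoSided := ⟨fun {x} c hx M => by
    filter_upwards [hx M] with r ⟨o, h⟩
    exact ⟨o * c r, by rw [Pi.mul_apply, h, mul_assoc, (hc r _ _).eq, mul_assoc]⟩⟩
  set τ : ∀ r, O r := fun r => t r ^ p ^ r with hτ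
  have hτK : ∀ (K : ℕ) r, (τ ^ K) r = t r ^ (K * p ^ r) := fun K r => by
    rw [Pi.pow_apply, hτ, ← pow_mul, mul_comm]
  have hun : ∀ r (o : O r), IsUnit (1 - t r ^ p ^ r * o) := fun r o =>
    ((hc r o _).isNilpotent_mul_right
      (IsNilpotent.pow_of_pos ⟨_, hN r⟩ (pow_pos (by omega) r).ne')).isUnit_one_sub
  obtain ⟨N, _, φ, hA⟩ := hNR3 ((∀ r, O r) ⧸ I) (Ideal.Quotient.mk I τ) ρ
    (fun o => by
      obtain ⟨o, rfl⟩ := Ideal.Quotient.mk_surjective o
      rw [← map_mul, ← map_mul]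
      exact congrArg _ (funext fun r => (hc r _ _).eq))
    (fun x => by
      obtain ⟨x, rfl⟩ := Ideal.Quotient.mk_surjective x
      rw [← map_mul, ← map_one (Ideal.Quotient.mk I), ← map_sub]
      exact (Pi.isUnit_iff.2 fun r => hun r (x r)).map _)
    (fun K hK => by
      rw [← map_pow, Ideal.Quotient.eq_zero_iff_mem] at hK
      obtain ⟨r, ⟨o, h1⟩, h2⟩ := ((hK (K + 1)).and (hU (hev K))).exists
      rw [hτK, add_mul, one_mul, add_comm, pow_add, ← mul_assoc, ← (hc r o _).eq] at h1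
      refine hne r (K * p ^ r) ?_ ((hun r o).mul_right_eq_zero.1 ?_)
      · rw [two_mul, pow_add]
        exact Nat.mul_lt_mul_of_pos_right h2 (pow_pos (by omega) r)
      · rw [sub_mul, one_mul, ← h1, sub_self])
    (fun x => by
      choose x' hx using fun i => Ideal.Quotient.mk_surjective (x i)
      obtain ⟨i, hi, K, l, h1⟩ := hNR2 p O t ρ hcen hlen x'
      refine ⟨i, hi, K, fun j => Ideal.Quotient.mk I (l j), ?_⟩
      simp only [← hx, ← map_pow, ← map_mul, ← map_sum]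
      refine Ideal.Quotient.eq.2 fun M => ?_
      filter_upwards [h1 M] with r hr
      rw [Pi.sub_apply, Pi.mul_apply, hτK, Finset.sum_apply]
      exact hr)
  set ψ : (∀ r, O r) →+* N := φ.comp (Ideal.Quotient.mk I) with hψ
  have hmem : ∀ x, ψ x ∈ φ.range := fun x => ⟨_, rfl⟩
  have hcong : ∀ x y : ∀ r, O r, (∀ᶠ r in atTop, x r = y r) → ψ x = ψ y := fun x y e =>
    congrArg φ (Ideal.Quotient.eq.2 fun M => by
      filter_upwards [hU e] with r hr
      exact ⟨0, by rw [Pi.sub_apply, hr, sub_self, zero_mul]⟩)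
  have hA' : Amb φ.range (ψ τ) := hA
  refine ⟨N, inferInstance, φ.range, ψ τ, ψ t,
    ψ.comp (RingHom.pi fun r => (io r).comp (Pi.evalRingHom (fun _ => R) r)), hA',
    fun x => hmem _, fun K x hx => ?_, fun x hx => ?_, hmem _, fun x => ?_, fun m => ?_, ?_, ?_⟩
  · have : ∀ r, ∃ o, x r ∈ F (K * p ^ r) → io r (x r) = o * t r ^ (K * p ^ r) := fun r => by
      by_cases e : x r ∈ F (K * p ^ r)
      · exact (hF r _ _ e).imp fun o ho _ => ho
      · exact ⟨0, fun e' => absurd e' e⟩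
    choose o ho using this
    refine ⟨ψ o, hmem _, ?_⟩
    rw [← map_pow, ← map_mul]
    refine hcong _ _ ?_
    filter_upwards [hx] with r hr
    rw [Pi.mul_apply, hτK, (hc r _ _).eq]
    exact ho r hr
  · refine (congrArg φ (Ideal.Quotient.eq_zero_iff_mem.2 fun M => ?_)).trans (map_zero φ)
    filter_upwards [hU (hx M)] with r hr
    exact hF r _ _ hr
  · obtain ⟨K, y, hy⟩ := hA'.den x
    obtain ⟨y, rfl⟩ := Ideal.Quotient.mk_surjective y
    have h1 : ψ t * ψ y = ψ y * ψ t := by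
      rw [← map_mul, ← map_mul]
      exact congrArg _ (funext fun r => hcen r _)
    have h2 : ψ y = ψ τ ^ K * x := hy
    have h3 : Commute (ψ τ ^ K) (ψ t) := Commute.pow_left (hA'.cen _) K
    rw [h2, ← mul_assoc, ← h3.eq, mul_assoc, mul_assoc] at h1
    exact (hA'.unit.pow K).mul_left_cancel h1
  · refine ⟨ψ fun r => t r ^ (p ^ r - m), hmem _, ?_⟩
    rw [← map_pow, ← map_mul]
    refine hcong _ _ ?_
    filter_upwards [hev m] with r hr
    rw [Pi.mul_apply, Pi.pow_apply, ← pow_add, Nat.sub_add_cancel hr.le]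
  · refine ⟨ψ fun r => ((u r)⁻¹ : (O r)ˣ), hmem _, ψ fun r => u r, ?_, ?_⟩
    · rw [← map_mul, ← map_one ψ]
      exact congrArg _ (funext fun r => (u r).inv_mul)
    · rw [← map_mul]
      exact congrArg ψ (funext hu)
  · have h1 : IsUnit (ψ (fun r => (u r : O r) ^ p ^ r) * ψ τ) :=
      ((Pi.isUnit_iff.2 fun r => (u r).isUnit.pow _).map ψ).mul hA'.unit
    rw [← map_mul] at h1
    refine (congrArg (fun z => IsUnit (ψ z)) (funext fun r => ?_)).mpr h1
    show io r (b ^ p ^ r) = (u r : O r) ^ p ^ r * t r ^ p ^ r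
    rw [map_pow, hu, Commute.mul_pow (hcen r _).symm]

end

section
open Filter MonoidAlgebra

theorem p_KK :
    S_KK := by
  intro N _ S hS
  let K : Subring N := Subring.centralizer (Subring.centralizer S : Set N)
  have hK : ∀ x, x ∈ K ↔ ∀ g, (∀ s ∈ S, s * g = g * s) → g * x = x * g := fun x => Iff.rfl
  have hc : ∀ x y : K, x * y = y * x := fun x y => Subtype.ext
    ((hK y).1 y.2 x fun s hs => (hK x).1 x.2 s fun t ht => hS t ht s hs)
  refine ⟨K, { (inferInstance : Ring K) with mul_comm := hc }, K.subtype, Subtype.val_injective,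
    fun x ⟨u, hu⟩ => ?_, fun x hx => ⟨⟨x, (hK x).2 fun g hg => (hg x hx).symm⟩, rfl⟩,
    fun x hx => ⟨⟨x, (hK x).2 fun g _ => (hx g).symm⟩, rfl⟩⟩
  have hu' : (u : N) = x := hu
  have h : (↑u⁻¹ : N) ∈ K := (hK _).2 fun g hg =>
    (Commute.units_inv_right (show Commute g (u : N) from hu' ▸ (hK x).1 x.2 g hg)).eq
  exact ⟨⟨x, ⟨_, h⟩, Subtype.ext (hu' ▸ u.mul_inv :), Subtype.ext (hu' ▸ u.inv_mul :)⟩, rfl⟩

end

section
open Filter MonoidAlgebra

section
variable {p : ℕ} {L K N : Type} [AddCommGroup L] [CommRing K] [Ring N] {κ : K →+* N}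
  {Λ : Subring N} {τ : K} {th : L → K}

theorem un1_right {E : AddSubgroup L} {x : N} (hx : x ∈ JE κ th E) (c : K) :
    x * κ c ∈ JE κ th E := by
  induction hx using Submodule.span_induction with
  | mem x hx =>
    obtain ⟨a, ha, rfl⟩ := hx
    rw [← map_mul, mul_comm, map_mul]
    exact Ideal.mul_mem_left _ _ (Ideal.subset_span ⟨a, ha, rfl⟩)
  | zero => rw [zero_mul]; exact Submodule.zero_mem _
  | add x y _ _ hx hy => rw [add_mul]; exact Submodule.add_mem _ hx hy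
  | smul a x _ hx => rw [smul_eq_mul, mul_assoc]; exact Ideal.mul_mem_left _ _ hx

theorem un1_add (h : Th p κ Λ τ th) (a b : L) :
    κ (th (a + b) - 1) = κ (th b) * κ (th a - 1) + κ (th b - 1) := by
  rw [← map_mul, ← map_add, h.add]; congr 1; ring

/-- the subgroup cut out by a left ideal -/
def un1_sub (h : Th p κ Λ τ th) (I : Ideal N) : AddSubgroup L where
  carrier := {b | κ (th b - 1) ∈ I}
  zero_mem' := by simp [h.zero]
  add_mem' {a b} ha hb := by
    show κ (th (a + b) - 1) ∈ I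
    rw [un1_add h]
    exact I.add_mem (I.mul_mem_left _ ha) hb
  neg_mem' {a} ha := by
    show κ (th (-a) - 1) ∈ I
    have e : th (-a) * th a = 1 := by rw [← h.add, neg_add_cancel, h.zero]
    have : th (-a) - 1 = -th (-a) * (th a - 1) := by linear_combination e
    rw [this, map_mul]
    exact I.mul_mem_left _ ha

theorem un1_key (h : Th p κ Λ τ th) {E : AddSubgroup L}
    (hE : Maximal (fun E => JE κ th E ≠ ⊤) E) {a : L} (ha : a ∉ E) (n : ℕ) :
    ∃ u ∈ JE κ th E, ∃ z, 1 = u + z * κ ((th a - 1) ^ n) := by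
  have h1 : JE κ th (E ⊔ AddSubgroup.zmultiples a) = ⊤ := by
    by_contra hn
    exact ha (hE.2 hn le_sup_left (AddSubgroup.mem_sup_right (AddSubgroup.mem_zmultiples a)))
  have h2 : E ⊔ AddSubgroup.zmultiples a ≤ un1_sub h (JE κ th E ⊔ Ideal.span {κ (th a - 1)}) :=
    sup_le (fun b hb => Ideal.mem_sup_left (Ideal.subset_span ⟨b, hb, rfl⟩))
      (AddSubgroup.zmultiples_le_of_mem (Ideal.mem_sup_right (Ideal.subset_span rfl)))
  have h3 : JE κ th (E ⊔ AddSubgroup.zmultiples a) ≤ JE κ th E ⊔ Ideal.span {κ (th a - 1)} :=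
    Ideal.span_le.2 (by rintro _ ⟨b, hb, rfl⟩; exact h2 hb)
  obtain ⟨u1, hu1, w, hw, e1⟩ := Submodule.mem_sup.1 (h3 (h1 ▸ Submodule.mem_top : (1 : N) ∈ _))
  obtain ⟨z1, rfl⟩ := Submodule.mem_span_singleton.1 hw
  rw [smul_eq_mul] at e1
  induction n with
  | zero => exact ⟨0, Submodule.zero_mem _, 1, by simp⟩
  | succ n ih =>
    obtain ⟨u, hu, z, e⟩ := ih
    refine ⟨u + z * (u1 * κ ((th a - 1) ^ n)),
      Submodule.add_mem _ hu (Ideal.mul_mem_left _ _ (un1_right hu1 _)), z * z1, ?_⟩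
    rw [pow_succ', map_mul, add_assoc, mul_assoc, ← mul_add, ← mul_assoc z1, ← add_mul, e1, one_mul]
    exact e

theorem un1_frob (h : Th p κ Λ τ th) (b : L) (j : ℕ) :
    th (p ^ j • b) - 1 = (th b - 1) ^ p ^ j := by
  induction j with
  | zero => simp
  | succ j ih => rw [pow_succ', mul_smul, h.frob, ih, ← pow_mul, mul_comm]

end

theorem p_UN1 :
    S_UN1 := by
  intro p hp L K N _ _ _ κ Λ τ th hA h E hE
  refine ⟨fun a ha => ?_, fun a ha => ?_⟩
  · by_contra hn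
    obtain ⟨u, hu, z, e⟩ := un1_key h hE hn p
    refine hE.1 ((Ideal.eq_top_iff_one _).2 ?_)
    rw [e, ← h.frob]
    exact Submodule.add_mem _ hu (Ideal.mul_mem_left _ _ (Ideal.subset_span ⟨_, ha, rfl⟩))
  · by_contra hn
    obtain ⟨u, hu, z, e⟩ := un1_key h hE hn 1
    obtain ⟨k, hk⟩ := hA.den z
    obtain ⟨c, hc, _, ⟨b, rfl⟩, rfl⟩ := AddSubgroup.mem_sup.1 (ha k)
    obtain ⟨x, hx, ex⟩ := h.sub b
    obtain ⟨m, hm⟩ := Nat.exists_eq_add_of_lt (Nat.lt_pow_self hp.out.one_lt : k < p ^ k)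
    have e2 : κ (th (p ^ k • b) - 1) = κ τ ^ (k + m + 1) * x ^ p ^ k := by
      rw [un1_frob h, map_pow, map_sub, map_one, ex, Commute.mul_pow (hA.cen x), ← hm]
    have hz : Commute (κ τ) z := hA.cen z
    have e3 : z * (κ τ ^ (k + m + 1) * x ^ p ^ k) = κ τ * (κ τ ^ k * z * (κ τ ^ m * x ^ p ^ k)) := by
      rw [show k + m + 1 = (k + 1) + m by ring, pow_add, mul_assoc, ← mul_assoc z,
        ← (hz.pow_left (k + 1)).eq, pow_succ']
      simp only [mul_assoc]
    have hl : κ τ ^ k * z * (κ τ ^ m * x ^ p ^ k) ∈ Λ :=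
      Λ.mul_mem hk (Λ.mul_mem (Λ.pow_mem hA.mem _) (Λ.pow_mem hx _))
    rw [pow_one, nsmulAddMonoidHom_apply, un1_add h, e2, mul_add, e3, ← add_assoc,
      ← sub_eq_iff_eq_add] at e
    obtain ⟨v, hv⟩ := (hA.one_sub _ hl).exists_left_inv
    refine hE.1 ((Ideal.eq_top_iff_one _).2 ?_)
    rw [← hv, e]
    exact Ideal.mul_mem_left _ _ (Submodule.add_mem _ hu (Ideal.mul_mem_left _ _
      (Ideal.mul_mem_left _ _ (Ideal.subset_span ⟨_, hc, rfl⟩))))

end

section
open Filter MonoidAlgebra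

theorem un2_mul {K N : Type} [CommRing K] [Ring N] (κ : K →+* N) {a b : Ideal K}
    (ha : a.map κ = ⊤) (hb : b.map κ = ⊤) : (a * b).map κ = ⊤ := by
  rw [eq_top_iff, ← hb, Ideal.map_le_iff_le_comap]
  intro u hu
  have : ∀ x ∈ a.map κ, x * κ u ∈ (a * b).map κ := fun x hx => by
    induction hx using Submodule.span_induction with
    | mem x hx =>
      obtain ⟨v, hv, rfl⟩ := hx
      rw [← map_mul]
      exact Ideal.mem_map_of_mem κ (Ideal.mul_mem_mul hv hu)
    | zero => rw [zero_mul]; exact zero_mem _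
    | add x y _ _ h1 h2 => rw [add_mul]; exact add_mem h1 h2
    | smul z x _ h => rw [smul_eq_mul, mul_assoc]; exact Ideal.mul_mem_left _ z h
  simpa using this 1 (ha ▸ trivial)

theorem un2_fin {ι K N : Type} [CommRing K] [Ring N] [Nontrivial N] [IsArtinian N N]
    (κ : K →+* N) (S : Set ι) (a : ι → Ideal K) (h1 : ∀ i ∈ S, (a i).map κ ≠ ⊤)
    (h2 : ∀ i ∈ S, ∀ j ∈ S, i ≠ j → (a i ⊔ a j).map κ = ⊤) : S.Finite := by
  classical
  obtain ⟨_, ⟨T, hT, rfl⟩, hmin⟩ := IsArtinian.set_has_minimal (R := N) (M := N)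
    ((fun T : Finset ι => (∏ i ∈ T, a i).map κ) '' {T | (T : Set ι) ⊆ S}) ⟨_, ∅, by simp, rfl⟩
  refine T.finite_toSet.subset fun j hj => by_contra fun hjT => h1 j hj ?_
  have k : ∀ U : Finset ι, (U : Set ι) ⊆ S → j ∉ U → ((∏ i ∈ U, a i) ⊔ a j).map κ = ⊤ := by
    intro U
    induction U using Finset.induction_on with
    | empty => intro _ _; simp [Ideal.map_top]
    | insert i U hi ih =>
      intro hU hj'
      rw [Finset.coe_insert, Set.insert_subset_iff] at hU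
      rw [Finset.mem_insert, not_or] at hj'
      rw [Finset.prod_insert hi, eq_top_iff,
        ← un2_mul κ (h2 i hU.1 j hj (Ne.symm hj'.1)) (ih hU.2 hj'.2)]
      refine Ideal.map_mono ?_
      rw [Ideal.sup_mul, Ideal.mul_sup]
      exact sup_le (sup_le le_sup_left (Ideal.mul_le_right.trans le_sup_right))
        (Ideal.mul_le_left.trans le_sup_right)
  have e : (∏ i ∈ insert j T, a i).map κ = (∏ i ∈ T, a i).map κ := by
    refine eq_of_le_of_not_lt (Ideal.map_mono ?_) (hmin _ ⟨insert j T, ?_, rfl⟩)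
    · rw [Finset.prod_insert hjT]
      exact Ideal.mul_le_right
    · rw [Set.mem_ofPred_eq, Finset.coe_insert]
      exact Set.insert_subset hj hT
  rw [eq_top_iff, ← k T hT hjT, Ideal.map_sup, ← e, Finset.prod_insert hjT]
  exact sup_le (Ideal.map_mono Ideal.mul_le_left) le_rfl

theorem p_UN2 :
    S_UN2 := by
  intro p L K N _ _ _ κ Λ τ th hA hT
  have := hA.art
  have : Nontrivial N := nontrivial_of_ne 1 0 hA.nontriv
  have e : ∀ E : AddSubgroup L,
      (Ideal.span ((fun a => th a - 1) '' (E : Set L))).map κ = JE κ th E := fun E => by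
    rw [Ideal.map_span, Set.image_image, JE]
  refine un2_fin κ _ (fun E => Ideal.span ((fun a => th a - 1) '' (E : Set L)))
    (fun E hE => e E ▸ hE.1) fun E hE E' hE' hne => ?_
  have h : JE κ th (E ⊔ E') = ⊤ := by_contra fun h => hne (le_antisymm
    (le_sup_left.trans (hE'.2 h le_sup_right))
    (le_sup_right.trans (hE.2 h le_sup_left)))
  rw [eq_top_iff, ← h, ← e]
  refine Ideal.map_mono (Ideal.span_le.2 ?_)
  rintro _ ⟨x, hx, rfl⟩
  obtain ⟨y, hy, z, hz, rfl⟩ := AddSubgroup.mem_sup.1 hx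
  beta_reduce
  rw [show th (y + z) - 1 = th z * (th y - 1) + (th z - 1) by rw [hT.add]; ring]
  exact Submodule.add_mem_sup (Ideal.mul_mem_left _ _ (Ideal.subset_span ⟨y, hy, rfl⟩))
    (Ideal.subset_span ⟨z, hz, rfl⟩)

end

section
open Filter MonoidAlgebra

section
variable {G L K N : Type} [Group G] [AddCommGroup L] [DistribMulAction G L] [CommRing K] [Ring N]
  {κ : K →+* N} {th : L → K}

theorem un3_mono (g : G) {E F : AddSubgroup L} (h : E ≤ F) : mv g E ≤ mv g F :=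
  AddSubgroup.map_mono h

theorem un3_mul (g h : G) (e : g * h = 1) (E : AddSubgroup L) : mv g (mv h E) = E := by
  ext a
  constructor
  · rintro ⟨_, ⟨b, hb, rfl⟩, rfl⟩
    change g • h • b ∈ E
    rwa [← mul_smul, e, one_smul]
  · exact fun ha => ⟨_, ⟨a, ha, rfl⟩, show g • h • a = a by rw [← mul_smul, e, one_smul]⟩

theorem un3_bad {ι : G →* N} (hι : ∀ g a, ι g * κ (th a) = κ (th (g • a)) * ι g) (g : G)
    {E : AddSubgroup L} (h : JE κ th E ≠ ⊤) : JE κ th (mv g E) ≠ ⊤ := fun e => h <| by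
  have k : JE κ th (mv g E) ≤ Submodule.comap (LinearMap.toSpanSingleton N N (ι g)) (JE κ th E) := by
    refine Submodule.span_le.2 ?_
    rintro _ ⟨_, ⟨a, ha, rfl⟩, rfl⟩
    have e1 : κ (th (g • a) - 1) * ι g = ι g * κ (th a - 1) := by
      rw [map_sub, map_sub, map_one, sub_mul, mul_sub, hι, one_mul, mul_one]
    change κ (th (g • a) - 1) * ι g ∈ JE κ th E
    rw [e1]
    exact Ideal.mul_mem_left _ _ (Ideal.subset_span ⟨a, ha, rfl⟩)
  have k1 : ι g⁻¹ * ι g ∈ JE κ th E := k (e ▸ Submodule.mem_top)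
  rwa [← map_mul, inv_mul_cancel, map_one, ← Ideal.eq_top_iff_one] at k1

theorem un3_max {ι : G →* N} (hι : ∀ g a, ι g * κ (th a) = κ (th (g • a)) * ι g) (g : G)
    {E : AddSubgroup L} (h : Maximal (fun E => JE κ th E ≠ ⊤) E) :
    Maximal (fun E => JE κ th E ≠ ⊤) (mv g E) := by
  refine ⟨un3_bad hι g h.1, fun F hF e => ?_⟩
  have k := un3_mono g⁻¹ e
  rw [un3_mul _ _ (inv_mul_cancel g)] at k
  have k1 := un3_mono g (h.2 (un3_bad hι g⁻¹ hF) k)
  rwa [un3_mul _ _ (mul_inv_cancel g)] at k1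

theorem un3_zorn {E : AddSubgroup L} (h : JE κ th E ≠ ⊤) :
    ∃ M, E ≤ M ∧ Maximal (fun E => JE κ th E ≠ ⊤) M := by
  refine zorn_le_nonempty₀ {E | JE κ th E ≠ ⊤} (fun c hc hch y hy => ?_) E h
  refine ⟨sSup c, fun e => ?_, fun z hz => le_sSup hz⟩
  have : Nonempty c := ⟨⟨y, hy⟩⟩
  have k : JE κ th (sSup c) ≤ ⨆ F : c, JE κ th F := by
    refine Submodule.span_le.2 ?_
    rintro _ ⟨a, ha, rfl⟩
    obtain ⟨F, hF, h1⟩ := (AddSubgroup.mem_sSup_of_directedOn ⟨y, hy⟩ hch.directedOn).1 ha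
    exact Submodule.mem_iSup_of_mem (⟨F, hF⟩ : c) (Ideal.subset_span ⟨a, h1, rfl⟩)
  obtain ⟨F, hF⟩ := (Submodule.mem_iSup_of_directed (fun F : c => JE κ th F)
    (hch.directedOn.directed_val.mono_comp (g := fun F => JE κ th F) _ fun _ _ h =>
      Ideal.span_mono (Set.image_mono h))).1 (k (e ▸ Submodule.mem_top : (1 : N) ∈ _))
  exact hc F.2 ((Ideal.eq_top_iff_one _).2 hF)

theorem un3_dvd (h0 : th 0 = 1) (h1 : ∀ a b, th (a + b) = th a * th b) (a : L) :
    ∀ b ∈ AddSubgroup.zmultiples a, th a - 1 ∣ th b - 1 := by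
  let H : AddSubgroup L :=
    { carrier := {b | th a - 1 ∣ th b - 1}
      zero_mem' := by simp [h0]
      add_mem' := fun {b c} hb hc => by
        have e : th (b + c) - 1 = th b * (th c - 1) + (th b - 1) := by rw [h1]; ring
        change th a - 1 ∣ th (b + c) - 1
        rw [e]
        exact dvd_add (Dvd.dvd.mul_left hc _) hb
      neg_mem' := fun {b} hb => by
        have e : th (-b) - 1 = -th (-b) * (th b - 1) := by
          have := h1 (-b) b
          rw [neg_add_cancel, h0] at this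
          linear_combination -this
        change th a - 1 ∣ th (-b) - 1
        rw [e]
        exact Dvd.dvd.mul_left hb _ }
  exact fun b hb => (AddSubgroup.zmultiples_le_of_mem (H := H) (dvd_refl _)) hb

theorem un3_unit [IsArtinian N N] {y z : N} (h : z * y = 1) : IsUnit y := by
  obtain ⟨w, hw⟩ := IsArtinian.surjective_of_injective_endomorphism
    (LinearMap.toSpanSingleton N N z) (fun n m e => by
      have e1 : n * z * y = m * z * y := congrArg (· * y) e
      rwa [mul_assoc, mul_assoc, h, mul_one, mul_one] at e1) 1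
  have e : w * z = 1 := hw
  have e1 : w = y := by rw [← mul_one w, ← h, ← mul_assoc, e, one_mul]
  exact ⟨⟨y, z, e1 ▸ e, h⟩, rfl⟩

end

theorem p_UN3 (hUN1 : S_UN1) (hUN2 : S_UN2) :
    S_UN3 := by
  intro p _ G L K N _ _ _ _ _ κ Λ τ th ι hA hT hι hI ⟨a0, u0⟩ a ha
  have := hA.art
  have k : JE κ th (AddSubgroup.zmultiples a) = ⊤ := by
    by_contra h
    obtain ⟨M, h1, h2⟩ := un3_zorn h
    obtain ⟨h3, h4⟩ := hUN1 p L K N κ Λ τ th hA hT M h2
    rcases hI M h3 h4 ((hUN2 p L K N κ Λ τ th hA hT).subset (by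
      rintro _ ⟨g, rfl⟩; exact un3_max hι g h2)) with rfl | rfl
    · exact ha (h1 (AddSubgroup.mem_zmultiples a))
    · exact h2.1 (Ideal.eq_top_of_isUnit_mem _ (Ideal.subset_span ⟨a0, trivial, rfl⟩) (u0.map κ))
  have k1 : JE κ th (AddSubgroup.zmultiples a) ≤ Ideal.span {κ (th a - 1)} := by
    refine Submodule.span_le.2 ?_
    rintro _ ⟨b, hb, rfl⟩
    obtain ⟨c, hc⟩ := un3_dvd hT.zero hT.add a b hb
    exact Ideal.mem_span_singleton'.2 ⟨κ c, by rw [← map_mul, mul_comm, ← hc]⟩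
  obtain ⟨z, hz⟩ := Ideal.mem_span_singleton'.1 (k1 (k ▸ Submodule.mem_top : (1 : N) ∈ _))
  exact hT.unit _ (un3_unit hz)

end

section
open Filter MonoidAlgebra

/-- the products used in the property -/
def zorn_Z {K : Type} [CommRing K] (τ : K) (R : Set K) (B : Set K) : Set K :=
  {z | ∃ r ∈ R, ∃ b ∈ B, z = τ * r * b}

/-- the property -/
def zorn_P {K N : Type} [CommRing K] [Ring N] (κ : K →+* N) (Λ : Subring N) (τ : K)
    (R : Subring K) : Prop :=
  ¬ ∃ B : Finset K, (1 : K) ∈ B ∧ ∀ b ∈ B, κ b ∈ LR κ Λ (zorn_Z τ R B)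

section
variable {K N : Type} [CommRing K] [Ring N] (κ : K →+* N) (Λ : Subring N)

theorem zorn_left (Z : Set K) {l x : N} (hl : l ∈ Λ) (hx : x ∈ LR κ Λ Z) : l * x ∈ LR κ Λ Z := by
  induction hx using AddSubgroup.closure_induction with
  | mem x hx =>
    obtain ⟨l', hl', z, hz, rfl⟩ := hx
    exact AddSubgroup.subset_closure ⟨l * l', Λ.mul_mem hl hl', z, hz, (mul_assoc _ _ _).symm⟩
  | zero => rw [mul_zero]; exact AddSubgroup.zero_mem _
  | add x y _ _ hx hy => rw [mul_add]; exact AddSubgroup.add_mem _ hx hy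
  | neg x _ hx => rw [mul_neg]; exact AddSubgroup.neg_mem _ hx

theorem zorn_right (Z Z' : Set K) (u : K) (h : ∀ z ∈ Z, κ (z * u) ∈ LR κ Λ Z') {x : N}
    (hx : x ∈ LR κ Λ Z) : x * κ u ∈ LR κ Λ Z' := by
  induction hx using AddSubgroup.closure_induction with
  | mem x hx =>
    obtain ⟨l', hl', z, hz, rfl⟩ := hx
    rw [mul_assoc, ← map_mul]
    exact zorn_left κ Λ Z' hl' (h z hz)
  | zero => rw [zero_mul]; exact AddSubgroup.zero_mem _
  | add x y _ _ hx hy => rw [add_mul]; exact AddSubgroup.add_mem _ hx hy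
  | neg x _ hx => rw [neg_mul]; exact AddSubgroup.neg_mem _ hx

theorem zorn_self {Z : Set K} {z : K} (hz : z ∈ Z) : κ z ∈ LR κ Λ Z :=
  AddSubgroup.subset_closure ⟨1, Λ.one_mem, z, hz, (one_mul _).symm⟩

theorem zorn_le {Z Z' : Set K} (h : ∀ z ∈ Z, κ z ∈ LR κ Λ Z') : LR κ Λ Z ≤ LR κ Λ Z' := by
  intro x hx
  have := zorn_right κ Λ Z Z' 1 (by simpa using h) hx
  simpa using this

theorem zorn_mono {Z Z' : Set K} (h : Z ⊆ Z') : LR κ Λ Z ≤ LR κ Λ Z' :=
  zorn_le κ Λ fun _ hz => zorn_self κ Λ (h hz)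

theorem zorn_dir {ι : Type} [Nonempty ι] (Z : ι → Set K) (hd : Directed (· ⊆ ·) Z) {Y : Set K}
    (hY : ∀ z ∈ Y, ∃ i, κ z ∈ LR κ Λ (Z i)) {x : N} (hx : x ∈ LR κ Λ Y) :
    ∃ i, x ∈ LR κ Λ (Z i) := by
  induction hx using AddSubgroup.closure_induction with
  | mem x hx =>
    obtain ⟨l', hl', z, hz, rfl⟩ := hx
    obtain ⟨i, hi⟩ := hY z hz
    exact ⟨i, zorn_left κ Λ _ hl' hi⟩
  | zero => exact ⟨Classical.arbitrary ι, AddSubgroup.zero_mem _⟩
  | add x y _ _ hx hy =>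
    obtain ⟨i, hi⟩ := hx
    obtain ⟨j, hj⟩ := hy
    obtain ⟨l, h1, h2⟩ := hd i j
    exact ⟨l, AddSubgroup.add_mem _ (zorn_mono κ Λ h1 hi) (zorn_mono κ Λ h2 hj)⟩
  | neg x _ hx =>
    obtain ⟨i, hi⟩ := hx
    exact ⟨i, AddSubgroup.neg_mem _ hi⟩

theorem zorn_fin {ι : Type} [Nonempty ι] (Z : ι → Set K) (hd : Directed (· ⊆ ·) Z) (B : Finset K)
    (h : ∀ b ∈ B, ∃ i, κ b ∈ LR κ Λ (Z i)) : ∃ i, ∀ b ∈ B, κ b ∈ LR κ Λ (Z i) := by
  classical
  induction B using Finset.induction_on with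
  | empty => exact ⟨Classical.arbitrary ι, by simp⟩
  | insert a B _ ih =>
    obtain ⟨i, hi⟩ := ih fun b hb => h b (Finset.mem_insert_of_mem hb)
    obtain ⟨j, hj⟩ := h a (Finset.mem_insert_self _ _)
    obtain ⟨l, h1, h2⟩ := hd i j
    refine ⟨l, fun b hb => ?_⟩
    rcases Finset.mem_insert.1 hb with rfl | hb
    · exact zorn_mono κ Λ h2 hj
    · exact zorn_mono κ Λ h1 (hi b hb)

theorem zorn_base (τ : K) (hA : Amb Λ (κ τ)) : zorn_P κ Λ τ (Λ.comap κ) := by
  rintro ⟨B, h1, hB⟩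
  have hn : ∀ n : ℕ, ∀ b ∈ B, κ b ∈ LR κ Λ {z | ∃ b ∈ B, z = τ ^ n * b} := by
    intro n
    induction n with
    | zero => exact fun b hb => zorn_self κ Λ ⟨b, hb, by simp⟩
    | succ n ih =>
      intro b hb
      refine zorn_le κ Λ ?_ (hB b hb)
      rintro _ ⟨r, hr, b', hb', rfl⟩
      have e : κ (τ * r * b') = κ r * (κ b' * κ τ) := by
        rw [← map_mul, ← map_mul]; congr 1; ring
      rw [e]
      refine zorn_left κ Λ _ hr (zorn_right κ Λ _ _ τ ?_ (ih b' hb'))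
      rintro _ ⟨b'', hb'', rfl⟩
      exact zorn_self κ Λ ⟨b'', hb'', by ring⟩
  choose d hd using fun b : K => hA.den (κ b)
  have h2 : ∀ x ∈ LR κ Λ {z | ∃ b ∈ B, z = τ ^ (B.sup d + 1) * b}, ∃ l ∈ Λ, x = κ τ * l := by
    intro x hx
    induction hx using AddSubgroup.closure_induction with
    | mem x hx =>
      obtain ⟨l, hl, _, ⟨b, hb, rfl⟩, rfl⟩ := hx
      obtain ⟨e, he⟩ := Nat.exists_eq_add_of_le (Finset.le_sup (f := d) hb)
      refine ⟨l * (κ τ ^ e * (κ τ ^ d b * κ b)),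
        Λ.mul_mem hl (Λ.mul_mem (Λ.pow_mem hA.mem e) (hd b)), ?_⟩
      rw [← mul_assoc, hA.cen l, mul_assoc, ← map_pow, ← map_pow, ← map_mul, ← map_mul, ← map_mul,
        he]
      congr 2; ring
    | zero => exact ⟨0, Λ.zero_mem, by simp⟩
    | add x y _ _ hx hy =>
      obtain ⟨l, hl, rfl⟩ := hx
      obtain ⟨l', hl', rfl⟩ := hy
      exact ⟨l + l', Λ.add_mem hl hl', (mul_add _ _ _).symm⟩
    | neg x _ hx =>
      obtain ⟨l, hl, rfl⟩ := hx
      exact ⟨-l, Λ.neg_mem hl, (mul_neg _ _).symm⟩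
  obtain ⟨l, hl, h⟩ := h2 _ (hn _ 1 h1)
  have := hA.one_sub l hl
  rw [← h, map_one, sub_self, isUnit_zero_iff] at this
  exact hA.nontriv this.symm

theorem zorn_adj (τ : K) (R : Subring K) (s : K)
    (h : ¬ zorn_P κ Λ τ (Subring.closure (insert s (R : Set K)))) :
    ∃ (n : ℕ) (B : Finset K), (1 : K) ∈ B ∧
      ∀ b ∈ B, κ b ∈ LR κ Λ {z | ∃ i ≤ n, ∃ r ∈ R, ∃ b ∈ B, z = τ * r * (s ^ i * b)} := by
  obtain ⟨B, h1, hB⟩ := not_not.1 h
  have hd : Directed (· ⊆ ·)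
      fun n : ℕ => {z | ∃ i ≤ n, ∃ r ∈ R, ∃ b ∈ B, z = τ * r * (s ^ i * b)} :=
    Monotone.directed_le fun n m hnm z ⟨i, hi, h⟩ => ⟨i, hi.trans hnm, h⟩
  have hcl : ∀ r ∈ Subring.closure (insert s (R : Set K)),
      r ∈ AddSubgroup.closure {z | ∃ i : ℕ, ∃ r ∈ R, z = r * s ^ i} := by
    intro r hr
    induction hr using Subring.closure_induction with
    | mem x hx =>
      rcases hx with rfl | hx
      · exact AddSubgroup.subset_closure ⟨1, 1, R.one_mem, by simp⟩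
      · exact AddSubgroup.subset_closure ⟨0, x, hx, by simp⟩
    | zero => exact AddSubgroup.zero_mem _
    | one => exact AddSubgroup.subset_closure ⟨0, 1, R.one_mem, by simp⟩
    | add x y _ _ hx hy => exact AddSubgroup.add_mem _ hx hy
    | neg x _ hx => exact AddSubgroup.neg_mem _ hx
    | mul x y _ _ hx hy =>
      clear * - hx hy
      induction hx using AddSubgroup.closure_induction with
      | mem x hx =>
        induction hy using AddSubgroup.closure_induction with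
        | mem y hy =>
          obtain ⟨i, r, hr, rfl⟩ := hx
          obtain ⟨j, r', hr', rfl⟩ := hy
          exact AddSubgroup.subset_closure ⟨i + j, r * r', R.mul_mem hr hr', by ring⟩
        | zero => rw [mul_zero]; exact AddSubgroup.zero_mem _
        | add y y' _ _ hy hy' => rw [mul_add]; exact AddSubgroup.add_mem _ hy hy'
        | neg y _ hy => rw [mul_neg]; exact AddSubgroup.neg_mem _ hy
      | zero => rw [zero_mul]; exact AddSubgroup.zero_mem _
      | add x x' _ _ hx hx' => rw [add_mul]; exact AddSubgroup.add_mem _ hx hx'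
      | neg x _ hx => rw [neg_mul]; exact AddSubgroup.neg_mem _ hx
  obtain ⟨n, hn⟩ := zorn_fin κ Λ _ hd B fun b hb => zorn_dir κ Λ _ hd (by
    rintro _ ⟨r, hr, b', hb', rfl⟩
    have hr' := hcl r hr
    clear hr
    induction hr' using AddSubgroup.closure_induction with
    | mem x hx =>
      obtain ⟨i, r, hr, rfl⟩ := hx
      exact ⟨i, zorn_self κ Λ ⟨i, le_rfl, r, hr, b', hb', by ring⟩⟩
    | zero => exact ⟨0, by simp⟩
    | add x y _ _ hx hy =>
      obtain ⟨i, hi⟩ := hx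
      obtain ⟨j, hj⟩ := hy
      obtain ⟨l, h1, h2⟩ := hd i j
      refine ⟨l, ?_⟩
      rw [mul_add, add_mul, map_add]
      exact AddSubgroup.add_mem _ (zorn_mono κ Λ h1 hi) (zorn_mono κ Λ h2 hj)
    | neg x _ hx =>
      obtain ⟨i, hi⟩ := hx
      refine ⟨i, ?_⟩
      rw [mul_neg, neg_mul, map_neg]
      exact AddSubgroup.neg_mem _ hi) (hB b hb)
  exact ⟨n, B, h1, hn⟩

end

theorem p_ZORN :
    S_ZORN := by
  intro K N _ _ κ Λ τ hA
  classical
  obtain ⟨R, hR0, hR⟩ := zorn_le_nonempty₀ {R : Subring K | zorn_P κ Λ τ R} (by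
    intro c hc hch R1 hR1
    refine ⟨sSup c, ?_, fun R hR => le_sSup hR⟩
    rintro ⟨B, h1, hB⟩
    have : Nonempty c := ⟨⟨R1, hR1⟩⟩
    have hd : Directed (· ⊆ ·) fun R : c => zorn_Z τ (R.1 : Set K) B := by
      intro R R'
      rcases hch.total R.2 R'.2 with h | h
      · exact ⟨R', fun z ⟨r, hr, h'⟩ => ⟨r, h hr, h'⟩, le_rfl⟩
      · exact ⟨R, le_rfl, fun z ⟨r, hr, h'⟩ => ⟨r, h hr, h'⟩⟩
    obtain ⟨R, hR⟩ := zorn_fin κ Λ _ hd B fun b hb => zorn_dir κ Λ _ hd (by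
      rintro _ ⟨r, hr, b', hb', rfl⟩
      obtain ⟨R, hR, hr⟩ := (Subring.mem_sSup_of_directedOn ⟨R1, hR1⟩ hch.directedOn).1 hr
      exact ⟨⟨R, hR⟩, zorn_self κ Λ ⟨r, hr, b', hb', rfl⟩⟩) (hB b hb)
    exact hc R.2 ⟨B, h1, hR⟩) _ (zorn_base κ Λ τ hA)
  refine ⟨R, fun x hx => hR0 hx, fun s => ?_, fun h => hR.1 ⟨{1}, by simp, ?_⟩⟩
  · by_contra hs
    push Not at hs
    have hadj : ∀ u : K, u ∉ R → ¬ zorn_P κ Λ τ (Subring.closure (insert u (R : Set K))) :=
      fun u hu hP => hu (hR.2 hP (fun x hx => Subring.subset_closure (Set.mem_insert_of_mem _ hx))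
        (Subring.subset_closure (Set.mem_insert _ _)))
    obtain ⟨n, B, h1, hB⟩ := zorn_adj κ Λ τ R _ (hadj _ hs.1)
    obtain ⟨n', B', h1', hB'⟩ := zorn_adj κ Λ τ R _ (hadj _ hs.2)
    refine hR.1 ⟨((Finset.range (n + n' + 1)) ×ˢ (B ×ˢ B')).image
      fun x => (s : K) ^ x.1 * x.2.1 * x.2.2, ?_, ?_⟩
    · exact Finset.mem_image.2 ⟨(0, 1, 1), by simp [h1, h1'], by simp⟩
    · intro b0 hb0
      obtain ⟨⟨j, b, b'⟩, hj, rfl⟩ := Finset.mem_image.1 hb0
      clear hb0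
      simp only [Finset.mem_product, Finset.mem_range] at hj
      obtain ⟨hj, hb, hb'⟩ := hj
      by_cases hjn : j ≤ n'
      · have e : κ ((s : K) ^ j * b * b') = κ b * κ ((s : K) ^ j * b') := by
          rw [← map_mul]; congr 1; ring
        rw [e]
        refine zorn_right κ Λ _ _ _ ?_ (hB b hb)
        rintro _ ⟨i, hi, r, hr, b'', hb'', rfl⟩
        refine zorn_self κ Λ ⟨r, hr, (s : K) ^ (i + j) * b'' * b', ?_, by ring⟩
        exact Finset.mem_coe.2 (Finset.mem_image.2 ⟨(i + j, b'', b'), by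
          simp only [Finset.mem_product, Finset.mem_range]
          exact ⟨by omega, hb'', hb'⟩, rfl⟩)
      · have e : κ ((s : K) ^ j * b * b') = κ b' * κ ((s : K) ^ j * b) := by
          rw [← map_mul]; congr 1; ring
        rw [e]
        refine zorn_right κ Λ _ _ _ ?_ (hB' b' hb')
        rintro _ ⟨i, hi, r, hr, b'', hb'', rfl⟩
        clear e
        obtain ⟨e, rfl⟩ : ∃ e, j = i + e := ⟨j - i, by omega⟩
        have h0 : ((s⁻¹ : Kˣ) : K) ^ i * (s : K) ^ i = 1 := by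
          rw [← mul_pow, Units.inv_mul, one_pow]
        refine zorn_self κ Λ ⟨r, hr, (s : K) ^ e * b * b'', ?_, ?_⟩
        · exact Finset.mem_coe.2 (Finset.mem_image.2 ⟨(e, b, b''), by
            simp only [Finset.mem_product, Finset.mem_range]
            exact ⟨by omega, hb, hb''⟩, rfl⟩)
        · rw [pow_add]
          linear_combination (τ * r * b'' * (s : K) ^ e * b) * h0
  · intro b hb
    rw [Finset.mem_singleton.1 hb, map_one]
    refine zorn_mono κ Λ ?_ h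
    rintro _ ⟨ρ, hρ, rfl⟩
    exact ⟨ρ, hρ, 1, by simp, by simp⟩

end

section
open Filter MonoidAlgebra

theorem p_TV :
    S_TV := by
  intro p L K N _ _ _ κ Λ τ th R hA hT hu hR ht h1
  have hτ : IsUnit τ := hT.unit τ hA.unit
  obtain ⟨v, hv⟩ := hτ.exists_left_inv
  refine ⟨⟨hR τ hA.mem, hτ, ht, ?_⟩, hT.zero, hT.add, fun a => ?_, hT.frob, hu, fun a ha => ?_⟩
  · rintro ⟨-, n, ρ, hρ, h⟩
    refine h1 (AddSubgroup.subset_closure ⟨1, Λ.one_mem, τ * ρ, ⟨ρ, hρ, rfl⟩, ?_⟩)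
    rw [← h, one_pow, map_one, mul_one]
  · obtain ⟨x, hx, h⟩ := hT.sub a
    refine ⟨v * (th a - 1), hR _ ?_, by rw [← mul_assoc, mul_comm τ, hv, one_mul]⟩
    rw [map_mul, map_sub, map_one, h, ← mul_assoc, ← map_mul, hv, map_one, one_mul]
    exact hx
  · obtain ⟨w, hw⟩ := (hu a ha).exists_right_inv
    obtain ⟨n, hn⟩ := hA.den (κ w)
    refine ⟨n, τ ^ n * w, hR _ (by rwa [map_mul, map_pow]), ?_⟩
    rw [mul_left_comm, hw, mul_one]

end

section
open Filter MonoidAlgebra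

section
variable {p : ℕ} {L K : Type} [AddCommGroup L] [CommRing K] {R : Subring K} {τ : K} {th : L → K}

theorem ball_mem (h : TV p R τ th) (a : L) : th a ∈ R := by
  obtain ⟨ρ, hρ, e⟩ := h.sub a
  rw [sub_eq_iff_eq_add.1 e]
  exact R.add_mem (R.mul_mem h.val.mem hρ) R.one_mem

/-- the ball of radius given by an element -/
def ball_E (h : TV p R τ th) (x : K) : AddSubgroup L where
  carrier := {b | ∃ z ∈ Rad R τ, th b - 1 = x * z}
  zero_mem' := ⟨0, Rad.zero R τ, by rw [h.zero, sub_self, mul_zero]⟩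
  add_mem' := by
    rintro a b ⟨z, hz, e⟩ ⟨z', hz', e'⟩
    refine ⟨th b * z + z', Rad.add h.val.mem (Rad.mul_left h.val.mem (ball_mem h b) hz) hz', ?_⟩
    rw [h.add]
    linear_combination th b * e + e'
  neg_mem' := by
    rintro a ⟨z, hz, e⟩
    refine ⟨-(th (-a) * z), Rad.neg h.val.mem (Rad.mul_left h.val.mem (ball_mem h _) hz), ?_⟩
    have := h.add (-a) a
    rw [neg_add_cancel, h.zero] at this
    linear_combination -th (-a) * e - this

theorem ball_pow (h : TV p R τ th) (j : ℕ) (b : L) :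
    th (p ^ j • b) - 1 = (th b - 1) ^ p ^ j := by
  induction j with
  | zero => simp
  | succ j ih => rw [pow_succ', mul_smul, h.frob, ih, ← pow_mul, mul_comm]

theorem ball_le (h : TV p R τ th) {x x' s : K} (hs : s ∈ R) (e : x = x' * s) :
    ball_E h x ≤ ball_E h x' := by
  rintro b ⟨z, hz, e'⟩
  exact ⟨s * z, Rad.mul_left h.val.mem hs hz, by rw [e', e, mul_assoc]⟩

theorem ball_tot (h : Val R τ) {x x' : K} (hx : IsUnit x) (hx' : IsUnit x') :
    (∃ s ∈ R, x = x' * s) ∨ ∃ s ∈ R, x' = x * s := by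
  obtain ⟨u, rfl⟩ := hx
  obtain ⟨v, rfl⟩ := hx'
  rcases h.total (v⁻¹ * u) with e | e
  · exact Or.inl ⟨_, e, by simp⟩
  · exact Or.inr ⟨_, e, by simp⟩

theorem ball_open (hp : 1 < p) (h : TV p R τ th) {a : L} (ha : a ≠ 0) :
    ∃ j, Lp p L j ≤ ball_E h (th a - 1) := by
  obtain ⟨n, ρ, hρ, e⟩ := h.den a ha
  refine ⟨n, fun b hb => ?_⟩
  obtain ⟨c, rfl⟩ := mem_Lp.1 hb
  obtain ⟨σ, hσ, e'⟩ := h.sub c
  obtain ⟨k, hk⟩ := Nat.exists_eq_add_of_lt (Nat.lt_pow_self hp : n < p ^ n)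
  refine ⟨(ρ * τ ^ k * σ ^ p ^ n) * τ, Rad.mul_left h.val.mem
    (R.mul_mem (R.mul_mem hρ (R.pow_mem h.val.mem _)) (R.pow_mem hσ _)) (Rad.self h.val.mem), ?_⟩
  have e2 : τ ^ p ^ n = τ ^ n * τ ^ k * τ := by rw [hk, pow_succ, pow_add]
  rw [ball_pow h, e', mul_pow, e2, e]
  ring

theorem ball_gap (h : TV p R τ th) {a0 : L} (h0 : a0 ≠ 0) :
    Gap R τ th (ball_E h (th a0 - 1)) := by
  intro a ha b hb
  have a1 : a ≠ 0 := fun e => ha (e ▸ zero_mem _)
  have u0 := h.unit a0 h0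
  have u1 := h.unit a a1
  rcases ball_tot h.val u0 u1 with ⟨s, hs, e⟩ | ⟨s, hs, e⟩
  · exact ball_le h hs e hb
  by_cases b0 : b = 0
  · exact ⟨0, Rad.zero R τ, by rw [b0, h.zero, sub_self, mul_zero]⟩
  have hs' : s ∉ Rad R τ := fun k => ha ⟨s, k, e⟩
  have us : IsUnit s := isUnit_of_mul_isUnit_right (e ▸ u1)
  obtain ⟨z, hz, e'⟩ := hb
  rcases ball_tot h.val (h.unit b b0) u1 with ⟨u, hu, k⟩ | ⟨u, hu, k⟩
  · refine ⟨u, ⟨hu, ?_⟩, k⟩
    obtain ⟨-, n, ρ, hρ, hn⟩ := hz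
    have e1 : z = s * u := u0.mul_left_cancel (by rw [← e', k, e, mul_assoc])
    rcases ball_tot h.val (us.pow (2 * n)) h.val.unit with ⟨v, hv, k'⟩ | ⟨v, hv, k'⟩
    · exact absurd ⟨hs, _, v, hv, k'⟩ hs'
    · refine ⟨2 * n, ρ * ρ * v, R.mul_mem (R.mul_mem hρ hρ) hv,
        (us.pow (2 * n)).mul_left_cancel ?_⟩
      rw [← mul_pow, ← e1, mul_comm 2 n, pow_mul, hn]
      rw [mul_comm 2 n] at k'
      linear_combination τ * ρ * ρ * k'
  · refine absurd ?_ hs'
    have e1 : s = z * u := u0.mul_left_cancel (by rw [← e, k, e', mul_assoc])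
    rw [e1]
    exact Rad.mul_right h.val.mem hz hu

end

theorem p_BALL :
    S_BALL := by
  intro p hp L K _ _ R τ th h hC ⟨a, ha⟩ m
  obtain ⟨_, ⟨a0, h0, rfl⟩, hE⟩ := hC {E | ∃ a0 : L, a0 ≠ 0 ∧ E = ball_E h (th a0 - 1)}
    ⟨_, a, ha, rfl⟩ (by
      rintro _ ⟨a0, h0, rfl⟩ _ ⟨a1, h1, rfl⟩ -
      rcases ball_tot h.val (h.unit a0 h0) (h.unit a1 h1) with ⟨s, hs, e⟩ | ⟨s, hs, e⟩
      · exact Or.inl (ball_le h hs e)
      · exact Or.inr (ball_le h hs e)) (by
      rintro _ ⟨a0, h0, rfl⟩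
      exact ball_open hp.out.one_lt h h0) (fun a0 h0 => ⟨_, ⟨a0, h0, rfl⟩, by
      rintro ⟨z, hz, e⟩
      have : 1 = z := (h.unit a0 h0).mul_left_cancel (by rw [mul_one, ← e])
      exact h.val.one (this ▸ hz)⟩) m
  exact ⟨_, hE, ball_open hp.out.one_lt h h0, ball_gap h h0⟩

end

section
open Filter MonoidAlgebra

theorem lag_prod {K ι : Type} [CommRing K] {R : Subring K} {τ : K} (hτ : τ ∈ R) (s : Finset ι)
    (f : ι → K) (h : ∀ i ∈ s, f i - 1 ∈ Rad R τ) : ∏ i ∈ s, f i - 1 ∈ Rad R τ :=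
  Finset.prod_induction f (fun x => x - 1 ∈ Rad R τ) (fun x y hx hy => by
    rw [show x * y - 1 = (x - 1) * (y - 1) + (x - 1 + (y - 1)) by ring]
    exact Rad.add hτ (Rad.mul_left hτ hx.1 hy) (Rad.add hτ hx hy))
    (by rw [sub_self]; exact Rad.zero R τ) h

theorem p_LAG :
    S_LAG := by
  classical
  intro p L K _ _ R τ th E hT hF hG a
  have := Fintype.ofFinite (L ⧸ E)
  have hτ := hT.val.mem
  have hR : ∀ c, th c ∈ R := fun c => by
    obtain ⟨ρ, h, e⟩ := hT.sub c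
    rw [eq_add_of_sub_eq e]
    exact R.add_mem (R.mul_mem hτ h) R.one_mem
  have hs : ∀ c o, th c = th o * th (c - o) := fun c o => by rw [← hT.add, add_sub_cancel]
  have hq : ∀ {c : L} {q : L ⧸ E}, (c : L ⧸ E) = q → c - q.out ∈ E := fun {c q} h =>
    (QuotientAddGroup.eq_iff_sub_mem).1 (h.trans q.out_eq'.symm)
  have ho : ∀ q : L ⧸ E, q ≠ 0 → q.out ∉ E := fun q h h' =>
    h (q.out_eq'.symm.trans ((QuotientAddGroup.eq_zero_iff _).2 h'))
  have hu : ∀ q : L ⧸ E, ∃ u, q ≠ 0 → (th q.out - 1) * u = 1 := fun q => by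
    by_cases h : q = 0
    · exact ⟨0, fun h' => absurd h h'⟩
    · obtain ⟨u, e⟩ := (hT.unit q.out fun e => ho q h (e ▸ E.zero_mem)).exists_right_inv
      exact ⟨u, fun _ => e⟩
  choose u hu using hu
  refine ⟨∏ q ∈ Finset.univ.erase (0 : L ⧸ E),
    (Polynomial.C (th q.out) - Polynomial.C (th (-a)) * Polynomial.X) * Polynomial.C (u q),
    fun b => ?_⟩
  simp only [Polynomial.eval_prod, Polynomial.eval_mul, Polynomial.eval_sub, Polynomial.eval_C,
    Polynomial.eval_X, ← hT.add, neg_add_eq_sub]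
  generalize b - a = c
  split_ifs with hc
  · refine lag_prod hτ _ _ fun q h => ?_
    have h0 := Finset.ne_of_mem_erase h
    obtain ⟨z, hz, e⟩ := hG _ (ho q h0) c hc
    rw [show (th q.out - th c) * u q - 1 = -z by
      linear_combination (1 - z) * hu q h0 - u q * e]
    exact Rad.neg hτ hz
  · have h0 : (c : L ⧸ E) ≠ 0 := fun h => hc ((QuotientAddGroup.eq_zero_iff _).1 h)
    rw [sub_zero, ← Finset.mul_prod_erase _ _ (Finset.mem_erase.2 ⟨h0, Finset.mem_univ _⟩)]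
    refine Rad.mul_right hτ ?_ ?_
    · obtain ⟨z, hz, e⟩ := hG _ (ho _ h0) _ (hq rfl)
      rw [show (th (c : L ⧸ E).out - th c) * u c = -(th (c : L ⧸ E).out * z) by
        linear_combination -u c * hs c (c : L ⧸ E).out - th (c : L ⧸ E).out * u c * e -
          th (c : L ⧸ E).out * z * hu c h0]
      exact Rad.neg hτ (Rad.mul_left hτ (hR _) hz)
    · rw [Finset.prod_mul_distrib, ← Finset.prod_equiv (Equiv.subLeft (c : L ⧸ E))
        (s := (Finset.univ.erase 0).erase (c : L ⧸ E)) (f := fun q => u (c - q)) (g := u)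
        (fun q => by simp [sub_eq_zero, eq_comm (a := (c : L ⧸ E)), and_comm]) fun _ _ => rfl,
        ← Finset.prod_mul_distrib]
      refine R.prod_mem fun q h => ?_
      have h1 : (c : L ⧸ E) - q ≠ 0 := sub_ne_zero.2 (Finset.ne_of_mem_erase h).symm
      obtain ⟨z, hz, e⟩ := hG _ (ho _ h1) _ (hq (c := c - q.out) (q := c - q)
        (by rw [QuotientAddGroup.mk_sub, QuotientAddGroup.out_eq']))
      have e1 := hs c q.out
      have e2 := hs (c - q.out) ((c : L ⧸ E) - q).out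
      have e3 := hu _ h1
      generalize ((c : L ⧸ E) - q).out = o at *
      rw [show (th q.out - th c) * u (c - q) = -(th q.out * (1 + th o * z)) by
        linear_combination -u (c - q) * e1 - th q.out * u (c - q) * e2 -
          th q.out * th o * u (c - q) * e - th q.out * (1 + th o * z) * e3]
      exact R.neg_mem (R.mul_mem (hR _) (R.add_mem R.one_mem (R.mul_mem (hR _) hz.1)))

end

section
open Filter MonoidAlgebra

section apx
variable {G L K : Type} [Group G] [AddCommGroup L] [DistribMulAction G L] [CommRing K]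

theorem apx_gen (th : L → K) (x : L) : (fun h : G => th (h⁻¹ • x)) ∈ AA G th :=
  Submodule.subset_span ⟨x, rfl⟩

theorem apx_one (th : L → K) (h0 : th 0 = 1) : (1 : G → K) ∈ AA G th := by
  have h1 : (fun h : G => th (h⁻¹ • (0 : L))) = 1 := by
    funext h
    rw [smul_zero, h0]
    rfl
  rw [← h1]
  exact apx_gen th 0

theorem apx_mul (th : L → K) (hadd : ∀ a b, th (a + b) = th a * th b) {φ ψ : G → K}
    (hφ : φ ∈ AA G th) (hψ : ψ ∈ AA G th) : φ * ψ ∈ AA G th := by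
  have h : AA G th * AA G th ≤ AA G th := by
    rw [AA, Submodule.span_mul_span, Submodule.span_le]
    rintro _ ⟨_, ⟨x, rfl⟩, _, ⟨y, rfl⟩, rfl⟩
    have h1 : ((fun h : G => th (h⁻¹ • x)) * fun h : G => th (h⁻¹ • y)) =
        fun h : G => th (h⁻¹ • (x + y)) := by
      funext h
      rw [smul_add, hadd]
      rfl
    simp only [h1]
    exact apx_gen th (x + y)
  exact h (Submodule.mul_mem_mul hφ hψ)

theorem apx_pow (th : L → K) (h0 : th 0 = 1) (hadd : ∀ a b, th (a + b) = th a * th b)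
    {φ : G → K} (hφ : φ ∈ AA G th) (n : ℕ) : φ ^ n ∈ AA G th := by
  induction n with
  | zero => rw [pow_zero]; exact apx_one th h0
  | succ n ih => rw [pow_succ]; exact apx_mul th hadd ih hφ

theorem apx_poly (th : L → K) (h0 : th 0 = 1) (hadd : ∀ a b, th (a + b) = th a * th b)
    {φ : G → K} (hφ : φ ∈ AA G th) (P : Polynomial K) :
    (fun h : G => P.eval (φ h)) ∈ AA G th := by
  induction P using Polynomial.induction_on' with
  | add P Q hP hQ =>
    have h1 : (fun h : G => (P + Q).eval (φ h)) =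
        (fun h : G => P.eval (φ h)) + fun h : G => Q.eval (φ h) := by
      funext h
      rw [Polynomial.eval_add]
      rfl
    rw [h1]
    exact Submodule.add_mem _ hP hQ
  | monomial n c =>
    have h1 : (fun h : G => (Polynomial.monomial n c).eval (φ h)) = c • φ ^ n := by
      funext h
      rw [Polynomial.eval_monomial]
      rfl
    rw [h1]
    exact Submodule.smul_mem _ c (apx_pow th h0 hadd hφ n)

/-- functions with values in `R` that are approximated by a function of `AA` -/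
def apx_Good (G : Type) {L K : Type} [Group G] [AddCommGroup L] [DistribMulAction G L]
    [CommRing K] (R : Subring K) (τ : K) (th : L → K) (lam : G → K) : Prop :=
  (∀ h, lam h ∈ R) ∧ ∃ φ ∈ AA G th, ∀ h, φ h - lam h ∈ Rad R τ

theorem apx_good_zero (R : Subring K) (τ : K) (th : L → K) : apx_Good G R τ th 0 :=
  ⟨fun _ => R.zero_mem, 0, Submodule.zero_mem _, fun h => by
    rw [sub_self]; exact Rad.zero R τ⟩

theorem apx_good_one (R : Subring K) (τ : K) (th : L → K) (h0 : th 0 = 1) :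
    apx_Good G R τ th 1 :=
  ⟨fun _ => R.one_mem, 1, apx_one th h0, fun h => by
    rw [sub_self]; exact Rad.zero R τ⟩

theorem apx_good_add {R : Subring K} {τ : K} (hτ : τ ∈ R) (th : L → K) {l l' : G → K}
    (hl : apx_Good G R τ th l) (hl' : apx_Good G R τ th l') : apx_Good G R τ th (l + l') := by
  obtain ⟨h1, φ, hφ, h2⟩ := hl
  obtain ⟨h3, ψ, hψ, h4⟩ := hl'
  refine ⟨fun h => R.add_mem (h1 h) (h3 h), φ + ψ, Submodule.add_mem _ hφ hψ, fun h => ?_⟩
  have h5 : (φ + ψ) h - (l + l') h = (φ h - l h) + (ψ h - l' h) := by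
    simp only [Pi.add_apply]
    ring
  rw [h5]
  exact Rad.add hτ (h2 h) (h4 h)

theorem apx_good_mul {R : Subring K} {τ : K} (hτ : τ ∈ R) (th : L → K)
    (hadd : ∀ a b, th (a + b) = th a * th b) {l l' : G → K}
    (hl : apx_Good G R τ th l) (hl' : apx_Good G R τ th l') : apx_Good G R τ th (l * l') := by
  obtain ⟨h1, φ, hφ, h2⟩ := hl
  obtain ⟨h3, ψ, hψ, h4⟩ := hl'
  refine ⟨fun h => R.mul_mem (h1 h) (h3 h), φ * ψ, apx_mul th hadd hφ hψ, fun h => ?_⟩
  have h5 : (φ * ψ) h - (l * l') h = φ h * (ψ h - l' h) + (φ h - l h) * l' h := by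
    simp only [Pi.mul_apply]
    ring
  have h6 : φ h ∈ R := by
    have := R.add_mem (Rad.sub_R (h2 h)) (h1 h)
    rwa [sub_add_cancel] at this
  rw [h5]
  exact Rad.add hτ (Rad.mul_left hτ h6 (h4 h)) (Rad.mul_right hτ (h2 h) (h3 h))

theorem apx_smul_Lp {p m : ℕ} (g : G) {a : L} (ha : a ∈ Lp p L m) : g • a ∈ Lp p L m := by
  obtain ⟨b, rfl⟩ := mem_Lp.1 ha
  exact mem_Lp.2 ⟨g • b, (smul_comm g (p ^ m) b).symm⟩

end apx

theorem p_APX (hLAG : S_LAG) :
    S_APX := by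
  intro p m G L K _ _ _ _ R τ th E H hTV hfin hgap hE _ hH c
  classical
  have hτ : τ ∈ R := hTV.val.mem
  have := Fintype.ofFinite (L ⧸ E)
  let π : G → (L ⧸ E → L ⧸ E) := fun h q => ((h⁻¹ • q.out : L) : L ⧸ E)
  have key : ∀ h h' : G, π h = π h' → (h : G ⧸ H) = h' := by
    intro h h' hh
    rw [QuotientGroup.eq]
    refine hH _ fun a => ?_
    have h1 : ∀ x : L, h⁻¹ • x - h'⁻¹ • x ∈ Lp p L m := by
      intro x
      have h2 : -(h'⁻¹ • (x : L ⧸ E).out) + h⁻¹ • (x : L ⧸ E).out ∈ E :=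
        QuotientAddGroup.eq.1 (congrFun hh (x : L ⧸ E)).symm
      have h3 : -(x : L ⧸ E).out + x ∈ E :=
        QuotientAddGroup.eq.1 (QuotientAddGroup.out_eq' (x : L ⧸ E))
      have h4 : h⁻¹ • x - h'⁻¹ • x =
          (-(h'⁻¹ • (x : L ⧸ E).out) + h⁻¹ • (x : L ⧸ E).out) +
            (h⁻¹ • (-(x : L ⧸ E).out + x) - h'⁻¹ • (-(x : L ⧸ E).out + x)) := by
        rw [smul_add, smul_add, smul_neg, smul_neg]
        abel
      rw [h4]
      exact AddSubgroup.add_mem _ (hE h2)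
        (AddSubgroup.sub_mem _ (apx_smul_Lp _ (hE h3)) (apx_smul_Lp _ (hE h3)))
    have h5 := h1 (h' • a)
    rwa [inv_smul_smul, ← mul_smul] at h5
  have g1 : ∀ q w : L ⧸ E, apx_Good G R τ th fun h => if π h q = w then 1 else 0 := by
    intro q w
    obtain ⟨P, hP⟩ := hLAG p L K R τ th E hTV hfin hgap w.out
    refine ⟨fun h => ?_, fun h => P.eval (th (h⁻¹ • q.out)),
      apx_poly th hTV.zero hTV.add (apx_gen th q.out) P, fun h => ?_⟩
    · dsimp only
      split_ifs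
      · exact R.one_mem
      · exact R.zero_mem
    · have h1 : π h q = w ↔ h⁻¹ • q.out - w.out ∈ E := by
        conv_lhs => rw [← QuotientAddGroup.out_eq' w, eq_comm]
        rw [QuotientAddGroup.eq, neg_add_eq_sub]
      have h2 := hP (h⁻¹ • q.out)
      dsimp only
      by_cases h3 : π h q = w
      · rw [if_pos h3]
        rwa [if_pos (h1.1 h3)] at h2
      · rw [if_neg h3]
        rwa [if_neg (fun h4 => h3 (h1.2 h4))] at h2
  have g2 : ∀ v : L ⧸ E → L ⧸ E, apx_Good G R τ th fun h => if π h = v then 1 else 0 := by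
    intro v
    have h1 : (fun h => if π h = v then (1 : K) else 0) =
        ∏ q : L ⧸ E, fun h => if π h q = v q then (1 : K) else 0 := by
      funext h
      rw [Finset.prod_apply, Finset.prod_boole]
      simp only [Finset.mem_univ, true_imp_iff, funext_iff]
    rw [h1]
    exact Finset.prod_induction _ (apx_Good G R τ th)
      (fun _ _ => apx_good_mul hτ th hTV.add) (apx_good_one R τ th hTV.zero)
      fun q _ => g1 q (v q)
  let T : Finset (L ⧸ E → L ⧸ E) :=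
    Finset.univ.filter fun v => ∃ h : G, (h : G ⧸ H) = c ∧ π h = v
  have g3 : apx_Good G R τ th (∑ v ∈ T, fun h => if π h = v then 1 else 0) :=
    Finset.sum_induction _ (apx_Good G R τ th) (fun _ _ => apx_good_add hτ th)
      (apx_good_zero R τ th) fun v _ => g2 v
  obtain ⟨-, φ, hφ, h2⟩ := g3
  refine ⟨φ, hφ, fun h => ?_⟩
  have h3 := h2 h
  rw [Finset.sum_apply, Finset.sum_ite_eq] at h3
  have h4 : π h ∈ T ↔ (h : G ⧸ H) = c := by
    simp only [T, Finset.mem_filter, Finset.mem_univ, true_and]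
    constructor
    · rintro ⟨h', h5, h6⟩
      rw [← h5]
      exact key h h' h6.symm
    · intro h5
      exact ⟨h, h5, rfl⟩
  by_cases h5 : (h : G ⧸ H) = c
  · rw [if_pos h5]
    rwa [if_pos (h4.2 h5)] at h3
  · rw [if_neg h5]
    rwa [if_neg (fun h6 => h5 (h4.1 h6))] at h3

end

section
open Filter MonoidAlgebra

section
variable {K N : Type} [CommRing K] [Ring N] {κ : K →+* N} {Λ : Subring N} {R : Subring K}

theorem iter_gen {Z : Set K} {l : N} {z : K} (hl : l ∈ Λ) (hz : z ∈ Z) : l * κ z ∈ LR κ Λ Z :=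
  AddSubgroup.subset_closure ⟨l, hl, z, hz, rfl⟩

theorem iter_mono {Z Z' : Set K} (h : Z ⊆ Z') : LR κ Λ Z ≤ LR κ Λ Z' :=
  AddSubgroup.closure_mono fun _ ⟨l, hl, z, hz, e⟩ => ⟨l, hl, z, h hz, e⟩

theorem iter_left {Z : Set K} {w x : N} (hw : w ∈ Λ) (hx : x ∈ LR κ Λ Z) : w * x ∈ LR κ Λ Z := by
  induction hx using AddSubgroup.closure_induction with
  | mem x hx =>
    obtain ⟨l, hl, z, hz, rfl⟩ := hx
    rw [← mul_assoc]
    exact iter_gen (Λ.mul_mem hw hl) hz
  | zero => rw [mul_zero]; exact zero_mem _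
  | add x y _ _ hx hy => rw [mul_add]; exact add_mem hx hy
  | neg x _ hx => rw [mul_neg]; exact neg_mem hx

theorem iter_fg {τ : K} (hτ : τ ∈ R) {x : N} (hx : x ∈ LR κ Λ (Rad R τ)) :
    ∃ a : Ideal R, a.FG ∧ a ≤ (Ideal.span {(⟨τ, hτ⟩ : R)}).radical ∧
      x ∈ LR κ Λ (Subtype.val '' (a : Set R)) := by
  induction hx using AddSubgroup.closure_induction with
  | mem x hx =>
    obtain ⟨l, hl, z, hz, rfl⟩ := hx
    exact ⟨Ideal.span {⟨z, hz.1⟩}, Submodule.fg_span_singleton _,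
      (Ideal.span_singleton_le_iff_mem _).2 ((mem_Rad_iff hτ hz.1).1 hz),
      iter_gen hl ⟨_, Ideal.mem_span_singleton_self _, rfl⟩⟩
  | zero => exact ⟨⊥, Submodule.fg_bot, bot_le, zero_mem _⟩
  | add x y _ _ hx hy =>
    obtain ⟨a, a1, a2, a3⟩ := hx
    obtain ⟨b, b1, b2, b3⟩ := hy
    exact ⟨a ⊔ b, Submodule.FG.sup a1 b1, sup_le a2 b2,
      add_mem (iter_mono (Set.image_mono (le_sup_left (a := a) (b := b))) a3)
        (iter_mono (Set.image_mono (le_sup_right (a := a) (b := b))) b3)⟩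
  | neg x _ hx =>
    obtain ⟨a, a1, a2, a3⟩ := hx
    exact ⟨a, a1, a2, neg_mem a3⟩

theorem iter_right {a b : Ideal R} {y : N} {z : R} (hy : y ∈ LR κ Λ (Subtype.val '' (a : Set R)))
    (hz : z ∈ b) : y * κ z ∈ LR κ Λ (Subtype.val '' ((a * b : Ideal R) : Set R)) := by
  induction hy using AddSubgroup.closure_induction with
  | mem x hx =>
    obtain ⟨l, hl, _, ⟨u, hu, rfl⟩, rfl⟩ := hx
    rw [mul_assoc, ← map_mul]
    exact iter_gen hl ⟨u * z, Ideal.mul_mem_mul hu hz, rfl⟩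
  | zero => rw [zero_mul]; exact zero_mem _
  | add x y _ _ hx hy => rw [add_mul]; exact add_mem hx hy
  | neg x _ hx => rw [neg_mul]; exact neg_mem hx

theorem iter_mul {a b : Ideal R} {c x : N} (hc : ∀ y, c * y = y * c)
    (ha : c ∈ LR κ Λ (Subtype.val '' (a : Set R))) (hx : x ∈ LR κ Λ (Subtype.val '' (b : Set R))) :
    c * x ∈ LR κ Λ (Subtype.val '' ((a * b : Ideal R) : Set R)) := by
  induction hx using AddSubgroup.closure_induction with
  | mem x hx =>
    obtain ⟨l, hl, _, ⟨u, hu, rfl⟩, rfl⟩ := hx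
    rw [← mul_assoc, hc l, mul_assoc]
    exact iter_left hl (iter_right ha hu)
  | zero => rw [mul_zero]; exact zero_mem _
  | add x y _ _ hx hy => rw [mul_add]; exact add_mem hx hy
  | neg x _ hx => rw [mul_neg]; exact neg_mem hx

theorem iter_pow {a : Ideal R} {c : N} (hc : ∀ y, c * y = y * c)
    (ha : c ∈ LR κ Λ (Subtype.val '' (a : Set R))) (m : ℕ) :
    c ^ (m + 1) ∈ LR κ Λ (Subtype.val '' ((a ^ (m + 1) : Ideal R) : Set R)) := by
  induction m with
  | zero => simpa using ha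
  | succ m ih =>
    rw [pow_succ' c, pow_succ' a]
    exact iter_mul hc ha ih

theorem iter_div {τ : K} (hτ : τ ∈ R) (hc : ∀ y, κ τ * y = y * κ τ) {x : N}
    (hx : x ∈ LR κ Λ (Subtype.val '' ((Ideal.span {(⟨τ, hτ⟩ : R)} ^ 2 : Ideal R) : Set R))) :
    ∃ y ∈ LR κ Λ {z | ∃ ρ ∈ R, z = τ * ρ}, x = κ τ * y := by
  induction hx using AddSubgroup.closure_induction with
  | mem x hx =>
    obtain ⟨l, hl, _, ⟨u, hu, rfl⟩, rfl⟩ := hx
    rw [Ideal.span_singleton_pow] at hu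
    obtain ⟨ρ, rfl⟩ := Ideal.mem_span_singleton.1 hu
    refine ⟨_, iter_gen hl ⟨ρ.1, ρ.2, rfl⟩, ?_⟩
    rw [← mul_assoc, hc l, mul_assoc, ← map_mul, ← mul_assoc, ← sq]
    rfl
  | zero => exact ⟨0, zero_mem _, (mul_zero _).symm⟩
  | add x y _ _ hx hy =>
    obtain ⟨x, h1, rfl⟩ := hx
    obtain ⟨y, h2, rfl⟩ := hy
    exact ⟨x + y, add_mem h1 h2, (mul_add _ _ _).symm⟩
  | neg x _ hx =>
    obtain ⟨x, h1, rfl⟩ := hx
    exact ⟨-x, neg_mem h1, (mul_neg _ _).symm⟩

end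

theorem p_ITER :
    S_ITER := by
  intro K N _ _ κ Λ τ R t n hA hτ _ hc hd h
  obtain ⟨a, a1, a2, a3⟩ := iter_fg hτ h
  rw [← Ideal.radical_pow _ two_ne_zero] at a2
  obtain ⟨m, hm⟩ := Ideal.exists_pow_le_of_le_radical_of_fg a2 a1
  have h1 := iter_pow (fun y => ((show Commute t y from hc y).pow_left n).eq) a3 m
  obtain ⟨w, hw, e⟩ := hd (n * (m + 1))
  have h2 := iter_left hw (iter_mono (Set.image_mono
    ((Ideal.pow_le_pow_right (Nat.le_succ m)).trans hm)) h1)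
  rw [← pow_mul, ← e] at h2
  obtain ⟨y, hy, e'⟩ := iter_div hτ hA.cen h2
  rwa [hA.unit.mul_left_cancel ((mul_one _).trans e')]

end

section
open Filter MonoidAlgebra

theorem p_UNU (hUN1 : S_UN1) (hUN2 : S_UN2) :
    S_UNU := by
  intro p _ G L K N _ _ _ _ _ κ Λ τ th ι hA hT hι hI a ha
  have := hA.art
  have k : JE κ th (AddSubgroup.zmultiples a) = ⊤ := by
    by_contra h
    obtain ⟨M, h1, h2⟩ := un3_zorn h
    obtain ⟨h3, h4⟩ := hUN1 p L K N κ Λ τ th hA hT M h2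
    exact h2.1 (hI M h3 h4 ((hUN2 p L K N κ Λ τ th hA hT).subset (by
      rintro _ ⟨g, rfl⟩; exact un3_max hι g h2))
      (fun e => ha (by have := h1 (AddSubgroup.mem_zmultiples a); rwa [e] at this)))
  have k1 : JE κ th (AddSubgroup.zmultiples a) ≤ Ideal.span {κ (th a - 1)} := by
    refine Submodule.span_le.2 ?_
    rintro _ ⟨b, hb, rfl⟩
    obtain ⟨c, hc⟩ := un3_dvd hT.zero hT.add a b hb
    exact Ideal.mem_span_singleton'.2 ⟨κ c, by rw [← map_mul, mul_comm, ← hc]⟩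
  obtain ⟨z, hz⟩ := Ideal.mem_span_singleton'.1 (k1 (k ▸ Submodule.mem_top : (1 : N) ∈ _))
  exact hT.unit _ (un3_unit hz)

end

end Pool.Agent.P.MP_7cb106_nt.Q2
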