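import Pool.Agent.P.MP_7cb106_nt.Q2.IfaceC

/-! Proofs of the steps MPK SFIN NIL GEN FMUL FDU FINF WMIN WH1 WALL WDU TH KILL KIL2 RSUM COR1 CORE DM BRG LCI FINAL COR2 CORC. -/

set_option autoImplicit false

namespace Pool.Agent.P.MP_7cb106_nt.Q2

section
open Filter MonoidAlgebra

theorem mpk_charP (p : ℕ) (k G : Type) [Field k] [CharP k p] [Group G] :
    CharP (MonoidAlgebra k G) p := by
  have hinj : Function.Injective (algebraMap k (MonoidAlgebra k G)) :=
    (algebraMap k (MonoidAlgebra k G)).injective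
  exact charP_of_injective_algebraMap hinj p

theorem p_MPK (hPWS : S_PWS) :
    S_MPK := by
  intro p c hp k G _ _ _ Γ hU
  have := mpk_charP p k G
  have h1 : ∀ r g, g ∈ Γ r → of k G g - 1 ∈ Mp k G (p ^ r) := by
    intro r g hg
    obtain ⟨x, -, rfl⟩ := (hPWS p c G Γ hU 0 r).2 g (by rwa [zero_add])
    have e : of k G (x ^ p ^ r) - 1 = (of k G x - 1) ^ p ^ r := by
      rw [sub_pow_char_pow_of_commute p r (Commute.one_right _), one_pow, map_pow]
    rw [e]
    exact Mp_pow (sub_one_mem_Mp x) _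
  have h2 : ∀ r x y, x⁻¹ * y ∈ Γ r → of k G y - of k G x ∈ Mp k G (p ^ r) := by
    intro r x y h
    have e : of k G y - of k G x = of k G x * (of k G (x⁻¹ * y) - 1) := by
      rw [mul_sub, mul_one, ← map_mul, mul_inv_cancel_left]
    rw [e]
    exact Mp_mul_left _ (h1 r _ h)
  refine ⟨h1, h2, fun r => ?_⟩
  rw [Kr, Submodule.span_le]
  rintro _ ⟨g, h, hh, rfl⟩
  have hr : r ≤ p ^ r := (Nat.lt_pow_self hp.out.one_lt).le
  exact Mp_anti hr (h2 r g (g * h) (by rwa [inv_mul_cancel_left]))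

end

section
open Filter MonoidAlgebra

theorem p_SFIN (hMPK : S_MPK) :
    S_SFIN := by
  intro p c _ k G _ _ _ Γ h n
  have := h.fin n
  refine FiniteDimensional.of_injective (LinearMap.pi fun q : G ⧸ Γ n =>
    Module.Dual.eval k _ (of k G q.out) ∘ₗ (Sn k G n).subtype) ?_
  rw [injective_iff_map_eq_zero]
  intro w hw
  refine Subtype.ext (ext_of fun g => ?_)
  have h1 : w.1 (of k G (g : G ⧸ Γ n).out) = 0 := congrFun hw g
  have h2 := mem_Sn.1 w.2 _ ((hMPK p c k G Γ h).2.2 n (Submodule.subset_span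
    ⟨(g : G ⧸ Γ n).out, _, QuotientGroup.eq.1 (QuotientGroup.out_eq' (g : G ⧸ Γ n)), rfl⟩))
  rwa [map_sub, h1, sub_zero, mul_inv_cancel_left] at h2

end

section
open Filter MonoidAlgebra

section
variable {k R : Type} [Field k] [Ring R] [Algebra k R]

/-- closed under multiplication on both sides -/
def nil_Two (J : Submodule k R) : Prop := ∀ x ∈ J, ∀ y, y * x ∈ J ∧ x * y ∈ J

theorem nil_mem {J : Submodule k R} {s x : R} :
    x ∈ J ⊔ LinearMap.range (LinearMap.mulRight k s) ↔ ∃ j ∈ J, ∃ y, x = j + y * s := by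
  rw [Submodule.mem_sup]
  constructor
  · rintro ⟨j, hj, _, ⟨y, rfl⟩, rfl⟩
    exact ⟨j, hj, y, rfl⟩
  · rintro ⟨j, hj, y, rfl⟩
    exact ⟨j, hj, _, ⟨y, rfl⟩, rfl⟩

theorem nil_pow {J : Submodule k R} (hJ : nil_Two J) {s : R} (hc : ∀ x, s * x - x * s ∈ J)
    (n : ℕ) : (J ⊔ LinearMap.range (LinearMap.mulRight k s)) ^ n ≤
      J ⊔ LinearMap.range (LinearMap.mulRight k (s ^ n)) := by
  induction n with
  | zero => exact fun x _ => nil_mem.2 ⟨0, J.zero_mem, x, by simp⟩
  | succ n ih =>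
    rw [pow_succ']
    refine Submodule.mul_le.2 fun a ha b hb => ?_
    obtain ⟨j, hj, y, rfl⟩ := nil_mem.1 ha
    obtain ⟨j', hj', y', rfl⟩ := nil_mem.1 (ih hb)
    refine nil_mem.2 ⟨j * (j' + y' * s ^ n) + y * s * j' + y * (s * y' - y' * s) * s ^ n,
      J.add_mem (J.add_mem (hJ _ hj _).2 (hJ _ hj' _).1) (hJ _ (hJ _ (hc _) _).1 _).2, y * y', ?_⟩
    rw [pow_succ']
    noncomm_ring

theorem nil_list (p : ℕ) (L : List R) : ∀ J : Submodule k R, nil_Two J →
    (∀ s ∈ L, (∀ x, s * x - x * s ∈ J) ∧ s ^ p ∈ J) →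
    ∃ J' : Submodule k R, nil_Two J' ∧ J ≤ J' ∧ (∀ s ∈ L, s ∈ J') ∧ ∃ n, J' ^ n ≤ J := by
  induction L with
  | nil => exact fun J hJ _ => ⟨J, hJ, le_rfl, by simp, 1, by simp⟩
  | cons s L ih =>
    intro J hJ h
    obtain ⟨hc, hs⟩ := h s List.mem_cons_self
    obtain ⟨J', h1, h2, h3, n, h4⟩ := ih (J ⊔ LinearMap.range (LinearMap.mulRight k s))
      (fun x hx y => by
        obtain ⟨j, hj, z, rfl⟩ := nil_mem.1 hx
        exact ⟨nil_mem.2 ⟨y * j, (hJ _ hj _).1, y * z, by noncomm_ring⟩,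
          nil_mem.2 ⟨j * y + z * (s * y - y * s), J.add_mem (hJ _ hj _).2 (hJ _ (hc _) _).1,
            z * y, by noncomm_ring⟩⟩)
      fun t ht => ⟨fun x => Submodule.mem_sup_left ((h t (List.mem_cons_of_mem _ ht)).1 x),
        Submodule.mem_sup_left (h t (List.mem_cons_of_mem _ ht)).2⟩
    refine ⟨J', h1, le_sup_left.trans h2, List.forall_mem_cons.2
      ⟨h2 (nil_mem.2 ⟨0, J.zero_mem, 1, by simp⟩), h3⟩, n * p, ?_⟩
    rw [pow_mul]
    refine (pow_le_pow_left' h4 p).trans ((nil_pow hJ hc p).trans fun x hx => ?_)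
    obtain ⟨j, hj, y, rfl⟩ := nil_mem.1 hx
    exact J.add_mem hj (hJ _ hs _).1

end

section
variable {k G : Type} [Field k] [Group G]

theorem nil_gen {H : Subgroup G} (g : G) {h : G} (hh : h ∈ H) :
    of k G (g * h) - of k G g ∈ Kr k H := Submodule.subset_span ⟨g, h, hh, rfl⟩

theorem nil_two {H : Subgroup G} (hH : H.Normal) : nil_Two (Kr k H) := by
  have h1 : ⊤ * Kr k H ≤ Kr k H := by
    conv_lhs => rw [← span_of, Kr, Submodule.span_mul_span]
    rw [Submodule.span_le]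
    rintro _ ⟨_, ⟨y, rfl⟩, _, ⟨g, h, hh, rfl⟩, rfl⟩
    have := nil_gen (k := k) (y * g) hh
    simp only [mul_sub, ← map_mul, ← mul_assoc]
    exact this
  have h2 : Kr k H * ⊤ ≤ Kr k H := by
    conv_lhs => rw [← span_of, Kr, Submodule.span_mul_span]
    rw [Submodule.span_le]
    rintro _ ⟨_, ⟨g, h, hh, rfl⟩, _, ⟨y, rfl⟩, rfl⟩
    have := nil_gen (k := k) (g * y) (hH.conj_mem' h hh y)
    rw [show g * y * (y⁻¹ * h * y) = g * h * y by group] at this
    simp only [sub_mul, ← map_mul]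
    exact this
  exact fun x hx y => ⟨h1 (Submodule.mul_mem_mul trivial hx), h2 (Submodule.mul_mem_mul hx trivial)⟩

end

theorem p_NIL :
    S_NIL := by
  intro p c _ k G _ _ _ Γ u
  have hchar : CharP (MonoidAlgebra k G) p :=
    charP_of_injective_algebraMap (algebraMap k (MonoidAlgebra k G)).injective p
  have step : ∀ a, ∃ n, Kr k (Γ a) ^ n ≤ Kr k (Γ (a + 1)) := by
    intro a
    classical
    have := u.fin (a + 1)
    have := Fintype.ofFinite (G ⧸ Γ (a + 1))
    obtain ⟨J, h1, h2, h3, n, h4⟩ := nil_list p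
      (((Finset.univ : Finset (G ⧸ Γ (a + 1))).filter fun q => q.out ∈ Γ a).toList.map
        fun q => of k G q.out - 1) (Kr k (Γ (a + 1))) (nil_two (u.normal _)) (by
      intro s hs
      obtain ⟨q, hq, rfl⟩ := List.mem_map.1 hs
      have hq' := (Finset.mem_filter.1 (Finset.mem_toList.1 hq)).2
      generalize q.out = h at hq'
      constructor
      · intro x
        have hx : x ∈ Submodule.span k (Set.range (of k G)) := by
          rw [span_of]; trivial
        induction hx using Submodule.span_induction with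
        | mem x hx =>
          obtain ⟨g, rfl⟩ := hx
          have e := nil_gen (k := k) (g * h) (u.anti (show a + 1 ≤ a + 0 + c by
            have := u.c1; omega) (u.comm a 0 h⁻¹ g⁻¹ (inv_mem hq') (by rw [u.top]; trivial)))
          rw [show g * h * (h⁻¹ * g⁻¹ * h⁻¹⁻¹ * g⁻¹⁻¹) = h * g by group, map_mul, map_mul] at e
          convert e using 1
          noncomm_ring
        | zero => simp
        | add x y _ _ hx hy =>
          convert add_mem hx hy using 1
          noncomm_ring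
        | smul t x _ hx =>
          rw [mul_smul_comm, smul_mul_assoc, ← smul_sub]
          exact Submodule.smul_mem _ _ hx
      · have e := nil_gen (k := k) 1 (u.pow_mem a h hq')
        rw [one_mul, map_one, map_pow] at e
        rwa [sub_pow_char_of_commute p (Commute.one_right (of k G h)), one_pow])
    refine ⟨n, (pow_le_pow_left' (Submodule.span_le.2 ?_) n).trans h4⟩
    rintro _ ⟨g, h, hh, rfl⟩
    obtain ⟨h', e⟩ := QuotientGroup.mk_out_eq_mul (Γ (a + 1)) h
    have m1 := h3 _ (List.mem_map.2 ⟨(h : G ⧸ Γ (a + 1)), Finset.mem_toList.2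
      (Finset.mem_filter.2 ⟨Finset.mem_univ _, by
        rw [e]; exact mul_mem hh (u.anti (Nat.le_succ a) h'.2)⟩), rfl⟩)
    rw [e] at m1
    have m2 := (h1 _ (J.sub_mem m1 (h2 (nil_gen h h'.2))) (of k G g)).1
    rw [sub_sub_sub_cancel_left, mul_sub, ← map_mul, mul_one] at m2
    exact m2
  have all : ∀ j, ∃ n, Kr k (Γ 0) ^ n ≤ Kr k (Γ j) := by
    intro j
    induction j with
    | zero => exact ⟨1, by simp⟩
    | succ j ih =>
      obtain ⟨n, h1⟩ := ih
      obtain ⟨m, h2⟩ := step j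
      exact ⟨n * m, by rw [pow_mul]; exact (pow_le_pow_left' h1 m).trans h2⟩
  intro j
  obtain ⟨n, h⟩ := all j
  have ha : aug k G ≤ Kr k (Γ 0) := Submodule.span_le.2 (by
    rintro _ ⟨g, rfl⟩
    have e := nil_gen (k := k) (H := Γ 0) 1 (h := g) (by rw [u.top]; trivial)
    rwa [one_mul, map_one] at e)
  exact ⟨n, Submodule.mul_le.2 fun x hx y _ =>
    (nil_two (u.normal j) _ (h (pow_le_pow_left' ha n hx)) y).2⟩

end

section
open Filter MonoidAlgebra

section
variable {k G ι : Type} [Field k] [Group G]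

theorem gen_le (b : ι → MonoidAlgebra k G) (hb : ∀ q, b q ∈ Mp k G 1) (j : ℕ) :
    Mic.Mon k b j ≤ Mp k G j := by
  refine Submodule.span_le.2 ?_
  rintro _ ⟨l, rfl, rfl⟩
  induction l with
  | nil => rw [List.length_nil, Mp_zero]; trivial
  | cons q l ih =>
    rw [List.map_cons, List.prod_cons, List.length_cons, add_comm]
    exact Mp_mul (hb q) ih

theorem gen_mul (b : ι → MonoidAlgebra k G) (j : ℕ) :
    Submodule.span k (Set.range b) * Mic.Mon k b j ≤ Mic.Mon k b (j + 1) := by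
  rw [Mic.Mon, Submodule.span_mul_span, Submodule.span_le]
  rintro _ ⟨_, ⟨q, rfl⟩, _, ⟨l, rfl, rfl⟩, rfl⟩
  exact Submodule.subset_span ⟨q :: l, rfl, by rw [List.map_cons, List.prod_cons]⟩

theorem gen_step (b : ι → MonoidAlgebra k G) (hb : ∀ q, b q ∈ Mp k G 1)
    (ha : aug k G ≤ Submodule.span k (Set.range b) ⊔ Mp k G 2) (j : ℕ) :
    Mp k G j ≤ Mic.Mon k b j ⊔ Mp k G (j + 1) := by
  induction j with
  | zero =>
    rw [Mp_zero, ← span_of, Submodule.span_le]
    rintro _ ⟨g, rfl⟩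
    rw [← add_sub_cancel 1 (of k G g)]
    exact Submodule.add_mem_sup (Submodule.subset_span ⟨[], rfl, rfl⟩) (sub_one_mem_Mp g)
  | succ j ih =>
    rw [Mp_succ j]
    refine (mul_le_mul' le_rfl ih).trans ?_
    rw [Submodule.mul_sup, ← Mp_succ]
    refine sup_le ((mul_le_mul' ha le_rfl).trans ?_) le_sup_right
    rw [Submodule.sup_mul]
    refine sup_le_sup (gen_mul b j) (Submodule.mul_le.2 fun x hx y hy => ?_)
    rw [show j + 1 + 1 = 2 + j by ring]
    exact Mp_mul hx (gen_le b hb j hy)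

end

theorem p_GEN (hMPK : S_MPK) :
    S_GEN := by
  intro p c hp k G _ _ _ Γ hU
  obtain ⟨h1, h2, -⟩ := hMPK p c k G Γ hU
  have p2 := hp.out.two_le
  refine ⟨gen_step _ (fun q => sub_one_mem_Mp _) (Submodule.span_le.2 ?_), fun x y => ?_⟩
  · rintro _ ⟨g, rfl⟩
    have e : of k G g - 1 = (of k G (g : G ⧸ Γ 1).out - 1) +
        (of k G g - of k G (g : G ⧸ Γ 1).out) := by abel
    simp only [e]
    refine Submodule.add_mem_sup (Submodule.subset_span ⟨(g : G ⧸ Γ 1), rfl⟩) ?_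
    exact Mp_anti (by rwa [pow_one]) (h2 1 _ g (QuotientGroup.eq.1 (QuotientGroup.out_eq' _)))
  · have h3 : 3 ≤ p ^ c := by
      have c1 := hU.c1
      have c2 := hU.c2
      rcases c1.eq_or_lt with rfl | h
      · rw [pow_one]
        omega
      · calc 3 ≤ 2 ^ 2 := by norm_num
          _ ≤ p ^ 2 := Nat.pow_le_pow_left p2 2
          _ ≤ p ^ c := Nat.pow_le_pow_right (by omega) h
    have h4 := hU.comm 0 0 x y (hU.top ▸ trivial) (hU.top ▸ trivial)
    rw [zero_add, zero_add] at h4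
    have e : (of k G x - 1) * (of k G y - 1) - (of k G y - 1) * (of k G x - 1) =
        (of k G (x * y * x⁻¹ * y⁻¹) - 1) * of k G (y * x) := by
      rw [sub_mul _ 1 (of k G (y * x)), ← map_mul, show x * y * x⁻¹ * y⁻¹ * (y * x) = x * y by group,
        map_mul, map_mul]
      noncomm_ring
    rw [e]
    exact Mp_mul_right (Mp_anti h3 (h1 c _ h4)) _

end

section
open Filter MonoidAlgebra

theorem fmul_two {k G : Type} [Field k] [Group G]
    {W : Submodule k (Module.Dual k (MonoidAlgebra k G))} (h : Bi W)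
    {w : Module.Dual k (MonoidAlgebra k G)} (hw : w ∈ W) (a : MonoidAlgebra k G) :
    w ∘ₗ LinearMap.mulLeft k a ∈ W ∧ w ∘ₗ LinearMap.mulRight k a ∈ W := by
  have ha : a ∈ Submodule.span k (Set.range (of k G)) := by
    rw [span_of]; trivial
  induction ha using Submodule.span_induction with
  | mem x hx =>
    obtain ⟨g, rfl⟩ := hx
    have e1 : LinearMap.mulLeft k (of k G g) = tr k g 1 :=
      LinearMap.ext fun x => by rw [tr_apply, map_one, mul_one]; rfl
    have e2 : LinearMap.mulRight k (of k G g) = tr k 1 g :=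
      LinearMap.ext fun x => by rw [tr_apply, map_one, one_mul]; rfl
    exact ⟨e1 ▸ h.inv w hw g 1, e2 ▸ h.inv w hw 1 g⟩
  | zero => simp
  | add x y _ _ hx hy =>
    have e1 : w ∘ₗ LinearMap.mulLeft k (x + y) =
        w ∘ₗ LinearMap.mulLeft k x + w ∘ₗ LinearMap.mulLeft k y :=
      LinearMap.ext fun z => by simp [add_mul]
    have e2 : w ∘ₗ LinearMap.mulRight k (x + y) =
        w ∘ₗ LinearMap.mulRight k x + w ∘ₗ LinearMap.mulRight k y :=
      LinearMap.ext fun z => by simp [mul_add]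
    exact ⟨e1 ▸ add_mem hx.1 hy.1, e2 ▸ add_mem hx.2 hy.2⟩
  | smul c x _ hx =>
    have e1 : w ∘ₗ LinearMap.mulLeft k (c • x) = c • (w ∘ₗ LinearMap.mulLeft k x) :=
      LinearMap.ext fun z => by simp
    have e2 : w ∘ₗ LinearMap.mulRight k (c • x) = c • (w ∘ₗ LinearMap.mulRight k x) :=
      LinearMap.ext fun z => by simp
    exact ⟨e1 ▸ W.smul_mem c hx.1, e2 ▸ W.smul_mem c hx.2⟩

theorem p_FMUL :
    S_FMUL := by
  intro k G _ _ W h
  refine ⟨eq_top_iff.2 fun x _ => (Submodule.mem_dualCoannihilator x).2 fun w hw =>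
    (Submodule.mem_dualAnnihilator w).1 hw.2 x (Mp_zero (k := k) (G := G) ▸ Submodule.mem_top),
    fun i j x y hx hy => (Submodule.mem_dualCoannihilator _).2 fun w hw => ?_⟩
  refine (Submodule.mem_dualCoannihilator x).1 hx (w ∘ₗ LinearMap.mulRight k y)
    ⟨(fmul_two h hw.1 y).2, (Submodule.mem_dualAnnihilator _).2 fun a ha => ?_⟩
  exact (Submodule.mem_dualCoannihilator y).1 hy (w ∘ₗ LinearMap.mulLeft k a)
    ⟨(fmul_two h hw.1 a).1, (Submodule.mem_dualAnnihilator _).2 fun b hb =>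
      (Submodule.mem_dualAnnihilator w).1 hw.2 _ (Mp_mul ha hb)⟩

end

section
open Filter MonoidAlgebra

theorem p_FDU :
    S_FDU := by
  intro k G _ _ W h j N hj
  have := h N
  have : FiniteDimensional k ↥(W ⊓ Sn k G N) := Submodule.finiteDimensional_inf_right _ _
  rw [← Subspace.dualAnnihilator_dualCoannihilator_eq (W := Mp k G j ⊔ FF W N),
    Submodule.dualAnnihilator_sup_eq, FF, FF, Subspace.dualCoannihilator_dualAnnihilator_eq]
  congr 1
  exact le_antisymm (le_inf inf_le_right (inf_le_inf_left _ (Sn_mono hj)))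
    (le_inf (inf_le_right.trans inf_le_left) inf_le_left)

end

section
open Filter MonoidAlgebra

theorem finf_step {k G : Type} [Field k] [Group G]
    {W : Submodule k (Module.Dual k (MonoidAlgebra k G))} (hW : Bi W) (n : ℕ)
    (h : W ⊓ Sn k G (n + 1) ≤ W ⊓ Sn k G n) :
    W ⊓ Sn k G (n + 2) ≤ W ⊓ Sn k G (n + 1) := by
  rintro w ⟨hw, hs⟩
  refine ⟨hw, mem_Sn.2 fun x hx => ?_⟩
  have key : ∀ g : G, ∀ y ∈ Mp k G n, w ((of k G g - 1) * y) = 0 := by
    intro g y hy
    have e : ∀ z, (w ∘ₗ tr k g 1 - w) z = w ((of k G g - 1) * z) := by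
      intro z
      rw [LinearMap.sub_apply, LinearMap.comp_apply, tr_apply, map_one, mul_one, sub_mul, one_mul,
        map_sub]
    have h1 : w ∘ₗ tr k g 1 - w ∈ W ⊓ Sn k G (n + 1) := by
      refine ⟨W.sub_mem (hW.inv w hw g 1) hw, mem_Sn.2 fun z hz => ?_⟩
      rw [e]
      refine mem_Sn.1 hs _ ?_
      have := Mp_mul (sub_one_mem_Mp (k := k) g) hz
      rwa [show 1 + (n + 1) = n + 2 by omega] at this
    rw [← e]
    exact mem_Sn.1 (h h1).2 y hy
  rw [Mp_succ] at hx
  refine Submodule.mul_induction_on hx (fun a ha b hb => ?_) (fun a b ha hb => ?_)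
  · refine Submodule.span_induction (p := fun a _ => w (a * b) = 0) ?_ ?_ ?_ ?_ ha
    · rintro _ ⟨g, rfl⟩
      exact key g b hb
    · simp
    · intro x y _ _ hx hy
      rw [add_mul, map_add, hx, hy, add_zero]
    · intro c x _ hx
      rw [smul_mul_assoc, map_smul, hx, smul_zero]
  · rw [map_add, ha, hb, add_zero]

theorem finf_lt {k G : Type} [Field k] [Group G]
    {W : Submodule k (Module.Dual k (MonoidAlgebra k G))}
    (hf : ∀ n, FiniteDimensional k (Sn k G n)) (hW : Bi W) (hn : ¬ FiniteDimensional k W)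
    (n : ℕ) : ¬ W ⊓ Sn k G (n + 1) ≤ W ⊓ Sn k G n := by
  intro h
  have h1 : ∀ j, W ⊓ Sn k G (n + j + 1) ≤ W ⊓ Sn k G (n + j) := by
    intro j
    induction j with
    | zero => exact h
    | succ j ih => exact finf_step hW (n + j) ih
  have h2 : ∀ j, W ⊓ Sn k G (n + j) ≤ Sn k G n := by
    intro j
    induction j with
    | zero => exact inf_le_right
    | succ j ih => exact (h1 j).trans ih
  have h3 : W ≤ Sn k G n := by
    intro w hw
    obtain ⟨m, hm⟩ := hW.sm w hw
    exact h2 m ⟨hw, Sn_mono (Nat.le_add_left m n) hm⟩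
  have := hf n
  exact hn (Submodule.finiteDimensional_of_le h3)

theorem p_FINF :
    S_FINF := by
  intro k G _ _ W hf hW hn
  have hfin : ∀ n, FiniteDimensional k
      (W ⊓ Sn k G n : Submodule k (Module.Dual k (MonoidAlgebra k G))) := fun n =>
    haveI := hf n
    Submodule.finiteDimensional_of_le inf_le_right
  refine ⟨fun n h => finf_lt hf hW hn n ?_, fun n => ?_⟩
  · have := hfin n
    have := hfin (n + 1)
    have h1 := Submodule.dualAnnihilator_anti h
    unfold FF at h1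
    rwa [Subspace.dualCoannihilator_dualAnnihilator_eq,
      Subspace.dualCoannihilator_dualAnnihilator_eq] at h1
  · induction n with
    | zero => exact Nat.zero_le _
    | succ n ih =>
      have := hfin (n + 1)
      have h1 : (W ⊓ Sn k G n : Submodule k (Module.Dual k (MonoidAlgebra k G))) <
          W ⊓ Sn k G (n + 1) :=
        lt_of_le_not_ge (inf_le_inf_left _ (Sn_mono (Nat.le_succ n))) (finf_lt hf hW hn n)
      have := Submodule.finrank_lt_finrank_of_lt h1
      omega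

end

section
open Filter MonoidAlgebra

theorem p_WMIN (hFINF : S_FINF) :
    S_WMIN := by
  intro k G _ _ W hS hB hW
  have fin : ∀ (V : Submodule k (Module.Dual k (MonoidAlgebra k G))) n,
      FiniteDimensional k (V ⊓ Sn k G n : Submodule k (Module.Dual k (MonoidAlgebra k G))) :=
    fun V n => by
      have := hS n
      exact Submodule.finiteDimensional_inf_right _ _
  obtain ⟨V, hV, hm⟩ := zorn_le_nonempty₀
    (α := (Submodule k (Module.Dual k (MonoidAlgebra k G)))ᵒᵈ)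
    {V | Bi (OrderDual.ofDual V) ∧ ¬ FiniteDimensional k
      (OrderDual.ofDual V : Submodule k (Module.Dual k (MonoidAlgebra k G)))} (by
      intro c hc hch y hy
      let I : Submodule k (Module.Dual k (MonoidAlgebra k G)) := ⨅ V ∈ c, OrderDual.ofDual V
      have mem : ∀ w, w ∈ I ↔ ∀ V ∈ c, w ∈ OrderDual.ofDual V := fun w => by
        simp only [I, Submodule.mem_iInf]
      refine ⟨OrderDual.toDual I, ⟨⟨fun w hw a b => ?_, fun w hw => ?_⟩, fun hf => ?_⟩,
        fun z hz w hw => (mem w).1 hw z hz⟩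
      · exact (mem _).2 fun V hV => (hc hV).1.inv w ((mem w).1 hw V hV) a b
      · exact (hc hy).1.sm w ((mem w).1 hw y hy)
      · have hf : FiniteDimensional k I := hf
        obtain ⟨n, hn⟩ : ∃ n, Module.finrank k I < n := ⟨_, Nat.lt_succ_self _⟩
        obtain ⟨U, hU, hmin⟩ := (measure fun V : (Submodule k (Module.Dual k (MonoidAlgebra k G)))ᵒᵈ =>
          Module.finrank k (OrderDual.ofDual V ⊓ Sn k G n :
            Submodule k (Module.Dual k (MonoidAlgebra k G)))).wf.has_min c ⟨y, hy⟩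
        have le : OrderDual.ofDual U ⊓ Sn k G n ≤ I := fun w hw => (mem w).2 fun V hV => by
          rcases hch.total hU hV with h | h
          · have := fin (OrderDual.ofDual U) n
            have e : OrderDual.ofDual V ⊓ Sn k G n = OrderDual.ofDual U ⊓ Sn k G n :=
              Submodule.eq_of_le_of_finrank_le (inf_le_inf_right _ h) (not_lt.1 (hmin V hV))
            exact (e.ge hw).1
          · exact h hw.1
        have h1 := (hFINF k G _ hS (hc hU).1 (hc hU).2).2 n
        have h2 := Submodule.finrank_mono le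
        omega) (OrderDual.toDual W) ⟨hB, hW⟩
  exact ⟨OrderDual.ofDual V, hV, hm.1.1, hm.1.2, fun V' h1 h2 h3 =>
    le_antisymm h1 (hm.2 (y := OrderDual.toDual V') ⟨h2, h3⟩ h1)⟩

end

section
open Filter MonoidAlgebra

theorem wh1_tr {k G : Type} [Field k] [Group G] (a b g : G) :
    tr k a b (of k G g) = of k G (a * (g * b)) := by
  rw [tr_apply, map_mul, map_mul]

theorem wh1_comm {k G : Type} [Field k] [Group G] {H : Subgroup G} [H.Normal] (a b : G)
    (c : G ⧸ H) : tr k a b ∘ₗ res k (cs c) =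
      res k (cs ((a : G ⧸ H) * (c * (b : G ⧸ H)))) ∘ₗ tr k a b := by
  refine ext_of fun g => ?_
  have e : a * (g * b) ∈ cs ((a : G ⧸ H) * (c * (b : G ⧸ H))) ↔ g ∈ cs c := by
    simp [cs]
  rw [LinearMap.comp_apply, LinearMap.comp_apply, wh1_tr, res_of, res_of]
  by_cases h : g ∈ cs c
  · rw [if_pos h, if_pos (e.2 h), wh1_tr]
  · rw [if_neg h, if_neg (mt e.1 h), map_zero]

theorem p_WH1 :
    S_WH1 := by
  intro k G _ _ W H hW hH hF
  have : Fintype (G ⧸ H) := Fintype.ofFinite _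
  have le : WH W H ≤ W := fun w hw => by
    have e : w = ∑ c : G ⧸ H, w ∘ₗ res k (cs c) := LinearMap.ext fun x => by
      simp only [LinearMap.sum_apply, LinearMap.comp_apply]
      rw [← map_sum, sum_res]
    rw [e]
    exact W.sum_mem fun c _ => mem_WH.1 hw c
  refine ⟨le, fun w hw a b => mem_WH.2 fun c => ?_, fun w hw => hW.sm w (le hw)⟩
  rw [LinearMap.comp_assoc, wh1_comm, ← LinearMap.comp_assoc]
  exact hW.inv _ (mem_WH.1 hw _) a b

end

section
open Filter MonoidAlgebra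

theorem p_WALL (hMPK : S_MPK) :
    S_WALL := by
  classical
  intro p c _ k G _ _ _ Γ W hU hB hW hH n w' hw'
  obtain ⟨w, hw, hw0⟩ := Submodule.exists_mem_ne_zero_of_ne_bot hW
  obtain ⟨g, hg⟩ : ∃ g : G, w (of k G g) ≠ 0 := by
    by_contra h
    exact hw0 (ext_of fun x => by_contra fun e => h ⟨x, e⟩)
  obtain ⟨n0, hn0⟩ := hB.sm w hw
  have hK := (hMPK p c k G Γ hU).2.2 (max n n0)
  have const : ∀ u ∈ Sn k G (max n n0), ∀ x y : G, (x : G ⧸ Γ (max n n0)) = y →
      u (of k G y) = u (of k G x) := by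
    intro u hu x y h
    have := mem_Sn.1 hu _ (hK (Submodule.subset_span ⟨x, x⁻¹ * y, QuotientGroup.eq.1 h, rfl⟩))
    rwa [mul_inv_cancel_left, map_sub, sub_eq_zero] at this
  have := hU.fin (max n n0)
  have : Fintype (G ⧸ Γ (max n n0)) := Fintype.ofFinite _
  have h1 : w ∘ₗ res k (cs (g : G ⧸ Γ (max n n0))) ∈ W := mem_WH.1 ((hH _).symm ▸ hw) _
  have e : w' = ∑ q : G ⧸ Γ (max n n0), (w' (of k G q.out) / w (of k G g)) •
      ((w ∘ₗ res k (cs (g : G ⧸ Γ (max n n0)))) ∘ₗ tr k (g * q.out⁻¹) 1) := by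
    refine ext_of fun h => ?_
    have t : ∀ q : G ⧸ Γ (max n n0), g * q.out⁻¹ * h ∈ cs (g : G ⧸ Γ (max n n0)) ↔
        (h : G ⧸ Γ (max n n0)) = q := fun q => by
      have : (g * q.out⁻¹ * h)⁻¹ * g = h⁻¹ * q.out := by group
      rw [cs, Set.mem_ofPred_eq, QuotientGroup.eq, this, ← QuotientGroup.eq, QuotientGroup.out_eq']
    simp only [LinearMap.sum_apply, LinearMap.smul_apply, LinearMap.comp_apply, tr_apply, map_one,
      mul_one, ← map_mul, res_of]
    rw [Finset.sum_eq_single (h : G ⧸ Γ (max n n0))]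
    · rw [if_pos ((t _).2 rfl), ← const w (Sn_mono (le_max_right _ _) hn0) _ g ((t _).2 rfl),
        smul_eq_mul, div_mul_cancel₀ _ hg]
      exact const w' (Sn_mono (le_max_left _ _) hw') _ _ (QuotientGroup.out_eq' _)
    · intro q _ hq
      rw [if_neg fun e => hq ((t q).1 e).symm, map_zero, smul_zero]
    · simp
  rw [e]
  exact W.sum_mem fun q _ => W.smul_mem _ (hB.inv _ h1 _ _)

end

section
open Filter MonoidAlgebra

theorem wdu_bound {k G : Type} [Field k] [Group G]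
    (V : Submodule k (Module.Dual k (MonoidAlgebra k G))) [FiniteDimensional k V]
    (h : ∀ w ∈ V, ∃ n, w ∈ Sn k G n) : ∃ n, V ≤ Sn k G n := by
  obtain ⟨s, hs⟩ := Module.Finite.iff_fg.1 (inferInstance : Module.Finite k V)
  choose! n hn using h
  refine ⟨s.sup n, ?_⟩
  conv_lhs => rw [← hs]
  refine Submodule.span_le.2 fun w hw => Sn_mono (Finset.le_sup (f := n) hw) (hn w ?_)
  rw [← hs]
  exact Submodule.subset_span hw

/-- the elements that can be cut into pieces -/
def wdu_U {k G : Type} [Field k] [Group G]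
    (W : Submodule k (Module.Dual k (MonoidAlgebra k G))) (H : Subgroup G) [Fintype (G ⧸ H)]
    (T : ℕ) : Submodule k (MonoidAlgebra k G) where
  carrier := {x | ∃ f : G ⧸ H → MonoidAlgebra k G, (∀ q, f q ∈ FF W T) ∧
    x - ∑ q, res k (cs q) (f q) ∈ Mp k G T}
  add_mem' := by
    rintro x y ⟨f, hf, hx⟩ ⟨g, hg, hy⟩
    refine ⟨f + g, fun q => add_mem (hf q) (hg q), ?_⟩
    have := add_mem hx hy
    simp only [Pi.add_apply, map_add, Finset.sum_add_distrib]
    rwa [add_sub_add_comm]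
  zero_mem' := ⟨0, fun _ => zero_mem _, by simp⟩
  smul_mem' := by
    rintro c x ⟨f, hf, hx⟩
    refine ⟨c • f, fun q => Submodule.smul_mem _ c (hf q), ?_⟩
    have := Submodule.smul_mem _ c hx
    simp only [Pi.smul_apply, map_smul, ← Finset.smul_sum]
    rwa [← smul_sub]

theorem p_WDU :
    S_WDU := by
  classical
  intro k G _ _ W H _ hfin hbi hW
  obtain ⟨n0, hn0⟩ := wdu_bound (WH W H) hbi.sm
  refine ⟨n0, fun T x hx => ?_⟩
  change x ∈ wdu_U W H T
  rw [← Subspace.forall_mem_dualAnnihilator_apply_eq_zero_iff]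
  intro w hw
  rw [Submodule.mem_dualAnnihilator] at hw
  refine mem_Sn.1 (hn0 (mem_WH.2 fun q => ?_)) x hx
  have := hfin T
  have : FiniteDimensional k (W ⊓ Sn k G T : Submodule k _) :=
    Submodule.finiteDimensional_of_le inf_le_right
  have h1 : w ∘ₗ res k (cs q) ∈ (FF W T).dualAnnihilator := by
    rw [Submodule.mem_dualAnnihilator]
    intro y hy
    refine hw _ ⟨Pi.single q y, fun r => ?_, ?_⟩
    · by_cases e : r = q
      · subst e
        rwa [Pi.single_eq_same]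
      · rw [Pi.single_eq_of_ne e]
        exact zero_mem _
    · rw [Finset.sum_eq_single q, Pi.single_eq_same, sub_self]
      · exact zero_mem _
      · intro r _ e
        rw [Pi.single_eq_of_ne e, map_zero]
      · simp
  rw [FF, Subspace.dualCoannihilator_dualAnnihilator_eq] at h1
  exact h1.1

end

section
open Filter MonoidAlgebra

theorem p_TH (hMPK : S_MPK) (hCONT : S_CONT) :
    S_TH := by
  intro p c hp k G L N _ _ _ _ _ _ Γ ex F b Λ τ t Φ hU hL hF hN
  have hc : CharP (MonoidAlgebra k G) p :=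
    charP_of_injective_algebraMap (algebraMap k (MonoidAlgebra k G)).injective p
  obtain ⟨-, m2, -⟩ := hMPK p c k G Γ hU
  have sub1 : ∀ a, thN p k ex Φ a - 1 = Φ fun r => of k G (ex a ^ p ^ r) - 1 := fun a => by
    rw [thN, ← map_one Φ, ← map_sub]; rfl
  have last : ∀ a, thN p k ex Φ a - 1 = Φ fun r => (of k G (ex a) - 1) ^ p ^ r := fun a => by
    rw [sub1]
    refine congrArg Φ (funext fun r => ?_)
    rw [sub_pow_char_pow_of_commute p r (Commute.one_right _), one_pow, map_pow]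
  refine ⟨?_, fun a a' => ?_, fun a => ?_, fun a => ?_, fun g a => ?_, last⟩
  · rw [thN, ← map_one Φ]
    refine congrArg Φ (funext fun r => ?_)
    rw [hL.zero, one_pow, map_one, Pi.one_apply]
  · rw [← sub_eq_zero, thN, thN, thN, ← map_mul, ← map_sub]
    refine hN.neg _ fun K => eventually_atTop.2 ⟨K, fun r hr => ?_⟩
    have h1 := hL.add r r (p ^ r • a) (p ^ r • a') (mem_Lp.2 ⟨a, rfl⟩) (mem_Lp.2 ⟨a', rfl⟩)
    rw [← smul_add, hL.nsmul, hL.nsmul, hL.nsmul] at h1
    have h2 := hF.mp _ (m2 _ _ _ h1)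
    rw [map_mul] at h2
    refine hF.anti ?_ h2
    have h3 : r < p ^ r := Nat.lt_pow_self hp.out.one_lt
    calc K * p ^ r ≤ p ^ r * p ^ r := Nat.mul_le_mul_right _ (by omega)
      _ = p ^ (r + r) := (pow_add _ _ _).symm
      _ ≤ p ^ (r + r + 1) := Nat.pow_le_pow_right hp.out.pos (Nat.le_succ _)
  · obtain ⟨y, hy, e⟩ := hN.deg 1 (fun r => (of k G (ex a) - 1) ^ p ^ r)
      (Eventually.of_forall fun r => by
        rw [one_mul]
        exact hF.mp _ (Mp_pow (sub_one_mem_Mp _) _))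
    exact ⟨y, hy, by rw [last, e, pow_one]⟩
  · rw [sub1, sub1, ← map_pow]
    refine congrArg Φ (funext fun r => ?_)
    rw [Pi.pow_apply, sub_pow_char_of_commute p (Commute.one_right _), one_pow, hL.nsmul,
      ← map_pow (of k G), ← pow_mul, ← pow_mul, mul_comm]
  · rw [thN, thN, ← map_mul, ← map_mul]
    refine congrArg Φ (funext fun r => ?_)
    rw [Pi.mul_apply, Pi.mul_apply, ← map_mul, ← map_mul, hL.act, conj_pow, inv_mul_cancel_right]

end

section
open Filter MonoidAlgebra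

theorem p_KILL (hMPK : S_MPK) (hPWC : S_PWC) :
    S_KILL := by
  classical
  intro p c _ k G L N _ _ _ _ _ _ Γ ex F b Λ τ t Φ hU hL hF hT f hf j _ x M hM
  have hp : 1 < p := (Fact.out : p.Prime).one_lt
  have key : ∀ (r : ℕ) (z : MonoidAlgebra k G),
      ∑ q : G ⧸ Γ j, res k (cs q) z * of k G (ex (q.out⁻¹ • x) ^ p ^ r) -
        of k G (ex x ^ p ^ r) * z ∈ Mp k G (p ^ (r + j)) := fun r z => by
    have hz : z ∈ Submodule.span k (Set.range (of k G)) := by rw [span_of]; trivial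
    induction hz using Submodule.span_induction with
    | mem z hz =>
      obtain ⟨h, rfl⟩ := hz
      rw [Finset.sum_eq_single (h : G ⧸ Γ j) (fun q _ hq => by
        rw [res_of, if_neg (fun e : h ∈ cs q => hq (Eq.symm e)), zero_mul]) (by simp),
        res_of, if_pos (show h ∈ cs (h : G ⧸ Γ j) from rfl)]
      obtain ⟨g, hg⟩ := QuotientGroup.mk_out_eq_mul (Γ j) h
      have e : of k G (ex x ^ p ^ r) * of k G h = of k G h * of k G ((h⁻¹ * ex x * h) ^ p ^ r) := by
        rw [← map_mul, ← map_mul]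
        congr 1
        have := conj_pow (i := p ^ r) (a := h⁻¹) (b := ex x)
        rw [inv_inv] at this
        rw [this]
        group
      rw [e, ← mul_sub]
      refine Mp_mul_left _ ((hMPK p c k G Γ hU).2.1 _ _ _ ((hPWC p c G Γ hU r j _ _).2 ?_))
      rw [hL.act, hg]
      have := (Γ j).mul_mem ((hU.normal j).conj_mem _ (g⁻¹).2 (h⁻¹ * ex x * h)⁻¹) g.2
      convert this using 1
      simp only [InvMemClass.coe_inv]
      group
    | zero => simp
    | add y z _ _ hy hz =>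
      convert Submodule.add_mem _ hy hz using 1
      simp only [map_add, add_mul, mul_add, Finset.sum_add_distrib]
      abel
    | smul a y _ hy =>
      convert Submodule.smul_mem _ a hy using 1
      simp only [map_smul, smul_mul_assoc, mul_smul_comm, smul_sub, Finset.smul_sum]
  obtain ⟨y, hy, e⟩ := hT.deg M (fun r => ∑ q : G ⧸ Γ j, res k (cs q) (f r) *
    of k G (ex (q.out⁻¹ • x) ^ p ^ r) - of k G (ex x ^ p ^ r) * f r)
    (Eventually.of_forall fun r => hF.mp _ (Mp_anti (by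
      rw [pow_add, mul_comm]; exact Nat.mul_le_mul_left _ hM) (key r (f r))))
  have e0 := hT.neg (fun r => of k G (ex x ^ p ^ r) * f r) fun K =>
    (eventually_ge_atTop K).mono fun r hr => hF.left _ _ _ (hF.anti (by
      rw [two_mul, pow_add]
      exact Nat.mul_le_mul_right _ (hr.trans (Nat.lt_pow_self hp).le)) (hf r))
  refine ⟨y, hy, ?_⟩
  rw [← e, ← add_zero (Φ _), ← e0, ← map_add]
  simp only [thN, ← map_mul, ← map_sum]
  congr 1
  ext1 r
  simp

end

section
open Filter MonoidAlgebra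

theorem p_KIL2 :
    S_KIL2 := by
  intro p hp G L K N _ _ _ _ _ κ Λ τ th Γ _ z hA h φ hφ
  induction hφ using Submodule.span_induction with
  | mem φ hφ =>
    obtain ⟨x, rfl⟩ := hφ
    exact fun M => ⟨M, fun j hj => h j x M (hj.trans (Nat.lt_pow_self hp.out.one_lt).le)⟩
  | zero => exact fun M => ⟨0, fun j _ => ⟨0, Λ.zero_mem, by simp⟩⟩
  | add φ ψ _ _ h1 h2 =>
    intro M
    obtain ⟨j1, h1⟩ := h1 M
    obtain ⟨j2, h2⟩ := h2 M
    refine ⟨max j1 j2, fun j hj => ?_⟩
    obtain ⟨y1, m1, e1⟩ := h1 j (le_of_max_le_left hj)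
    obtain ⟨y2, m2, e2⟩ := h2 j (le_of_max_le_right hj)
    exact ⟨y1 + y2, Λ.add_mem m1 m2, by
      simp only [Pi.add_apply, map_add, mul_add, Finset.sum_add_distrib, e1, e2]⟩
  | smul u φ _ h1 =>
    intro M
    obtain ⟨n, hn⟩ := hA.den (κ u)
    obtain ⟨j1, h1⟩ := h1 (M + n)
    refine ⟨j1, fun j hj => ?_⟩
    obtain ⟨y, m, e⟩ := h1 j hj
    refine ⟨y * (κ τ ^ n * κ u), Λ.mul_mem m hn, ?_⟩
    have c : κ τ ^ n * y = y * κ τ ^ n := (Commute.pow_left (hA.cen y) n).eq
    simp only [Pi.smul_apply, smul_eq_mul, mul_comm u, map_mul, ← mul_assoc, ← Finset.sum_mul, e]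
    rw [pow_add, mul_assoc (κ τ ^ M), c, ← mul_assoc]

end

section
open Filter MonoidAlgebra

theorem p_RSUM :
    S_RSUM := by
  classical
  intro k G _ _ H H' _ hH c x
  have : res k (cs c) = ∑ q : G ⧸ H', if (q.out : G ⧸ H) = c then res k (cs q) else 0 := by
    refine ext_of fun g => ?_
    have e : ((g : G ⧸ H').out : G ⧸ H) = g := by
      obtain ⟨h, hh⟩ := QuotientGroup.mk_out_eq_mul H' g
      rw [hh, QuotientGroup.mk_mul_of_mem _ (hH h.2)]
    rw [LinearMap.sum_apply, Finset.sum_eq_single (g : G ⧸ H'), e, res_of]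
    · by_cases h : (g : G ⧸ H) = c
      · rw [if_pos h, if_pos (show g ∈ cs c from h), res_of,
          if_pos (show g ∈ cs (g : G ⧸ H') from rfl)]
      · rw [if_neg h, if_neg (show g ∉ cs c from h), LinearMap.zero_apply]
    · intro q _ hq
      split_ifs
      · rw [res_of, if_neg fun h : g ∈ cs q => hq (Eq.symm h)]
      · rfl
    · simp
  rw [this, LinearMap.sum_apply]
  refine Finset.sum_congr rfl fun q _ => ?_
  split_ifs <;> rfl

end

section
open Filter MonoidAlgebra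

theorem p_COR1 (hKILL : S_KILL) (hKIL2 : S_KIL2) (hRSUM : S_RSUM) :
    S_COR1 := by
  classical
  intro p c _ k G L K N _ _ _ _ _ _ _ Γ ex F b Λ t Φ κ τ th R hU hL hF hT hth hτ f hf j q
  rintro ⟨φ, hφ, hr⟩
  have : ∀ j, Fintype (G ⧸ Γ j) := fun j =>
    have := hU.fin j
    Fintype.ofFinite _
  obtain ⟨j0, h0⟩ := hKIL2 p G L K N κ Λ τ th Γ (fun j q => Φ fun r => res k (cs q) (f r)) hT.amb
    (fun j x M hM => by
      simp only [hth]
      exact hKILL p c k G L N Γ ex F b Λ (κ τ) t Φ hU hL hF hT f hf j x M hM) φ hφ 1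
  obtain ⟨y, hy, e⟩ := h0 (max j0 j) (le_max_left _ _)
  have e1 : (fun r => res k (cs q) (f r)) = ∑ q' : G ⧸ Γ (max j0 j),
      if (q'.out : G ⧸ Γ j) = q then (fun r => res k (cs q') (f r)) else 0 := by
    funext r
    rw [hRSUM k G (Γ j) (Γ (max j0 j)) (hU.anti (le_max_right _ _)) q (f r), Finset.sum_apply]
    refine Finset.sum_congr rfl fun q' _ => ?_
    split_ifs <;> rfl
  have e2 : Φ (fun r => res k (cs q) (f r)) = y * κ τ - ∑ q' : G ⧸ Γ (max j0 j),
      Φ (fun r => res k (cs q') (f r)) *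
        κ (φ q'.out - if (q'.out : G ⧸ Γ j) = q then 1 else 0) := by
    rw [← hT.amb.cen, ← pow_one (κ τ), ← e, ← Finset.sum_sub_distrib, e1, map_sum]
    refine Finset.sum_congr rfl fun q' _ => ?_
    rw [map_sub, mul_sub, sub_sub_cancel]
    split_ifs
    · rw [map_one, mul_one]
    · rw [map_zero, map_zero, mul_zero]
  rw [e2]
  exact sub_mem (AddSubgroup.subset_closure ⟨y, hy, τ, Rad.self hτ, rfl⟩)
    (sum_mem fun q' _ => AddSubgroup.subset_closure ⟨_, hT.mem _, _, hr _, rfl⟩)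

end

section
open Filter MonoidAlgebra

theorem core_left {K N : Type} [CommRing K] [Ring N] (κ : K →+* N) (Λ : Subring N) (Z : Set K)
    {l x : N} (hl : l ∈ Λ) (hx : x ∈ LR κ Λ Z) : l * x ∈ LR κ Λ Z := by
  induction hx using AddSubgroup.closure_induction with
  | mem x hx =>
    obtain ⟨l', hl', z, hz, rfl⟩ := hx
    exact AddSubgroup.subset_closure ⟨l * l', Λ.mul_mem hl hl', z, hz, (mul_assoc _ _ _).symm⟩
  | zero => rw [mul_zero]; exact AddSubgroup.zero_mem _
  | add x y _ _ hx hy => rw [mul_add]; exact AddSubgroup.add_mem _ hx hy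
  | neg x _ hx => rw [mul_neg]; exact AddSubgroup.neg_mem _ hx

theorem core_ev (p : ℕ) [hp : Fact p.Prime] (K : ℕ) :
    ∀ᶠ r in atTop, K * p ^ r ≤ p ^ (2 * r) := by
  refine eventually_atTop.2 ⟨K, fun r hr => ?_⟩
  rw [two_mul, pow_add]
  exact Nat.mul_le_mul_right _ (hr.trans (Nat.lt_pow_self hp.out.one_lt).le)

theorem p_CORE (hSFIN : S_SFIN) (hGEN : S_GEN) (hFMUL : S_FMUL) (hFDU : S_FDU) (hFINF : S_FINF) (hWDU : S_WDU) (hNR4 : S_NR4) (hTH : S_TH) (hKK : S_KK) (hUN3 : S_UN3) (hZORN : S_ZORN) (hTV : S_TV) (hBALL : S_BALL) (hAPX : S_APX) (hCOR1 : S_COR1) (hITER : S_ITER) (hLFIN : S_LFIN) :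
    S_CORE := by
  intro p c _ k G L _ _ _ _ _ Γ ex W hU hL hI hS hW hinf j hBi hfin
  classical
  have hfd := hSFIN p c k G Γ hU
  have := hU.fin j
  have := hU.fin 1
  let _ : Fintype (G ⧸ Γ j) := Fintype.ofFinite _
  obtain ⟨n0, hn0⟩ := hWDU k G W (Γ j) hfd hBi hfin
  obtain ⟨hF0, hFm⟩ := hFMUL k G W hW
  obtain ⟨hg1, hg2⟩ := hGEN p c k G Γ hU
  obtain ⟨i0, ρ, F', hO⟩ := Mic.micro p (FF W) (fun q : G ⧸ Γ 1 => of k G q.out - 1) hF0
    (fun n => FF_anti W (Nat.le_succ n)) hFm (fun q => Mp_le_FF W 1 (sub_one_mem_Mp _))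
    (fun q q' => Mp_le_FF W 3 (hg2 _ _))
    (fun n => by
      rw [hFDU k G W hfd n (n + 1) (Nat.le_succ n)]
      exact sup_le ((hg1 n).trans (sup_le_sup_left (Mp_le_FF W _) _)) le_sup_right)
    (fun n => ⟨n, le_rfl, (hFINF k G W hfd hW hinf).1 n⟩)
  set b : MonoidAlgebra k G := of k G i0.out - 1 with hb
  obtain ⟨N, _, Λ, τ, t, Φ, hUl⟩ := hNR4 p (MonoidAlgebra k G)
    (fun n => (FF W n : Set (MonoidAlgebra k G))) b ρ (fun N => by
      obtain ⟨O, _, t, io, h1, -, h3, h4, h5, -, h7, h8, -⟩ := hO N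
      exact ⟨O, inferInstance, t, io, h1, h3, h4, h5, h7, h8⟩)
  have hFil : Fil (FF W) := ⟨Mp_le_FF W, FF_anti W, fun n x y hy => by
    have := hFm 0 n x y (by rw [hF0]; trivial) hy
    rwa [zero_add] at this⟩
  obtain ⟨t0, tadd, tsub, tfrob, tact, tb⟩ := hTH p c k G L N Γ ex (FF W) b Λ τ t Φ hU hL hFil hUl
  obtain ⟨K, _, κ, hinj, hun, hS1, hS2⟩ := hKK N (Set.range (thN p k ex Φ)) (by
    rintro _ ⟨a, rfl⟩ _ ⟨a', rfl⟩
    rw [← tadd, ← tadd, add_comm])
  choose th hth using fun a => hS1 _ ⟨a, rfl⟩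
  obtain ⟨σ, rfl⟩ := hS2 τ hUl.amb.cen
  have hTh : Th p κ Λ σ th :=
    ⟨hinj, hun, hinj (by rw [hth, t0, map_one]),
      fun a a' => hinj (by rw [map_mul, hth, hth, hth, tadd]),
      fun a => by rw [hth]; exact tsub a,
      fun a => hinj (by rw [map_sub, map_pow, map_sub, hth, hth, map_one, tfrob])⟩
  have hu0 : IsUnit (th (ex.symm i0.out) - 1) := by
    apply hun
    rw [map_sub, hth, map_one, tb, Equiv.apply_symm_apply]
    exact hUl.bu
  have hne : ex.symm i0.out ≠ 0 := by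
    intro h
    rw [h, hTh.zero, sub_self] at hu0
    have := hu0.map κ
    rw [map_zero, isUnit_zero_iff] at this
    exact hUl.amb.nontriv this.symm
  have hall := hUN3 p G L K N κ Λ σ th
    ((Φ.toMonoidHom.comp (Pi.constMonoidHom ℕ (MonoidAlgebra k G))).comp (of k G)) hUl.amb hTh
    (fun g a => by rw [hth, hth]; exact tact g a) hI ⟨_, hu0⟩
  obtain ⟨R, hR1, hR2, hR3⟩ := hZORN K N κ Λ σ hUl.amb
  have hTV := hTV p L K N κ Λ σ th R hUl.amb hTh hall hR1 hR2 hR3
  obtain ⟨hLf, hCh⟩ := hLFIN p c G L Γ ex hU hL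
  obtain ⟨m, hm⟩ := hS j
  obtain ⟨E, hE1, ⟨j', hE2⟩, hE3⟩ := hBALL p L K R σ th hTV hCh ⟨_, hne⟩ m
  have hEf : Finite (L ⧸ E) := by
    have := hLf j'
    exact Finite.of_surjective _ (QuotientAddGroup.map_surjective_of_surjective
      (Lp p L j') E (AddMonoidHom.id L) (fun q => by
        obtain ⟨a, rfl⟩ := QuotientAddGroup.mk_surjective q
        exact ⟨a, rfl⟩) (fun a ha => hE2 ha))
  have hA := hAPX p m G L K R σ th E (Γ j) hTV hEf hE3 hE1 (hU.normal j) hm
  choose f hf1 hf2 using fun r : ℕ => hn0 (p ^ (2 * r)) (b ^ n0) (Mp_pow (sub_one_mem_Mp _) n0)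
  have hsum : Φ (fun _ => b) ^ n0 = ∑ q : G ⧸ Γ j, Φ (fun r => res k (cs q) (f r q)) := by
    rw [← map_pow, ← map_sum, ← sub_eq_zero, ← map_sub]
    refine hUl.neg _ fun M => (core_ev p M).mono fun r hr => ?_
    have := FF_anti W hr (Mp_le_FF W _ (hf2 r))
    simpa [Finset.sum_apply] using this
  have hLR : Φ (fun _ => b) ^ n0 ∈ LR κ Λ (Rad R σ) := by
    rw [hsum]
    exact AddSubgroup.sum_mem _ fun q _ => hCOR1 p c k G L K N Γ ex (FF W) b Λ t Φ κ σ th R hU hL
      hFil hUl hth hTV.val.mem (fun r => f r q) (fun r => hf1 r q) j q (hA q)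
  obtain ⟨v, hv, u, hvu, hbt⟩ := hUl.bt
  have ht : t ^ n0 ∈ LR κ Λ (Rad R σ) := by
    have h1 : ∀ n : ℕ, v ^ n * (u * t) ^ n = t ^ n := by
      intro n
      induction n with
      | zero => simp
      | succ n ih =>
        rw [pow_succ v, pow_succ' (u * t), mul_assoc, ← mul_assoc v, ← mul_assoc v, hvu, one_mul,
          ← mul_assoc, ← hUl.tcen, mul_assoc, ih, pow_succ']
    rw [← h1, ← hbt]
    exact core_left κ Λ _ (Λ.pow_mem hv n0) hLR
  exact hR3 (hITER K N κ Λ σ R t n0 hUl.amb hTV.val.mem hUl.tmem hUl.tcen hUl.tdiv ht)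

end

section
open Filter MonoidAlgebra

theorem p_DM (hLIE2 : S_LIE2) (hLIE3 : S_LIE3) (hIRR : S_IRR) (hSEP : S_SEP) (hSFIN : S_SFIN) (hWMIN : S_WMIN) (hWH1 : S_WH1) (hWALL : S_WALL) (hCORE : S_CORE) :
    S_DM := by
  intro p c _ k G _ _ _ Γ hU hA hZ W hW
  refine or_iff_not_imp_left.2 fun hf n => ?_
  obtain ⟨L, _, ex, he⟩ := hLIE2 p c G Γ hU
  obtain ⟨_, hL⟩ := hLIE3 p c G L Γ ex hU he
  obtain ⟨V, h1, h2, h3, h4⟩ := hWMIN k G W (hSFIN p c k G Γ hU) hW hf
  refine (hWALL p c k G Γ V hU h2 (fun e => h3 (by rw [e]; infer_instance)) (fun j => ?_) n).trans h1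
  obtain ⟨a, b⟩ := hWH1 k G V (Γ j) h2 (hU.normal j) (hU.fin j)
  exact h4 _ a b (hCORE p c k G L Γ ex V hU hL (hIRR p c G L Γ ex hU hL hA)
    (hSEP p c G L Γ ex hU hL hZ) h2 h3 j b)

end

section
open Filter MonoidAlgebra

/-- the form of a function -/
noncomputable def brg_T (k G : Type) [Field k] [Group G] [TopologicalSpace G] :
    LocallyConstant G k →ₗ[k] Module.Dual k (MonoidAlgebra k G) :=
  ((MonoidAlgebra.basis G k).constr k).toLinearMap ∘ₗ LocallyConstant.coeFnₗ k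

theorem brg_of {k G : Type} [Field k] [Group G] [TopologicalSpace G] (f : LocallyConstant G k)
    (g : G) : brg_T k G f (of k G g) = f g :=
  (MonoidAlgebra.basis G k).constr_basis k _ g

theorem brg_inj {k G : Type} [Field k] [Group G] [TopologicalSpace G] :
    Function.Injective (brg_T k G) := fun f f' h =>
  LocallyConstant.ext fun g => by rw [← brg_of, ← brg_of, h]

theorem p_BRG (hNIL : S_NIL) :
    S_BRG := by
  intro p c _ k G _ _ _ _ _ Γ hU hL hW W hI
  have hs : ∀ f : LocallyConstant G k, ∃ n, brg_T k G f ∈ Sn k G n := fun f => by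
    obtain ⟨j, hj⟩ := hL f
    obtain ⟨n, hn⟩ := hNIL p c k G Γ hU j
    refine ⟨n, mem_Sn.2 fun x hx => ?_⟩
    have : Kr k (Γ j) ≤ LinearMap.ker (brg_T k G f) := by
      refine Submodule.span_le.2 ?_
      rintro _ ⟨g, h, hh, rfl⟩
      rw [SetLike.mem_coe, LinearMap.mem_ker, map_sub, brg_of, brg_of, hj g h hh, sub_self]
    exact this (hn hx)
  have hB : Bi (W.map (brg_T k G)) := by
    refine ⟨?_, ?_⟩
    · rintro _ ⟨f, hf, rfl⟩ a b
      refine ⟨_, hI f hf a b, ext_of fun x => ?_⟩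
      rw [brg_of, LinearMap.comp_apply, tr_apply, ← map_mul, ← map_mul, brg_of, ← mul_assoc]
      rfl
    · rintro _ ⟨f, -, rfl⟩
      exact hs f
  rcases hW _ hB with h | h
  · exact .inl (Module.Finite.equiv (Submodule.equivMapOfInjective _ brg_inj W).symm)
  · refine .inr (eq_top_iff.2 fun f _ => ?_)
    obtain ⟨n, hn⟩ := hs f
    obtain ⟨f', hf', e⟩ := h n hn
    exact brg_inj e ▸ hf'

end

section
open Filter MonoidAlgebra

theorem p_LCI :
    S_LCI := by
  intro k G _ _ _ _ _ _ f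
  have h1 : ∀ᶠ g in nhds (1 : G), ∀ x ∈ (Set.univ : Set G), f (x * g) = f x := by
    refine isCompact_univ.eventually_forall_of_forall_eventually
      (P := fun g x => f (x * g) = f x) fun x _ => ?_
    have a1 : IsLocallyConstant fun z : G × G => f (z.2 * z.1) :=
      f.isLocallyConstant.comp_continuous (continuous_snd.mul continuous_fst)
    have a2 : IsLocallyConstant fun z : G × G => f z.2 :=
      f.isLocallyConstant.comp_continuous continuous_snd
    filter_upwards [a1.eventually_eq ((1 : G), x), a2.eventually_eq ((1 : G), x)] with z e1 e2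
    rw [e1, e2, mul_one]
  obtain ⟨V, hV, hVo, hV1⟩ := mem_nhds_iff.1 h1
  obtain ⟨U, hU⟩ := ProfiniteGrp.exist_openNormalSubgroup_sub_open_nhds_of_one hVo hV1
  exact ⟨U, fun x g hg => hV (hU hg) x (Set.mem_univ x)⟩

end

section
open Filter MonoidAlgebra

theorem final_closed {G : Type} [Group G] [TopologicalSpace G] [IsTopologicalGroup G]
    (Γ : ℕ → Subgroup G) (ho : ∀ r, IsOpen (Γ r : Set G)) (N : Subgroup G)
    (h : ∀ x, (∀ j, ∃ y ∈ N, y⁻¹ * x ∈ Γ j) → x ∈ N) : IsClosed (N : Set G) := by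
  refine isClosed_of_closure_subset fun x hx => h x fun j => ?_
  have h1 : IsOpen ((fun y : G => y⁻¹ * x) ⁻¹' (Γ j : Set G)) := (ho j).preimage (by fun_prop)
  obtain ⟨y, hy1, hy2⟩ := mem_closure_iff.1 hx _ h1 (by simp [(Γ j).one_mem])
  exact ⟨y, hy2, hy1⟩

theorem p_FINAL (hPFA : S_PFA) (hUFA : S_UFA) (hGMS : S_GMS) (hDM : S_DM) (hBRG : S_BRG) (hLCI : S_LCI) :
    S_FINAL := by
  intro p hp k _ _ G _ _ _ _ _ _ hP hS hC hT hZ hN
  obtain ⟨c, hc⟩ := hPFA p G hP hC
  obtain ⟨hU, ho⟩ := hUFA p c G (Gm p G) hc hS fun x hx =>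
    hT x (isOfFinOrder_iff_pow_eq_one.2 ⟨p, hp.out.pos, hx⟩)
  have hG := (hGMS p G hP).1
  have hAS : AS (Gm p G) := by
    intro N hn h
    have hcl := final_closed (Gm p G) ho N h
    rcases hN N hn hcl with h0 | h0
    · exact Or.inl h0
    · exact Or.inr (hG ⟨⟨N, N.isOpen_of_isClosed_of_finiteIndex hcl⟩, hn⟩)
  have hz : ∀ z : G, (∀ g, z * g = g * z) → z = 1 := by
    intro z h
    have hm : z ∈ Subgroup.center G := Subgroup.mem_center_iff.2 fun g => (h g).symm
    exact hT z ((Subgroup.center G).subtype.isOfFinOrder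
      (isOfFinOrder_of_finite (⟨z, hm⟩ : Subgroup.center G)))
  refine hBRG p c k G (Gm p G) hU (fun f => ?_) (hDM p c k G (Gm p G) hU hAS hz)
  obtain ⟨U, hf⟩ := hLCI k G f
  obtain ⟨r, hr⟩ := hG U
  exact ⟨r, fun x g hg => hf x g (hr hg)⟩

end

section
open Filter MonoidAlgebra

theorem p_COR2 (hKILL : S_KILL) (hKIL2 : S_KIL2) (hRSUM : S_RSUM) :
    S_COR2 := by
  classical
  intro p c _ k G L K N _ _ _ _ _ _ _ Γ ex F b Λ t Φ κ τ th R hU hL hF hT hth hτ f hf H j hH q
  rintro ⟨φ, hφ, hr⟩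
  have : ∀ j, Fintype (G ⧸ Γ j) := fun j =>
    have := hU.fin j
    Fintype.ofFinite _
  obtain ⟨j0, h0⟩ := hKIL2 p G L K N κ Λ τ th Γ (fun j q => Φ fun r => res k (cs q) (f r)) hT.amb
    (fun j x M hM => by
      simp only [hth]
      exact hKILL p c k G L N Γ ex F b Λ (κ τ) t Φ hU hL hF hT f hf j x M hM) φ hφ 1
  obtain ⟨y, hy, e⟩ := h0 (max j0 j) (le_max_left _ _)
  have e1 : (fun r => res k (cs q) (f r)) = ∑ q' : G ⧸ Γ (max j0 j),
      if (q'.out : G ⧸ H) = q then (fun r => res k (cs q') (f r)) else 0 := by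
    funext r
    rw [hRSUM k G H (Γ (max j0 j)) ((hU.anti (le_max_right _ _)).trans hH) q (f r), Finset.sum_apply]
    refine Finset.sum_congr rfl fun q' _ => ?_
    split_ifs <;> rfl
  have e2 : Φ (fun r => res k (cs q) (f r)) = y * κ τ - ∑ q' : G ⧸ Γ (max j0 j),
      Φ (fun r => res k (cs q') (f r)) *
        κ (φ q'.out - if (q'.out : G ⧸ H) = q then 1 else 0) := by
    rw [← hT.amb.cen, ← pow_one (κ τ), ← e, ← Finset.sum_sub_distrib, e1, map_sum]
    refine Finset.sum_congr rfl fun q' _ => ?_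
    rw [map_sub, mul_sub, sub_sub_cancel]
    split_ifs
    · rw [map_one, mul_one]
    · rw [map_zero, map_zero, mul_zero]
  rw [e2]
  exact sub_mem (AddSubgroup.subset_closure ⟨y, hy, τ, Rad.self hτ, rfl⟩)
    (sum_mem fun q' _ => AddSubgroup.subset_closure ⟨_, hT.mem _, _, hr _, rfl⟩)

end

section
open Filter MonoidAlgebra

theorem p_CORC (hTH : S_TH) (hKK : S_KK) (hUNU : S_UNU) (hZORN : S_ZORN) (hTV : S_TV) (hBALL : S_BALL) (hAPX : S_APX) (hCOR2 : S_COR2) (hITER : S_ITER) (hLFIN : S_LFIN) :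
    S_CORC := by
  intro p c _ k G L N _ _ _ _ _ _ Γ ex F b Λ τ t Φ hU hL hFil hUl hne hgood H hH ⟨j, hj⟩ ⟨m, hm⟩
    n ι s o q f ho hf hsum
  classical
  obtain ⟨t0, tadd, tsub, tfrob, tact, -⟩ := hTH p c k G L N Γ ex F b Λ τ t Φ hU hL hFil hUl
  obtain ⟨K, _, κ, hinj, hun, hS1, hS2⟩ := hKK N (Set.range (thN p k ex Φ)) (by
    rintro _ ⟨a, rfl⟩ _ ⟨a', rfl⟩
    rw [← tadd, ← tadd, add_comm])
  choose th hth using fun a => hS1 _ ⟨a, rfl⟩
  obtain ⟨σ, rfl⟩ := hS2 τ hUl.amb.cen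
  have hTh : Th p κ Λ σ th :=
    ⟨hinj, hun, hinj (by rw [hth, t0, map_one]),
      fun a a' => hinj (by rw [map_mul, hth, hth, hth, tadd]),
      fun a => by rw [hth]; exact tsub a,
      fun a => hinj (by rw [map_sub, map_pow, map_sub, hth, hth, map_one, tfrob])⟩
  have hall := hUNU p G L K N κ Λ σ th
    ((Φ.toMonoidHom.comp (Pi.constMonoidHom ℕ (MonoidAlgebra k G))).comp (of k G)) hUl.amb hTh
    (fun g a => by rw [hth, hth]; exact tact g a) (fun E h1 h2 h3 h4 => by
      have := hgood E h1 h2 h3 h4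
      simpa only [JE, map_sub, map_one, hth] using this)
  obtain ⟨R, hR1, hR2, hR3⟩ := hZORN K N κ Λ σ hUl.amb
  have hTV := hTV p L K N κ Λ σ th R hUl.amb hTh hall hR1 hR2 hR3
  obtain ⟨hLf, hCh⟩ := hLFIN p c G L Γ ex hU hL
  obtain ⟨E, hE1, ⟨j', hE2⟩, hE3⟩ := hBALL p L K R σ th hTV hCh hne m
  have hEf : Finite (L ⧸ E) := by
    have := hLf j'
    exact Finite.of_surjective _ (QuotientAddGroup.map_surjective_of_surjective
      (Lp p L j') E (AddMonoidHom.id L) (fun q => by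
        obtain ⟨a, rfl⟩ := QuotientAddGroup.mk_surjective q
        exact ⟨a, rfl⟩) (fun a ha => hE2 ha))
  have hA := hAPX p m G L K R σ th E H hTV hEf hE3 hE1 hH hm
  have ht : t ^ n ∈ LR κ Λ (Rad R σ) := by
    rw [hsum]
    exact AddSubgroup.sum_mem _ fun i _ => core_left κ Λ _ (ho i)
      (hCOR2 p c k G L K N Γ ex F b Λ t Φ κ σ th R hU hL hFil hUl hth hTV.val.mem (f i) (hf i)
        H j hj (q i) (hA (q i)))
  exact hR3 (hITER K N κ Λ σ R t n hUl.amb hTV.val.mem hUl.tmem hUl.tcen hUl.tdiv ht)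

end

end Pool.Agent.P.MP_7cb106_nt.Q2
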