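import Pool.Agent.P.MP_7cb106_nt.Q2.BaseB1
import Pool.Agent.P.MP_7cb106_nt.Q2.BaseB2
import Pool.Agent.P.MP_7cb106_nt.Q2.BaseB3
import Pool.Agent.P.MP_7cb106_nt.Q2.BaseB4

/-! All steps together. -/

set_option autoImplicit false

namespace Pool.Agent.P.MP_7cb106_nt.Q2

theorem all_FNAK : S_FNAK := p_FNAK
theorem all_NAK : S_NAK := p_NAK all_FNAK
theorem all_PWN : S_PWN := p_PWN
theorem all_PE1 : S_PE1 := p_PE1 all_NAK all_PWN
theorem all_PE2 : S_PE2 := p_PE2 all_NAK all_PWN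
theorem all_GM0 : S_GM0 := p_GM0 all_PWN
theorem all_GMS : S_GMS := p_GMS all_FNAK all_GM0
theorem all_PFA : S_PFA := p_PFA all_GM0 all_PE1 all_PE2 all_GMS
theorem all_COM : S_COM := p_COM
theorem all_POW : S_POW := p_POW
theorem all_SURJ : S_SURJ := p_SURJ
theorem all_FIN : S_FIN := p_FIN
theorem all_INJ : S_INJ := p_INJ
theorem all_UFA : S_UFA := p_UFA all_COM all_POW all_SURJ all_FIN all_INJ
theorem all_PWC : S_PWC := p_PWC
theorem all_PWS : S_PWS := p_PWS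
theorem all_PWI : S_PWI := p_PWI all_PWC all_PWS
theorem all_LIE1 : S_LIE1 := p_LIE1 all_PWC all_PWS
theorem all_LIE2 : S_LIE2 := p_LIE2 all_PWC all_PWS all_LIE1
theorem all_LIE3 : S_LIE3 := p_LIE3 all_PWC all_PWS all_PWI
theorem all_CONT : S_CONT := p_CONT
theorem all_LFIN : S_LFIN := p_LFIN all_CONT
theorem all_SEP : S_SEP := p_SEP all_CONT
theorem all_IR1 : S_IR1 := p_IR1
theorem all_IR2 : S_IR2 := p_IR2 all_IR1 all_CONT
theorem all_IR3 : S_IR3 := p_IR3 all_IR1 all_CONT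
theorem all_IR4 : S_IR4 := p_IR4 all_IR1 all_CONT all_IR3 all_PWS
theorem all_IR5 : S_IR5 := p_IR5 all_CONT
theorem all_IRR : S_IRR := p_IRR all_IR2 all_IR4 all_IR5
theorem all_NR1 : S_NR1 := p_NR1
theorem all_NR2 : S_NR2 := p_NR2 all_NR1
theorem all_NR3 : S_NR3 := p_NR3
theorem all_NR4 : S_NR4 := p_NR4 all_NR2 all_NR3
theorem all_KK : S_KK := p_KK
theorem all_UN1 : S_UN1 := p_UN1
theorem all_UN2 : S_UN2 := p_UN2
theorem all_UN3 : S_UN3 := p_UN3 all_UN1 all_UN2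
theorem all_ZORN : S_ZORN := p_ZORN
theorem all_TV : S_TV := p_TV
theorem all_BALL : S_BALL := p_BALL
theorem all_LAG : S_LAG := p_LAG
theorem all_APX : S_APX := p_APX all_LAG
theorem all_ITER : S_ITER := p_ITER
theorem all_MPK : S_MPK := p_MPK all_PWS
theorem all_SFIN : S_SFIN := p_SFIN all_MPK
theorem all_NIL : S_NIL := p_NIL
theorem all_GEN : S_GEN := p_GEN all_MPK
theorem all_FMUL : S_FMUL := p_FMUL
theorem all_FDU : S_FDU := p_FDU
theorem all_FINF : S_FINF := p_FINF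
theorem all_WMIN : S_WMIN := p_WMIN all_FINF
theorem all_WH1 : S_WH1 := p_WH1
theorem all_WALL : S_WALL := p_WALL all_MPK
theorem all_WDU : S_WDU := p_WDU
theorem all_TH : S_TH := p_TH all_MPK all_CONT
theorem all_KILL : S_KILL := p_KILL all_MPK all_PWC
theorem all_KIL2 : S_KIL2 := p_KIL2
theorem all_RSUM : S_RSUM := p_RSUM
theorem all_COR1 : S_COR1 := p_COR1 all_KILL all_KIL2 all_RSUM
theorem all_CORE : S_CORE := p_CORE all_SFIN all_GEN all_FMUL all_FDU all_FINF all_WDU all_NR4 all_TH all_KK all_UN3 all_ZORN all_TV all_BALL all_APX all_COR1 all_ITER all_LFIN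
theorem all_DM : S_DM := p_DM all_LIE2 all_LIE3 all_IRR all_SEP all_SFIN all_WMIN all_WH1 all_WALL all_CORE
theorem all_BRG : S_BRG := p_BRG all_NIL
theorem all_LCI : S_LCI := p_LCI
theorem all_FINAL : S_FINAL := p_FINAL all_PFA all_UFA all_GMS all_DM all_BRG all_LCI
theorem all_UNU : S_UNU := p_UNU all_UN1 all_UN2
theorem all_COR2 : S_COR2 := p_COR2 all_KILL all_KIL2 all_RSUM
theorem all_CORC : S_CORC := p_CORC all_TH all_KK all_UNU all_ZORN all_TV all_BALL all_APX all_COR2 all_ITER all_LFIN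

end Pool.Agent.P.MP_7cb106_nt.Q2
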