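import Pool.Agent.P.MP_7cb106_nt.Q2.IfaceP
import Pool.Agent.P.MP_7cb106_nt.Q2.BaseAll

/-! Step CLI. -/

set_option autoImplicit false

namespace Pool.Agent.P.MP_7cb106_nt.Q2

open Filter MonoidAlgebra

theorem p_CLI :
    S_CLI := by
  intro k G R _ _ _ _ Γ inc K P C hC hK hP
  have h2 := nil_two (k := k) hC
  refine ⟨⟨⟨⟨clo inc K P (Kr k C), fun {x y} hx hy n => ?_⟩, fun n => ?_⟩, fun r y hy n => ?_⟩,
    rfl, fun z hz n => ?_, fun y hy r n => ?_, fun g hg n => ?_⟩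
  · obtain ⟨a, ha, z, hz, h⟩ := hx n
    obtain ⟨a', ha', z', hz', h'⟩ := hy n
    refine ⟨a + a', add_mem ha ha', z + z', add_mem hz hz', ?_⟩
    rw [show x + y - (z + z') - inc (a + a') = (x - z - inc a) + (y - z' - inc a') by
      rw [map_add]; abel]
    exact add_mem h h'
  · exact ⟨0, zero_mem _, 0, zero_mem _, by simp⟩
  · obtain ⟨a, ha, z, hz, h⟩ := hy n
    obtain ⟨b, hb⟩ := hK.dense n r
    refine ⟨b * a, (h2 a ha b).1, r * z, P.mul_mem_left r hz, ?_⟩
    rw [show r • y - r * z - inc (b * a) = r * (y - z - inc a) + (r - inc b) * inc a by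
      rw [map_mul, smul_eq_mul]; noncomm_ring]
    exact add_mem (hK.left n _ _ h) (hK.right n _ _ hb)
  · exact ⟨0, zero_mem _, z, hz, by simp⟩
  · obtain ⟨a, ha, z, hz, h⟩ := hy n
    obtain ⟨b, hb⟩ := hK.dense n r
    refine ⟨a * b, (h2 a ha b).2, z * r, P.mul_mem_right r hz, ?_⟩
    rw [show y * r - z * r - inc (a * b) = (y - z - inc a) * r + inc a * (r - inc b) by
      rw [map_mul]; noncomm_ring]
    exact add_mem (hK.right n _ _ h) (hK.left n _ _ hb)
  · have h := nil_gen (k := k) 1 hg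
    rw [one_mul, map_one] at h
    exact ⟨_, h, 0, zero_mem _, by simp⟩

end Pool.Agent.P.MP_7cb106_nt.Q2
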