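import Pool.Agent.P.MP_7cb106_nt.Q2.IfaceX

/-! Step CORX. -/

set_option autoImplicit false

namespace Pool.Agent.P.MP_7cb106_nt.Q2

open Filter MonoidAlgebra

theorem p_CORX (hKILX : S_KILX) (hKIL2 : S_KIL2) (hRSUM : S_RSUM) :
    S_CORX := by
  classical
  intro p _ k G L K N _ _ _ _ _ _ _ Γ ex F Λ t Φ κ τ th R hU hF hT hth hτ f hf H j hH q
  rintro ⟨φ, hφ, hr⟩
  have : ∀ j, Fintype (G ⧸ Γ j) := fun j =>
    have := hU.fin j
    Fintype.ofFinite _
  obtain ⟨j0, h0⟩ := hKIL2 p G L K N κ Λ τ th Γ (fun j q => Φ fun r => res k (cs q) (f r)) hT.amb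
    (fun j x M hM => by
      simp only [hth]
      exact hKILX p k G L N Γ ex F Λ (κ τ) t Φ hU hF hT f hf j x M hM) φ hφ 1
  obtain ⟨y, hy, e⟩ := h0 (max j0 j) (le_max_left _ _)
  have e1 : (fun r => res k (cs q) (f r)) = ∑ q' : G ⧸ Γ (max j0 j),
      if (q'.out : G ⧸ H) = q then (fun r => res k (cs q') (f r)) else 0 := by
    funext r
    rw [hRSUM k G H (Γ (max j0 j)) ((hU.anti (le_max_right _ _)).trans hH) q (f r), Finset.sum_apply]
    refine Finset.sum_congr rfl fun q' _ => ?_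
    split_ifs <;> rfl
  have e2 : Φ (fun r => res k (cs q) (f r)) = y * κ τ - ∑ q' : G ⧸ Γ (max j0 j),
      Φ (fun r => res k (cs q') (f r)) *
        κ (φ q'.out - if (q'.out : G ⧸ H) = q then 1 else 0) := by
    rw [← hT.amb.cen, ← pow_one (κ τ), ← e, ← Finset.sum_sub_distrib, e1, map_sum]
    refine Finset.sum_congr rfl fun q' _ => ?_
    rw [map_sub, mul_sub, sub_sub_cancel]
    split_ifs
    · rw [map_one, mul_one]
    · rw [map_zero, map_zero, mul_zero]
  rw [e2]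
  exact sub_mem (AddSubgroup.subset_closure ⟨y, hy, τ, Rad.self hτ, rfl⟩)
    (sum_mem fun q' _ => AddSubgroup.subset_closure ⟨_, hT.mem _, _, hr _, rfl⟩)

end Pool.Agent.P.MP_7cb106_nt.Q2
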