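import Pool.Agent.P.MP_7cb106_nt.Q2.IfaceX

/-! Step CORY. -/

set_option autoImplicit false

namespace Pool.Agent.P.MP_7cb106_nt.Q2

open Filter MonoidAlgebra

theorem cory_left {K N : Type} [CommRing K] [Ring N] (κ : K →+* N) (Λ : Subring N) (Z : Set K)
    {l x : N} (hl : l ∈ Λ) (hx : x ∈ LR κ Λ Z) : l * x ∈ LR κ Λ Z := by
  induction hx using AddSubgroup.closure_induction with
  | mem x hx =>
    obtain ⟨l', hl', z, hz, rfl⟩ := hx
    exact AddSubgroup.subset_closure ⟨l * l', Λ.mul_mem hl hl', z, hz, (mul_assoc _ _ _).symm⟩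
  | zero => rw [mul_zero]; exact AddSubgroup.zero_mem _
  | add x y _ _ hx hy => rw [mul_add]; exact AddSubgroup.add_mem _ hx hy
  | neg x _ hx => rw [mul_neg]; exact AddSubgroup.neg_mem _ hx

theorem p_CORY (hTHX : S_THX) (hKK : S_KK) (hUNU : S_UNU) (hZORN : S_ZORN) (hTV : S_TV) (hBALL : S_BALL) (hAPX : S_APX) (hCORX : S_CORX) (hITER : S_ITER) :
    S_CORY := by
  intro p _ k G L N _ _ _ _ _ _ Γ ex F Λ τ t Φ hU hFil hUl hgood H j m hH hj hm n ι s o q f ho hf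
    hsum
  classical
  obtain ⟨t0, tadd, tsub, tfrob, tact⟩ := hTHX p k G L N Γ ex F Λ τ t Φ hU hFil hUl
  obtain ⟨K, _, κ, hinj, hun, hS1, hS2⟩ := hKK N (Set.range (thX p k ex Φ)) (by
    rintro _ ⟨a, rfl⟩ _ ⟨a', rfl⟩
    rw [← tadd, ← tadd, add_comm])
  choose th hth using fun a => hS1 _ ⟨a, rfl⟩
  obtain ⟨σ, rfl⟩ := hS2 τ hUl.amb.cen
  have hTh : Th p κ Λ σ th :=
    ⟨hinj, hun, hinj (by rw [hth, t0, map_one]),
      fun a a' => hinj (by rw [map_mul, hth, hth, hth, tadd]),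
      fun a => by rw [hth]; exact tsub a,
      fun a => hinj (by rw [map_sub, map_pow, map_sub, hth, hth, map_one, tfrob])⟩
  have hall := hUNU p G L K N κ Λ σ th
    ((Φ.toMonoidHom.comp (Pi.constMonoidHom ℕ (MonoidAlgebra k G))).comp (of k G)) hUl.amb hTh
    (fun g a => by rw [hth, hth]; exact tact g a) (fun E h1 h2 h3 h4 => by
      have := hgood E h1 h2 h3 h4
      simpa only [JE, map_sub, map_one, hth] using this)
  obtain ⟨R, hR1, hR2, hR3⟩ := hZORN K N κ Λ σ hUl.amb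
  have hTV := hTV p L K N κ Λ σ th R hUl.amb hTh hall hR1 hR2 hR3
  have hLf := hU.lfin
  obtain ⟨E, hE1, ⟨j', hE2⟩, hE3⟩ :
      ∃ E : AddSubgroup L, E ≤ Lp p L m ∧ (∃ j, Lp p L j ≤ E) ∧ Gap R σ th E := by
    by_cases hne : ∃ a : L, a ≠ 0
    · exact hBALL p L K R σ th hTV hU.chev hne m
    · push Not at hne
      exact ⟨⊤, fun a _ => by rw [hne a]; exact AddSubgroup.zero_mem _, ⟨0, le_top⟩,
        fun a ha => absurd trivial ha⟩
  have hEf : Finite (L ⧸ E) := by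
    have := hLf j'
    exact Finite.of_surjective _ (QuotientAddGroup.map_surjective_of_surjective
      (Lp p L j') E (AddMonoidHom.id L) (fun q => by
        obtain ⟨a, rfl⟩ := QuotientAddGroup.mk_surjective q
        exact ⟨a, rfl⟩) (fun a ha => hE2 ha))
  have hA := hAPX p m G L K R σ th E H hTV hEf hE3 hE1 hH hm
  have ht : t ^ n ∈ LR κ Λ (Rad R σ) := by
    rw [hsum]
    exact AddSubgroup.sum_mem _ fun i _ => cory_left κ Λ _ (ho i)
      (hCORX p k G L K N Γ ex F Λ t Φ κ σ th R hU hFil hUl hth hTV.val.mem (f i) (hf i)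
        H j hj (q i) (hA (q i)))
  exact hR3 (hITER K N κ Λ σ R t n hUl.amb hTV.val.mem hUl.tmem hUl.tcen hUl.tdiv ht)

end Pool.Agent.P.MP_7cb106_nt.Q2
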