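import Pool.Agent.P.MP_7cb106_nt.Q2.IfaceP

/-! Step CZ. -/

set_option autoImplicit false

namespace Pool.Agent.P.MP_7cb106_nt.Q2

open Filter MonoidAlgebra

theorem cz_abs (k A B G : Type) [Field k] [CommRing A] [Algebra k A] [Ring B] [Algebra k B]
    [Group G] [Finite G] [MulSemiringAction G A] [SMulCommClass G k A] [Algebra.FiniteType k A]
    (j : A →ₐ[k] B) (hj : Function.Injective j) (u : G →* B)
    (hu : ∀ g a, u g * j a = j (g • a) * u g)
    (hs : ∀ M : Submodule k B, (∀ a g, j a * u g ∈ M) → M = ⊤) : FinC B := by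
  classical
  cases nonempty_fintype G
  let Z : Subalgebra k A := FixedPoints.subalgebra k A G
  have hZ : ∀ (z : Z) (g : G), g • (z : A) = z := fun z g => z.2 g
  have hinv : Algebra.IsInvariant Z A G := ⟨fun b hb => ⟨⟨b, hb⟩, rfl⟩⟩
  have hint : Algebra.IsIntegral Z A := Algebra.IsInvariant.isIntegral Z A G
  have hft : Algebra.FiniteType Z A := Algebra.FiniteType.of_restrictScalars_finiteType k Z A
  have hfin : Module.Finite Z A := Algebra.IsIntegral.finite
  have hZft : Algebra.FiniteType k Z :=
    ⟨fg_of_fg_of_fg k Z A Algebra.FiniteType.out hfin.1 Subtype.val_injective⟩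
  have hN : IsNoetherianRing Z := Algebra.FiniteType.isNoetherianRing k Z
  have hc : ∀ (z : Z) (b : B), j z * b = b * j z := by
    intro z b
    let M : Submodule k B :=
      { carrier := {b | j z * b = b * j z}
        add_mem' := by
          intro a b ha hb
          simp only [Set.mem_ofPred_eq] at ha hb ⊢
          rw [mul_add, add_mul, ha, hb]
        zero_mem' := by simp
        smul_mem' := by
          intro c a ha
          simp only [Set.mem_ofPred_eq] at ha ⊢
          rw [mul_smul_comm, smul_mul_assoc, ha] }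
    have hM : M = ⊤ := hs M (by
      intro a g
      change j z * (j a * u g) = j a * u g * j z
      rw [mul_assoc, hu, hZ, ← mul_assoc, ← mul_assoc, ← map_mul, ← map_mul, mul_comm])
    have : b ∈ M := hM ▸ Submodule.mem_top
    exact this
  let φ : Z →+* B := j.toRingHom.comp (algebraMap Z A)
  let alg : Algebra Z B := φ.toAlgebra' (fun z b => hc z b)
  have hsm : ∀ (z : Z) (b : B), z • b = j z * b := fun z b => rfl
  refine ⟨Z, inferInstance, alg, ?_, hN, ?_⟩
  · intro a b hab
    exact Subtype.val_injective (hj hab)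
  · let Φ : (G → A) →ₗ[Z] B :=
      { toFun := fun f => ∑ g, j (f g) * u g
        map_add' := by
          intro f f'
          simp [add_mul, Finset.sum_add_distrib]
        map_smul' := by
          intro z f
          rw [RingHom.id_apply, hsm, Finset.mul_sum]
          refine Finset.sum_congr rfl fun g _ => ?_
          have : (z • f) g = (z : A) * f g := rfl
          rw [this, map_mul, mul_assoc] }
    refine Module.Finite.of_surjective Φ ?_
    let M : Submodule k B :=
      { carrier := {b | ∃ f : G → A, ∑ g, j (f g) * u g = b}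
        add_mem' := by
          rintro a b ⟨f, rfl⟩ ⟨f', rfl⟩
          exact ⟨f + f', by simp [add_mul, Finset.sum_add_distrib]⟩
        zero_mem' := ⟨0, by simp⟩
        smul_mem' := by
          rintro c a ⟨f, rfl⟩
          exact ⟨c • f, by simp [Finset.smul_sum]⟩ }
    have hM : M = ⊤ := hs M (by
      intro a g
      refine ⟨Pi.single g a, ?_⟩
      rw [Finset.sum_eq_single g]
      · simp
      · intro h _ hh
        simp [Pi.single_eq_of_ne hh]
      · simp)
    intro b
    have : b ∈ M := hM ▸ Submodule.mem_top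
    exact this

theorem cz_fin (k B ι G : Type) [Field k] [Ring B] [Algebra k B] [Finite ι] [Group G] [Finite G]
    (β : ι → B) (u : G →* B) (hβ : ∀ i l, β i * β l = β l * β i)
    (hu : ∀ g i, ∃ y ∈ Algebra.adjoin k (Set.range β), u g * β i = y * u g)
    (hs : (Algebra.adjoin k (Set.range β)).toSubmodule * Submodule.span k (Set.range u) = ⊤) :
    FinC B := by
  classical
  have h1 : ∀ g : G, u g * u g⁻¹ = 1 := fun g => by rw [← map_mul, mul_inv_cancel, map_one]
  have h2 : ∀ g : G, u g⁻¹ * u g = 1 := fun g => by rw [← map_mul, inv_mul_cancel, map_one]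
  have hmul : ∀ (g : G) (x y : B),
      u g * (x * y) * u g⁻¹ = (u g * x * u g⁻¹) * (u g * y * u g⁻¹) := by
    intro g x y
    calc u g * (x * y) * u g⁻¹ = u g * x * (u g⁻¹ * u g) * y * u g⁻¹ := by
          rw [h2]; simp only [mul_one, mul_assoc]
      _ = _ := by simp only [mul_assoc]
  have halg : ∀ (g : G) (c : k), u g * algebraMap k B c * u g⁻¹ = algebraMap k B c := by
    intro g c
    rw [← Algebra.commutes, mul_assoc, h1, mul_one]
  have hmem : ∀ (g : G) (x : B), x ∈ Algebra.adjoin k (Set.range β) →
      u g * x * u g⁻¹ ∈ Algebra.adjoin k (Set.range β) := by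
    intro g x hx
    induction hx using Algebra.adjoin_induction with
    | mem x hx =>
      obtain ⟨i, rfl⟩ := hx
      obtain ⟨y, hy, e⟩ := hu g i
      rw [e, mul_assoc, h1, mul_one]
      exact hy
    | algebraMap c => rw [halg]; exact Subalgebra.algebraMap_mem _ c
    | add x y _ _ hx hy => rw [mul_add, add_mul]; exact add_mem hx hy
    | mul x y _ _ hx hy => rw [hmul]; exact mul_mem hx hy
  have hcomm : ∀ a ∈ Set.range β, ∀ b ∈ Set.range β, a * b = b * a := by
    rintro _ ⟨i, rfl⟩ _ ⟨l, rfl⟩
    exact hβ i l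
  have hC : IsMulCommutative (Algebra.adjoin k (Set.range β)) :=
    Algebra.isMulCommutative_adjoin k hcomm
  let cr : CommRing (Algebra.adjoin k (Set.range β)) :=
    { (inferInstance : Ring (Algebra.adjoin k (Set.range β))) with
      mul_comm := hC.is_comm.comm }
  let act : MulSemiringAction G (Algebra.adjoin k (Set.range β)) :=
    { smul := fun g x => ⟨u g * x * u g⁻¹, hmem g x x.2⟩
      one_smul := fun x => Subtype.ext (by
        change u 1 * (x : B) * u 1⁻¹ = x
        simp)
      mul_smul := fun g h x => Subtype.ext (by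
        change u (g * h) * (x : B) * u (g * h)⁻¹ = u g * (u h * x * u h⁻¹) * u g⁻¹
        simp only [mul_inv_rev, map_mul, mul_assoc])
      smul_zero := fun g => Subtype.ext (by
        change u g * (0 : B) * u g⁻¹ = 0
        simp)
      smul_add := fun g x y => Subtype.ext (by
        change u g * ((x : B) + y) * u g⁻¹ = u g * x * u g⁻¹ + u g * y * u g⁻¹
        rw [mul_add, add_mul])
      smul_one := fun g => Subtype.ext (by
        change u g * (1 : B) * u g⁻¹ = 1
        rw [mul_one, h1])
      smul_mul := fun g x y => Subtype.ext (hmul g x y) }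
  have hcoe : ∀ (g : G) (x : Algebra.adjoin k (Set.range β)),
      ((g • x : Algebra.adjoin k (Set.range β)) : B) = u g * x * u g⁻¹ := fun g x => rfl
  have : SMulCommClass G k (Algebra.adjoin k (Set.range β)) := ⟨fun g c x => Subtype.ext (by
    rw [hcoe]
    simp only [SetLike.val_smul, hcoe, mul_smul_comm, smul_mul_assoc])⟩
  have : Algebra.FiniteType k (Algebra.adjoin k (Set.range β)) :=
    ⟨(Subalgebra.fg_top _).2 (Subalgebra.fg_def.2 ⟨_, Set.finite_range β, rfl⟩)⟩
  refine cz_abs k (Algebra.adjoin k (Set.range β)) B G (Algebra.adjoin k (Set.range β)).val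
    Subtype.val_injective u ?_ ?_
  · intro g a
    change u g * (a : B) = (u g * a * u g⁻¹) * u g
    rw [mul_assoc _ (u g⁻¹), h2, mul_one]
  · intro M hM
    rw [eq_top_iff, ← hs, Submodule.mul_le]
    intro m hm n hn
    induction hn using Submodule.span_induction with
    | mem x hx =>
      obtain ⟨g, rfl⟩ := hx
      exact hM ⟨m, hm⟩ g
    | zero => simp
    | add x y _ _ hx hy => rw [mul_add]; exact add_mem hx hy
    | smul c x _ hx => rw [mul_smul_comm]; exact M.smul_mem c hx

theorem p_CZ :
    S_CZ := by
  intro k B ι G _ _ _ _ _ β u G0 hG0 h0 hβ hu hs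
  have hle : G0 ≤ u.ker := fun g hg => h0 g hg
  have : u.ker.FiniteIndex := Subgroup.finiteIndex_of_le hle
  let u' : G ⧸ u.ker →* B := QuotientGroup.lift u.ker u le_rfl
  have hu' : ∀ g : G, u' (g : G ⧸ u.ker) = u g := fun g => rfl
  have hr : Set.range u' = Set.range u := by
    ext x
    constructor
    · rintro ⟨q, rfl⟩
      obtain ⟨g, rfl⟩ := QuotientGroup.mk_surjective q
      exact ⟨g, rfl⟩
    · rintro ⟨g, rfl⟩
      exact ⟨g, rfl⟩
  refine cz_fin k B ι (G ⧸ u.ker) β u' hβ ?_ (by rw [hr]; exact hs)
  intro q i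
  obtain ⟨g, rfl⟩ := QuotientGroup.mk_surjective q
  exact hu g i

end Pool.Agent.P.MP_7cb106_nt.Q2
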