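import Pool.Agent.P.MP_7cb106_nt.Q2.IfaceP

/-! Step DAF. -/

set_option autoImplicit false

namespace Pool.Agent.P.MP_7cb106_nt.Q2

open Filter MonoidAlgebra

section daf
variable {k G : Type} [Field k] [Group G]

theorem daf_sub_one_mem_augS {H : Subgroup G} {h : G} (hh : h ∈ H) :
    of k G h - 1 ∈ augS k H :=
  Submodule.subset_span ⟨h, hh, rfl⟩

theorem daf_top_mul_augS {H : Subgroup G} (hH : H.Normal) :
    (⊤ : Submodule k (MonoidAlgebra k G)) * augS k H ≤ augS k H * ⊤ := by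
  conv_lhs => rw [← span_of, augS, Submodule.span_mul_span]
  rw [Submodule.span_le]
  rintro _ ⟨_, ⟨g, rfl⟩, _, ⟨h, hh, rfl⟩, rfl⟩
  have e : of k G g * (of k G h - 1) = (of k G (g * h * g⁻¹) - 1) * of k G g := by
    rw [sub_mul, ← map_mul, inv_mul_cancel_right, map_mul, mul_sub, mul_one, one_mul]
  simp only [e]
  exact Submodule.mul_mem_mul (daf_sub_one_mem_augS (hH.conj_mem h hh g)) trivial

theorem daf_top_mul_pow {H : Subgroup G} (hH : H.Normal) (j : ℕ) :
    (⊤ : Submodule k (MonoidAlgebra k G)) * augS k H ^ j ≤ augS k H ^ j * ⊤ := by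
  induction j with
  | zero => rw [pow_zero, one_mul]; exact le_top
  | succ j ih =>
    calc (⊤ : Submodule k (MonoidAlgebra k G)) * augS k H ^ (j + 1)
        = (⊤ * augS k H ^ j) * augS k H := by rw [pow_succ, mul_assoc]
      _ ≤ (augS k H ^ j * ⊤) * augS k H := mul_le_mul' ih le_rfl
      _ = augS k H ^ j * (⊤ * augS k H) := by rw [mul_assoc]
      _ ≤ augS k H ^ j * (augS k H * ⊤) := mul_le_mul' le_rfl (daf_top_mul_augS hH)
      _ = augS k H ^ (j + 1) * ⊤ := by rw [pow_succ, mul_assoc]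

theorem daf_zero (H : Subgroup G) : DA k H 0 = ⊤ := by rw [DA, pow_zero, one_mul]

theorem daf_succ (H : Subgroup G) (j : ℕ) : DA k H (j + 1) = augS k H * DA k H j := by
  rw [DA, DA, pow_succ', mul_assoc]

theorem daf_mul_right {H : Subgroup G} {j : ℕ} {x : MonoidAlgebra k G} (hx : x ∈ DA k H j)
    (y : MonoidAlgebra k G) : x * y ∈ DA k H j := by
  have : DA k H j * ⊤ ≤ DA k H j := by
    rw [DA, mul_assoc]; exact mul_le_mul' le_rfl le_top
  exact this (Submodule.mul_mem_mul hx trivial)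

theorem daf_mul_left {H : Subgroup G} (hH : H.Normal) {j : ℕ} (y : MonoidAlgebra k G)
    {x : MonoidAlgebra k G} (hx : x ∈ DA k H j) : y * x ∈ DA k H j := by
  have : ⊤ * DA k H j ≤ DA k H j := by
    calc ⊤ * DA k H j = (⊤ * augS k H ^ j) * ⊤ := by rw [DA, mul_assoc]
      _ ≤ (augS k H ^ j * ⊤) * ⊤ := mul_le_mul' (daf_top_mul_pow hH j) le_rfl
      _ = augS k H ^ j * (⊤ * ⊤) := by rw [mul_assoc]
      _ ≤ DA k H j := mul_le_mul' le_rfl le_top
  exact this (Submodule.mul_mem_mul trivial hx)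

theorem daf_mul {H : Subgroup G} (hH : H.Normal) {i j : ℕ} {x y : MonoidAlgebra k G}
    (hx : x ∈ DA k H i) (hy : y ∈ DA k H j) : x * y ∈ DA k H (i + j) := by
  have h1 : ⊤ * DA k H j ≤ DA k H j :=
    Submodule.mul_le.2 fun a _ b hb => daf_mul_left hH a hb
  have : DA k H i * DA k H j ≤ DA k H (i + j) := by
    calc DA k H i * DA k H j = augS k H ^ i * (⊤ * DA k H j) := by rw [DA, mul_assoc]
      _ ≤ augS k H ^ i * DA k H j := mul_le_mul' le_rfl h1
      _ = DA k H (i + j) := by rw [DA, DA, pow_add, mul_assoc]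
  exact this (Submodule.mul_mem_mul hx hy)

theorem daf_anti (H : Subgroup G) : Antitone (DA k H) := by
  refine antitone_nat_of_succ_le fun j => ?_
  rw [DA, DA, pow_succ, mul_assoc]
  exact mul_le_mul' le_rfl le_top

theorem daf_mf {H : Subgroup G} (hH : H.Normal) : MF (DA k H) :=
  ⟨daf_zero H, daf_anti H, fun _ _ _ _ hx hy => daf_mul hH hx hy⟩

theorem daf_pow_le (H : Subgroup G) (j : ℕ) : augS k H ^ j ≤ DA k H j := fun x hx => by
  rw [← mul_one x]
  exact Submodule.mul_mem_mul hx trivial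

theorem daf_sub_one_mem {H : Subgroup G} {h : G} (hh : h ∈ H) : of k G h - 1 ∈ DA k H 1 :=
  daf_pow_le H 1 (by rw [pow_one]; exact daf_sub_one_mem_augS hh)

/-- the inclusion of group algebras -/
noncomputable def daf_iota (k : Type) {G : Type} [Field k] [Group G] (H : Subgroup G) :
    MonoidAlgebra k H →ₐ[k] MonoidAlgebra k G :=
  MonoidAlgebra.mapDomainAlgHom k k H.subtype

theorem daf_iota_of (H : Subgroup G) (g : H) :
    daf_iota k H (of k H g) = of k G (g : G) := by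
  simp [daf_iota]

theorem daf_map_aug (H : Subgroup G) :
    (aug k H).map (daf_iota k H).toLinearMap = augS k H := by
  rw [aug, augS, Submodule.map_span]
  congr 1
  ext x
  constructor
  · rintro ⟨_, ⟨g, rfl⟩, rfl⟩
    refine ⟨g, g.2, ?_⟩
    simp only [AlgHom.toLinearMap_apply, map_sub, map_one, daf_iota_of]
  · rintro ⟨g, hg, rfl⟩
    refine ⟨_, ⟨⟨g, hg⟩, rfl⟩, ?_⟩
    simp only [AlgHom.toLinearMap_apply, map_sub, map_one, daf_iota_of]

theorem daf_map_Mp (H : Subgroup G) (j : ℕ) :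
    (Mp k H j).map (daf_iota k H).toLinearMap ≤ DA k H j := by
  rw [Mp, Submodule.map_mul, Submodule.map_pow, daf_map_aug, DA]
  exact mul_le_mul' le_rfl le_top

theorem daf_iota_mem {H : Subgroup G} {j : ℕ} {x : MonoidAlgebra k H} (hx : x ∈ Mp k H j) :
    daf_iota k H x ∈ DA k H j :=
  daf_map_Mp H j ⟨x, hx, rfl⟩

theorem daf_pow_le_map (H : Subgroup G) (j : ℕ) :
    augS k H ^ j ≤ (Mp k H j).map (daf_iota k H).toLinearMap := by
  rw [← daf_map_aug, ← Submodule.map_pow]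
  refine Submodule.map_mono fun x hx => ?_
  rw [← mul_one x]
  exact Submodule.mul_mem_mul hx trivial

theorem daf_map_Kr (H : Subgroup G) (N : Subgroup H) :
    (Kr k N).map (daf_iota k H).toLinearMap ≤ Kr k (N.map H.subtype) := by
  rw [Kr, Submodule.map_span, Submodule.span_le]
  rintro _ ⟨_, ⟨g, h, hh, rfl⟩, rfl⟩
  refine Submodule.subset_span ⟨g, h, ⟨h, hh, rfl⟩, ?_⟩
  simp only [AlgHom.toLinearMap_apply, map_sub, daf_iota_of, Subgroup.coe_mul]

theorem daf_Kr_mul_top {N : Subgroup G} (hN : N.Normal) :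
    Kr k N * ⊤ ≤ Kr k N := by
  conv_lhs => rw [← span_of, Kr, Submodule.span_mul_span]
  rw [Submodule.span_le]
  rintro _ ⟨_, ⟨g, h, hh, rfl⟩, _, ⟨x, rfl⟩, rfl⟩
  refine Submodule.subset_span ⟨g * x, x⁻¹ * h * x, ?_, ?_⟩
  · have := hN.conj_mem h hh x⁻¹
    rwa [inv_inv] at this
  · have e : g * x * (x⁻¹ * h * x) = g * h * x := by group
    simp only [e, sub_mul, ← map_mul]

end daf

theorem p_DAF (hGXN : S_GXN) (hMPK : S_MPK) (hNIL : S_NIL) :
    S_DAF := by
  intro p c _ k G _ _ _ G0 Γ hG0 hU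
  obtain ⟨-, -, hnorm, -⟩ := hGXN p c G G0 Γ hG0 hU
  obtain ⟨h1, -, -⟩ := hMPK p c k G0 Γ hU
  have h2 : ∀ r g, g ∈ GX Γ r → of k G g - 1 ∈ DA k G0 (p ^ r) := by
    rintro r _ ⟨g, hg, rfl⟩
    have := daf_iota_mem (h1 r g hg)
    rwa [map_sub, map_one, daf_iota_of] at this
  refine ⟨daf_mf hG0, h2, fun j => ?_, fun j => ?_⟩
  · rw [Kr, Submodule.span_le]
    rintro _ ⟨g, h, hh, rfl⟩
    have e : of k G (g * h) - of k G g = of k G g * (of k G h - 1) := by
      rw [map_mul, mul_sub, mul_one]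
    rw [e]
    have hp : j ≤ p ^ j := (Nat.lt_pow_self (Fact.out : p.Prime).one_lt).le
    exact daf_mul_left hG0 _ (daf_anti G0 hp (h2 j h hh))
  · obtain ⟨n, hn⟩ := hNIL p c k G0 Γ hU j
    refine ⟨n, ?_⟩
    have h3 : augS k G0 ^ n ≤ Kr k (GX Γ j) :=
      (daf_pow_le_map G0 n).trans ((Submodule.map_mono hn).trans (daf_map_Kr G0 (Γ j)))
    exact (mul_le_mul' h3 le_rfl).trans (daf_Kr_mul_top (hnorm j))

end Pool.Agent.P.MP_7cb106_nt.Q2
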