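import Pool.Agent.P.MP_7cb106_nt.Q2.IfaceP

/-! Step DAG. -/

set_option autoImplicit false

namespace Pool.Agent.P.MP_7cb106_nt.Q2

open Filter MonoidAlgebra

section
variable {k G : Type} [Field k] [Group G] {G0 : Subgroup G}

theorem dag_of (x : G0) : mapDomainAlgHom k k G0.subtype (of k G0 x) = of k G x := by
  simp

theorem dag_aug : (aug k G0).map (mapDomainAlgHom k k G0.subtype).toLinearMap = augS k G0 := by
  rw [aug, augS, Submodule.map_span, ← Set.range_comp]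
  congr 1
  ext y
  constructor
  · rintro ⟨x, rfl⟩
    exact ⟨x, x.2, by simp only [Function.comp_apply, AlgHom.toLinearMap_apply, map_sub, map_one,
      dag_of]⟩
  · rintro ⟨x, hx, rfl⟩
    exact ⟨⟨x, hx⟩, by simp only [Function.comp_apply, AlgHom.toLinearMap_apply, map_sub, map_one,
      dag_of]⟩

theorem dag_le (j : ℕ) :
    (Mp k G0 j).map (mapDomainAlgHom k k G0.subtype).toLinearMap ≤ DA k G0 j := by
  rw [Mp, DA, Submodule.map_mul, Submodule.map_pow, dag_aug]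
  exact mul_le_mul' le_rfl le_top

theorem dag_ge (j : ℕ) :
    DA k G0 j ≤ (Mp k G0 j).map (mapDomainAlgHom k k G0.subtype).toLinearMap * ⊤ := by
  rw [DA, ← dag_aug, ← Submodule.map_pow]
  refine mul_le_mul' (Submodule.map_mono ?_) le_rfl
  calc aug k G0 ^ j = aug k G0 ^ j * 1 := (mul_one _).symm
    _ ≤ aug k G0 ^ j * ⊤ := mul_le_mul' le_rfl le_top

theorem dag_mon (Γ : ℕ → Subgroup G0) (j : ℕ) :
    (Mic.Mon k (fun q : G0 ⧸ Γ 1 => of k G0 q.out - 1) j).map
      (mapDomainAlgHom k k G0.subtype).toLinearMap ≤ Mic.Mon k (bX k Γ) j := by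
  rw [Mic.Mon, Submodule.map_span, Submodule.span_le]
  rintro _ ⟨_, ⟨l, hl, rfl⟩, rfl⟩
  refine Submodule.subset_span ⟨l, hl, ?_⟩
  rw [AlgHom.toLinearMap_apply, map_list_prod, List.map_map]
  refine congrArg List.prod (List.map_congr_left fun q _ => ?_)
  simp only [Function.comp_apply, map_sub, map_one, dag_of, bX]

theorem dag_one {g : G} (hg : g ∈ G0) : of k G g - 1 ∈ DA k G0 1 := by
  rw [DA, pow_one, ← mul_one (of k G g - 1)]
  exact Submodule.mul_mem_mul (Submodule.subset_span ⟨g, hg, rfl⟩) trivial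

end

theorem p_DAG (hGEN : S_GEN) (hDAF : S_DAF) :
    S_DAG := by
  intro p c hp k G _ _ _ G0 Γ hN hU
  obtain ⟨mf, lev, -, -⟩ := hDAF p c k G G0 Γ hN hU
  obtain ⟨g1, g2⟩ := hGEN p c k G0 Γ hU
  refine ⟨mf, fun q => dag_one q.out.2, fun q l => ?_, fun g hg => dag_one hg, fun g q => ?_,
    fun j => ?_⟩
  · have := dag_le 3 (Submodule.mem_map_of_mem (g2 q.out l.out))
    simpa only [AlgHom.toLinearMap_apply, map_sub, map_mul, map_one, dag_of, bX] using this
  · obtain ⟨x, hx⟩ : ∃ x : G0, (x : G) = g * (q.out : G0) * g⁻¹ :=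
      ⟨⟨_, hN.conj_mem _ q.out.2 g⟩, rfl⟩
    refine ⟨bX k Γ (x : G0 ⧸ Γ 1), Submodule.subset_span ⟨[(x : G0 ⧸ Γ 1)], rfl, by simp⟩, ?_⟩
    have h1 : ((x : G0 ⧸ Γ 1).out)⁻¹ * x ∈ Γ 1 := QuotientGroup.eq.1 (QuotientGroup.out_eq' _)
    have h2 := mf.anti (show 2 ≤ p ^ 1 by rw [pow_one]; exact hp.1.two_le)
      (lev 1 _ (Subgroup.mem_map_of_mem G0.subtype h1))
    have t : ∀ y, y ∈ DA k G0 0 := fun y => by rw [mf.top]; trivial
    have h3 := mf.mul _ _ _ _ (mf.mul _ _ _ _ (t (of k G ((x : G0 ⧸ Γ 1).out : G0))) h2)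
      (t (of k G g))
    refine (congrArg (· ∈ DA k G0 2) ?_).mp h3
    rw [bX, bX]
    generalize (x : G0 ⧸ Γ 1).out = z
    rw [mul_sub, mul_sub, sub_mul, sub_mul, ← map_mul, ← map_mul, ← map_mul, mul_one, mul_one,
      one_mul, sub_sub_sub_cancel_right]
    congr 2
    simp [hx]
  · rw [span_of]
    refine (dag_ge j).trans ((mul_le_mul' (Submodule.map_mono (g1 j)) le_rfl).trans ?_)
    rw [Submodule.map_sup, Submodule.sup_mul]
    refine sup_le_sup (mul_le_mul' (dag_mon Γ j) le_rfl)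
      ((mul_le_mul' (dag_le _) le_rfl).trans ?_)
    rw [DA, mul_assoc]
    exact mul_le_mul' le_rfl le_top

end Pool.Agent.P.MP_7cb106_nt.Q2
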