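import Pool.Agent.P.MP_7cb106_nt.Q2.IfaceQ

/-! Step FINALQ. -/

set_option autoImplicit false

namespace Pool.Agent.P.MP_7cb106_nt.Q2

open Filter MonoidAlgebra

theorem finalq_closed {G : Type} [Group G] [TopologicalSpace G] [IsTopologicalGroup G]
    {Γ : ℕ → Subgroup G} (h : ∀ r, IsOpen (Γ r : Set G)) {H : Subgroup G} (hH : ClG Γ H) :
    IsClosed (H : Set G) := by
  refine isClosed_of_closure_subset fun x hx => hH x fun j => ?_
  obtain ⟨y, h1, h2⟩ := mem_closure_iff.1 hx ((fun y => y⁻¹ * x) ⁻¹' (Γ j : Set G))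
    ((h j).preimage (by fun_prop)) (by simp)
  exact ⟨y, h2, h1⟩

theorem p_FINALQ (hPFA : S_PFA) (hUFA : S_UFA) (hGMS : S_GMS) (hGXN : S_GXN) (hIW : S_IW) (hMAINQ : S_MAINQ) :
    S_FINALQ := by
  intro p hp k _ _ G _ _ _ _ _ _ G0 hN hO hP hS hC hT hH P hPt hPp
  have : CompactSpace G0 := isCompact_iff_compactSpace.1 (G0.isClosed_of_isOpen hO).isCompact
  obtain ⟨c, hc⟩ := hPFA p G0 hP hC
  obtain ⟨hUF, hop⟩ := hUFA p c G0 _ hc hS fun x hx =>
    hT x (isOfFinOrder_iff_pow_eq_one.2 ⟨p, hp.out.pos, hx⟩)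
  have hfi : G0.FiniteIndex :=
    have := G0.quotient_finite_of_isOpen hO
    Subgroup.finiteIndex_of_finite_quotient
  obtain ⟨-, hanti, hnor, hfin⟩ := hGXN p c G G0 _ hN hUF
  have hopen : ∀ r, IsOpen (GX (Gm p G0) r : Set G) := fun r =>
    hO.isOpenMap_subtype_val _ (hop r)
  have hcof : ∀ V : OpenNormalSubgroup G, ∃ n, GX (Gm p G0) n ≤ V.toSubgroup := fun V => by
    obtain ⟨r, hr⟩ := (hGMS p G0 hP).1
      ⟨V.toOpenSubgroup.comap G0.subtype continuous_subtype_val,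
        V.isNormal'.comap G0.subtype⟩
    exact ⟨r, Subgroup.map_le_iff_le_comap.2 hr⟩
  obtain ⟨inc, K, hK, hel, hsub⟩ := hIW k G _ hanti hnor hopen hcof
  have hne : TwoSidedIdeal.asIdeal P ≠ ⊤ := fun e =>
    hPt (P.one_mem_iff.1 (TwoSidedIdeal.mem_asIdeal.1 (e ▸ Submodule.mem_top)))
  obtain ⟨r0, Z, h1, h2⟩ := hMAINQ p c k G (Iw k G) G0 _ inc K (TwoSidedIdeal.asIdeal P) hN hfi hUF
    hopen hK inferInstance hne (fun a b h => hPp a b h)
    fun A h1 h2 h3 => hH A h1 (finalq_closed hopen h2) h3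
  exact ⟨⟨⟨_, hopen r0⟩, hnor r0⟩, Z, fun g hg u hu => hel _ ▸ h1 g hg u hu, fun x hx =>
    ⟨Submodule.span_mono (Set.inter_subset_inter_right _ (hsub _)) (h2 x hx).1,
      Submodule.span_mono (Set.inter_subset_inter_right _ (hsub _)) (h2 x hx).2⟩⟩

end Pool.Agent.P.MP_7cb106_nt.Q2
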