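import Pool.Agent.P.MP_7cb106_nt.Q2.IfaceP

/-! Step FRC. -/

set_option autoImplicit false

namespace Pool.Agent.P.MP_7cb106_nt.Q2

open Filter MonoidAlgebra

theorem frc_cmp {k R : Type} [Field k] [Ring R] [Algebra k R] (P : Submodule k R)
    (D K : ℕ → Submodule k R) (hD : Antitone D) (hKD : ∀ n, K n ≤ D n)
    (hDK : ∀ j, ∃ n, D n ≤ K j) (hK : Cmp K) : Cmp (fun n => P ⊔ D n) := by
  intro x hx
  have h1 : ∀ n, ∃ z ∈ P, ∃ d ∈ D n, z + d = x (n + 1) - x n := fun n =>
    Submodule.mem_sup.1 (hx n)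
  choose z hz d hd hzd using h1
  choose m0 hm0 using hDK
  let m : ℕ → ℕ := fun n => n + ∑ i ∈ Finset.range (n + 1), m0 i
  have hm1 : ∀ n, n ≤ m n := fun n => Nat.le_add_right _ _
  have hm2 : ∀ n, m0 n ≤ m n := fun n => by
    have : m0 n ≤ ∑ i ∈ Finset.range (n + 1), m0 i :=
      Finset.single_le_sum (f := m0) (fun _ _ => Nat.zero_le _) (Finset.self_mem_range_succ n)
    exact this.trans (Nat.le_add_left _ _)
  have hm3 : ∀ n, m n ≤ m (n + 1) := fun n => by
    show n + ∑ i ∈ Finset.range (n + 1), m0 i ≤ n + 1 + ∑ i ∈ Finset.range (n + 1 + 1), m0 i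
    rw [Finset.sum_range_succ _ (n + 1)]
    omega
  let s : ℕ → R := fun n => ∑ i ∈ Finset.range n, d i
  have hs : ∀ a b, a ≤ b → s b - s a ∈ D a := by
    intro a b hab
    induction b, hab using Nat.le_induction with
    | base => rw [sub_self]; exact zero_mem _
    | succ b hab ih =>
      have e : s (b + 1) - s a = (s b - s a) + d b := by
        show ∑ i ∈ Finset.range (b + 1), d i - s a = _
        rw [Finset.sum_range_succ]
        show s b + d b - s a = _
        abel
      rw [e]
      exact add_mem ih (hD hab (hd b))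
  obtain ⟨y1, hy1⟩ := hK (fun n => s (m n)) (fun n =>
    hm0 n (hD (hm2 n) (hs _ _ (hm3 n))))
  have hxs : ∀ j, x j - x 0 - s j ∈ P := by
    intro j
    induction j with
    | zero =>
      show x 0 - x 0 - ∑ i ∈ Finset.range 0, d i ∈ P
      rw [Finset.sum_range_zero, sub_self, sub_self]; exact zero_mem _
    | succ j ih =>
      have e : x (j + 1) - x 0 - s (j + 1) = (x j - x 0 - s j) + z j := by
        show x (j + 1) - x 0 - ∑ i ∈ Finset.range (j + 1), d i = _
        rw [Finset.sum_range_succ]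
        have := hzd j
        rw [eq_sub_iff_add_eq] at this
        rw [← this]
        show z j + d j + x j - x 0 - (s j + d j) = _
        abel
      rw [e]
      exact add_mem ih (hz j)
  refine ⟨x 0 + y1, fun j => ?_⟩
  have e : x 0 + y1 - x j = -(x j - x 0 - s j) + ((y1 - s (m j)) + (s (m j) - s j)) := by abel
  rw [e]
  exact Submodule.add_mem_sup (neg_mem (hxs j)) (add_mem (hKD j (hy1 j)) (hs _ _ (hm1 j)))

theorem p_FRC (hDAF : S_DAF) :
    S_FRC := by
  intro p c _ k G R _ _ _ _ _ G0 Γ inc K hN hU hC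
  obtain ⟨hMF, -, -, h4⟩ := hDAF p c k G G0 Γ hN hU
  have hDK : ∀ j, ∃ n, (DA k G0 n).map inc.toLinearMap ⊔ K n ≤ K j := by
    intro j
    obtain ⟨n, hn⟩ := h4 j
    refine ⟨max n j, sup_le ?_ (hC.anti (le_max_right n j))⟩
    rintro _ ⟨a, ha, rfl⟩
    exact (hC.ker j a).2 (hn (hMF.anti (le_max_left n j) ha))
  refine ⟨fun j => ?_, fun P => ?_⟩
  · obtain ⟨n, hn⟩ := hDK j
    refine ⟨n, ?_⟩
    unfold FR
    rw [sup_assoc]
    refine sup_le ?_ hn
    intro a ha
    have : a = 0 := by simpa using ha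
    rw [this]; exact zero_mem _
  · have h := frc_cmp (Submodule.restrictScalars k P)
      (fun n => (DA k G0 n).map inc.toLinearMap ⊔ K n) K
      (fun a b hab => sup_le_sup (Submodule.map_mono (hMF.anti hab)) (hC.anti hab))
      (fun n => le_sup_right) hDK hC.cpl
    have e : FR inc K G0 P = fun n => Submodule.restrictScalars k P ⊔
        ((DA k G0 n).map inc.toLinearMap ⊔ K n) := by
      funext n
      unfold FR
      rw [sup_assoc]
    rw [e]
    exact h

end Pool.Agent.P.MP_7cb106_nt.Q2
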