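import Pool.Agent.P.MP_7cb106_nt.Q2.IfaceP

/-! Step GDX. -/

set_option autoImplicit false

namespace Pool.Agent.P.MP_7cb106_nt.Q2

open Filter MonoidAlgebra

theorem gdx_mem {G : Type} [Group G] {G0 : Subgroup G} {Γ : ℕ → Subgroup G0} {r : ℕ} {x : G0} :
    (x : G) ∈ GX Γ r ↔ x ∈ Γ r :=
  Subgroup.mem_map_iff_mem G0.subtype_injective

theorem p_GDX (hGXN : S_GXN) (hLIE2 : S_LIE2) (hLIE3 : S_LIE3) (hCONT : S_CONT) (hLFIN : S_LFIN) (hPWC : S_PWC) (hPWS : S_PWS) :
    S_GDX := by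
  intro p c G _ G0 Γ hN hF hU
  obtain ⟨-, a2, a3, a4⟩ := hGXN p c G G0 Γ hN hU
  obtain ⟨L, iL, ex, hadd⟩ := hLIE2 p c G0 Γ hU
  obtain ⟨i0, h0⟩ := hLIE3 p c G0 L Γ ex hU hadd
  obtain ⟨l1, l2, l3, -, l5, l6⟩ := h0
  clear i0
  have pw := hPWC p c G0 Γ hU
  have cj : ∀ (g : G) r x, x ∈ Γ r → MulAut.conjNormal g x ∈ Γ r := fun g r x hx =>
    gdx_mem.1 (by rw [MulAut.conjNormal_apply]; exact (a3 r).conj_mem _ (gdx_mem.2 hx) g)
  have ad : ∀ (g : G) a b, ex (ex.symm (MulAut.conjNormal g (ex a)) +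
      ex.symm (MulAut.conjNormal g (ex b))) = MulAut.conjNormal g (ex (a + b)) := by
    intro g a b
    refine inv_mul_eq_one.1 (hU.sep _ fun r => (pw r r _ _).1 ?_)
    have h1 := hadd (ex.symm (MulAut.conjNormal g (ex a))) (ex.symm (MulAut.conjNormal g (ex b))) r
    have h2 := cj g _ _ (hadd a b r)
    rw [ex.apply_symm_apply, ex.apply_symm_apply] at h1
    simp only [map_mul, map_inv, map_pow] at h2
    have := mul_mem (inv_mem h1) h2
    rw [← two_mul]
    simpa only [mul_inv_rev, inv_inv, mul_assoc, mul_inv_cancel_left] using this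
  letI iG : DistribMulAction G L :=
    { smul := fun g a => ex.symm (MulAut.conjNormal g (ex a))
      one_smul := fun a => by
        change ex.symm (MulAut.conjNormal (1 : G) (ex a)) = a
        rw [map_one, MulAut.one_apply, ex.symm_apply_apply]
      mul_smul := fun g h a => by
        change ex.symm (MulAut.conjNormal (g * h) (ex a)) =
          ex.symm (MulAut.conjNormal g (ex (ex.symm (MulAut.conjNormal h (ex a)))))
        rw [map_mul, MulAut.mul_apply, ex.apply_symm_apply]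
      smul_zero := fun g => by
        change ex.symm (MulAut.conjNormal g (ex 0)) = 0
        rw [l1, map_one, ← l1, ex.symm_apply_apply]
      smul_add := fun g a b => by
        change ex.symm (MulAut.conjNormal g (ex (a + b))) =
          ex.symm (MulAut.conjNormal g (ex a)) + ex.symm (MulAut.conjNormal g (ex b))
        rw [← ad, ex.symm_apply_apply] }
  have act : ∀ (g : G) (a : L), (ex (g • a) : G) = g * ex a * g⁻¹ := fun g a => by
    change ((ex (ex.symm (MulAut.conjNormal g (ex a))) : G0) : G) = _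
    rw [ex.apply_symm_apply, MulAut.conjNormal_apply]
  have hL : Lie p Γ ex := ⟨l1, l2, l3, fun g a => Subtype.ext (act g a), l5, l6⟩
  obtain ⟨c1, c2⟩ := hCONT p c G0 L Γ ex hU hL
  obtain ⟨f1, f2⟩ := hLFIN p c G0 L Γ ex hU hL
  refine ⟨L, iL, iG, ex, hL, ⟨a2, a3, a4 hF, by rw [l1]; rfl, fun a => by rw [l3]; rfl, act,
    fun r a => ?_, fun r a b => gdx_mem.2 (hadd a b r),
    fun r j a b h => gdx_mem.2 ((pw r j _ _).2 ((l5 j a b).1 h)),
    fun j g a hg => ?_, f1, f2⟩, fun a ha => ?_⟩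
  · have := (hPWS p c G0 Γ hU 0 r).1 (ex a) (by rw [hU.top]; trivial)
    rw [zero_add] at this
    exact gdx_mem.2 this
  · obtain ⟨g, hg, rfl⟩ := hg
    exact Lp_anti p L (by omega) (c2 j 0 g a hg (mem_Lp.2 ⟨a, by simp⟩))
  · exact ex.injective ((hU.sep _ fun r => (c1 r a).1 (ha r)).trans l1.symm)

end Pool.Agent.P.MP_7cb106_nt.Q2
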