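import Pool.Agent.P.MP_7cb106_nt.Q2.IfaceP

/-! Step GOLD. -/

set_option autoImplicit false

namespace Pool.Agent.P.MP_7cb106_nt.Q2

open Filter MonoidAlgebra

theorem gold_nil {R : Type} [Ring R] [IsNoetherianRing R]
    (hpr : ∀ a b : R, (∀ x, a * x * b = 0) → a = 0 ∨ b = 0) (a : R)
    (ha : ∀ r, IsNilpotent (r * a)) : a = 0 := by
  by_contra h0
  let l : R → Ideal R := fun b => LinearMap.ker (LinearMap.toSpanSingleton R R b)
  have hl : ∀ b x, x ∈ l b ↔ x * b = 0 := fun b x => Iff.rfl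
  obtain ⟨_, ⟨b, ⟨hb0, r, rfl⟩, rfl⟩, hmax⟩ := set_has_maximal_iff_noetherian.2
    (inferInstance : IsNoetherian R R) (l '' {b | b ≠ 0 ∧ ∃ r, b = a * r})
    ⟨_, a, ⟨h0, 1, (mul_one a).symm⟩, rfl⟩
  refine hb0 ((hpr _ _ fun x => ?_).elim id id)
  have hn : ∃ m, (a * r * x) ^ (m + 1) = 0 := by
    obtain ⟨m, hm⟩ := ha (r * x)
    refine ⟨m, ?_⟩
    rw [mul_assoc, pow_succ, ← mul_assoc, mul_pow_mul, hm, mul_zero, zero_mul]
  classical
  have h1 := Nat.find_spec hn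
  rcases hk : Nat.find hn with _ | k
  · rw [hk, zero_add, pow_one] at h1
    rw [h1, zero_mul]
  · have h2 : (a * r * x) ^ (k + 1) ≠ 0 := Nat.find_min hn (by omega)
    rw [hk] at h1
    have h3 : l (a * r) ≤ l ((a * r * x) ^ (k + 1)) := fun y hy => by
      rw [hl] at hy ⊢
      rw [pow_succ', ← mul_assoc, ← mul_assoc, hy, zero_mul, zero_mul]
    have h4 := h3.eq_or_lt.resolve_right (hmax _ ⟨_, ⟨h2, r * x * (a * r * x) ^ k, by
      rw [pow_succ']; simp only [mul_assoc]⟩, rfl⟩)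
    rw [← hl, h4, hl, ← pow_succ', h1]

theorem gold_main {R : Type} [Ring R] [IsNoetherianRing R]
    (hpr : ∀ a b : R, (∀ x, a * x * b = 0) → a = 0 ∨ b = 0) (I : Ideal R)
    (hI : ∀ a ∈ I, ∀ x, a * x ∈ I) (h0 : I ≠ ⊥) : ∃ c ∈ I, ∀ x, x * c = 0 → x = 0 := by
  obtain ⟨K, ⟨c, hcI, hcK, hK⟩, hmax⟩ := set_has_maximal_iff_noetherian.2
    (inferInstance : IsNoetherian R R) {K | ∃ c ∈ I, c ∈ K ∧ ∀ x ∈ K, x * c = 0 → x = 0}
    ⟨⊥, 0, I.zero_mem, Submodule.zero_mem _, fun x hx _ => hx⟩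
  refine ⟨c, hcI, fun x hx => ?_⟩
  by_contra hx0
  obtain ⟨i, hi, hi0⟩ := (Submodule.ne_bot_iff I).1 h0
  obtain ⟨r, hr⟩ : ∃ r, i * r * x ≠ 0 := by
    by_contra h
    push Not at h
    exact (hpr _ _ h).elim hi0 hx0
  obtain ⟨s, hs⟩ : ∃ s, ¬ IsNilpotent (s * (i * r * x)) := by
    by_contra h
    push Not at h
    exact hr (gold_nil hpr _ h)
  set y := s * (i * r * x) with hy
  have hyI : y ∈ I := I.mul_mem_left _ (hI _ (hI _ hi _) _)
  have hyc : y * c = 0 := by rw [hy, mul_assoc, mul_assoc, hx, mul_zero, mul_zero]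
  let f : ℕ →o Submodule R R :=
    ⟨fun n => LinearMap.ker (LinearMap.toSpanSingleton R R (y ^ n)), monotone_nat_of_le_succ
      fun n z hz => by
        change z * y ^ (n + 1) = 0
        rw [pow_succ, ← mul_assoc, show z * y ^ n = 0 from hz, zero_mul]⟩
  obtain ⟨n, hn⟩ := monotone_stabilizes_iff_noetherian.2 (inferInstance : IsNoetherian R R) f
  set a := y ^ (n + 1) with ha
  have haI : a ∈ I := by rw [ha, pow_succ]; exact I.mul_mem_left _ hyI
  have hac : a * c = 0 := by rw [ha, pow_succ, mul_assoc, hyc, mul_zero]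
  have ha0 : a ≠ 0 := fun h => hs ⟨_, h⟩
  have haa : ∀ z, z * a * a = 0 → z * a = 0 := by
    intro z hz
    have h1 : z ∈ f (n + 1 + (n + 1)) := by
      change z * y ^ _ = 0
      rw [pow_add, ← mul_assoc, hz]
    rw [← hn _ (by omega), hn (n + 1) (by omega)] at h1
    exact h1
  refine hmax (K ⊔ Ideal.span {a}) ⟨c + a, I.add_mem hcI haI,
    Submodule.add_mem_sup hcK (Ideal.subset_span rfl), ?_⟩ (lt_of_le_of_ne le_sup_left ?_)
  · intro z hz hz0
    obtain ⟨k, hk, _, hw, rfl⟩ := Submodule.mem_sup.1 hz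
    obtain ⟨w, rfl⟩ := Ideal.mem_span_singleton'.1 hw
    have h1 : k * c = -((k + w * a) * a) := by
      rw [eq_neg_iff_add_eq_zero, ← hz0, mul_add, add_mul k _ c, mul_assoc w, hac, mul_zero,
        add_zero]
    have h2 : k * c = 0 := hK _ (K.smul_mem k hcK) (by
      rw [h1, neg_mul, mul_assoc, hac, mul_zero, neg_zero])
    have h3 : k = 0 := hK _ hk h2
    rw [h2, h3, zero_add, eq_comm, neg_eq_zero] at h1
    rw [h3, zero_add, haa _ h1]
  · intro h
    have : a ∈ K := h ▸ Submodule.mem_sup_right (Ideal.subset_span rfl)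
    exact ha0 (hK _ this hac)

theorem p_GOLD :
    S_GOLD := fun _ _ _ hpr I hI h0 => gold_main hpr I hI h0

end Pool.Agent.P.MP_7cb106_nt.Q2
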