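import Pool.Agent.P.MP_7cb106_nt.Q2.IfaceP

/-! Step GXN. -/

set_option autoImplicit false

namespace Pool.Agent.P.MP_7cb106_nt.Q2

open Filter MonoidAlgebra

theorem p_GXN :
    S_GXN := by
  intro p c G _ G0 Γ hN u
  have h0 : GX Γ 0 = G0 := by
    rw [GX, u.top, ← MonoidHom.range_eq_map, Subgroup.range_subtype]
  refine ⟨h0, fun a b h => Subgroup.map_mono (u.anti h), fun r => ?_, fun hf r => ⟨?_⟩⟩
  · induction r with
    | zero => rwa [h0]
    | succ r ih =>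
      refine ⟨?_⟩
      rintro _ ⟨x, hx, rfl⟩ g
      obtain ⟨y, hy, rfl⟩ := u.pow_surj r x hx
      obtain ⟨z, hz, e⟩ := ih.conj_mem _ ⟨y, hy, rfl⟩ g
      refine ⟨z ^ p, u.pow_mem r z hz, ?_⟩
      rw [map_pow, map_pow, e, conj_pow]
  · rw [GX, Subgroup.index_map_subtype]
    exact mul_ne_zero (u.fin r).index_ne_zero hf.index_ne_zero

end Pool.Agent.P.MP_7cb106_nt.Q2
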