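import Pool.Agent.P.MP_7cb106_nt.Q2.IfaceQ

/-! Step IR2X. -/

set_option autoImplicit false

namespace Pool.Agent.P.MP_7cb106_nt.Q2

open Filter MonoidAlgebra

theorem ir2x_ind {p c : ℕ} {L : Type} [AddCommGroup L] {E : AddSubgroup L} (hC : Cld p E)
    (A : L →+ L) (h0 : ∀ a, A a - a ∈ Lp p L c)
    (hs : ∀ m, c ≤ m → (∀ e ∈ E, A e - e ∈ E ⊔ Lp p L m) →
      ∀ e ∈ E, A e - e ∈ E ⊔ Lp p L (m + 1)) : ∀ e ∈ E, A e ∈ E := by
  have h : ∀ m, c ≤ m → ∀ e ∈ E, A e - e ∈ E ⊔ Lp p L m := by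
    intro m hm
    induction m, hm using Nat.le_induction with
    | base => exact fun e _ => AddSubgroup.mem_sup_right (h0 e)
    | succ m hm ih => exact hs m hm ih
  intro e he
  have := hC (A e - e) fun j =>
    sup_le_sup_left (Lp_anti p L (Nat.le_add_left j c)) E (h (c + j) (Nat.le_add_right _ _) e he)
  simpa using E.add_mem this he

theorem ir2x_mem {L : Type} [AddCommGroup L] {E M : AddSubgroup L} {a e x : L} (ha : a ∈ E)
    (he : e ∈ E) (h : a - e - x ∈ E ⊔ M) : x ∈ E ⊔ M := by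
  have := (E ⊔ M).sub_mem (AddSubgroup.mem_sup_left (E.sub_mem ha he)) h
  simpa using this

theorem ir2x_a (hIR1 : S_IR1) {p c : ℕ} [Fact p.Prime] {L : Type} [AddCommGroup L]
    {E : AddSubgroup L} (c1 : 1 ≤ c) (c2 : 2 ≤ (p - 1) * c) (hI : Iso p E) (hC : Cld p E)
    (A : L →+ L) (h0 : ∀ a, A a - a ∈ Lp p L c) (hp : ∀ e ∈ E, A^[p] e ∈ E) :
    ∀ e ∈ E, A e ∈ E := by
  refine ir2x_ind hC A h0 fun m hm ih e he => ?_
  have h1 := ir2x_mem (hp e he) he ((hIR1 p c m L E A c1 hm hI h0 ih e (ih e he)).2 c2)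
  obtain ⟨e', he', z, hz, h⟩ := AddSubgroup.mem_sup.1 h1
  obtain ⟨b, rfl⟩ := mem_Lp.1 hz
  have h2 : A e - e - p ^ (m + 1) • b ∈ E := hI _ (by
    rw [smul_sub, ← h, ← mul_smul, ← pow_succ']
    simpa using he')
  exact AddSubgroup.mem_sup.2 ⟨_, h2, _, mem_Lp.2 ⟨b, rfl⟩, sub_add_cancel _ _⟩

theorem ir2x_b (hIR1 : S_IR1) {p c : ℕ} [hp : Fact p.Prime] {L : Type} [AddCommGroup L]
    {E : AddSubgroup L} (c1 : 1 ≤ c) (hI : Iso p E) (hC : Cld p E)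
    (A : L →+ L) (h0 : ∀ a, A a - a ∈ Lp p L c) {u : ℕ} (hu : ¬ p ∣ u)
    (hA : ∀ e ∈ E, A^[u] e ∈ E) : ∀ e ∈ E, A e ∈ E := by
  refine ir2x_ind hC A h0 fun m hm ih e he => ?_
  have h1 := ir2x_mem (hA e he) he ((hIR1 p c m L E A c1 hm hI h0 ih e (ih e he)).1 u)
  have h2 : p • (A e - e) ∈ E ⊔ Lp p L (m + 1) := by
    obtain ⟨e', he', z, hz, h⟩ := AddSubgroup.mem_sup.1 (ih e he)
    obtain ⟨b, rfl⟩ := mem_Lp.1 hz
    refine AddSubgroup.mem_sup.2 ⟨_, E.nsmul_mem he' p, _, mem_Lp.2 ⟨b, rfl⟩, ?_⟩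
    rw [← h, smul_add, ← mul_smul, ← pow_succ']
  obtain ⟨v, w, h⟩ := Nat.isCoprime_iff_coprime.2 ((hp.out.coprime_iff_not_dvd).2 hu)
  have h3 := AddSubgroup.add_mem _ (AddSubgroup.zsmul_mem _ h2 v) (AddSubgroup.zsmul_mem _ h1 w)
  rwa [← natCast_zsmul, ← natCast_zsmul, ← mul_smul, ← mul_smul, ← add_smul, h, one_smul] at h3

theorem ir2x_it {G L : Type} [Group G] [AddCommGroup L] [DistribMulAction G L] (h : G) (n : ℕ)
    (a : L) : (DistribSMul.toAddMonoidHom L h)^[n] a = h ^ n • a := by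
  induction n with
  | zero => simp
  | succ n ih => rw [Function.iterate_succ_apply', ih, pow_succ', mul_smul]; rfl

theorem p_IR2X (hIR1 : S_IR1) :
    S_IR2X := by
  intro p c hp G L _ _ _ G2 c1 c2 hG2 E hI hC hf g hg
  have h0 : ∀ (n : ℕ) a, DistribSMul.toAddMonoidHom L (g ^ n) a - a ∈ Lp p L c := fun n a =>
    hG2 _ (G2.pow_mem hg n) a
  obtain ⟨i, j, hij, h⟩ := Set.Finite.exists_lt_map_eq_of_forall_mem
    (f := fun i : ℕ => mv (g ^ i) E) (fun i => Set.mem_range_self (f := fun g : G => mv g E) _) hf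
  obtain ⟨n, rfl⟩ := Nat.exists_eq_add_of_lt hij
  have h1 : ∀ e ∈ E, g ^ (n + 1) • e ∈ E := fun e he => by
    have : g ^ (i + n + 1) • e ∈ mv (g ^ i) E := by
      rw [h]
      exact ⟨e, he, rfl⟩
    obtain ⟨e', he', h'⟩ := this
    have h2 : g ^ i • e' = g ^ i • g ^ (n + 1) • e := by
      rw [← mul_smul, ← pow_add]
      exact h'
    rwa [← smul_left_cancel _ h2]
  obtain ⟨s, u, hu, hn⟩ := Nat.exists_eq_pow_mul_and_not_dvd n.succ_ne_zero p hp.out.ne_one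
  rw [show n + 1 = p ^ s * u from hn, pow_mul] at h1
  have h2 : ∀ e ∈ E, g ^ p ^ s • e ∈ E :=
    ir2x_b hIR1 c1 hI hC _ (h0 _) hu fun e he => by rw [ir2x_it]; exact h1 e he
  clear h1 hn
  induction s with
  | zero => simpa using h2
  | succ s ih =>
    refine ih (ir2x_a hIR1 c1 c2 hI hC _ (h0 _) fun e he => ?_)
    rw [ir2x_it, ← pow_mul, ← pow_succ]
    exact h2 e he

end Pool.Agent.P.MP_7cb106_nt.Q2
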