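import Pool.Agent.P.MP_7cb106_nt.Q2.IfaceP

/-! Step IW. -/

set_option autoImplicit false

namespace Pool.Agent.P.MP_7cb106_nt.Q2

open Filter MonoidAlgebra

noncomputable def iw_inc (k G : Type) [Field k] [Group G] [TopologicalSpace G] :
    MonoidAlgebra k G →ₐ[k] Iw k G :=
  AlgHom.codRestrict
    (Pi.algHom k (fun V : OpenNormalSubgroup G => MonoidAlgebra k (G ⧸ V.toSubgroup))
      fun V => mapDomainAlgHom k k (QuotientGroup.mk' V.toSubgroup)) (Iw k G) (by
    intro a V W h
    have e : (mapDomainAlgHom k k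
        (QuotientGroup.map V.toSubgroup W.toSubgroup (MonoidHom.id G) h)).comp
        (mapDomainAlgHom k k (QuotientGroup.mk' V.toSubgroup)) =
        mapDomainAlgHom k k (QuotientGroup.mk' W.toSubgroup) := by
      apply MonoidAlgebra.algHom_ext
      · intro g
        simp [MonoidAlgebra.mapDomainAlgHom]
      · exact Subsingleton.elim _ _
    exact DFunLike.congr_fun e a)

noncomputable def iw_ev (k : Type) {G : Type} [Field k] [Group G] [TopologicalSpace G]
    (V : OpenNormalSubgroup G) : Iw k G →ₐ[k] MonoidAlgebra k (G ⧸ V.toSubgroup) :=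
  (Pi.evalAlgHom k (fun V : OpenNormalSubgroup G => MonoidAlgebra k (G ⧸ V.toSubgroup)) V).comp
    (Iw k G).val

theorem iw_ev_apply {k G : Type} [Field k] [Group G] [TopologicalSpace G]
    (V : OpenNormalSubgroup G) (x : Iw k G) : iw_ev k V x = x.1 V := rfl

theorem iw_ev_inc {k G : Type} [Field k] [Group G] [TopologicalSpace G]
    (V : OpenNormalSubgroup G) (a : MonoidAlgebra k G) :
    iw_ev k V (iw_inc k G a) = mapDomainAlgHom k k (QuotientGroup.mk' V.toSubgroup) a := rfl

theorem iw_zero {k G : Type} [Field k] [Group G] [TopologicalSpace G]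
    {V W : OpenNormalSubgroup G} (h : V.toSubgroup ≤ W.toSubgroup) {x : Iw k G}
    (hx : iw_ev k V x = 0) : iw_ev k W x = 0 := by
  have e := x.2 V W h
  rw [iw_ev_apply] at hx ⊢
  rw [← e, hx, map_zero]

theorem iw_of {k G : Type} [Field k] [Group G] (H : Subgroup G) [H.Normal] (g : G) :
    mapDomainAlgHom k k (QuotientGroup.mk' H) (of k G g) = of k (G ⧸ H) (g : G ⧸ H) := by
  simp [MonoidAlgebra.mapDomainAlgHom]

theorem iw_surj {k G : Type} [Field k] [Group G] (H : Subgroup G) [H.Normal]
    (b : MonoidAlgebra k (G ⧸ H)) :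
    ∃ a, mapDomainAlgHom k k (QuotientGroup.mk' H) a = b := by
  induction b using MonoidAlgebra.induction_on with
  | of q =>
    obtain ⟨g, rfl⟩ := QuotientGroup.mk_surjective q
    exact ⟨of k G g, iw_of H g⟩
  | add f g hf hg =>
    obtain ⟨a, rfl⟩ := hf
    obtain ⟨b, rfl⟩ := hg
    exact ⟨a + b, map_add _ _ _⟩
  | smul r f hf =>
    obtain ⟨a, rfl⟩ := hf
    exact ⟨r • a, map_smul _ _ _⟩

theorem p_IW (hKRK : S_KRK) :
    S_IW := by
  intro k G _ _ _ Γ hanti hnor hop hcof
  let V : ℕ → OpenNormalSubgroup G := fun n => ⟨⟨Γ n, hop n⟩, hnor n⟩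
  let K : ℕ → Submodule k (Iw k G) := fun n => LinearMap.ker (iw_ev k (V n)).toLinearMap
  have hK : ∀ n x, x ∈ K n ↔ iw_ev k (V n) x = 0 := fun n x => Iff.rfl
  have hz : ∀ n (W : OpenNormalSubgroup G), Γ n ≤ W.toSubgroup → ∀ x, x ∈ K n →
      iw_ev k W x = 0 := fun n W h x hx => iw_zero (V := V n) h ((hK n x).1 hx)
  have hKa : Antitone K := fun n m h x hx => (hK n x).2 (hz m (V n) (hanti h) x hx)
  refine ⟨iw_inc k G, K, ⟨hKa, ?_, ?_, ?_, ?_, ?_, ?_⟩, ?_, ?_⟩
  · intro n x y hy
    rw [hK] at hy ⊢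
    rw [map_mul, hy, mul_zero]
  · intro n x y hx
    rw [hK] at hx ⊢
    rw [map_mul, hx, zero_mul]
  · intro n x
    obtain ⟨a, ha⟩ := iw_surj (V n).toSubgroup (iw_ev k (V n) x)
    refine ⟨a, ?_⟩
    rw [hK, map_sub, iw_ev_inc, ha, sub_self]
  · intro n a
    rw [hK, iw_ev_inc]
    exact hKRK k G (V n).toSubgroup a
  · intro x hx
    apply Subtype.ext
    funext W
    obtain ⟨n, hn⟩ := hcof W
    exact hz n W hn x (hx n)
  · intro x hx
    have h1 : ∀ n m, n ≤ m → x m - x n ∈ K n := by
      intro n m h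
      induction m, h using Nat.le_induction with
      | base => rw [sub_self]; exact zero_mem _
      | succ m h ih =>
        have e : x (m + 1) - x n = (x (m + 1) - x m) + (x m - x n) := by abel
        rw [e]
        exact add_mem (hKa h (hx m)) ih
    have h2 : ∀ (W : OpenNormalSubgroup G) n m, Γ n ≤ W.toSubgroup → Γ m ≤ W.toSubgroup →
        iw_ev k W (x n) = iw_ev k W (x m) := by
      intro W n m hn hm
      rcases le_total n m with h | h
      · have := hz n W hn _ (h1 n m h)
        rw [map_sub, sub_eq_zero] at this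
        exact this.symm
      · have := hz m W hm _ (h1 m n h)
        rw [map_sub, sub_eq_zero] at this
        exact this
    choose nV hnV using hcof
    refine ⟨⟨fun W => iw_ev k W (x (nV W)), fun W W' h => ?_⟩, fun n => ?_⟩
    · have e := (x (nV W)).2 W W' h
      exact e.trans (h2 W' _ _ ((hnV W).trans h) (hnV W'))
    · rw [hK, map_sub, sub_eq_zero]
      exact h2 (V n) _ _ (hnV (V n)) le_rfl
  · intro g
    apply Subtype.ext
    funext W
    exact iw_of W.toSubgroup g
  · intro U y hy W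
    obtain ⟨n, hn⟩ := hcof W
    obtain ⟨a, ha, z, hz0, h⟩ := hy n
    rw [Ideal.mem_bot] at hz0
    have e := hz n W hn _ h
    rw [hz0, sub_zero, map_sub, sub_eq_zero, iw_ev_inc, iw_ev_apply] at e
    rw [e]
    clear e h
    induction ha using Submodule.span_induction with
    | mem x hx =>
      obtain ⟨u, hu, rfl⟩ := hx
      rw [iw_of]
      exact Submodule.subset_span ⟨u, hu, rfl⟩
    | zero => rw [map_zero]; exact zero_mem _
    | add a b _ _ ha hb => rw [map_add]; exact add_mem ha hb
    | smul c a _ ha => rw [map_smul]; exact Submodule.smul_mem _ _ ha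

end Pool.Agent.P.MP_7cb106_nt.Q2
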