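import Pool.Agent.P.MP_7cb106_nt.Q2.HNE

/-! A Jennings type bound, and the goodness of stable isolated subgroups. -/

set_option autoImplicit false

namespace Pool.Agent.P.MP_7cb106_nt.Q2.NE

open MonoidAlgebra

section
variable {k G : Type} [Field k] [Group G]

lemma prod_mem {ι : Type} (x : ι → G) (l : List ι) :
    (l.map fun i => of k G (x i) - 1).prod ∈ Mp k G l.length := by
  induction l with
  | nil => rw [List.length_nil, Mp_zero]; trivial
  | cons i l ih => simpa [add_comm] using Mp_mul (sub_one_mem_Mp (x i)) ih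

lemma perm_mem {ι : Type} (x : ι → G)
    (hc : ∀ x y : G, (of k G x - 1) * (of k G y - 1) - (of k G y - 1) * (of k G x - 1) ∈ Mp k G 3)
    {l l' : List ι} (h : l.Perm l') :
    (l.map fun i => of k G (x i) - 1).prod - (l'.map fun i => of k G (x i) - 1).prod ∈
      Mp k G (l.length + 1) := by
  induction h with
  | nil => simp
  | cons i _ ih =>
    rw [List.map_cons, List.map_cons, List.prod_cons, List.prod_cons, ← mul_sub, List.length_cons,
      add_comm _ 1]
    exact Mp_mul (sub_one_mem_Mp (x i)) ih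
  | swap i j l =>
    simp only [List.map_cons, List.prod_cons, List.length_cons]
    rw [← mul_assoc, ← mul_assoc, ← sub_mul, show l.length + 1 + 1 + 1 = 3 + l.length by omega]
    exact Mp_mul (hc _ _) (prod_mem x l)
  | trans h1 _ ih1 ih2 =>
    rw [← h1.length_eq] at ih2
    simpa using add_mem ih1 ih2

lemma pigeon {ι : Type} [Fintype ι] [Nonempty ι] (q : ℕ) (l : List ι)
    (h : Fintype.card ι * q ≤ l.length) : ∃ i l', l.Perm (l' ++ List.replicate q i) := by
  classical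
  have h1 : ∃ i, q ≤ l.count i := by
    by_contra hn
    push Not at hn
    have h2 : l.length = ∑ i, l.count i := by
      rw [← List.sum_toFinset_count_eq_length]
      exact Finset.sum_subset (Finset.subset_univ _) fun i _ hi =>
        List.count_eq_zero_of_not_mem (by simpa using hi)
    have h3 : ∑ i, l.count i < ∑ _i : ι, q :=
      Finset.sum_lt_sum_of_nonempty Finset.univ_nonempty fun i _ => hn i
    simp at h3
    omega
  obtain ⟨i, hi⟩ := h1
  obtain ⟨l', hl'⟩ := (List.replicate_sublist_iff.2 hi).exists_perm_append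
  exact ⟨i, l', hl'.trans List.perm_append_comm⟩

variable {p c : ℕ} [hp : Fact p.Prime] [CharP k p] {Γ : ℕ → Subgroup G}

lemma jennings (hGEN : S_GEN) (hNIL : S_NIL) (U : UF p c Γ) :
    ∃ (s : ℕ) (x : Fin s → G), ∀ r M, Mp k G (s * p ^ r) ≤
      Submodule.span k {z | ∃ y l, z = y * (of k G (x l ^ p ^ r) - 1)} ⊔ Kr k (Γ M) := by
  have := U.fin 1
  have := Fintype.ofFinite (G ⧸ Γ 1)
  obtain ⟨hg, hc⟩ := hGEN p c k G Γ U
  let e := (Fintype.equivFin (G ⧸ Γ 1)).symm
  refine ⟨_, fun l => (e l).out, fun r M => ?_⟩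
  set X := Submodule.span k {z | ∃ y l, z = y * (of k G ((e l).out ^ p ^ r) - 1)}
  have : CharP (MonoidAlgebra k G) p :=
    charP_of_injective_algebraMap (algebraMap k (MonoidAlgebra k G)).injective p
  have h1 : ∀ j, Fintype.card (G ⧸ Γ 1) * p ^ r ≤ j → Mp k G j ≤ X ⊔ Mp k G (j + 1) := by
    intro j hj
    refine (hg j).trans (sup_le (Submodule.span_le.2 ?_) le_sup_right)
    rintro _ ⟨l, rfl, rfl⟩
    obtain ⟨i, l', hl⟩ := pigeon (p ^ r) l hj
    have h2 := perm_mem (fun q : G ⧸ Γ 1 => q.out) hc hl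
    have h3 : ((l' ++ List.replicate (p ^ r) i).map fun q : G ⧸ Γ 1 => of k G q.out - 1).prod ∈ X := by
      refine Submodule.subset_span
        ⟨(l'.map fun q : G ⧸ Γ 1 => of k G q.out - 1).prod, e.symm i, ?_⟩
      rw [List.map_append, List.prod_append, List.map_replicate, List.prod_replicate,
        e.apply_symm_apply, sub_pow_char_pow_of_commute p r (Commute.one_right _), one_pow, map_pow]
    simpa using Submodule.add_mem_sup h3 h2
  have h2 : ∀ d, Mp k G (Fintype.card (G ⧸ Γ 1) * p ^ r) ≤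
      X ⊔ Mp k G (Fintype.card (G ⧸ Γ 1) * p ^ r + d) := by
    intro d
    induction d with
    | zero => exact le_sup_right
    | succ d ih => exact ih.trans (sup_le le_sup_left (h1 _ (Nat.le_add_right _ _)))
  obtain ⟨n, hn⟩ := hNIL p c k G Γ U M
  exact (h2 n).trans (sup_le_sup_left ((Mp_anti (Nat.le_add_left _ _)).trans hn) _)

omit hp [CharP k p] in
lemma pow_span {O : Type} [Ring O] {t : O} (ht : ∀ o, t * o = o * t)
    (φ : MonoidAlgebra k G →+* O) {d : ℕ}
    (h : t ^ d ∈ Ideal.span (Set.range fun g : G => φ (of k G g - 1))) (j : ℕ) :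
    t ^ (d * j) ∈ Ideal.span (φ '' (Mp k G j : Set (MonoidAlgebra k G))) := by
  induction j with
  | zero => exact Ideal.subset_span ⟨1, by rw [Mp_zero]; trivial, by simp⟩
  | succ j ih =>
    have hc : ∀ o, t ^ d * o = o * t ^ d := fun o => ((Commute.symm (ht o).symm).pow_left d).eq
    rw [Nat.mul_succ, add_comm (d * j), pow_add]
    generalize t ^ (d * j) = w at ih
    induction ih using Submodule.span_induction with
    | mem w hw =>
      obtain ⟨m, hm, rfl⟩ := hw
      generalize t ^ d = v at h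
      induction h using Submodule.span_induction with
      | mem v hv =>
        obtain ⟨g, rfl⟩ := hv
        exact Ideal.subset_span ⟨_, by
          rw [add_comm]; exact Mp_mul (sub_one_mem_Mp g) hm, map_mul _ _ _⟩
      | zero => simp
      | add x y _ _ hx hy => rw [add_mul]; exact add_mem hx hy
      | smul a x _ hx => rw [smul_eq_mul, mul_assoc]; exact Ideal.mul_mem_left _ _ hx
    | zero => simp
    | add x y _ _ hx hy => rw [mul_add]; exact add_mem hx hy
    | smul a x _ hx =>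
      rw [smul_eq_mul, ← mul_assoc, hc, mul_assoc]; exact Ideal.mul_mem_left _ _ hx

end

variable {G : Type} [Group G] {p c : ℕ} {L : Type} [AddCommGroup L] [DistribMulAction G L]
  {Γ : ℕ → Subgroup G} {ex : L ≃ G} {E : AddSubgroup L}

/-- the normal subgroup attached to `E` is again uniform -/
lemma sub_uf (hp : 2 ≤ p) (U : UF p c Γ) (T : Lie p Γ ex) (hcl : Cld p E) {N : ℕ → Subgroup G}
    (hN : ∀ i x, x ∈ N i ↔ x ∈ Γ (i + 1) ∧ ex.symm x ∈ E)
    (hcm : ∀ s i g x, g ∈ Γ s → x ∈ N i → g * x * g⁻¹ * x⁻¹ ∈ N (i + s + 1))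
    (hsur : ∀ i x, x ∈ N (i + 1) → ∃ y ∈ N i, y ^ p = x) :
    UF p 2 fun i => (Γ (i + 1)).subgroupOf (N 0) := by
  have hm : ∀ i (x : N 0), x ∈ (Γ (i + 1)).subgroupOf (N 0) ↔ (x : G) ∈ N i := fun i x => by
    rw [Subgroup.mem_subgroupOf, hN]
    exact ⟨fun h => ⟨h, ((hN 0 x).1 x.2).2⟩, fun h => h.1⟩
  refine ⟨by norm_num, by omega, ?_, fun i j h x hx => U.anti (Nat.succ_le_succ h) hx,
    fun r => (U.normal _).subgroupOf _, fun r => ?_, fun r x hx => U.pow_mem _ _ hx,
    fun r g hg => ?_, fun r x hx => U.pow_inj _ _ hx, fun r s x y hx hy => ?_,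
    fun r s x y hx hy => U.anti (by omega) (U.pow_mul _ _ _ _ hx hy),
    fun x hx => Subtype.ext (U.sep _ fun r => U.anti (Nat.le_succ r) (hx r)), ?_⟩
  · exact eq_top_iff.2 fun x _ => ((hN 0 x).1 x.2).1
  · have := U.fin (r + 1)
    infer_instance
  · obtain ⟨y, hy, e⟩ := hsur r g ((hm _ _).1 hg)
    have hy0 : y ∈ N 0 := (hN 0 y).2 ⟨U.anti (by omega) ((hN r y).1 hy).1, ((hN r y).1 hy).2⟩
    exact ⟨⟨y, hy0⟩, (hm _ _).2 hy, Subtype.ext e⟩
  · exact U.anti (by omega) ((hN _ _).1 (hcm (r + 1) s x y hx ((hm _ _).1 hy))).1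
  · intro S hne hdir h1 h2
    let D : Set (N 0) → ℕ → Set G := fun C m => {x | ∃ y ∈ C, (y : G)⁻¹ * x ∈ Γ m}
    obtain ⟨x, hx⟩ := U.cpt {A | ∃ C ∈ S, ∃ m, A = D C m}
      (by obtain ⟨C, hC⟩ := hne; exact ⟨_, C, hC, 0, rfl⟩)
      (by
        rintro _ ⟨A, hA, m, rfl⟩ _ ⟨B, hB, m', rfl⟩
        obtain ⟨C, hC, e1, e2⟩ := hdir A hA B hB
        exact ⟨_, ⟨C, hC, m + m', rfl⟩,
          fun x ⟨y, hy, e⟩ => ⟨y, e1 hy, U.anti (by omega) e⟩,
          fun x ⟨y, hy, e⟩ => ⟨y, e2 hy, U.anti (by omega) e⟩⟩)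
      (by
        rintro _ ⟨A, hA, m, rfl⟩
        obtain ⟨y, hy⟩ := h1 A hA
        exact ⟨y, y, hy, by simp⟩)
      (by
        rintro _ ⟨A, hA, m, rfl⟩
        exact ⟨m, fun x ⟨y, hy, e⟩ g hg => ⟨y, hy, by rw [← mul_assoc]; exact mul_mem e hg⟩⟩)
    have hx' : ∀ C ∈ S, ∀ m, ∃ y ∈ C, (y : G)⁻¹ * x ∈ Γ m := fun C hC m => hx _ ⟨C, hC, m, rfl⟩
    obtain ⟨C0, hC0⟩ := hne
    have hx0 : x ∈ N 0 := by
      refine (hN 0 x).2 ⟨?_, hcl _ fun j => ?_⟩
      · obtain ⟨y, -, e⟩ := hx' C0 hC0 1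
        simpa using mul_mem ((hN 0 y).1 y.2).1 e
      · obtain ⟨y, -, e⟩ := hx' C0 hC0 j
        have h1 := (T.cong j (ex.symm x) (ex.symm y)).2 (by simpa using e)
        simpa using AddSubgroup.add_mem_sup ((hN 0 y).1 y.2).2 h1
    refine ⟨⟨x, hx0⟩, fun C hC => ?_⟩
    obtain ⟨m, hm'⟩ := h2 C hC
    obtain ⟨y, hy, e⟩ := hx' C hC (m + 1)
    simpa using hm' y hy (y⁻¹ * ⟨x, hx0⟩) e

/-- A nonzero closed isolated stable subgroup gives a nontrivial normal subgroup whose
augmentation ideal satisfies the Jennings bound at every level. -/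
theorem good (hC : S_CONT) (hGEN : S_GEN) (hNIL : S_NIL) [hp : Fact p.Prime] (k : Type) [Field k]
    [CharP k p] (U : UF p c Γ) (T : Lie p Γ ex) (hE : Iso p E) (hcl : Cld p E)
    (hs : ∀ g : G, ∀ e ∈ E, g • e ∈ E) (hne : E ≠ ⊥) :
    ∃ H : Subgroup G, H.Normal ∧ H ≠ ⊥ ∧ ∃ (s : ℕ) (a : Fin s → L), (∀ l, a l ∈ E) ∧
      ∀ (r : ℕ) (O : Type) [Ring O] (t : O) (io : G →* O) (d : ℕ), (∀ o, t * o = o * t) →
        Nonempty (k →+* Subring.center O) → (∃ M, ∀ g ∈ Γ M, io g = 1) →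
        t ^ d ∈ Ideal.span ((fun g => io g - 1) '' (H : Set G)) →
        t ^ (d * (s * p ^ r)) ∈ Ideal.span (Set.range fun l => io (ex (a l) ^ p ^ r) - 1) := by
  obtain ⟨N, hN, hn, hcm, -, hsur⟩ := exists_normal hC U T hE hcl hs
  obtain ⟨s, x, hx⟩ := jennings (k := k) hGEN hNIL (sub_uf hp.out.two_le U T hcl hN hcm hsur)
  refine ⟨N 0, hn 0, fun h0 => hne ?_, s, fun l => ex.symm (x l), fun l => ((hN 0 _).1 (x l).2).2,
    ?_⟩
  · rw [eq_bot_iff]
    intro e he
    have h1 : ex e ^ p ∈ N 0 := (hN 0 _).2 ⟨U.pow_mem _ _ (by rw [U.top]; trivial), by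
      rw [symm_pow T, Equiv.symm_apply_apply]; exact E.nsmul_mem he p⟩
    rw [h0, Subgroup.mem_bot] at h1
    have h2 := U.sep (ex e) fun r => U.pow_inj r _ (h1 ▸ one_mem _)
    exact ex.injective (h2.trans T.zero.symm)
  · rintro r O _ t io d ht ⟨f⟩ ⟨M, hM⟩ h
    let _ : Algebra k O := RingHom.toAlgebra' ((Subring.center O).subtype.comp f)
      fun a o => ((Subring.mem_center_iff.1 (f a).2) o).symm
    let φ : MonoidAlgebra k (N 0) →ₐ[k] O := lift k O (N 0) (io.comp (N 0).subtype)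
    have hφ : ∀ g : N 0, φ (of k (N 0) g) = io g := fun g => lift_of _ g
    have h1 := pow_span ht (φ : MonoidAlgebra k (N 0) →+* O) (d := d) (Ideal.span_mono (by
      rintro _ ⟨g, hg, rfl⟩
      exact ⟨⟨g, hg⟩, by simp only [RingHom.coe_coe, map_sub, map_one, hφ]⟩) h) (s * p ^ r)
    refine Ideal.span_le.2 ?_ h1
    rintro _ ⟨m, hm, rfl⟩
    obtain ⟨u, hu, v, hv, rfl⟩ := Submodule.mem_sup.1 (hx r M hm)
    have hv0 : φ v = 0 := by
      refine (Submodule.span_le (p := LinearMap.ker φ.toLinearMap)).2 ?_ hv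
      rintro _ ⟨g, y, hy, rfl⟩
      have : io y = 1 := hM y (U.anti (Nat.le_succ M) hy)
      change φ _ = 0
      rw [map_sub, hφ, hφ, Subgroup.coe_mul, map_mul, this, mul_one, sub_self]
    rw [RingHom.coe_coe, map_add, hv0, add_zero]
    clear hm
    induction hu using Submodule.span_induction with
    | mem z hz =>
      obtain ⟨y, l, rfl⟩ := hz
      rw [map_mul, map_sub, hφ, map_one]
      exact Ideal.mul_mem_left _ _ (Ideal.subset_span ⟨l, by simp⟩)
    | zero => simp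
    | add x y _ _ hx hy => rw [map_add]; exact add_mem hx hy
    | smul a x _ hx => rw [map_smul, Algebra.smul_def]; exact Ideal.mul_mem_left _ _ hx

end Pool.Agent.P.MP_7cb106_nt.Q2.NE
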