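import Pool.Agent.P.MP_7cb106_nt.Q2.IfaceP
import Pool.Agent.P.MP_7cb106_nt.Q2.HN5

/-! Step JEN. -/

set_option autoImplicit false

namespace Pool.Agent.P.MP_7cb106_nt.Q2

open Filter MonoidAlgebra

theorem p_JEN (hGEN : S_GEN) (hNIL : S_NIL) :
    S_JEN := by
  intro p c _ k G _ _ _ Γ U
  classical
  obtain ⟨s, x, hx⟩ := NE.jennings (k := k) hGEN hNIL U
  refine ⟨s, Finset.univ.image x, fun r M => (hx r M).trans (sup_le_sup_right ?_ _)⟩
  rw [Submodule.span_le]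
  rintro _ ⟨y, l, rfl⟩
  exact Ideal.mul_mem_left _ _ (Ideal.subset_span ⟨x l, by simp, rfl⟩)

end Pool.Agent.P.MP_7cb106_nt.Q2
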