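import Pool.Agent.P.MP_7cb106_nt.Q2.IfaceX

/-! Step KILX. -/

set_option autoImplicit false

namespace Pool.Agent.P.MP_7cb106_nt.Q2

open Filter MonoidAlgebra

theorem kilx_m2 {p : ℕ} {k G : Type} [Field k] [Group G] {Γ : ℕ → Subgroup G}
    {F : ℕ → Submodule k (MonoidAlgebra k G)} (hF : FD p Γ F) (r : ℕ) (x y : G)
    (h : x⁻¹ * y ∈ Γ r) : of k G y - of k G x ∈ F (p ^ r) := by
  have e : of k G y - of k G x = of k G x * (of k G (x⁻¹ * y) - 1) := by
    rw [mul_sub, mul_one, ← map_mul, mul_inv_cancel_left]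
  rw [e]
  exact hF.left _ _ _ (hF.lev r _ h)

theorem p_KILX :
    S_KILX := by
  classical
  intro p _ k G L N _ _ _ _ _ _ Γ ex F Λ τ t Φ hL hF hT f hf j _ x M hM
  have hp : 1 < p := (Fact.out : p.Prime).one_lt
  have key : ∀ (r : ℕ) (z : MonoidAlgebra k G),
      ∑ q : G ⧸ Γ j, res k (cs q) z * of k G (ex (q.out⁻¹ • x) ^ p ^ r) -
        of k G (ex x ^ p ^ r) * z ∈ F (p ^ (r + j)) := fun r z => by
    have hz : z ∈ Submodule.span k (Set.range (of k G)) := by rw [span_of]; trivial
    induction hz using Submodule.span_induction with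
    | mem z hz =>
      obtain ⟨h, rfl⟩ := hz
      rw [Finset.sum_eq_single (h : G ⧸ Γ j) (fun q _ hq => by
        rw [res_of, if_neg (fun e : h ∈ cs q => hq (Eq.symm e)), zero_mul]) (by simp),
        res_of, if_pos (show h ∈ cs (h : G ⧸ Γ j) from rfl)]
      obtain ⟨g, hg⟩ := QuotientGroup.mk_out_eq_mul (Γ j) h
      have e : of k G (ex x ^ p ^ r) * of k G h = of k G h * of k G (ex (h⁻¹ • x) ^ p ^ r) := by
        rw [← map_mul, ← map_mul, hL.act, conj_pow]
        congr 1
        group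
      rw [e, ← mul_sub]
      refine hF.left _ _ _ (kilx_m2 hF _ _ _ (hL.cong r j _ _ ?_))
      rw [hg, mul_inv_rev, mul_smul]
      exact hL.cont j _ _ ((Γ j).inv_mem g.2)
    | zero => simp
    | add y z _ _ hy hz =>
      convert Submodule.add_mem _ hy hz using 1
      simp only [map_add, add_mul, mul_add, Finset.sum_add_distrib]
      abel
    | smul a y _ hy =>
      convert Submodule.smul_mem _ a hy using 1
      simp only [map_smul, smul_mul_assoc, mul_smul_comm, smul_sub, Finset.smul_sum]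
  obtain ⟨y, hy, e⟩ := hT.deg M (fun r => ∑ q : G ⧸ Γ j, res k (cs q) (f r) *
    of k G (ex (q.out⁻¹ • x) ^ p ^ r) - of k G (ex x ^ p ^ r) * f r)
    (Eventually.of_forall fun r => hF.anti (by
      rw [pow_add, mul_comm]; exact Nat.mul_le_mul_left _ hM) (key r (f r)))
  have e0 := hT.neg (fun r => of k G (ex x ^ p ^ r) * f r) fun K =>
    (eventually_ge_atTop K).mono fun r hr => hF.left _ _ _ (hF.anti (by
      rw [two_mul, pow_add]
      exact Nat.mul_le_mul_right _ (hr.trans (Nat.lt_pow_self hp).le)) (hf r))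
  refine ⟨y, hy, ?_⟩
  rw [← e, ← add_zero (Φ _), ← e0, ← map_add]
  simp only [thX, ← map_mul, ← map_sum]
  congr 1
  ext1 r
  simp

end Pool.Agent.P.MP_7cb106_nt.Q2
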