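import Pool.Agent.P.MP_7cb106_nt.Q2.IfaceP

/-! Step KRK. -/

set_option autoImplicit false

namespace Pool.Agent.P.MP_7cb106_nt.Q2

open Filter MonoidAlgebra

theorem krk_map_of (k G : Type) [Field k] [Group G] (H : Subgroup G) [H.Normal] (g : G) :
    mapDomainAlgHom k k (QuotientGroup.mk' H) (of k G g) = of k (G ⧸ H) (g : G ⧸ H) := by
  simp [mapDomainAlgHom, of_apply, mapDomain_single]

theorem p_KRK :
    S_KRK := by
  intro k G _ _ H _ a
  constructor
  · intro ha
    let sec : MonoidAlgebra k (G ⧸ H) →ₗ[k] MonoidAlgebra k G :=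
      (MonoidAlgebra.basis (G ⧸ H) k).constr k fun q => of k G q.out
    have hsec : ∀ q : G ⧸ H, sec (of k (G ⧸ H) q) = of k G q.out := fun q =>
      (MonoidAlgebra.basis (G ⧸ H) k).constr_basis k _ q
    have key : ∀ x : MonoidAlgebra k G,
        x - sec (mapDomainAlgHom k k (QuotientGroup.mk' H) x) ∈ Kr k H := by
      intro x
      have hx : x ∈ Submodule.span k (Set.range (of k G)) := by rw [span_of]; trivial
      induction hx using Submodule.span_induction with
      | mem y hy =>
        obtain ⟨g, rfl⟩ := hy
        rw [krk_map_of, hsec]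
        obtain ⟨h, hh⟩ := QuotientGroup.mk_out_eq_mul H g
        rw [hh, ← neg_sub]
        exact Submodule.neg_mem _ (Submodule.subset_span ⟨g, h, h.2, rfl⟩)
      | zero => simp
      | add y z _ _ hy hz =>
        rw [map_add, map_add, add_sub_add_comm]
        exact Submodule.add_mem _ hy hz
      | smul c y _ hy =>
        rw [map_smul, map_smul, ← smul_sub]
        exact Submodule.smul_mem _ c hy
    have := key a
    rwa [ha, map_zero, sub_zero] at this
  · intro ha
    induction ha using Submodule.span_induction with
    | mem y hy =>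
      obtain ⟨g, h, hh, rfl⟩ := hy
      rw [map_sub, krk_map_of, krk_map_of, QuotientGroup.mk_mul_of_mem g hh, sub_self]
    | zero => exact map_zero _
    | add y z _ _ hy hz => rw [map_add, hy, hz, add_zero]
    | smul c y _ hy => rw [map_smul, hy, smul_zero]

end Pool.Agent.P.MP_7cb106_nt.Q2
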