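import Pool.Agent.P.MP_7cb106_nt.Q2.IfaceP

/-! Step LEV. -/

set_option autoImplicit false

namespace Pool.Agent.P.MP_7cb106_nt.Q2

open Filter MonoidAlgebra

theorem lev_pow_central {Q : Type} [Ring Q] (p : ℕ) [hp : Fact p.Prime] (hpQ : (p : Q) = 0)
    (t : Q) (N : ℕ) (htN : t ^ N = 0) (htc : ∀ x, t * x = x * t) (s : Q)
    (hcomm : ∀ y : Q, ∃ z, s * y - y * s = t * z) (y : Q) :
    s ^ (p ^ N) * y = y * s ^ (p ^ N) := by
  rcases subsingleton_or_nontrivial Q with hQ | hQ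
  · exact Subsingleton.elim _ _
  let L : Module.End ℤ Q := LinearMap.mulLeft ℤ s
  let R : Module.End ℤ Q := LinearMap.mulRight ℤ s
  have hLR : Commute L R := by
    ext x
    simp [L, R, mul_assoc]
  have : Nontrivial (Module.End ℤ Q) := by
    refine ⟨0, 1, fun h => ?_⟩
    have := congrArg (fun f : Module.End ℤ Q => f 1) h
    simp at this
  have : CharP (Module.End ℤ Q) p := by
    refine (CharP.charP_iff_prime_eq_zero hp.out).2 ?_
    ext x
    simp [hpQ]
  have h1 : ∀ n : ℕ, ∀ x : Q, ∃ z, ((L - R) ^ n) x = t ^ n * z := by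
    intro n
    induction n with
    | zero => intro x; exact ⟨x, by simp⟩
    | succ n ih =>
      intro x
      obtain ⟨z, hz⟩ := ih x
      obtain ⟨w, hw⟩ := hcomm z
      refine ⟨w, ?_⟩
      have hc : Commute t s := htc s
      rw [pow_succ', Module.End.mul_apply, hz]
      simp only [L, R, LinearMap.sub_apply, LinearMap.mulLeft_apply, LinearMap.mulRight_apply]
      rw [← mul_assoc, ← (hc.pow_left n).eq, mul_assoc, mul_assoc, ← mul_sub, hw, ← mul_assoc,
        ← pow_succ]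
  have h2 := sub_pow_char_pow_of_commute p N hLR
  obtain ⟨z, hz⟩ := h1 (p ^ N) y
  have hle : N ≤ p ^ N := (Nat.lt_pow_self hp.out.one_lt).le
  have h3 : t ^ (p ^ N) = 0 := pow_eq_zero_of_le hle htN
  rw [h2, h3, zero_mul] at hz
  simp only [L, R, LinearMap.sub_apply, LinearMap.pow_mulLeft, LinearMap.pow_mulRight,
    LinearMap.mulLeft_apply, LinearMap.mulRight_apply] at hz
  exact sub_eq_zero.1 hz

open OreLocalization in
theorem lev_loc_exists {Q : Type} [Ring Q] (Gd : Q → Prop) (h1 : Gd 1)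
    (hmul : ∀ a b, Gd a → Gd b → Gd (a * b))
    (q : ℕ) (hq : 0 < q) (hcen : ∀ s, Gd s → ∀ y : Q, s ^ q * y = y * s ^ q) :
    ∃ (O : Type) (_ : Ring O) (φ : Q →+* O),
      (∀ s, Gd s → IsUnit (φ s)) ∧
      (∀ o, ∃ s a, Gd s ∧ (∀ y, s * y = y * s) ∧ φ s * o = φ a) ∧
      (∀ a, φ a = 0 → ∃ s, Gd s ∧ (∀ y, s * y = y * s) ∧ s * a = 0) ∧
      (∀ (T : Type) [Ring T] (f : Q →+* T), (∀ s, Gd s → IsUnit (f s)) →
        ∃ g : O →+* T, ∀ a, g (φ a) = f a) := by
  have hpow : ∀ s, Gd s → ∀ n : ℕ, Gd (s ^ n) := by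
    intro s hs n
    induction n with
    | zero => simpa using h1
    | succ n ih => rw [pow_succ]; exact hmul _ _ ih hs
  let S : Submonoid Q :=
    { carrier := {s | Gd s ∧ ∀ y, s * y = y * s}
      one_mem' := ⟨h1, by simp⟩
      mul_mem' := by
        rintro a b ⟨ha, ha'⟩ ⟨hb, hb'⟩
        refine ⟨hmul _ _ ha hb, fun y => ?_⟩
        rw [mul_assoc, hb', ← mul_assoc, ha', mul_assoc] }
  let _ : OreSet S :=
    { ore_right_cancel := fun r₁ r₂ s h => ⟨s, by rw [s.2.2, s.2.2, h]⟩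
      oreNum := fun r _ => r
      oreDenom := fun _ s => s
      ore_eq := fun r s => s.2.2 r }
  refine ⟨OreLocalization S Q, inferInstance, numeratorRingHom, ?_, ?_, ?_, ?_⟩
  · intro s hs
    have hmem : s ^ q ∈ S := ⟨hpow s hs q, hcen s hs⟩
    have hu : IsUnit (numeratorRingHom (S := S) (s ^ q)) := numerator_isUnit (⟨_, hmem⟩ : S)
    rw [map_pow] at hu
    exact (isUnit_pow_iff hq.ne').1 hu
  · intro o
    induction o using OreLocalization.ind with
    | _ a s =>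
      refine ⟨s, a, s.2.1, s.2.2, ?_⟩
      exact OreLocalization.mul_cancel
  · intro a ha
    have ha' : (a /ₒ (1 : S)) = (0 : Q) /ₒ (1 : S) := ha.trans OreLocalization.zero_def
    obtain ⟨u, v, h1, h2⟩ := oreDiv_eq_iff.1 ha'
    refine ⟨u, u.2.1, u.2.2, ?_⟩
    have h3 : (u : Q) = v := by simpa using h2
    rw [h3]
    simpa using h1.symm
  · intro T _ f hf
    let fS : S →* Tˣ :=
      { toFun := fun s => (hf s s.2.1).unit
        map_one' := by ext; simp
        map_mul' := fun a b => by ext; simp }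
    exact ⟨universalHom f fS (fun s => rfl), fun a => universalHom_commutes _ _ _⟩

theorem lev_length_quot {O C : Type} [Ring O] [Ring C] (ψ : O →+* C)
    (hs : Function.Surjective ψ) (t : O) (hker : ∀ o, ψ o = 0 ↔ ∃ z, o = z * t) :
    Module.length O (O ⧸ Ideal.span {t}) = Module.length C C := by
  have : RingHomSurjective ψ := ⟨hs⟩
  have hle : Ideal.span {t} ≤ LinearMap.ker ψ.toSemilinearMap := by
    rw [Ideal.span_le]
    rintro x rfl
    exact (hker x).2 ⟨1, by simp⟩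
  let f : (O ⧸ Ideal.span {t}) →ₛₗ[ψ] C := Submodule.liftQ _ ψ.toSemilinearMap hle
  have hf : Function.Bijective f := by
    constructor
    · rw [← LinearMap.ker_eq_bot]
      apply Submodule.ker_liftQ_eq_bot
      intro x hx
      obtain ⟨z, rfl⟩ := (hker x).1 hx
      exact Ideal.mul_mem_left _ _ (Ideal.subset_span rfl)
    · intro c
      obtain ⟨o, rfl⟩ := hs c
      exact ⟨Submodule.Quotient.mk o, rfl⟩
  rw [Module.length, Module.length, WithBot.unbot_inj,
    Order.krullDim_eq_of_orderIso (Submodule.orderIsoMapComapOfBijective f hf)]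

theorem p_LEV (hLOC : S_LOC) :
    S_LEV := by
  intro p hp Q B _ _ t π hpQ htc hreg hs hker hB hFin
  obtain ⟨Z, _, _, hinj, hNoeth, hMF⟩ := hFin
  have hZ : Nontrivial Z := (algebraMap Z B).domain_nontrivial
  obtain ⟨J, hJ, O0, _, ψ0, hu0, hfr0, hz0, hlen0⟩ := hLOC Z B hNoeth hMF hZ
  obtain ⟨ρ, hρ⟩ := ENat.ne_top_iff_exists.1 hlen0
  refine ⟨ρ, fun N hN => ?_⟩
  have htn : ∀ (n : ℕ) x, t ^ n * x = x * t ^ n := fun n x =>
    ((show Commute t x from htc x).pow_left n).eq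
  have hregn : ∀ (n : ℕ) x, x * t ^ n = 0 → x = 0 := by
    intro n
    induction n with
    | zero => intro x hx; simpa using hx
    | succ n ih => intro x hx; rw [pow_succ, ← mul_assoc] at hx; exact ih _ (hreg _ hx)
  let I : Ideal Q := Ideal.span {t ^ N}
  have hI : ∀ x, x ∈ I ↔ ∃ z, x = z * t ^ N := fun x => by
    rw [Ideal.mem_span_singleton']
    exact ⟨fun ⟨z, hz⟩ => ⟨z, hz.symm⟩, fun ⟨z, hz⟩ => ⟨z, hz.symm⟩⟩
  have : I.IsTwoSided := ⟨fun {a} b ha => by
    obtain ⟨z, rfl⟩ := (hI a).1 ha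
    exact (hI _).2 ⟨z * b, by rw [mul_assoc, htn, mul_assoc]⟩⟩
  let mk : Q →+* Q ⧸ I := Ideal.Quotient.mk I
  have hmks : Function.Surjective mk := Ideal.Quotient.mk_surjective
  have hmk0 : ∀ x, mk x = 0 ↔ ∃ z, x = z * t ^ N := fun x => by
    rw [← hI]; exact Ideal.Quotient.eq_zero_iff_mem
  have hπt : π t = 0 := (hker t).2 ⟨1, by simp⟩
  let π' : Q ⧸ I →+* B := Ideal.Quotient.lift I π (fun a ha => by
    obtain ⟨z, rfl⟩ := (hI a).1 ha
    rw [map_mul, map_pow, hπt, zero_pow hN.ne', mul_zero])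
  have hπ' : ∀ x, π' (mk x) = π x := fun x => rfl
  let Gb : B → Prop := fun b => ∃ z, z ∉ J ∧ b = algebraMap Z B z
  have hG1 : Gb 1 := ⟨1, (Ideal.ne_top_iff_one J).1 hJ.ne_top, by simp⟩
  have hGm : ∀ a b, Gb a → Gb b → Gb (a * b) := by
    rintro a b ⟨z, hz, rfl⟩ ⟨w, hw, rfl⟩
    exact ⟨z * w, fun h => (hJ.mem_or_mem h).elim hz hw, by rw [map_mul]⟩
  have hG0 : ¬ Gb 0 := by
    rintro ⟨z, hz, h0⟩
    have : z = 0 := hinj (by rw [← h0, map_zero])
    exact hz (this ▸ J.zero_mem)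
  have hcen : ∀ s : Q ⧸ I, Gb (π' s) → ∀ y : Q ⧸ I, s ^ (p ^ N) * y = y * s ^ (p ^ N) := by
    intro s hsG
    refine lev_pow_central p ?_ (mk t) N ?_ ?_ s ?_
    · rw [← map_natCast mk, hpQ, map_zero]
    · rw [← map_pow]; exact (hmk0 _).2 ⟨1, by simp⟩
    · intro x
      obtain ⟨x, rfl⟩ := hmks x
      rw [← map_mul, ← map_mul, htc]
    · intro y
      obtain ⟨x, rfl⟩ := hmks s
      obtain ⟨y, rfl⟩ := hmks y
      obtain ⟨z0, -, hz0'⟩ := hsG
      rw [hπ'] at hz0'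
      obtain ⟨z, hz⟩ := (hker (x * y - y * x)).1 (by
        rw [map_sub, map_mul, map_mul, hz0', Algebra.commutes, sub_self])
      exact ⟨mk z, by rw [← map_mul, ← map_mul, ← map_sub, hz, ← map_mul, htc]⟩
  obtain ⟨O, _, φ, hu, hfr, hz, huniv⟩ := lev_loc_exists (fun s => Gb (π' s))
    (by simpa only [map_one] using hG1)
    (fun a b ha hb => by simpa only [map_mul] using hGm _ _ ha hb)
    (p ^ N) (pow_pos hp.out.pos N) hcen
  let lam : Q →+* O := φ.comp mk
  have hlam : ∀ x, lam x = φ (mk x) := fun x => rfl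
  have hu' : ∀ s, Gb (π s) → IsUnit (lam s) := fun s h => hu (mk s) h
  have hfr' : ∀ o, ∃ s a, Gb (π s) ∧ (∀ y, lam s * lam y = lam y * lam s) ∧
      lam s * o = lam a := by
    intro o
    obtain ⟨s, a, h1, h2, h3⟩ := hfr o
    obtain ⟨s, rfl⟩ := hmks s
    obtain ⟨a, rfl⟩ := hmks a
    exact ⟨s, a, h1, fun y => by rw [hlam, hlam, ← map_mul, h2, map_mul], h3⟩
  have hz' : ∀ a, lam a = 0 → ∃ s z, Gb (π s) ∧ s * a = z * t ^ N := by
    intro a ha
    obtain ⟨s, h1, -, h3⟩ := hz _ ha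
    obtain ⟨s, rfl⟩ := hmks s
    obtain ⟨z, hz⟩ := (hmk0 (s * a)).1 (by rw [map_mul, h3])
    exact ⟨s, z, h1, hz⟩
  have hcent : ∀ x : Q, (∀ y, x * y = y * x) → ∀ o, lam x * o = o * lam x := by
    intro x hx o
    obtain ⟨s, a, h1, h2, h3⟩ := hfr' o
    refine (hu' s h1).mul_left_cancel ?_
    rw [← mul_assoc, h2, mul_assoc, h3, ← mul_assoc, h3, ← map_mul, ← map_mul, hx]
  have htN : lam t ^ N = 0 := by
    rw [← map_pow, hlam, (hmk0 _).2 ⟨1, by simp⟩, map_zero]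
  have hdiv : ∀ s, Gb (π s) → ∀ (o w : O) (n : ℕ), lam s * o = w * lam t ^ n →
      ∃ o', o = o' * lam t ^ n := by
    intro s h o w n hw
    obtain ⟨u, hu⟩ := hu' s h
    refine ⟨↑u⁻¹ * w, ?_⟩
    rw [mul_assoc, ← hw, ← hu, Units.inv_mul_cancel_left]
  have hmulP : ∀ s s', Gb (π s) → Gb (π s') → Gb (π (s * s')) := fun s s' h h' => by
    rw [map_mul]; exact hGm _ _ h h'
  refine ⟨O, inferInstance, lam, hcent t htc, htN, ?_, ?_, ?_⟩
  · intro c hc h0
    rw [← map_pow] at h0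
    obtain ⟨s, z, h1, h2⟩ := hz' _ h0
    apply hG0
    obtain ⟨d, rfl⟩ := Nat.exists_eq_add_of_lt hc
    have h3 : s = z * t ^ d * t := by
      rw [← sub_eq_zero]
      apply hregn c
      rw [sub_mul, h2, mul_assoc, mul_assoc, ← pow_succ', ← pow_add, sub_eq_zero]
      congr 2
      omega
    rw [h3, map_mul, hπt, mul_zero] at h1
    exact h1
  · obtain ⟨ψ, hψ⟩ := huniv O0 (ψ0.comp π') (by
      rintro s ⟨z, hz, hz1⟩
      rw [RingHom.comp_apply, hz1]
      exact hu0 z hz)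
    have hψ' : ∀ x, ψ (lam x) = ψ0 (π x) := fun x => hψ (mk x)
    rw [hρ]
    refine (lev_length_quot ψ ?_ _ ?_).le
    · intro c
      obtain ⟨z, hzJ, b, hc⟩ := hfr0 c
      obtain ⟨a, rfl⟩ := hs b
      obtain ⟨s, hs'⟩ := hs (algebraMap Z B z)
      have h1 : Gb (π s) := ⟨z, hzJ, hs'⟩
      obtain ⟨v, hv⟩ := hu' s h1
      refine ⟨↑v⁻¹ * lam a, ?_⟩
      have h2 : IsUnit (ψ (lam s)) := (hu' s h1).map ψ
      refine h2.mul_left_cancel ?_
      rw [← map_mul, ← hv, Units.mul_inv_cancel_left, hv, hψ', hψ', hs']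
      exact hc.symm
    · intro o
      constructor
      · intro h0
        obtain ⟨s, a, h1, h2, h3⟩ := hfr' o
        have h4 : ψ0 (π a) = 0 := by
          rw [← hψ', ← h3, map_mul, h0, mul_zero]
        obtain ⟨u, huJ, hu1⟩ := hz0 _ h4
        obtain ⟨s', hs'⟩ := hs (algebraMap Z B u)
        have h5 : Gb (π s') := ⟨u, huJ, hs'⟩
        obtain ⟨z, hz⟩ := (hker (s' * a)).1 (by rw [map_mul, hs', ← Algebra.smul_def, hu1])
        have := hdiv (s' * s) (hmulP _ _ h5 h1) o (lam z) 1 (by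
          rw [map_mul, mul_assoc, h3, ← map_mul, hz, map_mul, pow_one])
        simpa using this
      · rintro ⟨z, rfl⟩
        rw [map_mul, hψ', hπt, map_zero, mul_zero]
  · intro y c0 hy o ho
    rcases le_or_gt c0 N with hc | hc
    · obtain ⟨s, a, h1, h2, h3⟩ := hfr' o
      have h4 : lam (a * y) = 0 := by
        rw [map_mul, ← h3, mul_assoc, ho, mul_zero]
      obtain ⟨s', z, h5, h6⟩ := hz' _ h4
      obtain ⟨z', hz''⟩ := hy (N - c0) (s' * a) z (by
        rw [mul_assoc, h6, Nat.sub_add_cancel hc])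
      refine hdiv (s' * s) (hmulP _ _ h5 h1) o (lam z') (N - c0) ?_
      rw [map_mul, mul_assoc, h3, ← map_mul, hz'', map_mul, map_pow]
    · exact ⟨o, by rw [Nat.sub_eq_zero_of_le hc.le, pow_zero, mul_one]⟩

end Pool.Agent.P.MP_7cb106_nt.Q2
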