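import Pool.Agent.P.MP_7cb106_nt.Q2.IfaceP

/-! Step LIM. -/

set_option autoImplicit false

namespace Pool.Agent.P.MP_7cb106_nt.Q2

open Filter MonoidAlgebra

lemma lim_pow {O : Type} [Ring O] {t w y : O} {e : ℕ} (ht : ∀ o, t * o = o * t)
    (h : t ^ e = w * y) (m : ℕ) : ∃ v, (t ^ m) ^ e = v * y ^ m := by
  rw [← pow_mul, mul_comm m, pow_mul]
  induction m with
  | zero => exact ⟨1, by simp⟩
  | succ m ih =>
    obtain ⟨v, hv⟩ := ih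
    refine ⟨v * w, ?_⟩
    rw [pow_succ, hv, mul_assoc, ← (Commute.pow_left (ht (y ^ m)) e).eq, h, pow_succ' y,
      mul_assoc, mul_assoc]

theorem p_LIM (hREES : S_REES) (hLEV : S_LEV) (hCOKP : S_COKP) (hNRX : S_NRX) :
    S_LIM := by
  intro p _ k R ι G _ _ _ _ _ _ F b u G0 hF hG h1
  obtain ⟨-, Q, B, _, _, t, π, C, q1, q2, q3, q4, q5, q6, q7, q8, q9⟩ :=
    hREES p k R ι G F b u G0 hF hG
  obtain ⟨ρ, hρ⟩ := hLEV p Q B t π q1 q2 q3 q4 q5 (q6 h1) q7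
  choose O _ lam l1 l2 l3 l4 l5 using fun r : ℕ =>
    hρ (p ^ (2 * r)) (pow_pos (Fact.out : p.Prime).pos _)
  obtain ⟨N, _, Λ, Ψ, Φ, n1, n2, n3⟩ := hNRX p R (fun n => (F n : Set R)) ρ O (fun r => lam r t)
    (fun r => (lam r).comp C) l1 (fun r j x hx => by
      obtain ⟨z, hz⟩ := q8 j x hx
      exact ⟨lam r z, by rw [RingHom.comp_apply, hz, map_mul, map_pow]⟩) l2 l3 l4
  refine ⟨N, inferInstance, Λ, _, _, Φ, n3, fun c c0 hc => ?_⟩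
  choose w hw using fun r => hCOKP (O r) (lam r t) _ ρ (l1 r) (l2 r) (l4 r) (lam r (C c)) c0
    (l5 r (C c) c0 (q9 c c0 hc))
  choose v hv using fun r => lim_pow (l1 r) (hw r) (p ^ r)
  refine ⟨⟨ρ * c0, Ψ w, n1 w, ?_⟩, ?_⟩
  · rw [n2, ← map_pow, ← map_mul]
    exact congrArg Ψ (funext hw)
  · obtain ⟨i, hi⟩ := (n3.amb.unit.pow (ρ * c0)).exists_left_inv
    refine ⟨i * Ψ v, ?_⟩
    rw [mul_assoc, ← hi, n2, ← map_pow, ← map_mul]
    refine congrArg (i * Ψ ·) (funext fun r => ?_)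
    simpa using (hv r).symm

end Pool.Agent.P.MP_7cb106_nt.Q2
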