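import Pool.Agent.P.MP_7cb106_nt.Q2.IfaceP

/-! Step LOC. -/

set_option autoImplicit false

namespace Pool.Agent.P.MP_7cb106_nt.Q2

open Filter MonoidAlgebra
open scoped TensorProduct

theorem loc_art {Z : Type} [CommRing Z] [IsNoetherianRing Z] (P : Ideal Z) [P.IsPrime]
    (hP : P ∈ minimalPrimes Z) : IsArtinianRing (Localization.AtPrime P) := by
  have h : ringKrullDim (Localization.AtPrime P) = 0 := by
    rw [IsLocalization.AtPrime.ringKrullDim_eq_height P, Ideal.height_eq_zero_iff.2 hP]
    rfl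
  have : Ring.KrullDimLE 0 (Localization.AtPrime P) := ⟨h.le⟩
  exact isArtinianRing_iff_isNoetherianRing_krullDimLE_zero.2 ⟨inferInstance, this⟩

theorem p_LOC :
    S_LOC := by
  intro Z B _ _ _ hN hF hT
  obtain ⟨J, hJ⟩ := Ideal.nonempty_minimalPrimes (I := (⊥ : Ideal Z)) bot_ne_top
  have hJp : J.IsPrime := hJ.1.1
  have hA : IsArtinianRing (Localization.AtPrime J) := loc_art J hJ
  have hL : IsLocalizedModule J.primeCompl (TensorProduct.mk Z (Localization.AtPrime J) B 1) :=
    inferInstance
  refine ⟨J, hJp, (Localization.AtPrime J) ⊗[Z] B, inferInstance,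
    (Algebra.TensorProduct.includeRight : B →ₐ[Z] (Localization.AtPrime J) ⊗[Z] B).toRingHom,
    ?_, ?_, ?_, ?_⟩
  · intro z hz
    have h1 : IsUnit (algebraMap Z (Localization.AtPrime J) z) :=
      IsLocalization.map_units (Localization.AtPrime J) (⟨z, hz⟩ : J.primeCompl)
    have h2 := h1.map (algebraMap (Localization.AtPrime J) ((Localization.AtPrime J) ⊗[Z] B))
    rw [← IsScalarTower.algebraMap_apply] at h2
    have h3 := (Algebra.TensorProduct.includeRight :
      B →ₐ[Z] (Localization.AtPrime J) ⊗[Z] B).commutes z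
    change IsUnit ((Algebra.TensorProduct.includeRight :
      B →ₐ[Z] (Localization.AtPrime J) ⊗[Z] B) (algebraMap Z B z))
    rw [h3]
    exact h2
  · intro o
    obtain ⟨⟨b, s⟩, hs⟩ := hL.surj o
    refine ⟨s.1, s.2, b, ?_⟩
    have h3 := (Algebra.TensorProduct.includeRight :
      B →ₐ[Z] (Localization.AtPrime J) ⊗[Z] B).commutes s.1
    change (Algebra.TensorProduct.includeRight :
      B →ₐ[Z] (Localization.AtPrime J) ⊗[Z] B) (algebraMap Z B s.1) * o = 1 ⊗ₜ[Z] b
    rw [h3, ← Algebra.smul_def]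
    exact hs
  · intro b hb
    have hb' : TensorProduct.mk Z (Localization.AtPrime J) B 1 b = 0 := hb
    obtain ⟨s, hs⟩ := (IsLocalizedModule.eq_zero_iff J.primeCompl _).1 hb'
    exact ⟨s.1, s.2, hs⟩
  · have h1 : IsArtinian (Localization.AtPrime J) ((Localization.AtPrime J) ⊗[Z] B) :=
      inferInstance
    have h2 : IsNoetherian (Localization.AtPrime J) ((Localization.AtPrime J) ⊗[Z] B) :=
      inferInstance
    have h3 : IsArtinian ((Localization.AtPrime J) ⊗[Z] B) ((Localization.AtPrime J) ⊗[Z] B) :=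
      isArtinian_of_tower (Localization.AtPrime J) h1
    have h4 : IsNoetherian ((Localization.AtPrime J) ⊗[Z] B) ((Localization.AtPrime J) ⊗[Z] B) :=
      isNoetherian_of_tower (Localization.AtPrime J) h2
    exact Module.length_ne_top

end Pool.Agent.P.MP_7cb106_nt.Q2
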