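import Pool.Agent.P.MP_7cb106_nt.Q2.IfaceQ

/-! Step MAIN2. -/

set_option autoImplicit false

namespace Pool.Agent.P.MP_7cb106_nt.Q2

open Filter MonoidAlgebra

theorem main2_pow {R : Type} [Ring R] (J : AddSubgroup R) (hl : ∀ x y, y ∈ J → x * y ∈ J)
    (hr : ∀ x y, x ∈ J → x * y ∈ J) {x y : R} (h : x - y ∈ J) (n : ℕ) : x ^ n - y ^ n ∈ J := by
  induction n with
  | zero => simp
  | succ n ih =>
    have : x ^ (n + 1) - y ^ (n + 1) = (x ^ n - y ^ n) * x + y ^ n * (x - y) := by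
      rw [pow_succ, pow_succ]; noncomm_ring
    rw [this]
    exact J.add_mem (hr _ _ ih) (hl _ _ h)

theorem p_MAIN2 (hFRX : S_FRX) (hRING : S_RING) (hPCI : S_PCI) (hCLI : S_CLI) (hUG2 : S_UG2) (hCORY : S_CORY) :
    S_MAIN2 := by
  intro p c hp k G L R _ _ _ _ _ _ _ G0 G2 Γ ex inc K P hG0 hfi hU hL hGD hG2 hC hP2 hPt hPp hcore
    H j m hH hjH hsep x hx q y hy
  classical
  obtain ⟨hFX, hFD⟩ := hFRX p c k G R G0 Γ inc K P hG0 hU hC hP2
  obtain ⟨hcl, N, _, Λ, τ, t, Φ, hUl, hgen⟩ := hRING p c k G R G0 Γ inc K P hG0 hfi hU hC hP2 hPt hPp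
  set F := FR inc K G0 P with hF
  have hPF : ∀ n, ∀ z ∈ P, z ∈ F n := fun n z hz =>
    Submodule.mem_sup_left (Submodule.mem_sup_left hz)
  have hKF : ∀ n, K n ≤ F n := fun n => le_sup_right
  have hFl : ∀ n a z, z ∈ F n → a * z ∈ F n := fun n a z hz => by
    simpa using hFX.mf.mul 0 n a z (hFX.mf.top ▸ trivial) hz
  have hFr : ∀ n z a, z ∈ F n → z * a ∈ F n := fun n z a hz =>
    hFX.mf.mul n 0 z a hz (hFX.mf.top ▸ trivial)
  have hp1 : 1 < p := hp.out.one_lt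
  have hcong : ∀ u v : ℕ → R, (∀ r, u r - v r ∈ F (p ^ (2 * r))) → Φ u = Φ v := by
    intro u v h
    rw [← sub_eq_zero, ← map_sub]
    refine hUl.neg _ fun M => ?_
    filter_upwards [(tendsto_pow_atTop_atTop_of_one_lt hp1).eventually_ge_atTop M] with r hr
    refine hFX.mf.anti ?_ (h r)
    rw [two_mul, pow_add]
    exact Nat.mul_le_mul_right _ hr
  let Φ' : (ℕ → MonoidAlgebra k G) →+* N :=
    Φ.comp (RingHom.compLeft (inc : MonoidAlgebra k G →+* R) ℕ)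
  have hΦ' : ∀ a, Φ' a = Φ fun r => inc (a r) := fun a => rfl
  have hUl' : Ult0 p (fun n => (((F n).comap inc.toLinearMap : Submodule k _) :
      Set (MonoidAlgebra k G))) Λ τ t Φ' :=
    ⟨hUl.amb, fun a => hUl.mem _, fun M a ha => hUl.deg M _ ha, fun a ha => hUl.neg _ ha,
      hUl.tmem, hUl.tcen, hUl.tdiv⟩
  have hAG : AllGood p G (thX p k (fun a => (ex a : G)) Φ') := by
    refine hUG2 p c k G L N G0 G2 Γ ex _ Λ τ t Φ' hG0 hU hL hGD hG2 hFD hUl' fun H' h1 h2 h3 h4 => ?_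
    obtain ⟨C, hCn, hCH, g, hg, hgP⟩ := hcore H' h1 h2 h3 h4
    obtain ⟨I, hI, hPI, hIr, hIg⟩ := hCLI k G R (GX Γ) inc K P C hCn hC hP2
    obtain ⟨d, hd, -, V, hV⟩ := hgen I hPI (fun e => hgP (e ▸ hIg g hg)) hIr
    have hd' : d ∈ clo inc K P (Kr k C) := hI ▸ hd
    choose a ha z hz h5 using fun r : ℕ => hd' (p ^ (2 * r))
    refine ⟨C, hCn, hCH, a, ha, V, ?_⟩
    rw [← hV, hΦ']
    refine congrArg _ (hcong _ _ fun r => ?_).symm
    rw [map_pow]
    refine main2_pow (F (p ^ (2 * r))).toAddSubgroup (hFl _) (hFr _) ?_ _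
    have : d - inc (a r) = z r + (d - z r - inc (a r)) := by abel
    rw [this]
    exact (F _).add_mem (hPF _ _ (hz r)) (hKF _ (h5 r))
  have hHf : H.FiniteIndex := by
    have := hGD.fin j
    exact Subgroup.finiteIndex_of_le hjH
  obtain ⟨h1, h2⟩ := hPCI k G R (GX Γ) inc K P H j hH hHf hGD.anti hC hjH hP2 hcl
  by_cases e : Ideal.span {y | ∃ q : G ⧸ H, ∃ x ∈ P, Pc inc K j q x y} = P
  · exact e ▸ Ideal.subset_span ⟨q, x, hx, hy⟩
  exfalso
  obtain ⟨d, hd, ⟨e, W, hW, hWe⟩, -⟩ := hgen _ h1 e h2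
  obtain ⟨n, co, g, rfl⟩ := Submodule.mem_span_set'.1 hd
  choose q' x' hx' hpc using fun i => (g i).2
  choose f hf using fun (i : Fin n) (r : ℕ) => hC.dense (max j (p ^ (2 * r))) (x' i)
  refine hCORY p k G L N (GX Γ) _ _ Λ τ t Φ' hGD hFD hUl' hAG H j m hH hjH hsep e (Fin n)
    Finset.univ (fun i => W * Φ fun _ => co i) q' f (fun i => Λ.mul_mem hW (hUl.mem _))
    (fun i r => ?_) ?_
  · have : inc (f i r) = x' i - (x' i - inc (f i r)) := by abel
    change inc (f i r) ∈ F _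
    rw [this]
    exact (F _).sub_mem (hPF _ _ (hx' i)) (hKF _ (hC.anti (le_max_right _ _) (hf i r)))
  · rw [hWe]
    have h3 : (fun _ : ℕ => ∑ i, co i • (g i : R)) =
        ∑ i, (fun _ : ℕ => co i) * fun _ : ℕ => (g i : R) := by
      funext r
      simp [Finset.sum_apply]
    rw [h3, map_sum, Finset.mul_sum]
    refine Finset.sum_congr rfl fun i _ => ?_
    rw [map_mul, mul_assoc, hΦ']
    congr 2
    exact hcong _ _ fun r =>
      hKF _ (hC.anti (le_max_right _ _) (hpc i _ (le_max_left _ _) _ (hf i r)))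

end Pool.Agent.P.MP_7cb106_nt.Q2
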