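import Pool.Agent.P.MP_7cb106_nt.Q2.IfaceQ

/-! Step MAINQ. -/

set_option autoImplicit false

namespace Pool.Agent.P.MP_7cb106_nt.Q2

open Filter MonoidAlgebra

theorem p_MAINQ (hGXN : S_GXN) (hGDX : S_GDX) (hSEPZ : S_SEPZ) (hRING : S_RING) (hCTRL : S_CTRL) (hUTF : S_UTF) (hQUF : S_QUF) (hQCP : S_QCP) (hQPC : S_QPC) (hMAIN2 : S_MAIN2) :
    S_MAINQ := by
  intro p c hp k G R _ _ _ _ _ _ _ _ G0 Γ inc K P hG0 hfi hU hop hC hP2 hPt hPp hsound
  have hcl := (hRING p c k G R G0 Γ inc K P hG0 hfi hU hC hP2 hPt hPp).1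
  obtain ⟨hX0, hanti, hnor, hfin⟩ := hGXN p c G G0 Γ hG0 hU
  let e : G →* R := (inc : MonoidAlgebra k G →* R).comp (of k G)
  have he : ∀ g, e g = inc (of k G g) := fun g => rfl
  let N : Subgroup G :=
    { carrier := {g | e g - 1 ∈ P}
      one_mem' := by simp
      mul_mem' := fun {a b} ha hb => by
        have : e (a * b) - 1 = e a * (e b - 1) + (e a - 1) := by rw [map_mul]; noncomm_ring
        change _ ∈ P
        rw [this]
        exact P.add_mem (P.mul_mem_left _ hb) ha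
      inv_mem' := fun {a} ha => by
        have : e a⁻¹ - 1 = -(e a⁻¹ * (e a - 1)) := by
          rw [mul_sub, ← map_mul, inv_mul_cancel, map_one, mul_one, neg_sub]
        change _ ∈ P
        rw [this]
        exact P.neg_mem (P.mul_mem_left _ ha) }
  have hN : ∀ g, g ∈ N ↔ inc (of k G g) - 1 ∈ P := fun g => Iff.rfl
  have hNn : N.Normal := ⟨fun a ha g => by
    have : e (g * a * g⁻¹) - 1 = e g * (e a - 1) * e g⁻¹ := by
      rw [mul_sub, sub_mul, mul_one, ← map_mul, ← map_mul, ← map_mul, mul_inv_cancel, map_one]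
    change _ ∈ P
    rw [this]
    exact Ideal.mul_mem_right _ _ (P.mul_mem_left _ ha)⟩
  have hNc : ClG (GX Γ) N := fun x hx => hcl P _ fun n => by
    obtain ⟨y, hy, h⟩ := hx n
    have h1 : inc (of k G (y * (y⁻¹ * x)) - of k G y) ∈ K n :=
      (hC.ker n _).2 (Submodule.subset_span ⟨y, _, h, rfl⟩)
    rw [mul_inv_cancel_left, map_sub] at h1
    have : inc (of k G x) - 1 = (inc (of k G y) - 1) + (inc (of k G x) - inc (of k G y)) := by abel
    change inc (of k G x) - 1 ∈ _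
    rw [this]
    exact Submodule.add_mem_sup hy h1
  obtain ⟨r0, G1, Γ', hU', hX'⟩ := hQUF p c G G0 Γ N hG0 hU hNc
  let mk := QuotientGroup.mk' N
  have hmk : Function.Surjective mk := QuotientGroup.mk'_surjective N
  have hG1 : G1 = (GX Γ r0).map mk := by
    rw [← Nat.add_zero r0, ← hX', GX, hU'.top, ← MonoidHom.range_eq_map, Subgroup.range_subtype]
  have hG1n : G1.Normal := hG1 ▸ (hnor r0).map mk hmk
  have hG1f : G1.FiniteIndex := by
    have := hfin hfi r0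
    rw [hG1]
    exact ⟨fun h => this.1 (Nat.eq_zero_of_zero_dvd (h ▸ (GX Γ r0).index_map_dvd hmk))⟩
  obtain ⟨L, _, _, ex, hL, hGD, hsep⟩ := hGDX p c (G ⧸ N) G1 Γ' hG1n hG1f hU'
  obtain ⟨R', _, _, π, inc', K', hπ, hker, hC', hinc, hK'⟩ :=
    hQCP k G R (GX Γ) inc K P N r0 hC (fun g hg => hg) (hcl P)
  have hC'' : Cpl (GX Γ') inc' K' := (funext hX' : GX Γ' = _) ▸ hC'
  have hinc' : ∀ g : G, inc' (of k (G ⧸ N) (mk g)) = π (inc (of k G g)) := fun g => by
    rw [← hinc]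
    simp [mapDomainAlgHom, mk]
  let P' : Ideal R' := P.map π
  have hP' : ∀ x, π x ∈ P' ↔ x ∈ P := fun x => by
    rw [Ideal.mem_map_iff_of_surjective π hπ]
    refine ⟨fun ⟨y, hy, h⟩ => ?_, fun h => ⟨x, h, rfl⟩⟩
    have := P.add_mem hy (hker (x - y) (by rw [map_sub, h, sub_self]))
    simpa using this
  have hP2' : P'.IsTwoSided := ⟨fun {a} b ha => by
    obtain ⟨a, rfl⟩ := hπ a
    obtain ⟨b, rfl⟩ := hπ b
    rw [← map_mul, hP']
    exact Ideal.mul_mem_right _ _ ((hP' a).1 ha)⟩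
  have main := hMAIN2 p c k (G ⧸ N) L R' G1 (G0.map mk) Γ' ex inc' K' P' hG1n hG1f hU' hL hGD
    (by
      rintro _ ⟨g, hg, rfl⟩ a
      rw [hL.cong]
      have h1 : ((ex a : G1) : G ⧸ N) ∈ (GX Γ r0).map mk := hG1 ▸ (ex a).2
      obtain ⟨_, ⟨x, hx, rfl⟩, h2⟩ := h1
      have h3 : (((ex a)⁻¹ * ex (mk g • a) : G1) : G ⧸ N) ∈ GX Γ' c := by
        rw [hX']
        refine ⟨_, ⟨_, hU.comm r0 0 x⁻¹ ⟨g, hg⟩ (inv_mem hx) (by rw [hU.top]; trivial), rfl⟩, ?_⟩
        have h4 := hGD.act (mk g) a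
        simp only [Subgroup.coe_mul, Subgroup.coe_inv, h4, ← h2]
        simp [mk, mul_assoc]
      obtain ⟨z, hz, h5⟩ := h3
      rwa [← Subtype.ext h5])
    hC'' hP2'
    (fun h => hPt ((Ideal.eq_top_iff_one P).2 ((hP' 1).1 (h ▸ Submodule.mem_top))))
    (fun a b h => by
      obtain ⟨a, rfl⟩ := hπ a
      obtain ⟨b, rfl⟩ := hπ b
      rw [hP', hP']
      exact hPp a b fun x => by rw [← hP', map_mul, map_mul]; exact h _)
    (fun A h1 h2 h3 h4 => by
      have hs := hsound (A.comap mk ⊓ G0) inf_le_right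
        (fun x hx => by
          refine ⟨h2 _ fun j => ?_, ?_⟩
          · obtain ⟨y, hy, h⟩ := hx (r0 + j)
            exact ⟨mk y, hy.1, hX' j ▸ ⟨_, h, by rw [map_mul, map_inv]⟩⟩
          · obtain ⟨y, hy, h⟩ := hx 0
            have := G0.mul_mem hy.2 (hX0 ▸ h)
            rwa [mul_inv_cancel_left] at this)
        (fun g hg x hx => ⟨by
          have := h3 _ ⟨g, hg, rfl⟩ _ hx.1
          simpa using this, G0.mul_mem (G0.mul_mem hg hx.2) (G0.inv_mem hg)⟩)
      refine ⟨(A.comap mk ⊓ G0).normalCore.map mk, (Subgroup.normalCore_normal _).map mk hmk,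
        Subgroup.map_le_iff_le_comap.2 ((Subgroup.normalCore_le _).trans inf_le_left), ?_⟩
      by_contra h5
      push Not at h5
      refine h4 ((Subgroup.eq_bot_iff_forall A).2 fun x hx => ?_)
      obtain ⟨y, hy, rfl⟩ : x ∈ (GX Γ r0).map mk := hG1 ▸ h1 hx
      obtain ⟨n, n0, -, hn⟩ := Subgroup.exists_pow_mem_of_relIndex_ne_zero hs
        (show y ∈ A.comap mk ⊓ G0 from ⟨hx, hX0 ▸ hanti (Nat.zero_le r0) hy⟩)
      have h6 := h5 _ ⟨_, hn.1, rfl⟩
      rw [hinc', ← map_one π, ← map_sub, hP', ← hN, ← QuotientGroup.eq_one_iff] at h6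
      exact congrArg Subtype.val (hUTF p c G1 Γ' hU' ⟨mk y, h1 hx⟩ n n0 (Subtype.ext h6)))
  let Z := (Subgroup.centralizer (G1 : Set (G ⧸ N))).comap mk
  have hNZ : N ≤ Z := fun g hg => by
    change mk g ∈ Subgroup.centralizer _
    rw [show mk g = 1 from (QuotientGroup.eq_one_iff g).2 hg]
    exact one_mem _
  refine ⟨r0, Z, fun g hg u hu => ?_, hCTRL k G R (GX Γ) inc K P Z hanti hnor (hfin hfi) hC hcl hP2
    inferInstance fun j x hx q y hy => ?_⟩
  · rw [← hN, ← QuotientGroup.eq_one_iff]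
    have := Subgroup.mem_centralizer_iff.1 hg (mk u) (hG1 ▸ ⟨u, hu, rfl⟩)
    change mk _ = 1
    rw [map_mul, map_mul, map_mul, map_inv, map_inv, ← this]
    simp
  · obtain ⟨g, rfl⟩ := QuotientGroup.mk_surjective q
    have hj : GX Γ' j ≤ (Z ⊔ GX Γ j).map mk := by
      rw [hX']
      exact Subgroup.map_mono ((hanti (Nat.le_add_left j r0)).trans le_sup_right)
    obtain ⟨m, hm⟩ := hSEPZ p (G ⧸ N) L _ _ hGD
      (fun r => by rw [hX']; exact QuotientGroup.isOpenMap_coe _ (hop _)) hsep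
      ((Z ⊔ GX Γ j).map mk) j hj fun g hg => by
        obtain ⟨g, rfl⟩ := hmk g
        refine ⟨g, Subgroup.mem_sup_left (Subgroup.mem_centralizer_iff.2 fun h hh => ?_), rfl⟩
        simpa using (hg (ex.symm ⟨h, hh⟩)).symm
    have := hnor j
    exact (hP' y).1 (main _ j m (Subgroup.Normal.map inferInstance mk hmk) hj hm _ ((hP' x).2 hx) _ _
      (hQPC k G R R' (GX Γ) inc K N r0 π inc' K' hanti hC hC' hinc hK' _ j
        (hNZ.trans le_sup_left) le_sup_right g x y hy))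

end Pool.Agent.P.MP_7cb106_nt.Q2
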