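import Pool.Agent.P.MP_7cb106_nt.Q2.IfaceP

/-! Step NRX. -/

set_option autoImplicit false

namespace Pool.Agent.P.MP_7cb106_nt.Q2

open Filter MonoidAlgebra

/-- the negligible sequences -/
def nrx_I (p : ℕ) (O : ℕ → Type) [∀ r, Ring (O r)] (t : ∀ r, O r) : Ideal (∀ r, O r) where
  carrier := {x | ∀ M : ℕ, ∀ᶠ r in (hyperfilter ℕ : Filter ℕ), ∃ o, x r = o * t r ^ (M * p ^ r)}
  add_mem' := fun {x y} hx hy M => by
    filter_upwards [hx M, hy M] with r ⟨o, h⟩ ⟨o', h'⟩
    exact ⟨o + o', by rw [Pi.add_apply, h, h', add_mul]⟩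
  zero_mem' := fun M => Eventually.of_forall fun r => ⟨0, by simp⟩
  smul_mem' := fun c x hx M => by
    filter_upwards [hx M] with r ⟨o, h⟩
    exact ⟨c r * o, by rw [smul_eq_mul, Pi.mul_apply, h, mul_assoc]⟩

theorem p_NRX (hNR2 : S_NR2) (hNR3 : S_NR3) :
    S_NRX := by
  intro p hp R _ F ρ O inst t io hcen hF hN hne hlen
  have hp1 : 1 < p := hp.out.one_lt
  have hc : ∀ r (o : O r) (n : ℕ), Commute (t r ^ n) o := fun r o n =>
    Commute.pow_left (hcen r o) n
  have hU : (hyperfilter ℕ : Filter ℕ) ≤ atTop := Nat.hyperfilter_le_atTop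
  have hev : ∀ m : ℕ, ∀ᶠ r in atTop, m < p ^ r := fun m =>
    (tendsto_pow_atTop_atTop_of_one_lt hp1).eventually_gt_atTop m
  set I := nrx_I p O t with hI
  have two : I.IsTwoSided := ⟨fun {x} c hx M => by
    filter_upwards [hx M] with r ⟨o, h⟩
    exact ⟨o * c r, by rw [Pi.mul_apply, h, mul_assoc, (hc r _ _).eq, mul_assoc]⟩⟩
  set τ : ∀ r, O r := fun r => t r ^ p ^ r with hτ
  have hτK : ∀ (K : ℕ) r, (τ ^ K) r = t r ^ (K * p ^ r) := fun K r => by
    rw [Pi.pow_apply, hτ, ← pow_mul, mul_comm]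
  have hun : ∀ r (o : O r), IsUnit (1 - t r ^ p ^ r * o) := fun r o =>
    ((hc r o _).isNilpotent_mul_right
      (IsNilpotent.pow_of_pos ⟨_, hN r⟩ (pow_pos (by omega) r).ne')).isUnit_one_sub
  obtain ⟨N, _, φ, hA⟩ := hNR3 ((∀ r, O r) ⧸ I) (Ideal.Quotient.mk I τ) ρ
    (fun o => by
      obtain ⟨o, rfl⟩ := Ideal.Quotient.mk_surjective o
      rw [← map_mul, ← map_mul]
      exact congrArg _ (funext fun r => (hc r _ _).eq))
    (fun x => by
      obtain ⟨x, rfl⟩ := Ideal.Quotient.mk_surjective x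
      rw [← map_mul, ← map_one (Ideal.Quotient.mk I), ← map_sub]
      exact (Pi.isUnit_iff.2 fun r => hun r (x r)).map _)
    (fun K hK => by
      rw [← map_pow, Ideal.Quotient.eq_zero_iff_mem] at hK
      obtain ⟨r, ⟨o, h1⟩, h2⟩ := ((hK (K + 1)).and (hU (hev K))).exists
      rw [hτK, add_mul, one_mul, add_comm, pow_add, ← mul_assoc, ← (hc r o _).eq] at h1
      refine hne r (K * p ^ r) ?_ ((hun r o).mul_right_eq_zero.1 ?_)
      · rw [two_mul, pow_add]
        exact Nat.mul_lt_mul_of_pos_right h2 (pow_pos (by omega) r)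
      · rw [sub_mul, one_mul, ← h1, sub_self])
    (fun x => by
      choose x' hx using fun i => Ideal.Quotient.mk_surjective (x i)
      obtain ⟨i, hi, K, l, h1⟩ := hNR2 p O t ρ hcen hlen x'
      refine ⟨i, hi, K, fun j => Ideal.Quotient.mk I (l j), ?_⟩
      simp only [← hx, ← map_pow, ← map_mul, ← map_sum]
      refine Ideal.Quotient.eq.2 fun M => ?_
      filter_upwards [h1 M] with r hr
      rw [Pi.sub_apply, Pi.mul_apply, hτK, Finset.sum_apply]
      exact hr)
  set ψ : (∀ r, O r) →+* N := φ.comp (Ideal.Quotient.mk I) with hψ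
  have hmem : ∀ x, ψ x ∈ φ.range := fun x => ⟨_, rfl⟩
  have hcong : ∀ x y : ∀ r, O r, (∀ᶠ r in atTop, x r = y r) → ψ x = ψ y := fun x y e =>
    congrArg φ (Ideal.Quotient.eq.2 fun M => by
      filter_upwards [hU e] with r hr
      exact ⟨0, by rw [Pi.sub_apply, hr, sub_self, zero_mul]⟩)
  have hA' : Amb φ.range (ψ τ) := hA
  refine ⟨N, inferInstance, φ.range, ψ,
    ψ.comp (RingHom.pi fun r => (io r).comp (Pi.evalRingHom (fun _ => R) r)), hmem, fun _ => rfl,
    hA', fun x => hmem _, fun K x hx => ?_, fun x hx => ?_, hmem _, fun x => ?_, fun m => ?_⟩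
  · have : ∀ r, ∃ o, x r ∈ F (K * p ^ r) → io r (x r) = o * t r ^ (K * p ^ r) := fun r => by
      by_cases e : x r ∈ F (K * p ^ r)
      · exact (hF r _ _ e).imp fun o ho _ => ho
      · exact ⟨0, fun e' => absurd e' e⟩
    choose o ho using this
    refine ⟨ψ o, hmem _, ?_⟩
    rw [← map_pow, ← map_mul]
    refine hcong _ _ ?_
    filter_upwards [hx] with r hr
    rw [Pi.mul_apply, hτK, (hc r _ _).eq]
    exact ho r hr
  · refine (congrArg φ (Ideal.Quotient.eq_zero_iff_mem.2 fun M => ?_)).trans (map_zero φ)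
    filter_upwards [hU (hx M)] with r hr
    exact hF r _ _ hr
  · obtain ⟨K, y, hy⟩ := hA'.den x
    obtain ⟨y, rfl⟩ := Ideal.Quotient.mk_surjective y
    have h1 : ψ t * ψ y = ψ y * ψ t := by
      rw [← map_mul, ← map_mul]
      exact congrArg _ (funext fun r => hcen r _)
    have h2 : ψ y = ψ τ ^ K * x := hy
    have h3 : Commute (ψ τ ^ K) (ψ t) := Commute.pow_left (hA'.cen _) K
    rw [h2, ← mul_assoc, ← h3.eq, mul_assoc, mul_assoc] at h1
    exact (hA'.unit.pow K).mul_left_cancel h1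
  · refine ⟨ψ fun r => t r ^ (p ^ r - m), hmem _, ?_⟩
    rw [← map_pow, ← map_mul]
    refine hcong _ _ ?_
    filter_upwards [hev m] with r hr
    rw [Pi.mul_apply, Pi.pow_apply, ← pow_add, Nat.sub_add_cancel hr.le]

end Pool.Agent.P.MP_7cb106_nt.Q2
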