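import Pool.Agent.P.MP_7cb106_nt.Q2.IfaceP

/-! Step PCI. -/

set_option autoImplicit false

namespace Pool.Agent.P.MP_7cb106_nt.Q2

open Filter MonoidAlgebra

theorem p_PCI (hPIECE : S_PIECE) :
    S_PCI := by
  intro k G R _ _ _ _ Γ inc K P H j hN hF hΓ hC hj hP hcl
  have : Fintype (G ⧸ H) := Fintype.ofFinite _
  obtain ⟨h1, h2, h3, -⟩ := hPIECE k G R Γ inc K H j hΓ hC hj
  obtain ⟨I, hI⟩ : ∃ I : Ideal R, I = Ideal.span {y | ∃ q : G ⧸ H, ∃ x ∈ P, Pc inc K j q x y} :=
    ⟨_, rfl⟩
  rw [← hI]
  have mem : ∀ (q : G ⧸ H) x y, x ∈ P → Pc inc K j q x y → y ∈ I := fun q x y hx h =>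
    hI ▸ Ideal.subset_span ⟨q, x, hx, h⟩
  refine ⟨fun x hx => ?_, fun a ha z => ?_⟩
  · choose y hy using fun q => h1 q x
    rw [← h2 x y hy]
    exact I.sum_mem fun q _ => mem q x _ hx (hy q)
  · have e1 : ∀ g : G, a * inc (of k G g) ∈ I := fun g => by
      rw [hI] at ha
      induction ha using Submodule.span_induction with
      | mem y hy =>
        obtain ⟨q, x, hx, h⟩ := hy
        exact mem _ _ _ (P.mul_mem_right _ hx) (h3 q g x y h)
      | zero => rw [zero_mul]; exact I.zero_mem
      | add x y _ _ hx hy => rw [add_mul]; exact I.add_mem hx hy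
      | smul c x _ hx => rw [smul_eq_mul, mul_assoc]; exact I.mul_mem_left c hx
    have e2 : ∀ b, a * inc b ∈ I := fun b => by
      have hb : b ∈ Submodule.span k (Set.range (of k G)) := span_of (k := k) (G := G) ▸ trivial
      induction hb using Submodule.span_induction with
      | mem y hy =>
        obtain ⟨g, rfl⟩ := hy
        exact e1 g
      | zero => rw [map_zero, mul_zero]; exact I.zero_mem
      | add x y _ _ hx hy => rw [map_add, mul_add]; exact I.add_mem hx hy
      | smul c x _ hx =>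
        rw [map_smul, mul_smul_comm, Algebra.smul_def]
        exact I.mul_mem_left _ hx
    refine hcl I _ fun n => ?_
    obtain ⟨b, hb⟩ := hC.dense n z
    rw [show a * z = a * inc b + a * (z - inc b) by rw [mul_sub, add_sub_cancel]]
    exact Submodule.add_mem_sup (e2 b) (hC.left n a _ hb)

end Pool.Agent.P.MP_7cb106_nt.Q2
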