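import Pool.Agent.P.MP_7cb106_nt.Q2.IfaceP

/-! Step PIECE. -/

set_option autoImplicit false

namespace Pool.Agent.P.MP_7cb106_nt.Q2

open Filter MonoidAlgebra

section
variable {k G : Type} [Field k] [Group G]

theorem piece_kr {H N : Subgroup G} (hN : N ≤ H) (q : G ⧸ H) {a : MonoidAlgebra k G}
    (ha : a ∈ Kr k N) : res k (cs q) a ∈ Kr k N := by
  classical
  have : Kr k N ≤ (Kr k N).comap (res k (cs q)) := by
    refine Submodule.span_le.2 ?_
    rintro _ ⟨g, h, hh, rfl⟩
    have e : ((g * h : G) : G ⧸ H) = (g : G ⧸ H) := QuotientGroup.mk_mul_of_mem g (hN hh)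
    show res k (cs q) (of k G (g * h) - of k G g) ∈ Kr k N
    rw [map_sub, res_of, res_of]
    by_cases hg : g ∈ cs q
    · have hg' : g * h ∈ cs q := e.trans hg
      rw [if_pos hg, if_pos hg']
      exact Submodule.subset_span ⟨g, h, hh, rfl⟩
    · have hg' : g * h ∉ cs q := fun x => hg (e.symm.trans x)
      rw [if_neg hg, if_neg hg', sub_zero]
      exact Submodule.zero_mem _
  exact this ha

theorem piece_mul {H : Subgroup G} [H.Normal] (q : G ⧸ H) (g : G) (a : MonoidAlgebra k G) :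
    res k (cs (q * (g : G ⧸ H))) (a * of k G g) = res k (cs q) a * of k G g := by
  classical
  have : res k (cs (q * (g : G ⧸ H))) ∘ₗ LinearMap.mulRight k (of k G g) =
      LinearMap.mulRight k (of k G g) ∘ₗ res k (cs q) := by
    refine ext_of fun x => ?_
    show res k (cs (q * (g : G ⧸ H))) (of k G x * of k G g) = res k (cs q) (of k G x) * of k G g
    rw [← map_mul, res_of, res_of]
    have e : x * g ∈ cs (q * (g : G ⧸ H)) ↔ x ∈ cs q := by
      show ((x * g : G) : G ⧸ H) = q * (g : G ⧸ H) ↔ (x : G ⧸ H) = q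
      rw [QuotientGroup.mk_mul, mul_left_inj]
    by_cases hx : x ∈ cs q
    · rw [if_pos hx, if_pos (e.2 hx), map_mul]
    · rw [if_neg hx, if_neg (fun y => hx (e.1 y)), zero_mul]
  exact LinearMap.congr_fun this a

theorem piece_supp {H : Subgroup G} [hH : H.Normal] (g : G) (a : MonoidAlgebra k G) :
    res k (cs (g : G ⧸ H)) a * of k G g⁻¹ ∈ Submodule.span k (of k G '' (H : Set G)) ∧
    of k G g⁻¹ * res k (cs (g : G ⧸ H)) a ∈ Submodule.span k (of k G '' (H : Set G)) := by
  classical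
  have key : ∀ (f : MonoidAlgebra k G →ₗ[k] MonoidAlgebra k G),
      (∀ x : G, g⁻¹ * x ∈ H → f (of k G x) ∈ Submodule.span k (of k G '' (H : Set G))) →
      f (res k (cs (g : G ⧸ H)) a) ∈ Submodule.span k (of k G '' (H : Set G)) := by
    intro f hf
    have : (⊤ : Submodule k (MonoidAlgebra k G)) ≤
        (Submodule.span k (of k G '' (H : Set G))).comap (f ∘ₗ res k (cs (g : G ⧸ H))) := by
      rw [← span_of]
      refine Submodule.span_le.2 ?_
      rintro _ ⟨x, rfl⟩
      show f (res k (cs (g : G ⧸ H)) (of k G x)) ∈ Submodule.span k (of k G '' (H : Set G))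
      rw [res_of]
      by_cases hx : x ∈ cs (g : G ⧸ H)
      · rw [if_pos hx]
        exact hf x (QuotientGroup.eq.1 (Eq.symm hx))
      · rw [if_neg hx, map_zero]
        exact Submodule.zero_mem _
    exact this Submodule.mem_top
  refine ⟨key (LinearMap.mulRight k (of k G g⁻¹)) fun x hx => ?_,
    key (LinearMap.mulLeft k (of k G g⁻¹)) fun x hx => ?_⟩
  · show of k G x * of k G g⁻¹ ∈ _
    rw [← map_mul]
    exact Submodule.subset_span ⟨_, hH.mem_comm hx, rfl⟩
  · show of k G g⁻¹ * of k G x ∈ _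
    rw [← map_mul]
    exact Submodule.subset_span ⟨_, hx, rfl⟩

end

theorem p_PIECE :
    S_PIECE := by
  intro k G R _ _ _ _ Γ inc K H _ _ j hΓ hC hj
  have hres : ∀ (q : G ⧸ H) n, j ≤ n → ∀ b, inc b ∈ K n → inc (res k (cs q) b) ∈ K n :=
    fun q n hn b hb => (hC.ker n _).2 (piece_kr ((hΓ hn).trans hj) q ((hC.ker n b).1 hb))
  have hdiff : ∀ (q : G ⧸ H) n, j ≤ n → ∀ x a b, x - inc a ∈ K n → x - inc b ∈ K n →
      inc (res k (cs q) a) - inc (res k (cs q) b) ∈ K n := by
    intro q n hn x a b ha hb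
    rw [← map_sub, ← map_sub]
    refine hres q n hn _ ?_
    have e : inc (a - b) = (x - inc b) - (x - inc a) := by rw [map_sub]; abel
    rw [e]
    exact (K n).sub_mem hb ha
  refine ⟨fun q x => ?_, fun x y hy => ?_, fun q g x y hy n hn a ha => ?_, fun g x y hy => ?_⟩
  · choose a ha using fun n => hC.dense n x
    obtain ⟨y, hy⟩ := hC.cpl (fun n => inc (res k (cs q) (a (n + j)))) fun n =>
      hC.anti (Nat.le_add_right n j) (hdiff q (n + j) (Nat.le_add_left j n) x _ _
        (hC.anti (by omega) (ha (n + 1 + j))) (ha (n + j)))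
    refine ⟨y, fun n hn b hb => ?_⟩
    have h1 := hdiff q n hn x _ _ (hC.anti (Nat.le_add_right n j) (ha (n + j))) hb
    have h2 := (K n).add_mem (hy n) h1
    rwa [sub_add_sub_cancel] at h2
  · rw [← sub_eq_zero]
    refine hC.sep _ fun n => hC.anti (Nat.le_add_right n j) ?_
    obtain ⟨a, ha⟩ := hC.dense (n + j) x
    have h1 : ∑ q, (y q - inc (res k (cs q) a)) ∈ K (n + j) :=
      Submodule.sum_mem _ fun q _ => hy q (n + j) (Nat.le_add_left j n) a ha
    rw [Finset.sum_sub_distrib, ← map_sum, sum_res] at h1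
    have h2 := (K (n + j)).sub_mem h1 ha
    rwa [sub_sub_sub_cancel_right] at h2
  · have e1 : inc (of k G g) * inc (of k G g⁻¹) = 1 := by
      rw [← map_mul, ← map_mul, mul_inv_cancel, map_one, map_one]
    have e2 : a * of k G g⁻¹ * of k G g = a := by
      rw [mul_assoc, ← map_mul, inv_mul_cancel, map_one, mul_one]
    have h1 := hC.right n _ (inc (of k G g⁻¹)) ha
    rw [sub_mul, mul_assoc, e1, mul_one, ← map_mul] at h1
    have h2 := hC.right n _ (inc (of k G g)) (hy n hn _ h1)
    rwa [sub_mul, ← map_mul, ← piece_mul, e2] at h2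
  · refine ⟨fun n => ?_, fun n => ?_⟩
    · obtain ⟨a, ha⟩ := hC.dense (n + j) x
      refine ⟨_, (piece_supp g a).1, 0, Submodule.zero_mem _, hC.anti (Nat.le_add_right n j) ?_⟩
      rw [sub_zero, map_mul, ← sub_mul]
      exact hC.right _ _ _ (hy (n + j) (Nat.le_add_left j n) a ha)
    · obtain ⟨a, ha⟩ := hC.dense (n + j) x
      refine ⟨_, (piece_supp g a).2, 0, Submodule.zero_mem _, hC.anti (Nat.le_add_right n j) ?_⟩
      rw [sub_zero, map_mul, ← mul_sub]
      exact hC.left _ _ _ (hy (n + j) (Nat.le_add_left j n) a ha)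

end Pool.Agent.P.MP_7cb106_nt.Q2
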