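import Pool.Agent.P.MP_7cb106_nt.Q2.IfaceQ

/-! Step QCP. -/

set_option autoImplicit false

namespace Pool.Agent.P.MP_7cb106_nt.Q2

open Filter MonoidAlgebra

theorem qcp_of {k G : Type} [Field k] [Group G] (N : Subgroup G) [N.Normal] (g : G) :
    mapDomainAlgHom k k (QuotientGroup.mk' N) (of k G g) = of k (G ⧸ N) (g : G ⧸ N) := by
  simp

theorem qcp_surj {k G : Type} [Field k] [Group G] (N : Subgroup G) [N.Normal]
    (b : MonoidAlgebra k (G ⧸ N)) : ∃ a, mapDomainAlgHom k k (QuotientGroup.mk' N) a = b := by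
  have h : Submodule.span k (Set.range (of k (G ⧸ N))) ≤
      LinearMap.range (mapDomainAlgHom k k (QuotientGroup.mk' N)).toLinearMap := by
    rw [Submodule.span_le]
    rintro _ ⟨q, rfl⟩
    obtain ⟨g, rfl⟩ := QuotientGroup.mk_surjective q
    exact ⟨of k G g, qcp_of N g⟩
  rw [span_of] at h
  exact h Submodule.mem_top

theorem qcp_kr {k G : Type} [Field k] [Group G] (N : Subgroup G) [N.Normal] (H : Subgroup G) :
    (Kr k H).map (mapDomainAlgHom k k (QuotientGroup.mk' N)).toLinearMap =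
      Kr k (H.map (QuotientGroup.mk' N)) := by
  unfold Kr
  rw [Submodule.map_span]
  congr 1
  ext x
  constructor
  · rintro ⟨_, ⟨g, h, hh, rfl⟩, rfl⟩
    refine ⟨g, h, ⟨h, hh, rfl⟩, ?_⟩
    rw [AlgHom.toLinearMap_apply, map_sub, qcp_of, qcp_of, QuotientGroup.mk_mul]
  · rintro ⟨q, _, ⟨h, hh, rfl⟩, rfl⟩
    obtain ⟨g, rfl⟩ := QuotientGroup.mk_surjective q
    refine ⟨_, ⟨g, h, hh, rfl⟩, ?_⟩
    rw [AlgHom.toLinearMap_apply, map_sub, qcp_of, qcp_of, QuotientGroup.mk_mul]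
    rfl

theorem p_QCP (hCLI : S_CLI) (hKRK : S_KRK) :
    S_QCP := by
  intro k G R _ _ _ _ Γ inc K P N hN r0 hC hP hcl
  obtain ⟨I, hI, -, hr, hg⟩ := hCLI k G R Γ inc K ⊥ N hN hC inferInstance
  have : I.IsTwoSided := ⟨fun b ha => hr _ ha b⟩
  have mem : ∀ y, y ∈ I ↔ ∀ n, ∃ a ∈ Kr k N, y - inc a ∈ K n := by
    intro y
    rw [← SetLike.mem_coe, hI]
    refine forall_congr' fun n => ⟨?_, ?_⟩
    · rintro ⟨a, ha, z, hz, e⟩
      rw [Ideal.mem_bot.1 hz, sub_zero] at e
      exact ⟨a, ha, e⟩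
    · rintro ⟨a, ha, e⟩
      exact ⟨a, ha, 0, Ideal.zero_mem _, by rwa [sub_zero]⟩
  have hKP : ∀ a ∈ Kr k N, inc a ∈ P := by
    have : Kr k N ≤ (Submodule.restrictScalars k P).comap inc.toLinearMap := by
      unfold Kr
      rw [Submodule.span_le]
      rintro _ ⟨g, h, hh, rfl⟩
      have e : inc (of k G (g * h) - of k G g) = inc (of k G g) * (inc (of k G h) - 1) := by
        rw [map_sub, map_mul, map_mul, mul_sub, mul_one]
      change inc (of k G (g * h) - of k G g) ∈ P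
      rw [e]
      exact P.mul_mem_left _ (hP h hh)
    exact fun a ha => this ha
  let π : R →ₐ[k] R ⧸ I := Ideal.Quotient.mkₐ k I
  have hπ : ∀ x, π x = 0 ↔ x ∈ I := fun x => Ideal.Quotient.eq_zero_iff_mem
  have hs : Function.Surjective π := Ideal.Quotient.mkₐ_surjective k I
  let φ : G →* R ⧸ I := (π : R →* R ⧸ I).comp ((inc : MonoidAlgebra k G →* R).comp (of k G))
  have hφ : N ≤ φ.ker := by
    intro g h
    have := (hπ _).2 (hg g h)
    rw [map_sub, map_one, sub_eq_zero] at this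
    exact this
  let inc' : MonoidAlgebra k (G ⧸ N) →ₐ[k] R ⧸ I :=
    MonoidAlgebra.lift k (R ⧸ I) (G ⧸ N) (QuotientGroup.lift N φ hφ)
  have comm : ∀ a, inc' (mapDomainAlgHom k k (QuotientGroup.mk' N) a) = π (inc a) := by
    have : (inc'.comp (mapDomainAlgHom k k (QuotientGroup.mk' N))).toLinearMap =
        (π.comp inc).toLinearMap := by
      refine ext_of fun g => ?_
      change inc' (mapDomainAlgHom k k (QuotientGroup.mk' N) (of k G g)) = π (inc (of k G g))
      rw [qcp_of]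
      exact MonoidAlgebra.lift_of _ _
    exact fun a => LinearMap.congr_fun this a
  refine ⟨R ⧸ I, inferInstance, inferInstance, π, inc', fun n => (K (r0 + n)).map π.toLinearMap,
    hs, ?_, ⟨?_, ?_, ?_, ?_, ?_, ?_, ?_⟩, comm, fun n x hx => ⟨x, hx, rfl⟩⟩
  · intro x hx
    refine hcl x fun n => ?_
    obtain ⟨a, ha, e⟩ := (mem x).1 ((hπ x).1 hx) n
    exact Submodule.mem_sup.2 ⟨inc a, hKP a ha, _, e, by abel⟩
  · exact fun m n h => Submodule.map_mono (hC.anti (by omega))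
  · rintro n x _ ⟨y, hy, rfl⟩
    obtain ⟨x, rfl⟩ := hs x
    exact ⟨x * y, hC.left _ _ _ hy, map_mul π x y⟩
  · rintro n _ y ⟨x, hx, rfl⟩
    obtain ⟨y, rfl⟩ := hs y
    exact ⟨x * y, hC.right _ _ _ hx, map_mul π x y⟩
  · intro n x
    obtain ⟨x, rfl⟩ := hs x
    obtain ⟨a, ha⟩ := hC.dense (r0 + n) x
    exact ⟨mapDomainAlgHom k k (QuotientGroup.mk' N) a, _, ha, by rw [comm]; exact map_sub π _ _⟩
  · intro n b
    rw [← qcp_kr]
    constructor
    · obtain ⟨a, rfl⟩ := qcp_surj N b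
      rw [comm]
      rintro ⟨x, hx, e⟩
      have h1 : inc a - x ∈ I := by
        rw [← hπ, map_sub, sub_eq_zero]
        exact e.symm
      obtain ⟨a1, ha1, e1⟩ := (mem _).1 h1 (r0 + n)
      have h2 : inc (a - a1) ∈ K (r0 + n) := by
        have := (K (r0 + n)).add_mem e1 hx
        rw [map_sub]
        convert this using 1
        abel
      refine ⟨a - a1, (hC.ker _ _).1 h2, ?_⟩
      rw [AlgHom.toLinearMap_apply, map_sub, (hKRK k G N a1).2 ha1, sub_zero]
    · rintro ⟨a, ha, rfl⟩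
      exact ⟨inc a, (hC.ker _ _).2 ha, (comm a).symm⟩
  · intro x hx
    obtain ⟨x, rfl⟩ := hs x
    rw [hπ, mem]
    intro n
    obtain ⟨y, hy, e⟩ := hx n
    have h1 : x - y ∈ I := by
      rw [← hπ, map_sub, sub_eq_zero]
      exact e.symm
    obtain ⟨a, ha, e1⟩ := (mem _).1 h1 n
    refine ⟨a, ha, ?_⟩
    have := (K n).add_mem e1 (hC.anti (Nat.le_add_left n r0) hy)
    convert this using 1
    abel
  · intro x hx
    choose d hd he using hx
    obtain ⟨x0, h0⟩ := hs (x 0)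
    obtain ⟨y, hy⟩ := hC.cpl (fun m => ∑ i ∈ Finset.range (m - r0), d i) (by
      intro m
      rcases lt_or_ge m r0 with h | h
      · rw [show m + 1 - r0 = m - r0 by omega, sub_self]
        exact (K m).zero_mem
      · obtain ⟨j, rfl⟩ := Nat.exists_eq_add_of_le h
        rw [show r0 + j + 1 - r0 = j + 1 by omega, Nat.add_sub_cancel_left, Finset.sum_range_succ,
          add_sub_cancel_left]
        exact hd j)
    refine ⟨π (x0 + y), fun n => ⟨_, hy (r0 + n), ?_⟩⟩
    have e : ∑ i ∈ Finset.range n, π (d i) = x n - x 0 := by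
      rw [← Finset.sum_range_sub]
      exact Finset.sum_congr rfl fun i _ => he i
    rw [AlgHom.toLinearMap_apply, Nat.add_sub_cancel_left, map_sub, map_sum, e, map_add, h0]
    abel

end Pool.Agent.P.MP_7cb106_nt.Q2
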