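import Pool.Agent.P.MP_7cb106_nt.Q2.IfaceQ

/-! Step QPC. -/

set_option autoImplicit false

namespace Pool.Agent.P.MP_7cb106_nt.Q2

open Filter MonoidAlgebra

section
variable {k G : Type} [Field k] [Group G]

theorem qpc_kr {H N : Subgroup G} (hN : N ≤ H) (q : G ⧸ H) {a : MonoidAlgebra k G}
    (ha : a ∈ Kr k N) : res k (cs q) a ∈ Kr k N := by
  classical
  have : Kr k N ≤ (Kr k N).comap (res k (cs q)) := by
    refine Submodule.span_le.2 ?_
    rintro _ ⟨g, h, hh, rfl⟩
    have e : ((g * h : G) : G ⧸ H) = (g : G ⧸ H) := QuotientGroup.mk_mul_of_mem g (hN hh)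
    show res k (cs q) (of k G (g * h) - of k G g) ∈ Kr k N
    rw [map_sub, res_of, res_of]
    by_cases hg : g ∈ cs q
    · have hg' : g * h ∈ cs q := e.trans hg
      rw [if_pos hg, if_pos hg']
      exact Submodule.subset_span ⟨g, h, hh, rfl⟩
    · have hg' : g * h ∉ cs q := fun x => hg (e.symm.trans x)
      rw [if_neg hg, if_neg hg', sub_zero]
      exact Submodule.zero_mem _
  exact this ha

theorem qpc_map {H N : Subgroup G} [N.Normal] (hN : N ≤ H) (g : G) (a : MonoidAlgebra k G) :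
    mapDomainAlgHom k k (QuotientGroup.mk' N) (res k (cs (g : G ⧸ H)) a) =
      res k (cs ((g : G ⧸ N) : (G ⧸ N) ⧸ H.map (QuotientGroup.mk' N)))
        (mapDomainAlgHom k k (QuotientGroup.mk' N) a) := by
  classical
  have hm : ∀ x : G, mapDomainAlgHom k k (QuotientGroup.mk' N) (of k G x) =
      of k (G ⧸ N) (x : G ⧸ N) := fun x => by simp
  have : (mapDomainAlgHom k k (QuotientGroup.mk' N)).toLinearMap ∘ₗ res k (cs (g : G ⧸ H)) =
      res k (cs ((g : G ⧸ N) : (G ⧸ N) ⧸ H.map (QuotientGroup.mk' N))) ∘ₗ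
        (mapDomainAlgHom k k (QuotientGroup.mk' N)).toLinearMap := by
    refine ext_of fun x => ?_
    simp only [LinearMap.comp_apply, AlgHom.toLinearMap_apply]
    have e : (x : G ⧸ N) ∈ cs ((g : G ⧸ N) : (G ⧸ N) ⧸ H.map (QuotientGroup.mk' N)) ↔
        x ∈ cs (g : G ⧸ H) := by
      refine QuotientGroup.eq.trans (Iff.trans ?_ QuotientGroup.eq.symm)
      have : H.comap (MonoidHom.id G) = (H.map (QuotientGroup.mk' N)).comap (QuotientGroup.mk' N) := by
        rw [Subgroup.comap_map_eq_self (by rwa [QuotientGroup.ker_mk']), Subgroup.comap_id]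
      exact (SetLike.ext_iff.1 this (x⁻¹ * g)).symm
    rw [hm, res_of, res_of]
    by_cases hx : x ∈ cs (g : G ⧸ H)
    · rw [if_pos hx, if_pos (e.2 hx), hm]
    · rw [if_neg hx, if_neg (fun y => hx (e.1 y)), map_zero]
  exact LinearMap.congr_fun this a

end

theorem p_QPC :
    S_QPC := by
  intro k G R R' _ _ _ _ _ _ Γ inc K N _ r0 π inc' K' hΓ hC hC' hi hπ H j hN hj g x y hy n hn b hb
  obtain ⟨a, ha⟩ := hC.dense (r0 + n) x
  have h1 := hπ n _ ha
  have h2 := hπ n _ (hy (r0 + n) (by omega) a ha)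
  rw [map_sub, ← hi] at h1 h2
  have h3 := (K' n).sub_mem hb h1
  rw [sub_sub_sub_cancel_left, ← map_sub, hC'.ker] at h3
  have h4 := (hC'.ker n _).2 (qpc_kr (Subgroup.map_mono ((hΓ (by omega)).trans hj))
    ((g : G ⧸ N) : (G ⧸ N) ⧸ H.map (QuotientGroup.mk' N)) h3)
  rw [map_sub, map_sub, ← qpc_map hN] at h4
  have h5 := (K' n).add_mem h2 h4
  rwa [sub_add_sub_cancel] at h5

end Pool.Agent.P.MP_7cb106_nt.Q2
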