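import Pool.Agent.P.MP_7cb106_nt.Q2.IfaceQ

/-! Step QUF. -/

set_option autoImplicit false

namespace Pool.Agent.P.MP_7cb106_nt.Q2

open Filter MonoidAlgebra

section
variable {p c : ℕ} {A B : Type} [Group A] [Group B] {Γ : ℕ → Subgroup A}

lemma quf_anti (h : UF p c Γ) (φ : A →* B) : Antitone fun r => (Γ r).map φ :=
  fun _ _ hab => Subgroup.map_mono (h.anti hab)

lemma quf_mem (h : UF p c Γ) (φ : A →* B) (r : ℕ) (x : B) (hx : x ∈ (Γ r).map φ) :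
    x ^ p ∈ (Γ (r + 1)).map φ := by
  obtain ⟨a, ha, rfl⟩ := hx
  exact ⟨a ^ p, h.pow_mem r a ha, map_pow φ a p⟩

lemma quf_surj (h : UF p c Γ) (φ : A →* B) (r : ℕ) (g : B) (hg : g ∈ (Γ (r + 1)).map φ) :
    ∃ x ∈ (Γ r).map φ, x ^ p = g := by
  obtain ⟨a, ha, rfl⟩ := hg
  obtain ⟨x, hx, rfl⟩ := h.pow_surj r a ha
  exact ⟨φ x, ⟨x, hx, rfl⟩, (map_pow φ x p).symm⟩

lemma quf_com (h : UF p c Γ) (φ : A →* B) : Com c fun r => (Γ r).map φ := by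
  rintro r s x y ⟨a, ha, rfl⟩ ⟨b, hb, rfl⟩
  exact ⟨_, h.comm r s a b ha hb, by simp⟩

lemma quf_pwm (h : UF p c Γ) (φ : A →* B) : PwM p fun r => (Γ r).map φ := by
  rintro r s x y ⟨a, ha, rfl⟩ ⟨b, hb, rfl⟩
  exact ⟨_, h.pow_mul r s a b ha hb, by simp⟩

lemma quf_idx (h : UF p c Γ) (φ : A →* B) (r s : ℕ) :
    ((Γ r).map φ).relIndex ((Γ s).map φ) ≠ 0 := by
  rw [Subgroup.relIndex_map_map]
  have := h.fin r
  have h1 : (Γ r ⊔ φ.ker).FiniteIndex := Subgroup.finiteIndex_of_le le_sup_left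
  exact (Subgroup.instFiniteIndex_subgroupOf (Γ r ⊔ φ.ker) (Γ s ⊔ φ.ker)).index_ne_zero

/-- the layers -/
abbrev quf_T (Γ : ℕ → Subgroup A) (φ : A →* B) (i : ℕ) : Type :=
  (Γ i).map φ ⧸ ((Γ (i + 1)).map φ).subgroupOf ((Γ i).map φ)

lemma quf_map (h : UF p c Γ) (φ : A →* B) (i : ℕ) :
    ∃ f : quf_T Γ φ i → quf_T Γ φ (i + 1), Function.Surjective f ∧
      ∀ x : (Γ i).map φ, f (QuotientGroup.mk x) =
        QuotientGroup.mk ⟨(x : B) ^ p, quf_mem h φ i x x.2⟩ := by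
  refine ⟨Quotient.map' (fun x : (Γ i).map φ =>
    (⟨(x : B) ^ p, quf_mem h φ i x x.2⟩ : (Γ (i + 1)).map φ)) ?_, ?_, fun x => rfl⟩
  · intro x y hxy
    rw [QuotientGroup.leftRel_apply, Subgroup.mem_subgroupOf] at hxy ⊢
    simp only [Subgroup.coe_mul, Subgroup.coe_inv] at hxy ⊢
    have h1 := quf_pwm h φ i (i + 1) x _ x.2 hxy
    have h2 := quf_mem h φ (i + 1) _ hxy
    have h3 := quf_anti h φ (show i + 1 + 1 ≤ i + (i + 1) + 2 by omega) h1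
    have h4 := Subgroup.mul_mem _ h2 h3
    rw [mul_inv_cancel_left] at h4
    convert h4 using 1
    group
  · intro q
    obtain ⟨y, rfl⟩ := QuotientGroup.mk_surjective q
    obtain ⟨x, hx, hxy⟩ := quf_surj h φ i y y.2
    refine ⟨QuotientGroup.mk ⟨x, hx⟩, ?_⟩
    change QuotientGroup.mk _ = _
    congr 1
    exact Subtype.ext hxy

lemma quf_stab (h : UF p c Γ) (φ : A →* B) : ∃ r0 : ℕ, ∀ i, r0 ≤ i → ∀ x ∈ (Γ i).map φ,
    x ^ p ∈ (Γ (i + 1 + 1)).map φ → x ∈ (Γ (i + 1)).map φ := by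
  have hfin : ∀ i, Finite (quf_T Γ φ i) := fun i =>
    Nat.finite_of_card_ne_zero (quf_idx h φ (i + 1) i)
  have hanti : Antitone fun i => Nat.card (quf_T Γ φ i) := by
    refine antitone_nat_of_succ_le fun i => ?_
    obtain ⟨f, hf, -⟩ := quf_map h φ i
    exact Nat.card_le_card_of_surjective f hf
  obtain ⟨r0, hr0⟩ : ∃ r0, ∀ i, Nat.card (quf_T Γ φ r0) ≤ Nat.card (quf_T Γ φ i) :=
    ⟨Function.argmin (fun i => Nat.card (quf_T Γ φ i)),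
      fun i => Function.argmin_le (fun i => Nat.card (quf_T Γ φ i)) i⟩
  refine ⟨r0, fun i hi x hx hxp => ?_⟩
  obtain ⟨f, hf, hf2⟩ := quf_map h φ i
  have hinj := (hf.bijective_of_nat_card_le ((hanti hi).trans (hr0 (i + 1)))).1
  have h1 : f (QuotientGroup.mk ⟨x, hx⟩) = f (QuotientGroup.mk 1) := by
    rw [hf2, hf2, eq_comm, QuotientGroup.eq, Subgroup.mem_subgroupOf]
    simpa using hxp
  have h2 := hinj h1
  rw [eq_comm, QuotientGroup.eq, Subgroup.mem_subgroupOf] at h2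
  simpa using h2

lemma quf_main (h : UF p c Γ) (φ : A →* B)
    (hs : ∀ a : A, (∀ r, φ a ∈ (Γ r).map φ) → φ a = 1) :
    ∃ r0 : ℕ, UF p c fun r => ((Γ (r0 + r)).map φ).subgroupOf ((Γ r0).map φ) := by
  obtain ⟨r0, hr0⟩ := quf_stab h φ
  have ha := quf_anti h φ
  refine ⟨r0, h.c1, h.c2, Subgroup.subgroupOf_self _, ?_, ?_, ?_, ?_, ?_, ?_, ?_, ?_, ?_, ?_⟩
  · intro r s hrs x hx
    rw [Subgroup.mem_subgroupOf] at hx ⊢
    exact ha (show r0 + r ≤ r0 + s by omega) hx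
  · intro r
    refine ⟨fun x hx g => ?_⟩
    rw [Subgroup.mem_subgroupOf] at hx ⊢
    obtain ⟨a, ha1, ha2⟩ := hx
    obtain ⟨b, -, hb⟩ := g.2
    refine ⟨b * a * b⁻¹, (h.normal _).conj_mem a ha1 b, ?_⟩
    simp [ha2, hb]
  · intro r
    exact ⟨quf_idx h φ (r0 + r) r0⟩
  · intro r x hx
    rw [Subgroup.mem_subgroupOf] at hx ⊢
    exact quf_mem h φ (r0 + r) x hx
  · intro r g hg
    rw [Subgroup.mem_subgroupOf] at hg
    obtain ⟨x, hx, hxg⟩ := quf_surj h φ (r0 + r) g hg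
    exact ⟨⟨x, ha (Nat.le_add_right r0 r) hx⟩, Subgroup.mem_subgroupOf.2 hx, Subtype.ext hxg⟩
  · intro r x
    induction r with
    | zero => intro _; exact Subgroup.mem_subgroupOf.2 x.2
    | succ r ih =>
      intro hx
      rw [Subgroup.mem_subgroupOf] at hx ⊢
      have h1 := ih (Subgroup.mem_subgroupOf.2
        (ha (show r0 + (r + 1) ≤ r0 + (r + 1 + 1) by omega) hx))
      exact hr0 (r0 + r) (Nat.le_add_right _ _) x (Subgroup.mem_subgroupOf.1 h1) hx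
  · intro r s x y hx hy
    rw [Subgroup.mem_subgroupOf] at hx hy ⊢
    exact ha (show r0 + (r + s + c) ≤ r0 + r + (r0 + s) + c by omega)
      (quf_com h φ _ _ x y hx hy)
  · intro r s x y hx hy
    rw [Subgroup.mem_subgroupOf] at hx hy ⊢
    exact ha (show r0 + (r + s + 2) ≤ r0 + r + (r0 + s) + 2 by omega)
      (quf_pwm h φ _ _ x y hx hy)
  · intro x hx
    obtain ⟨a, -, hxa⟩ := x.2
    apply Subtype.ext
    rw [← hxa]
    refine hs a fun r => ?_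
    rw [hxa]
    exact ha (Nat.le_add_left r r0) (Subgroup.mem_subgroupOf.1 (hx r))
  · intro S hS hd hne hinv
    set pb : Set ((Γ r0).map φ) → Set A :=
      fun C => {a | ∃ hh : φ a ∈ (Γ r0).map φ, (⟨φ a, hh⟩ : (Γ r0).map φ) ∈ C} with hpb
    obtain ⟨a, hA⟩ := h.cpt (pb '' S) (hS.image pb) (by
      rintro _ ⟨C, hC, rfl⟩ _ ⟨C', hC', rfl⟩
      obtain ⟨E, hE, h1, h2⟩ := hd C hC C' hC'
      exact ⟨pb E, ⟨E, hE, rfl⟩, fun a ⟨hh, ha'⟩ => ⟨hh, h1 ha'⟩, fun a ⟨hh, ha'⟩ => ⟨hh, h2 ha'⟩⟩)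
      (by
        rintro _ ⟨C, hC, rfl⟩
        obtain ⟨⟨x, a, ha1, rfl⟩, hx⟩ := hne C hC
        exact ⟨a, ⟨a, ha1, rfl⟩, hx⟩)
      (by
        rintro _ ⟨C, hC, rfl⟩
        obtain ⟨m, hm⟩ := hinv C hC
        refine ⟨r0 + m, fun x ⟨hh, hx⟩ g hg => ?_⟩
        have hg1 : φ g ∈ (Γ (r0 + m)).map φ := ⟨g, hg, rfl⟩
        have hg2 : φ g ∈ (Γ r0).map φ := ha (Nat.le_add_right r0 m) hg1
        have h1 := hm _ hx ⟨φ g, hg2⟩ (Subgroup.mem_subgroupOf.2 hg1)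
        refine ⟨by rw [map_mul]; exact Subgroup.mul_mem _ hh hg2, ?_⟩
        convert h1 using 1
        exact Subtype.ext (map_mul φ x g))
    obtain ⟨C0, hC0⟩ := hS
    obtain ⟨hh, -⟩ := hA _ ⟨C0, hC0, rfl⟩
    refine ⟨⟨φ a, hh⟩, fun C hC => ?_⟩
    obtain ⟨_, h2⟩ := hA _ ⟨C, hC, rfl⟩
    exact h2

end

theorem p_QUF (hGXN : S_GXN) :
    S_QUF := by
  intro p c G _ G0 Γ N _ _ h hN
  have _ := hGXN
  obtain ⟨r0, hr⟩ := quf_main h ((QuotientGroup.mk' N).comp G0.subtype) (by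
    intro a ha
    refine (QuotientGroup.eq_one_iff (a : G)).2 (hN a fun j => ?_)
    obtain ⟨b, hb, hab⟩ := ha j
    have h1 : (QuotientGroup.mk (b : G) : G ⧸ N) = QuotientGroup.mk (a : G) := hab
    refine ⟨a * (b : G)⁻¹, ?_, b, hb, by simp⟩
    rw [← QuotientGroup.eq_one_iff, QuotientGroup.mk_mul, QuotientGroup.mk_inv, h1,
      mul_inv_cancel])
  refine ⟨r0, _, _, hr, fun r => ?_⟩
  rw [GX, GX, Subgroup.subgroupOf_map_subtype, Subgroup.map_map]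
  exact inf_eq_left.2 (quf_anti h _ (Nat.le_add_right r0 r))

end Pool.Agent.P.MP_7cb106_nt.Q2
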