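import Pool.Agent.P.MP_7cb106_nt.Q2.IfaceZ

/-! Step RCL. -/

set_option autoImplicit false

namespace Pool.Agent.P.MP_7cb106_nt.Q2

open Filter MonoidAlgebra

/-- the linear map of the inversion -/
noncomputable def rcl_s (k G : Type) [Field k] [Group G] :
    MonoidAlgebra k G →ₗ[k] MonoidAlgebra k G :=
  (MonoidAlgebra.basis G k).constr k fun g => of k G g⁻¹

section
variable {k G : Type} [Field k] [Group G]

theorem rcl_of (g : G) : rcl_s k G (of k G g) = of k G g⁻¹ :=
  (MonoidAlgebra.basis G k).constr_basis k _ g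

theorem rcl_mul (a b : MonoidAlgebra k G) : rcl_s k G (a * b) = rcl_s k G b * rcl_s k G a := by
  induction a using MonoidAlgebra.induction_on with
  | of g =>
    induction b using MonoidAlgebra.induction_on with
    | of h => rw [← map_mul, rcl_of, rcl_of, rcl_of, ← map_mul, mul_inv_rev]
    | add x y hx hy => rw [mul_add, map_add, hx, hy, map_add, add_mul]
    | smul c x hx => rw [mul_smul_comm, map_smul, hx, map_smul, smul_mul_assoc]
  | add x y hx hy => rw [add_mul, map_add, hx, hy, map_add, mul_add]
  | smul c x hx => rw [smul_mul_assoc, map_smul, hx, map_smul, mul_smul_comm]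

theorem rcl_inv (a : MonoidAlgebra k G) : rcl_s k G (rcl_s k G a) = a := by
  induction a using MonoidAlgebra.induction_on with
  | of g => rw [rcl_of, rcl_of, inv_inv]
  | add x y hx hy => rw [map_add, map_add, hx, hy]
  | smul c x hx => rw [map_smul, map_smul, hx]

theorem rcl_Kr {H : Subgroup G} (hH : H.Normal) {a : MonoidAlgebra k G} (ha : a ∈ Kr k H) :
    rcl_s k G a ∈ Kr k H := by
  have : Kr k H ≤ (Kr k H).comap (rcl_s k G) := by
    refine Submodule.span_le.2 ?_
    rintro _ ⟨g, h, hh, rfl⟩
    refine Submodule.subset_span ⟨g⁻¹, g * h⁻¹ * g⁻¹, hH.conj_mem _ (H.inv_mem hh) g, ?_⟩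
    rw [map_sub, rcl_of, rcl_of]
    congr 2
    group
  exact this ha

end

theorem p_RCL :
    S_RCL := by
  intro k G R _ _ _ _ Γ inc K hN hC hA A x hx
  have T : ∀ n x a b, x - inc a ∈ K n → x - inc b ∈ K n →
      inc (rcl_s k G a) - inc (rcl_s k G b) ∈ K n := fun n x a b ha hb => by
    have := (K n).sub_mem hb ha
    rw [sub_sub_sub_cancel_left, ← map_sub, hC.ker] at this
    rw [← map_sub, ← map_sub, hC.ker]
    exact rcl_Kr (hN n) this
  have ex : ∀ x, ∃ y, ∀ n a, x - inc a ∈ K n → y - inc (rcl_s k G a) ∈ K n := fun x => by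
    choose a ha using fun n => hC.dense n x
    obtain ⟨y, hy⟩ := hC.cpl (fun n => inc (rcl_s k G (a n))) fun n =>
      T n x _ _ (hC.anti n.le_succ (ha _)) (ha n)
    exact ⟨y, fun n b hb => by simpa using (K n).add_mem (hy n) (T n x _ _ (ha n) hb)⟩
  choose s hs using ex
  have cg : ∀ n x y, x - y ∈ K n → s x - s y ∈ K n := fun n x y h => by
    obtain ⟨a, ha⟩ := hC.dense n y
    have := (K n).sub_mem (hs x n a (by simpa using (K n).add_mem h ha)) (hs y n a ha)
    simpa using this
  have ad : ∀ x y, s (x + y) = s x + s y := fun x y => sub_eq_zero.1 <| hC.sep _ fun n => by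
    obtain ⟨a, ha⟩ := hC.dense n x
    obtain ⟨b, hb⟩ := hC.dense n y
    have h1 := hs (x + y) n (a + b) (by
      rw [map_add, add_sub_add_comm]
      exact (K n).add_mem ha hb)
    have := (K n).sub_mem h1 ((K n).add_mem (hs x n a ha) (hs y n b hb))
    rw [map_add, map_add] at this
    convert this using 1
    abel
  have mu : ∀ x y, s (x * y) = s y * s x := fun x y => sub_eq_zero.1 <| hC.sep _ fun n => by
    obtain ⟨a, ha⟩ := hC.dense n x
    obtain ⟨b, hb⟩ := hC.dense n y
    have h1 := hs (x * y) n (a * b) (by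
      have := (K n).add_mem (hC.left n x _ hb) (hC.right n _ (inc b) ha)
      rw [map_mul]
      convert this using 1
      noncomm_ring)
    have := (K n).sub_mem h1 ((K n).add_mem (hC.left n (s y) _ (hs x n a ha))
      (hC.right n _ (inc (rcl_s k G a)) (hs y n b hb)))
    rw [rcl_mul, map_mul] at this
    convert this using 1
    noncomm_ring
  have iv : ∀ x, s (s x) = x := fun x => sub_eq_zero.1 <| hC.sep _ fun n => by
    obtain ⟨a, ha⟩ := hC.dense n x
    have h1 := hs _ n _ (hs x n a ha)
    rw [rcl_inv] at h1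
    simpa using (K n).sub_mem h1 ha
  let B : Ideal R :=
    { carrier := {y | s y ∈ A}
      add_mem' := fun {a b} ha hb => by
        show s (a + b) ∈ A
        rw [ad]
        exact A.add_mem ha hb
      zero_mem' := by
        show s 0 ∈ A
        have := ad 0 0
        rw [add_zero, left_eq_add] at this
        rw [this]
        exact A.zero_mem
      smul_mem' := fun c y hy => by
        show s (c * y) ∈ A
        rw [mu]
        exact A.smul_mem (MulOpposite.op (s c)) hy }
  rw [← iv x]
  refine hA B (s x) fun n => ?_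
  obtain ⟨a, ha, h⟩ := hx n
  refine Submodule.mem_sup.2 ⟨s a, ?_, _, cg n x a h, add_sub_cancel _ _⟩
  show s (s a) ∈ A
  rwa [iv]

end Pool.Agent.P.MP_7cb106_nt.Q2
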