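import Pool.Agent.P.MP_7cb106_nt.Q2.IfaceP

/-! Step REES. -/

set_option autoImplicit false

namespace Pool.Agent.P.MP_7cb106_nt.Q2

open AddMonoidAlgebra in
theorem p_REES (hCZ : S_CZ) :
    S_REES := by
  intro p k R ι G _ _ _ _ _ _ F b u G0 hX hG0
  classical
  have h0 := hX.mf.top
  have hA := hX.mf.anti
  have hanti : ∀ j, F (j + 1) ≤ F j := fun j => hA (Nat.le_succ j)
  have hmul := hX.mf.mul
  have hb := hX.bmem
  have hcomm := hX.comm
  let Q := Mic.reesAlg F h0 hanti hmul
  have hQ : ∀ x, x ∈ Q ↔ ∀ j : ℤ, x.coeff j ∈ F j.toNat := fun x => Iff.rfl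
  have hsing : ∀ (j : ℤ) (x : R), x ∈ F j.toNat → single j x ∈ Q := by
    intro j x hx i
    rw [coeff_single, Finsupp.single_apply]
    split_ifs with h
    · exact h ▸ hx
    · exact Submodule.zero_mem _
  let mono : ∀ (j : ℕ) (x : R), x ∈ F j → Q := fun j x hx => ⟨single (j : ℤ) x, hsing _ _ hx⟩
  let t : Q := ⟨single (-1) 1, hsing _ _ (by simp [h0])⟩
  have htn : ∀ n : ℕ, ((t ^ n : Q) : AddMonoidAlgebra R ℤ) = single (-(n : ℤ)) 1 := by
    intro n
    simp [t, single_pow, -LaurentPolynomial.single_eq_C_mul_T]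
  have htc : ∀ x : Q, t * x = x * t := by
    intro x
    ext j
    simp [t, add_comm, -LaurentPolynomial.single_eq_C_mul_T]
  have hreg : ∀ x : Q, x * t = 0 → x = 0 := by
    intro x hx
    ext j
    have := congrArg (fun y : Q => (y : AddMonoidAlgebra R ℤ).coeff (j - 1)) hx
    simpa [t, -LaurentPolynomial.single_eq_C_mul_T] using this
  have hdiv : ∀ x : Q, (∃ z, x = z * t) ↔
      ∀ j : ℤ, (x : AddMonoidAlgebra R ℤ).coeff j ∈ F (j + 1).toNat := by
    intro x
    constructor
    · rintro ⟨z, rfl⟩ j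
      simpa [t, -LaurentPolynomial.single_eq_C_mul_T] using z.2 (j + 1)
    · intro h
      refine ⟨⟨(x : AddMonoidAlgebra R ℤ) * single 1 1, fun j => by
        simpa [sub_eq_add_neg, -LaurentPolynomial.single_eq_C_mul_T] using h (j - 1)⟩, ?_⟩
      ext j
      simp [t, -LaurentPolynomial.single_eq_C_mul_T]
  let I : Ideal Q := Ideal.span {t}
  have hI : ∀ x, x ∈ I ↔ ∃ z, x = z * t := fun x => by
    rw [Ideal.mem_span_singleton']
    exact ⟨fun ⟨z, hz⟩ => ⟨z, hz.symm⟩, fun ⟨z, hz⟩ => ⟨z, hz.symm⟩⟩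
  have : I.IsTwoSided := ⟨fun {a} b ha => by
    obtain ⟨z, rfl⟩ := (hI a).1 ha
    exact (hI _).2 ⟨z * b, by rw [mul_assoc, htc, mul_assoc]⟩⟩
  let π : Q →ₐ[k] Q ⧸ I := Ideal.Quotient.mkₐ k I
  have hπs : Function.Surjective π := Ideal.Quotient.mk_surjective
  have hπ0 : ∀ x, π x = 0 ↔ ∃ z, x = z * t := fun x => by
    rw [← hI]; exact Ideal.Quotient.eq_zero_iff_mem
  have hmono0 : ∀ (j : ℕ) (x : R) (hx : x ∈ F j), π (mono j x hx) = 0 ↔ x ∈ F (j + 1) := by
    intro j x hx
    rw [hπ0, hdiv]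
    constructor
    · intro h
      simpa [mono, -LaurentPolynomial.single_eq_C_mul_T] using h j
    · intro h i
      simp only [mono, coeff_single, Finsupp.single_apply]
      split_ifs with h'
      · subst h'; exact h
      · exact Submodule.zero_mem _
  let β : ι → Q := fun i => mono 1 (b i) (hb i)
  have hprodF : ∀ l : List ι, (l.map b).prod ∈ F l.length := by
    intro l
    induction l with
    | nil => simp [h0]
    | cons i l ih => simpa [add_comm] using hmul _ _ _ _ (hb i) ih
  have hprod : ∀ l : List ι, mono l.length _ (hprodF l) = (l.map β).prod := by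
    intro l
    induction l with
    | nil => ext1; simp [mono, one_def, -LaurentPolynomial.single_eq_C_mul_T]
    | cons i l ih =>
      rw [List.map_cons (f := β), List.prod_cons, ← ih]
      ext1
      simp [mono, β, single_mul_single, add_comm, -LaurentPolynomial.single_eq_C_mul_T]
  have hMonF : ∀ j, Mic.Mon k b j ≤ F j := fun j => Submodule.span_le.2 (by
    rintro x ⟨l, rfl, rfl⟩; exact hprodF l)
  let C : R →+* Q :=
    (singleZeroRingHom : R →+* AddMonoidAlgebra R ℤ).codRestrict Q.toSubring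
      (fun x => hsing 0 x (by simp [h0]))
  have hC : ∀ x, (C x : AddMonoidAlgebra R ℤ) = single 0 x := fun x => rfl
  have hCm : ∀ (j : ℕ) x (hx : x ∈ F j), C x = mono j x hx * t ^ j := by
    intro j x hx
    ext1
    rw [hC, Subalgebra.coe_mul, htn]
    simp [mono, single_mul_single, -LaurentPolynomial.single_eq_C_mul_T]
  have hR : ∀ j x y, x ∈ F j → x * y ∈ F j := fun j x y hx => hmul j 0 x y hx (h0 ▸ trivial)
  have hL : ∀ j x y, y ∈ F j → x * y ∈ F j := fun j x y hy => by
    simpa using hmul 0 j x y (h0 ▸ trivial) hy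
  have hmC : ∀ (j : ℕ) x y (hx : x ∈ F j), mono j (x * y) (hR j x y hx) = mono j x hx * C y := by
    intro j x y hx
    ext1
    simp [mono, hC, single_mul_single, -LaurentPolynomial.single_eq_C_mul_T]
  have hCmul : ∀ (j : ℕ) x y (hy : y ∈ F j), mono j (x * y) (hL j x y hy) = C x * mono j y hy := by
    intro j x y hy
    ext1
    simp [mono, hC, single_mul_single, -LaurentPolynomial.single_eq_C_mul_T]
  have hmadd : ∀ (j : ℕ) x y (hx : x ∈ F j) (hy : y ∈ F j),
      mono j (x + y) ((F j).add_mem hx hy) = mono j x hx + mono j y hy := by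
    intro j x y hx hy
    ext1; simp [mono, -LaurentPolynomial.single_eq_C_mul_T]
  let uB : G →* Q ⧸ I := (((π : Q →+* Q ⧸ I).comp C : R →+* Q ⧸ I) : R →* Q ⧸ I).comp u
  have huB : ∀ g, uB g = π (C (u g)) := fun g => rfl
  let B0 := Algebra.adjoin k (Set.range fun i => π (β i))
  have hdeg0 : ∀ (j : ℕ) (m : R) (hm : m ∈ Mic.Mon k b j), π (mono j m (hMonF j hm)) ∈ B0 := by
    intro j m hm
    induction hm using Submodule.span_induction with
    | mem x hx =>
      obtain ⟨l, rfl, rfl⟩ := hx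
      rw [hprod l, map_list_prod, List.map_map]
      refine Subalgebra.list_prod_mem _ ?_
      intro z hz
      obtain ⟨i, -, rfl⟩ := List.mem_map.1 hz
      exact Algebra.subset_adjoin ⟨i, rfl⟩
    | zero =>
      have : mono j 0 (F j).zero_mem = 0 := by
        ext1; simp [mono, -LaurentPolynomial.single_eq_C_mul_T]
      rw [this, map_zero]; exact B0.zero_mem
    | add x y hx hy ihx ihy =>
      rw [hmadd j x y (hMonF j hx) (hMonF j hy), map_add]; exact B0.add_mem ihx ihy
    | smul c x hx ih =>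
      have : mono j (c • x) (hMonF j ((Mic.Mon k b j).smul_mem c hx)) =
          c • mono j x (hMonF j hx) := by
        ext1; simp [mono, -LaurentPolynomial.single_eq_C_mul_T]
      rw [this, map_smul]; exact B0.smul_mem ih c
  have hspan : ∀ c ∈ Submodule.span k (Set.range u),
      π (C c) ∈ Submodule.span k (Set.range uB) := by
    intro c hc
    induction hc using Submodule.span_induction with
    | mem x hx =>
      obtain ⟨g, rfl⟩ := hx
      exact Submodule.subset_span ⟨g, rfl⟩
    | zero => rw [map_zero, map_zero]; exact Submodule.zero_mem _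
    | add x y _ _ ihx ihy => rw [map_add, map_add]; exact Submodule.add_mem _ ihx ihy
    | smul c x _ ih =>
      have : C (c • x) = c • C x := by
        ext1; simp [hC, -LaurentPolynomial.single_eq_C_mul_T]
      rw [this, map_smul]; exact Submodule.smul_mem _ c ih
  let X := B0.toSubmodule * Submodule.span k (Set.range uB)
  have hdeg : ∀ (j : ℕ) (x : R) (hx : x ∈ F j), π (mono j x hx) ∈ X := by
    intro j x hx
    obtain ⟨m, hm, y, hy, rfl⟩ := Submodule.mem_sup.1 (hX.gen j hx)
    have h2 : ∃ h : m ∈ F j, π (mono j m h) ∈ X := by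
      refine Submodule.mul_induction_on hm (fun a ha c hc => ⟨hR j a c (hMonF j ha), ?_⟩)
        (fun a c ⟨ha, ha'⟩ ⟨hc, hc'⟩ => ⟨(F j).add_mem ha hc, ?_⟩)
      · rw [hmC j a c (hMonF j ha), map_mul]
        exact Submodule.mul_mem_mul (hdeg0 j a ha) (hspan c hc)
      · rw [hmadd j a c ha hc, map_add]; exact X.add_mem ha' hc'
    obtain ⟨h3, h4⟩ := h2
    rw [hmadd j m y h3 (hanti j hy), map_add, (hmono0 j y (hanti j hy)).2 hy, add_zero]
    exact h4
  have hall : X = ⊤ := by
    rw [eq_top_iff]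
    intro y _
    obtain ⟨x, rfl⟩ := hπs y
    have h1 : x = ∑ j ∈ (x : AddMonoidAlgebra R ℤ).coeff.support,
        (⟨single j ((x : AddMonoidAlgebra R ℤ).coeff j), hsing _ _ (x.2 j)⟩ : Q) := by
      ext1
      rw [AddSubmonoidClass.coe_finsetSum]
      exact (sum_coeff_single _).symm
    rw [h1, map_sum]
    refine X.sum_mem fun j _ => ?_
    rcases lt_or_ge j 0 with hj | hj
    · rw [(hπ0 _).2 ((hdiv _).2 ?_)]
      · exact X.zero_mem
      · intro i
        simp only [coeff_single, Finsupp.single_apply]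
        split_ifs with h'
        · rw [show (i + 1).toNat = 0 by omega, h0]; trivial
        · exact Submodule.zero_mem _
    · obtain ⟨n, rfl⟩ := Int.eq_ofNat_of_zero_le hj
      exact hdeg n _ (x.2 n)
  have hcβ : ∀ i l, π (β i) * π (β l) = π (β l) * π (β i) := by
    intro i l
    have h1 : β i * β l - β l * β i = mono 2 _ (hanti 2 (hcomm i l)) := by
      ext1; simp [mono, β, single_mul_single, single_sub, -LaurentPolynomial.single_eq_C_mul_T]
    rw [← sub_eq_zero, ← map_mul, ← map_mul, ← map_sub, h1]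
    exact (hmono0 2 _ (hanti 2 (hcomm i l))).2 (hcomm i l)
  have hFin : FinC (Q ⧸ I) := by
    refine hCZ k (Q ⧸ I) ι G (fun i => π (β i)) uB G0 hG0 (fun g hg => ?_) hcβ (fun g i => ?_) hall
    · rw [huB, ← sub_eq_zero, ← map_one π, ← map_sub, ← map_one C, ← map_sub, hπ0]
      exact ⟨_, (hCm 1 _ (hX.umem g hg)).trans (by rw [pow_one])⟩
    · obtain ⟨y, hy, h1⟩ := hX.conj g i
      refine ⟨_, hdeg0 1 y hy, ?_⟩
      have h2 : C (u g) * β i - mono 1 y (hMonF 1 hy) * C (u g) = mono 1 _ (hanti 1 h1) := by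
        ext1
        simp [mono, β, hC, single_mul_single, single_sub, -LaurentPolynomial.single_eq_C_mul_T]
      rw [huB, ← sub_eq_zero, ← map_mul, ← map_mul, ← map_sub, h2]
      exact (hmono0 1 _ (hanti 1 h1)).2 h1
  have hNoeth : IsNoetherian (Q ⧸ I) (Q ⧸ I) := by
    obtain ⟨Z, _, _, -, _, _⟩ := hFin
    exact isNoetherian_of_tower Z inferInstance
  refine ⟨?_, Q, Q ⧸ I, inferInstance, inferInstance, t, (π : Q →+* Q ⧸ I), C, ?_, htc, hreg, hπs,
    hπ0, fun h1 => ?_, hFin, fun j x hx => ⟨_, hCm j x hx⟩, ?_⟩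
  · intro S hS
    let m' : ℕ × R → Q := fun y => if h : y.2 ∈ F y.1 then mono y.1 y.2 h else 0
    have hm' : ∀ y ∈ S, (m' y : AddMonoidAlgebra R ℤ) = single (y.1 : ℤ) y.2 := fun y hy => by
      simp only [m', dif_pos (hS y hy), mono]
    obtain ⟨T, hT, hspan⟩ := (Submodule.fg_span_iff_fg_span_finset_subset
      ((fun y => π (m' y)) '' S)).1 (IsNoetherian.noetherian
        (Submodule.span (Q ⧸ I) ((fun y => π (m' y)) '' S)))
    obtain ⟨S0, hS0, rfl⟩ := Finset.subset_set_image_iff.1 hT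
    refine ⟨S0, hS0, fun x hx => ?_⟩
    have h1 : π (m' x) ∈ Submodule.span (Q ⧸ I) ((fun y => π (m' y)) '' (S0 : Set (ℕ × R))) := by
      rw [← Finset.coe_image, ← hspan]
      exact Submodule.subset_span ⟨x, hx, rfl⟩
    obtain ⟨c, hc⟩ := (Submodule.mem_span_image_finset_iff_exists_fun' (Q ⧸ I)).1 h1
    choose q hq using fun y => hπs (c y)
    have h2 : π (m' x - ∑ y ∈ S0, q y * m' y) = 0 := by
      rw [map_sub, map_sum, ← hc, sub_eq_zero]
      exact Finset.sum_congr rfl fun y _ => by rw [map_mul, hq, smul_eq_mul]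
    have h3 := (hdiv _).1 ((hπ0 _).1 h2) x.1
    refine ⟨fun y => (q y : AddMonoidAlgebra R ℤ).coeff (x.1 + -y.1), fun y => ?_, ?_⟩
    · rw [show x.1 - y.1 = ((x.1 : ℤ) + -y.1).toNat by omega]
      exact (q y).2 _
    · rw [Subalgebra.coe_sub, AddSubmonoidClass.coe_finsetSum, hm' x hx, coeff_sub, coeff_sum,
        Finsupp.sub_apply, Finsupp.finsetSum_apply, coeff_single, Finsupp.single_eq_same] at h3
      rw [Finset.sum_congr rfl fun y hy => show ((q y * m' y : Q) : AddMonoidAlgebra R ℤ).coeff x.1 =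
          (q y : AddMonoidAlgebra R ℤ).coeff (x.1 + -y.1) * y.2 by
        rw [Subalgebra.coe_mul, hm' y (hS0 hy), coeff_mul_single_apply]] at h3
      exact h3
  · rw [← map_natCast (algebraMap k Q), CharP.cast_eq_zero, map_zero]
  · refine nontrivial_of_ne 1 0 fun h2 => h1 ?_
    refine (hmono0 0 1 (h0 ▸ trivial)).1 ?_
    have : mono 0 1 (h0 ▸ trivial) = 1 := by
      ext1; simp [mono, one_def, -LaurentPolynomial.single_eq_C_mul_T]
    rw [this, map_one, h2]
  · intro c c0 hc j x z h
    have h1 : ∀ i : ℤ, (x : AddMonoidAlgebra R ℤ).coeff i ∈ F (i + j).toNat := by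
      intro i
      have h2 := congrArg (fun y : Q => (y : AddMonoidAlgebra R ℤ).coeff i) h
      simp only [Subalgebra.coe_mul, htn, hC, coeff_mul_single_apply, neg_zero, add_zero, neg_neg,
        mul_one] at h2
      rcases le_or_gt (i + j) 0 with h3 | h3
      · rw [show (i + j).toNat = 0 by omega, h0]; trivial
      · apply hc
        rw [h2, show (i + j).toNat + c0 = (i + ((j + c0 : ℕ) : ℤ)).toNat by omega]
        exact z.2 _
    refine ⟨⟨(x : AddMonoidAlgebra R ℤ) * single (j : ℤ) 1, fun i => by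
      simpa [-LaurentPolynomial.single_eq_C_mul_T] using h1 (i + -j)⟩, ?_⟩
    ext1
    rw [Subalgebra.coe_mul, htn, mul_assoc, single_mul_single, add_neg_cancel, mul_one, ← one_def,
      mul_one]

end Pool.Agent.P.MP_7cb106_nt.Q2
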