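import Pool.Agent.P.MP_7cb106_nt.Q2.IfaceP

/-! Step REG. -/

set_option autoImplicit false

namespace Pool.Agent.P.MP_7cb106_nt.Q2

open Filter MonoidAlgebra

theorem p_REG (hGOLD : S_GOLD) :
    S_REG := by
  intro R _ P I hN hP hpr hle hne hI
  have hs : Function.Surjective (Ideal.Quotient.mk P) := Ideal.Quotient.mk_surjective
  have hm : ∀ y, y ∈ I.map (Ideal.Quotient.mk P) ↔ ∃ a ∈ I, Ideal.Quotient.mk P a = y :=
    fun y => Ideal.mem_map_iff_of_surjective _ hs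
  obtain ⟨c, hc, hreg⟩ := hGOLD (R ⧸ P) (isNoetherianRing_of_surjective R _ _ hs) (by
      intro a b h
      obtain ⟨a, rfl⟩ := hs a
      obtain ⟨b, rfl⟩ := hs b
      rw [Ideal.Quotient.eq_zero_iff_mem, Ideal.Quotient.eq_zero_iff_mem]
      refine hpr a b fun x => ?_
      rw [← Ideal.Quotient.eq_zero_iff_mem, map_mul, map_mul]
      exact h _) (I.map (Ideal.Quotient.mk P)) (by
      intro a ha x
      obtain ⟨a, ha', rfl⟩ := (hm a).1 ha
      obtain ⟨x, rfl⟩ := hs x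
      exact (hm _).2 ⟨a * x, hI a ha' x, map_mul _ _ _⟩) (by
      intro h
      refine hne (le_antisymm (fun a ha => ?_) hle)
      rw [← Ideal.Quotient.eq_zero_iff_mem, ← Ideal.mem_bot, ← h]
      exact (hm _).2 ⟨a, ha, rfl⟩)
  obtain ⟨c, hc', rfl⟩ := (hm c).1 hc
  refine ⟨c, hc', fun x hx => ?_⟩
  rw [← Ideal.Quotient.eq_zero_iff_mem] at hx ⊢
  exact hreg _ (by rwa [map_mul] at hx)

end Pool.Agent.P.MP_7cb106_nt.Q2
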