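import Pool.Agent.P.MP_7cb106_nt.Q2.IfaceP

/-! Step RING. -/

set_option autoImplicit false

namespace Pool.Agent.P.MP_7cb106_nt.Q2

open Filter MonoidAlgebra

theorem p_RING (hGXN : S_GXN) (hFRX : S_FRX) (hFRC : S_FRC) (hREES : S_REES) (hSTC : S_STC) (hSTA : S_STA) (hREG : S_REG) (hLIM : S_LIM) :
    S_RING := by
  intro p c _ k G R _ _ _ _ _ G0 Γ inc K P hN hI hU hC hP h1 hpr
  have _ := hGXN
  have := hU.fin 1
  have hF0 := (hFRX p c k G R G0 Γ inc K ⊥ hN hU hC inferInstance).1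
  have hF := (hFRX p c k G R G0 Γ inc K P hN hU hC hP).1
  obtain ⟨hK, hM⟩ := hFRC p c k G R G0 Γ inc K hN hU hC
  obtain ⟨hNo, hcl⟩ := hSTC k R _ hF0.mf (hREES p k R _ G _ _ _ G0 hF0 hI).1 (hM ⊥)
    fun x hx => hC.sep x fun j => (hK j).elim fun n hn => hn (hx n)
  have hPF : ∀ x, x ∈ P ↔ ∀ n, x ∈ FR inc K G0 P n := fun x =>
    ⟨fun hx n => Submodule.mem_sup_left (Submodule.mem_sup_left hx), fun hx => hcl P x fun n => by
      have h : FR inc K G0 P n ≤ Submodule.restrictScalars k P ⊔ FR inc K G0 ⊥ n :=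
        sup_le (sup_le le_sup_left (le_sup_of_le_right (le_sup_of_le_left le_sup_right)))
          (le_sup_of_le_right le_sup_right)
      exact h (hx n)⟩
  have hone : (1 : R) ∉ FR inc K G0 P 1 := fun h => h1 <| (Ideal.eq_top_iff_one P).2 <|
    (hPF 1).2 fun n => by
      induction n with
      | zero => rw [hF.mf.top]; trivial
      | succ n ih => simpa using hF.mf.mul n 1 1 1 ih h
  refine ⟨fun A x hx => hcl A x fun n => ?_, ?_⟩
  · exact (sup_le_sup_left (show K n ≤ FR inc K G0 ⊥ n from le_sup_right) _) (hx n)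
  obtain ⟨N, _, Λ, τ, t, Φ, hu, hg⟩ := hLIM p k R _ G _ _ _ G0 hF hI hone
  refine ⟨N, _, Λ, τ, t, Φ, hu, fun I a b d => ?_⟩
  obtain ⟨y, hy, hr⟩ := hREG R P I hNo hP hpr a b d
  obtain ⟨c0, h0⟩ := hSTA k R _ P hF.mf (hREES p k R _ G _ _ _ G0 hF hI).1 (hM P) hPF y hr
  exact ⟨y, hy, hg y c0 h0⟩

end Pool.Agent.P.MP_7cb106_nt.Q2
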