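import Pool.Agent.P.MP_7cb106_nt.Q2.IfaceP

/-! Step SEPZ. -/

set_option autoImplicit false

namespace Pool.Agent.P.MP_7cb106_nt.Q2

open Filter MonoidAlgebra

/-- elements that act trivially modulo `E` -/
def sepz_T (G : Type) {L : Type} [Group G] [AddCommGroup L] [DistribMulAction G L]
    (E : AddSubgroup L) : Subgroup G where
  carrier := {g | ∀ a : L, g • a - a ∈ E}
  one_mem' a := by simp
  mul_mem' {g h} hg hh a := by simpa [mul_smul] using add_mem (hg (h • a)) (hh a)
  inv_mem' {g} hg a := by simpa using neg_mem (hg (g⁻¹ • a))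

theorem p_SEPZ :
    S_SEPZ := by
  intro p G L _ _ _ _ _ _ Γ ex h ho hs H j hj hH
  by_contra! hc
  have cl : ∀ m, IsClosed ((sepz_T G (Lp p L m) : Set G) \ H) := fun m =>
    (Subgroup.isClosed_of_isOpen _ (Subgroup.isOpen_mono
      (show Γ m ≤ sepz_T G (Lp p L m) from fun g hg a => h.cont m g a hg) (ho m))).sdiff (Subgroup.isOpen_mono hj (ho j))
  obtain ⟨g, hg⟩ := IsCompact.nonempty_iInter_of_sequence_nonempty_isCompact_isClosed
    (fun m => (sepz_T G (Lp p L m) : Set G) \ H)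
    (fun m g hg => ⟨fun a => Lp_anti p L m.le_succ (hg.1 a), hg.2⟩) hc (cl 0).isCompact cl
  rw [Set.mem_iInter] at hg
  refine (hg 0).2 (hH g fun a => ?_)
  rw [← mul_inv_eq_iff_eq_mul, ← h.act, sub_eq_zero.1 (hs _ fun m => (hg m).1 a)]

end Pool.Agent.P.MP_7cb106_nt.Q2
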