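import Pool.Agent.P.MP_7cb106_nt.Q2.IfaceP

/-! Step STA. -/

set_option autoImplicit false

namespace Pool.Agent.P.MP_7cb106_nt.Q2

open Filter MonoidAlgebra

theorem p_STA (hSTD : S_STD) :
    S_STA := by
  intro k R _ _ _ F P hF hS hC hP c hc
  obtain ⟨S0, h0, h1⟩ := hSTD k R F hF hS hC (P ⊔ Ideal.span {c})
  have h2 : ∀ y ∈ S0, ∃ r : R, y.2 - r * c ∈ P := fun y hy => by
    obtain ⟨z, hz, w, hw, e⟩ := Submodule.mem_sup.1 (h0 y hy)
    obtain ⟨r, rfl⟩ := Ideal.mem_span_singleton'.1 hw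
    exact ⟨r, by rw [← e, add_sub_cancel_right]; exact hz⟩
  choose! r hr using h2
  refine ⟨S0.sup Prod.fst, fun j x hx => ?_⟩
  obtain ⟨f, f1, f2⟩ := h1 _ (x * c)
    (Submodule.mem_sup_right (Ideal.mem_span_singleton'.2 ⟨x, rfl⟩)) hx
  have h3 : x - ∑ y ∈ S0, f y * r y ∈ P := by
    refine hc _ ?_
    have e : (x - ∑ y ∈ S0, f y * r y) * c =
        (x * c - ∑ y ∈ S0, f y * y.2) + ∑ y ∈ S0, f y * (y.2 - r y * c) := by
      simp only [sub_mul, mul_sub, Finset.sum_mul, Finset.sum_sub_distrib, mul_assoc]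
      abel
    rw [e]
    exact P.add_mem ((hP _).2 f2) (P.sum_mem fun y hy => P.mul_mem_left _ (hr y hy))
  have h4 : ∑ y ∈ S0, f y * r y ∈ F j := by
    refine Submodule.sum_mem _ fun y hy => ?_
    have a : y.1 ≤ S0.sup Prod.fst := Finset.le_sup (f := Prod.fst) hy
    exact hF.anti (by omega) (hF.mul _ 0 _ _ (f1 y) (by rw [hF.top]; trivial))
  have := (F j).add_mem ((hP _).1 h3 j) h4
  rwa [sub_add_cancel] at this

end Pool.Agent.P.MP_7cb106_nt.Q2
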