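import Pool.Agent.P.MP_7cb106_nt.Q2.IfaceP

/-! Step STC. -/

set_option autoImplicit false

namespace Pool.Agent.P.MP_7cb106_nt.Q2

open Filter MonoidAlgebra

theorem p_STC (hSTD : S_STD) :
    S_STC := by
  classical
  intro k R _ _ _ F hF hS hC sep
  have key : ∀ A : Ideal R, ∃ S0 : Finset (ℕ × R), (∀ y ∈ S0, y.2 ∈ A) ∧
      ∀ j x, x ∈ A → x ∈ F j → ∃ f : ℕ × R → R, (∀ y, f y ∈ F (j - y.1)) ∧
        x = ∑ y ∈ S0, f y * y.2 := fun A => by
    obtain ⟨S0, h1, h2⟩ := hSTD k R F hF hS hC A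
    refine ⟨S0, h1, fun j x hx hj => ?_⟩
    obtain ⟨f, h3, h4⟩ := h2 j x hx hj
    exact ⟨f, h3, sub_eq_zero.1 (sep _ h4)⟩
  have f0 : ∀ x, x ∈ F 0 := fun x => hF.top ▸ Submodule.mem_top
  refine ⟨(isNoetherianRing_iff_ideal_fg R).2 fun A => ?_, fun A x hx => ?_⟩
  · obtain ⟨S0, h1, h2⟩ := key A
    refine ⟨S0.image Prod.snd, le_antisymm (Ideal.span_le.2 fun z hz => ?_) fun x hx => ?_⟩
    · obtain ⟨y, hy, rfl⟩ := Finset.mem_image.1 hz
      exact h1 y hy
    · obtain ⟨f, -, rfl⟩ := h2 0 x hx (f0 x)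
      exact Ideal.sum_mem _ fun y hy => Ideal.mul_mem_left _ _
        (Ideal.subset_span (Finset.mem_image_of_mem Prod.snd hy))
  · obtain ⟨S0, h1, h2⟩ := key A
    have e : ∀ n, ∃ a ∈ A, x - a ∈ F n := fun n => by
      obtain ⟨a, ha, b, hb, e⟩ := Submodule.mem_sup.1 (hx n)
      exact ⟨a, ha, by rwa [← e, add_sub_cancel_left]⟩
    choose a a1 a2 using e
    choose f f1 f2 using fun n => h2 n (a (n + 1) - a n) (A.sub_mem (a1 _) (a1 _)) (by
      have := (F n).sub_mem (a2 n) (hF.anti (Nat.le_succ n) (a2 (n + 1)))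
      rwa [sub_sub_sub_cancel_left] at this)
    choose g hg using fun y : ℕ × R => hC (fun n => ∑ i ∈ Finset.range (n + y.1), f i y) fun n => by
      have := f1 (n + y.1) y
      rw [Nat.add_sub_cancel] at this
      rwa [Nat.add_right_comm, Finset.sum_range_succ, add_sub_cancel_left]
    have t : ∀ m, a m = a 0 + ∑ y ∈ S0, (∑ i ∈ Finset.range m, f i y) * y.2 := fun m => by
      simp only [Finset.sum_mul]
      rw [Finset.sum_comm, ← Finset.sum_congr rfl fun i _ => f2 i, Finset.sum_range_sub,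
        add_sub_cancel]
    have z : x - (a 0 + ∑ y ∈ S0, g y * y.2) = 0 := sep _ fun n => by
      set m := n + S0.sup Prod.fst with hm
      have e : x - (a 0 + ∑ y ∈ S0, g y * y.2) =
          x - a m - ∑ y ∈ S0, (g y - ∑ i ∈ Finset.range m, f i y) * y.2 := by
        rw [t m]
        simp only [sub_mul, Finset.sum_sub_distrib]
        abel
      rw [e]
      refine (F n).sub_mem (hF.anti (Nat.le_add_right _ _) (a2 m)) ((F n).sum_mem fun y hy => ?_)
      have l : y.1 ≤ S0.sup Prod.fst := Finset.le_sup (f := Prod.fst) hy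
      have := hg y (m - y.1)
      rw [Nat.sub_add_cancel (by omega)] at this
      exact hF.mul n 0 _ _ (hF.anti (by omega : n ≤ m - y.1) this) (f0 _)
    rw [sub_eq_zero.1 z]
    exact A.add_mem (a1 0) (A.sum_mem fun y hy => A.mul_mem_left _ (h1 y hy))

end Pool.Agent.P.MP_7cb106_nt.Q2
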