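import Pool.Agent.P.MP_7cb106_nt.Q2.IfaceP

/-! Step STD. -/

set_option autoImplicit false

namespace Pool.Agent.P.MP_7cb106_nt.Q2

open Filter MonoidAlgebra

theorem p_STD :
    S_STD := by
  intro k R _ _ _ F hF hS hC A
  obtain ⟨S0, h0, h1⟩ := hS {x | x.2 ∈ A ∧ x.2 ∈ F x.1} fun x hx => hx.2
  refine ⟨S0, fun y hy => (h0 hy).1, fun j x hxA hxF => ?_⟩
  choose! g hg hg' using h1
  let a : ℕ → R := fun n => Nat.rec x (fun i z => z - ∑ y ∈ S0, g (j + i, z) y * y.2) n
  have ha : ∀ n, a n ∈ A ∧ a n ∈ F (j + n) := by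
    intro n
    induction n with
    | zero => exact ⟨hxA, hxF⟩
    | succ n ih =>
      exact ⟨sub_mem ih.1 (sum_mem fun y hy => A.mul_mem_left _ (h0 hy).1), hg' (j + n, a n) ih⟩
  let s : ℕ × R → ℕ → R := fun y n => ∑ i ∈ Finset.range n, g (j + i, a i) y
  have hs : ∀ n, a n = x - ∑ y ∈ S0, s y n * y.2 := by
    intro n
    induction n with
    | zero => simp [a, s]
    | succ n ih =>
      change a n - ∑ y ∈ S0, g (j + n, a n) y * y.2 = _
      simp only [s, Finset.sum_range_succ, add_mul, Finset.sum_add_distrib]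
      rw [← sub_sub, ← ih]
  have hd : ∀ y n m, s y (n + m) - s y n ∈ F (j + n - y.1) := fun y n m => by
    simp only [s, Finset.sum_range_add, add_sub_cancel_left]
    exact sum_mem fun i _ => hF.anti (by simp only; omega) (hg (j + (n + i), a (n + i)) (ha _) y)
  choose f hf using fun y => hC (fun n => s y (n + y.1)) fun n => by
    rw [add_right_comm]
    exact hF.anti (by omega) (hd y (n + y.1) 1)
  refine ⟨f, fun y => ?_, fun n => ?_⟩
  · have h2 := hd y 0 (j + y.1)
    rw [zero_add, add_zero, show s y 0 = 0 from Finset.sum_range_zero _, sub_zero] at h2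
    simpa using add_mem (hF.anti (Nat.sub_le j y.1) (hf y j)) h2
  · let D := S0.sup Prod.fst
    have h2 : ∑ y ∈ S0, (f y - s y (n + D)) * y.2 ∈ F n := sum_mem fun y hy => by
      obtain ⟨e, he⟩ := Nat.exists_eq_add_of_le (Finset.le_sup (f := Prod.fst) hy : y.1 ≤ D)
      have h3 := sub_mem (hf y n) (hF.anti (by omega : n ≤ _) (hd y (n + y.1) e))
      rw [sub_sub, add_sub_cancel, add_assoc, ← he] at h3
      exact hF.mul n 0 _ _ h3 (by rw [hF.top]; trivial)
    have h3 := sub_mem (hF.anti (by omega : n ≤ _) (ha (n + D)).2) h2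
    rw [hs] at h3
    simpa [sub_mul] using h3

end Pool.Agent.P.MP_7cb106_nt.Q2
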