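import Pool.Agent.P.MP_7cb106_nt.Q2.IfaceX

/-! Step THX. -/

set_option autoImplicit false

namespace Pool.Agent.P.MP_7cb106_nt.Q2

open Filter MonoidAlgebra

theorem thx_m2 {p : ℕ} {k G : Type} [Field k] [Group G] {Γ : ℕ → Subgroup G}
    {F : ℕ → Submodule k (MonoidAlgebra k G)} (hF : FD p Γ F) (r : ℕ) (x y : G)
    (h : x⁻¹ * y ∈ Γ r) : of k G y - of k G x ∈ F (p ^ r) := by
  have e : of k G y - of k G x = of k G x * (of k G (x⁻¹ * y) - 1) := by
    rw [mul_sub, mul_one, ← map_mul, mul_inv_cancel_left]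
  rw [e]
  exact hF.left _ _ _ (hF.lev r _ h)

theorem p_THX :
    S_THX := by
  intro p hp k G L N _ _ _ _ _ _ Γ ex F Λ τ t Φ hL hF hN
  have hc : CharP (MonoidAlgebra k G) p :=
    charP_of_injective_algebraMap (algebraMap k (MonoidAlgebra k G)).injective p
  have sub1 : ∀ a, thX p k ex Φ a - 1 = Φ fun r => of k G (ex a ^ p ^ r) - 1 := fun a => by
    rw [thX, ← map_one Φ, ← map_sub]; rfl
  refine ⟨?_, fun a a' => ?_, fun a => ?_, fun a => ?_, fun g a => ?_⟩
  · rw [thX, ← map_one Φ]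
    refine congrArg Φ (funext fun r => ?_)
    rw [hL.zero, one_pow, map_one, Pi.one_apply]
  · rw [← sub_eq_zero, thX, thX, thX, ← map_mul, ← map_sub]
    refine hN.neg _ fun K => eventually_atTop.2 ⟨K, fun r hr => ?_⟩
    have h2 := thx_m2 hF _ _ _ (hL.add r a a')
    rw [map_mul] at h2
    refine hF.anti ?_ h2
    have h3 : r < p ^ r := Nat.lt_pow_self hp.out.one_lt
    calc K * p ^ r ≤ p ^ r * p ^ r := Nat.mul_le_mul_right _ (by omega)
      _ = p ^ (2 * r) := by rw [two_mul, pow_add]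
  · obtain ⟨y, hy, e⟩ := hN.deg 1 (fun r => of k G (ex a ^ p ^ r) - 1)
      (Eventually.of_forall fun r => by
        rw [one_mul]
        exact hF.lev r _ (hL.mem r a))
    exact ⟨y, hy, by rw [sub1, e, pow_one]⟩
  · rw [sub1, sub1, ← map_pow]
    refine congrArg Φ (funext fun r => ?_)
    rw [Pi.pow_apply, sub_pow_char_of_commute p (Commute.one_right _), one_pow, hL.frob,
      ← map_pow (of k G), ← pow_mul, ← pow_mul, mul_comm]
  · rw [thX, thX, ← map_mul, ← map_mul]
    refine congrArg Φ (funext fun r => ?_)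
    rw [Pi.mul_apply, Pi.mul_apply, ← map_mul, ← map_mul, hL.act, conj_pow, inv_mul_cancel_right]

end Pool.Agent.P.MP_7cb106_nt.Q2
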