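import Pool.Agent.P.MP_7cb106_nt.Q2.IfaceQ
import Pool.Agent.P.MP_7cb106_nt.Q2.HN5

/-! Step UG2. -/

set_option autoImplicit false

namespace Pool.Agent.P.MP_7cb106_nt.Q2

open Filter MonoidAlgebra

/-- powers of the ideal generated by `C - 1` -/
noncomputable def ug2T (k : Type) {G : Type} [Field k] [Group G] (C : Subgroup G) :
    ℕ → Ideal (MonoidAlgebra k G)
  | 0 => ⊤
  | n + 1 => Ideal.span {z | ∃ w ∈ ug2T k C n, ∃ c ∈ C, z = w * (of k G c - 1)}

section
variable {k G : Type} [Field k] [Group G] {C : Subgroup G}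

lemma ug2_right (hC : C.Normal) (n : ℕ) (g : G) : ∀ w ∈ ug2T k C n, w * of k G g ∈ ug2T k C n := by
  induction n with
  | zero => exact fun _ _ => trivial
  | succ n ih =>
    intro w hw
    induction hw using Submodule.span_induction with
    | mem z hz =>
      obtain ⟨w, hw, c, hc, rfl⟩ := hz
      refine Ideal.subset_span ⟨_, ih w hw, g⁻¹ * c * g⁻¹⁻¹, hC.conj_mem c hc g⁻¹, ?_⟩
      rw [mul_assoc, mul_assoc w, sub_mul, mul_sub (of k G g), ← map_mul, ← map_mul]
      simp [mul_assoc]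
    | zero => simp
    | add x y _ _ hx hy => rw [add_mul]; exact add_mem hx hy
    | smul a x _ hx => rw [smul_eq_mul, mul_assoc]; exact Ideal.mul_mem_left _ _ hx

lemma ug2_pow (hC : C.Normal) {a : MonoidAlgebra k G} (ha : a ∈ Kr k C) (n : ℕ) :
    a ^ n ∈ ug2T k C n := by
  induction n with
  | zero => trivial
  | succ n ih =>
    rw [pow_succ]
    generalize a ^ n = w at ih
    induction ha using Submodule.span_induction with
    | mem z hz =>
      obtain ⟨g, h, hh, rfl⟩ := hz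
      refine Ideal.subset_span ⟨_, ug2_right hC n g w ih, h, hh, ?_⟩
      rw [map_mul, mul_assoc, mul_sub (of k G g), mul_one]
    | zero => simp
    | add x y _ _ hx hy => rw [mul_add]; exact add_mem hx hy
    | smul a x _ hx =>
      rw [mul_smul_comm, Algebra.smul_def]; exact Ideal.mul_mem_left _ _ hx

lemma ug2_le {H : Type} [Group H] (φ : MonoidAlgebra k H →ₐ[k] MonoidAlgebra k G)
    (h : ∀ c ∈ C, ∃ x, φ (of k H x) = of k G c) (n : ℕ) :
    ug2T k C n ≤ Ideal.span (φ '' (Mp k H n : Set (MonoidAlgebra k H))) := by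
  induction n with
  | zero =>
    refine le_top.trans ((Ideal.eq_top_iff_one _).2 ?_).ge
    exact Ideal.subset_span ⟨1, by rw [Mp_zero]; trivial, map_one φ⟩
  | succ n ih =>
    refine Ideal.span_le.2 ?_
    rintro _ ⟨w, hw, c, hc, rfl⟩
    obtain ⟨x, hx⟩ := h c hc
    have hw' := ih hw
    clear hw
    induction hw' using Submodule.span_induction with
    | mem z hz =>
      obtain ⟨m, hm, rfl⟩ := hz
      exact Ideal.subset_span ⟨_, Mp_mul hm (sub_one_mem_Mp x), by
        rw [map_mul, map_sub, hx, map_one]⟩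
    | zero => simp
    | add x y _ _ hx hy => rw [add_mul]; exact add_mem hx hy
    | smul a x _ hx => rw [smul_eq_mul, mul_assoc]; exact Ideal.mul_mem_left _ _ hx

end

theorem p_UG2 (hJEN : S_JEN) (hIR2 : S_IR2) (hIR2X : S_IR2X) (hCONT : S_CONT) (hGXN : S_GXN) :
    S_UG2 := by
  intro p c hp k G L N _ _ _ _ _ _ G0 G2 Γ ex F Λ τ t Φ _ U T hGD hG2 hF hU hyp E hE hcl hfin hne
  classical
  have hs := hIR2 p c G0 L Γ ex U T E hE hcl (hfin.subset (by
    rintro _ ⟨g, rfl⟩
    exact ⟨g, rfl⟩))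
  obtain ⟨M, hN, hn, hcm, -, hsur⟩ := NE.exists_normal hCONT U T hE hcl hs
  obtain ⟨s, S, hS⟩ := hJEN p 2 k (M 0) _ (NE.sub_uf hp.out.two_le U T hcl hN hcm hsur)
  obtain ⟨C, hC, hCH, a, ha, V, hV⟩ := hyp ((M 0).map G0.subtype) (Subgroup.map_subtype_le _)
    (by
      intro x hx
      have h1 : ∀ j, ∃ y ∈ M 0, ∃ z ∈ Γ j, x = (y * z : G0) := fun j => by
        obtain ⟨_, ⟨y, hy, rfl⟩, z, hz, e⟩ := hx j
        exact ⟨y, hy, z, hz, inv_mul_eq_iff_eq_mul.1 e.symm⟩
      obtain ⟨y, hy, z, hz, rfl⟩ := h1 1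
      refine ⟨y * z, (hN 0 _).2 ⟨mul_mem ((hN 0 y).1 hy).1 hz, hcl _ fun j => ?_⟩, rfl⟩
      obtain ⟨y', hy', z', hz', e⟩ := h1 j
      rw [Subtype.ext e]
      have h2 := (T.cong j (ex.symm (y' * z')) (ex.symm y')).2 (by simpa using hz')
      simpa using AddSubgroup.add_mem_sup ((hN 0 y').1 hy').2 h2)
    (by
      rintro g hg _ ⟨x, hx, rfl⟩
      have e1 : (ex (g • ex.symm x) : G) = g * x * g⁻¹ := by simpa using hGD.act g (ex.symm x)
      refine ⟨ex (g • ex.symm x), (hN 0 _).2 ⟨?_, ?_⟩, e1⟩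
      · obtain ⟨z, hz, e2⟩ := (hGD.normal 1).conj_mem _ ⟨x, ((hN 0 x).1 hx).1, rfl⟩ g
        rwa [show ex (g • ex.symm x) = z from Subtype.ext (e1.trans e2.symm)]
      · rw [Equiv.symm_apply_apply]
        exact hIR2X p c G L G2 U.c1 U.c2 hG2 E hE hcl hfin g hg _ ((hN 0 x).1 hx).2)
    (fun h0 => hne (by
      rw [Subgroup.map_eq_bot_iff_of_injective _ G0.subtype_injective] at h0
      rw [eq_bot_iff]
      intro e he
      have h1 : ex e ^ p ∈ M 0 := (hN 0 _).2 ⟨U.pow_mem _ _ (by rw [U.top]; trivial), by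
        rw [NE.symm_pow T, Equiv.symm_apply_apply]; exact E.nsmul_mem he p⟩
      rw [h0, Subgroup.mem_bot] at h1
      have h2 := U.sep (ex e) fun r => U.pow_inj r _ (h1 ▸ one_mem _)
      exact ex.injective (h2.trans T.zero.symm)))
  let φ : MonoidAlgebra k (M 0) →ₐ[k] MonoidAlgebra k G :=
    mapDomainAlgHom k k (G0.subtype.comp (M 0).subtype)
  have hφ : ∀ x : M 0, φ (of k (M 0) x) = of k G (x : G0) := fun x => by
    simp [φ, mapDomainAlgHom]
  have key : ∀ r, ∃ y : S → MonoidAlgebra k G, a r ^ (s * p ^ r) -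
      ∑ x : S, y x * (of k G (((x : M 0) : G0) ^ p ^ r : G) - 1) ∈ F (p ^ (2 * r)) := by
    intro r
    have h1 := ug2_le φ (fun c hc => by
      obtain ⟨x, hx, rfl⟩ := hCH hc
      exact ⟨⟨x, hx⟩, hφ _⟩) _ (ug2_pow hC (ha r) (s * p ^ r))
    generalize a r ^ (s * p ^ r) = w at h1
    induction h1 using Submodule.span_induction with
    | mem z hz =>
      obtain ⟨m, hm, rfl⟩ := hz
      obtain ⟨u, hu, v, hv, rfl⟩ := Submodule.mem_sup.1 (hS r (2 * r) hm)
      have hv' : φ v ∈ F (p ^ (2 * r)) := by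
        refine (Submodule.span_le (p := (F (p ^ (2 * r))).comap φ.toLinearMap)).2 ?_ hv
        rintro _ ⟨g, y, hy, rfl⟩
        have h2 := hF.left _ (φ (of k _ g)) _
          (hF.lev (2 * r) _ ⟨(y : G0), U.anti (Nat.le_succ _) hy, rfl⟩)
        change φ _ ∈ F _
        rwa [map_sub, map_mul, map_mul, hφ y, ← mul_sub_one]
      rw [Submodule.restrictScalars_mem, Set.image_eq_range] at hu
      obtain ⟨y, rfl⟩ := (Submodule.mem_span_range_iff_exists_fun _).1 hu
      refine ⟨fun x => φ (y x), ?_⟩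
      simp only [map_add, map_sum, smul_eq_mul, map_mul, map_sub, map_one, hφ]
      simpa using hv'
    | zero => exact ⟨0, by simp⟩
    | add x y _ _ hx hy =>
      obtain ⟨u, hu⟩ := hx
      obtain ⟨v, hv⟩ := hy
      refine ⟨u + v, ?_⟩
      simp only [Pi.add_apply, add_mul, Finset.sum_add_distrib]
      rw [add_sub_add_comm]
      exact add_mem hu hv
    | smul b x _ hx =>
      obtain ⟨u, hu⟩ := hx
      refine ⟨fun x => b * u x, ?_⟩
      simp only [mul_assoc]
      rw [← Finset.mul_sum, smul_eq_mul, ← mul_sub]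
      exact hF.left _ _ _ hu
  choose y hy using key
  have h0 := hU.neg _ fun K => (eventually_ge_atTop K).mono fun r hr => hF.anti (by
    rw [two_mul, pow_add]
    exact Nat.mul_le_mul_right _ (hr.trans (Nat.lt_pow_self hp.out.one_lt).le)) (hy r)
  have h1 : ∀ n : ℕ, V ^ n * Φ (fun r => a r ^ p ^ r) ^ n = 1 := by
    intro n
    induction n with
    | zero => simp
    | succ n ih => rw [pow_succ, pow_succ', mul_assoc, ← mul_assoc V, hV, one_mul, ih]
  have h2 : Φ (fun r => a r ^ p ^ r) ^ s = ∑ x : S, Φ (fun r => y r x) *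
      (thX p k (fun a => (ex a : G)) Φ (ex.symm (x : M 0)) - 1) := by
    rw [← sub_eq_zero, ← h0]
    simp only [thX, ← map_one Φ, ← map_sub, ← map_mul, ← map_sum, ← map_pow]
    congr 1
    funext r
    simp [← pow_mul, mul_comm s]
  have h3 := h1 s
  rw [h2] at h3
  refine (Ideal.eq_top_iff_one _).2 (h3.subst (motive := fun z => z ∈ Ideal.span _) ?_)
  exact Ideal.mul_mem_left _ _ (Ideal.sum_mem _ fun x _ => Ideal.mul_mem_left _ _
    (Ideal.subset_span ⟨_, ((hN 0 _).1 (x : M 0).2).2, rfl⟩))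

end Pool.Agent.P.MP_7cb106_nt.Q2
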