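import Pool.Agent.P.MP_7cb106_nt.Q2.IfaceQ

/-! Step UTF. -/

set_option autoImplicit false

namespace Pool.Agent.P.MP_7cb106_nt.Q2

open Filter MonoidAlgebra

theorem utf_pow {p c : ℕ} {G : Type} [Group G] {Γ : ℕ → Subgroup G} (h : UF p c Γ) (y : G)
    (r : ℕ) : y ^ p ^ r ∈ Γ r := by
  induction r with
  | zero => rw [h.top]; trivial
  | succ r ih => rw [pow_succ, pow_mul]; exact h.pow_mem r _ ih

theorem utf_p {p c : ℕ} {G : Type} [Group G] {Γ : ℕ → Subgroup G} (h : UF p c Γ) (x : G)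
    (s : ℕ) (hx : x ^ p ^ s = 1) : x = 1 := by
  induction s with
  | zero => simpa using hx
  | succ s ih =>
    refine ih (h.sep _ fun r => h.pow_inj r _ ?_)
    rw [← pow_mul, ← pow_succ, hx]
    exact (Γ _).one_mem

theorem p_UTF :
    S_UTF := by
  intro p c hp G _ Γ h x n hn hx
  obtain ⟨s, u, hu, rfl⟩ := Nat.exists_eq_pow_mul_and_not_dvd hn.ne' p hp.out.ne_one
  refine utf_p h x s (h.sep _ fun r => ?_)
  rw [pow_mul] at hx
  set y := x ^ p ^ s
  have hcop : Nat.Coprime (p ^ r) (orderOf y) :=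
    Nat.Coprime.pow_left r (((Nat.Prime.coprime_iff_not_dvd hp.out).2 hu).coprime_dvd_right
      (orderOf_dvd_of_pow_eq_one hx))
  obtain ⟨m, hm⟩ := exists_pow_eq_self_of_coprime hcop
  rw [← hm]
  exact (Γ r).pow_mem (utf_pow h y r) m

end Pool.Agent.P.MP_7cb106_nt.Q2
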