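import Pool.Agent.P.MP_7cb106_nt.Q2.BaseAll
import Pool.Agent.P.MP_7cb106_nt.Q2.TTHX
import Pool.Agent.P.MP_7cb106_nt.Q2.TKILX
import Pool.Agent.P.MP_7cb106_nt.Q2.TCORX
import Pool.Agent.P.MP_7cb106_nt.Q2.TCORY
import Pool.Agent.P.MP_7cb106_nt.Q2.TGXN
import Pool.Agent.P.MP_7cb106_nt.Q2.TGDX
import Pool.Agent.P.MP_7cb106_nt.Q2.TSEPZ
import Pool.Agent.P.MP_7cb106_nt.Q2.TDAF
import Pool.Agent.P.MP_7cb106_nt.Q2.TDAG
import Pool.Agent.P.MP_7cb106_nt.Q2.TFRX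
import Pool.Agent.P.MP_7cb106_nt.Q2.TFRC
import Pool.Agent.P.MP_7cb106_nt.Q2.TKRK
import Pool.Agent.P.MP_7cb106_nt.Q2.TIW
import Pool.Agent.P.MP_7cb106_nt.Q2.TPIECE
import Pool.Agent.P.MP_7cb106_nt.Q2.TPCI
import Pool.Agent.P.MP_7cb106_nt.Q2.TCLI
import Pool.Agent.P.MP_7cb106_nt.Q2.TCZ
import Pool.Agent.P.MP_7cb106_nt.Q2.TLOC
import Pool.Agent.P.MP_7cb106_nt.Q2.TREES
import Pool.Agent.P.MP_7cb106_nt.Q2.TLEV
import Pool.Agent.P.MP_7cb106_nt.Q2.TCOKP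
import Pool.Agent.P.MP_7cb106_nt.Q2.TNRX
import Pool.Agent.P.MP_7cb106_nt.Q2.TLIM
import Pool.Agent.P.MP_7cb106_nt.Q2.TSTD
import Pool.Agent.P.MP_7cb106_nt.Q2.TSTC
import Pool.Agent.P.MP_7cb106_nt.Q2.TSTA
import Pool.Agent.P.MP_7cb106_nt.Q2.TGOLD
import Pool.Agent.P.MP_7cb106_nt.Q2.TREG
import Pool.Agent.P.MP_7cb106_nt.Q2.TJEN
import Pool.Agent.P.MP_7cb106_nt.Q2.TRING
import Pool.Agent.P.MP_7cb106_nt.Q2.TRCL
import Pool.Agent.P.MP_7cb106_nt.Q2.TCTRL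
import Pool.Agent.P.MP_7cb106_nt.Q2.TUTF
import Pool.Agent.P.MP_7cb106_nt.Q2.TQUF
import Pool.Agent.P.MP_7cb106_nt.Q2.TQCP
import Pool.Agent.P.MP_7cb106_nt.Q2.TQPC
import Pool.Agent.P.MP_7cb106_nt.Q2.TIR2X
import Pool.Agent.P.MP_7cb106_nt.Q2.TUG2
import Pool.Agent.P.MP_7cb106_nt.Q2.TMAIN2
import Pool.Agent.P.MP_7cb106_nt.Q2.TMAINQ
import Pool.Agent.P.MP_7cb106_nt.Q2.TFINALQ

/-! All steps of the theorem on prime ideals together. -/

set_option autoImplicit false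

namespace Pool.Agent.P.MP_7cb106_nt.Q2

theorem all_THX : S_THX := p_THX
theorem all_KILX : S_KILX := p_KILX
theorem all_CORX : S_CORX := p_CORX all_KILX all_KIL2 all_RSUM
theorem all_CORY : S_CORY := p_CORY all_THX all_KK all_UNU all_ZORN all_TV all_BALL all_APX all_CORX all_ITER
theorem all_GXN : S_GXN := p_GXN
theorem all_GDX : S_GDX := p_GDX all_GXN all_LIE2 all_LIE3 all_CONT all_LFIN all_PWC all_PWS
theorem all_SEPZ : S_SEPZ := p_SEPZ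
theorem all_DAF : S_DAF := p_DAF all_GXN all_MPK all_NIL
theorem all_DAG : S_DAG := p_DAG all_GEN all_DAF
theorem all_FRX : S_FRX := p_FRX all_DAF all_DAG
theorem all_FRC : S_FRC := p_FRC all_DAF
theorem all_KRK : S_KRK := p_KRK
theorem all_IW : S_IW := p_IW all_KRK
theorem all_PIECE : S_PIECE := p_PIECE
theorem all_PCI : S_PCI := p_PCI all_PIECE
theorem all_CLI : S_CLI := p_CLI
theorem all_CZ : S_CZ := p_CZ
theorem all_LOC : S_LOC := p_LOC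
theorem all_REES : S_REES := p_REES all_CZ
theorem all_LEV : S_LEV := p_LEV all_LOC
theorem all_COKP : S_COKP := p_COKP
theorem all_NRX : S_NRX := p_NRX all_NR2 all_NR3
theorem all_LIM : S_LIM := p_LIM all_REES all_LEV all_COKP all_NRX
theorem all_STD : S_STD := p_STD
theorem all_STC : S_STC := p_STC all_STD
theorem all_STA : S_STA := p_STA all_STD
theorem all_GOLD : S_GOLD := p_GOLD
theorem all_REG : S_REG := p_REG all_GOLD
theorem all_JEN : S_JEN := p_JEN all_GEN all_NIL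
theorem all_RING : S_RING := p_RING all_GXN all_FRX all_FRC all_REES all_STC all_STA all_REG all_LIM
theorem all_RCL : S_RCL := p_RCL
theorem all_CTRL : S_CTRL := p_CTRL all_PIECE all_RCL
theorem all_UTF : S_UTF := p_UTF
theorem all_QUF : S_QUF := p_QUF all_GXN
theorem all_QCP : S_QCP := p_QCP all_CLI all_KRK
theorem all_QPC : S_QPC := p_QPC
theorem all_IR2X : S_IR2X := p_IR2X all_IR1
theorem all_UG2 : S_UG2 := p_UG2 all_JEN all_IR2 all_IR2X all_CONT all_GXN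
theorem all_MAIN2 : S_MAIN2 := p_MAIN2 all_FRX all_RING all_PCI all_CLI all_UG2 all_CORY
theorem all_MAINQ : S_MAINQ := p_MAINQ all_GXN all_GDX all_SEPZ all_RING all_CTRL all_UTF all_QUF all_QCP all_QPC all_MAIN2
theorem all_FINALQ : S_FINALQ := p_FINALQ all_PFA all_UFA all_GMS all_GXN all_IW all_MAINQ

end Pool.Agent.P.MP_7cb106_nt.Q2
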