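import Pool.Agent.P.MP_7cb106_nt.Q2.BaseMicro

/-! Definitions for the theorem on bi-invariant spaces of functions on uniform groups. -/

set_option autoImplicit false

namespace Pool.Agent.P.MP_7cb106_nt.Q2

open Filter MonoidAlgebra

/-! ### groups -/

/-- closed subgroup generated by the `p`-th powers of the elements of `H` -/
def Pw (p : ℕ) {G : Type} [Group G] [TopologicalSpace G] [IsTopologicalGroup G]
    (H : Subgroup G) : Subgroup G :=
  (Subgroup.closure ((fun x : G => x ^ p) '' (H : Set G))).topologicalClosure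

/-- the power filtration -/
def Gm (p : ℕ) (G : Type) [Group G] [TopologicalSpace G] [IsTopologicalGroup G] :
    ℕ → Subgroup G
  | 0 => ⊤
  | r + 1 => Pw p (Gm p G r)

/-- pro-`p` -/
def ProP (p : ℕ) (G : Type) [Group G] [TopologicalSpace G] : Prop :=
  ∀ U : OpenNormalSubgroup G, IsPGroup p (G ⧸ U.toSubgroup)

/-- first facts on the power filtration of a powerful group -/
structure PF (p c : ℕ) {G : Type} [Group G] [TopologicalSpace G] [IsTopologicalGroup G]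
    (Γ : ℕ → Subgroup G) : Prop where
  c1 : 1 ≤ c
  c2 : 2 ≤ (p - 1) * c
  top : Γ 0 = ⊤
  anti : Antitone Γ
  normal : ∀ r, (Γ r).Normal
  closed : ∀ r, IsClosed (Γ r : Set G)
  succ : ∀ r, Γ (r + 1) = Pw p (Γ r)
  pow_mem : ∀ r x, x ∈ Γ r → x ^ p ∈ Γ (r + 1)
  com1 : ∀ r x g, x ∈ Γ r → x * g * x⁻¹ * g⁻¹ ∈ Γ (r + c)
  sep : ∀ x, (∀ r, x ∈ Γ r) → x = 1

/-- commutator rule -/
def Com (c : ℕ) {G : Type} [Group G] (Γ : ℕ → Subgroup G) : Prop :=
  ∀ r s x y, x ∈ Γ r → y ∈ Γ s → x * y * x⁻¹ * y⁻¹ ∈ Γ (r + s + c)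

/-- power of a product -/
def PwM (p : ℕ) {G : Type} [Group G] (Γ : ℕ → Subgroup G) : Prop :=
  ∀ r s x y, x ∈ Γ r → y ∈ Γ s → (x ^ p * y ^ p)⁻¹ * (x * y) ^ p ∈ Γ (r + s + 2)

/-- the facts on the power filtration of a uniform group, without topology -/
structure UF (p c : ℕ) {G : Type} [Group G] (Γ : ℕ → Subgroup G) : Prop where
  c1 : 1 ≤ c
  c2 : 2 ≤ (p - 1) * c
  top : Γ 0 = ⊤
  anti : Antitone Γ
  normal : ∀ r, (Γ r).Normal
  fin : ∀ r, (Γ r).FiniteIndex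
  pow_mem : ∀ r x, x ∈ Γ r → x ^ p ∈ Γ (r + 1)
  pow_surj : ∀ r g, g ∈ Γ (r + 1) → ∃ x ∈ Γ r, x ^ p = g
  pow_inj : ∀ r x, x ^ p ∈ Γ (r + 1) → x ∈ Γ r
  comm : Com c Γ
  pow_mul : PwM p Γ
  sep : ∀ x, (∀ r, x ∈ Γ r) → x = 1
  cpt : ∀ S : Set (Set G), S.Nonempty → DirectedOn (fun A B => B ⊆ A) S →
    (∀ C ∈ S, C.Nonempty) → (∀ C ∈ S, ∃ m, ∀ x ∈ C, ∀ g ∈ Γ m, x * g ∈ C) → (⋂₀ S).Nonempty

/-- congruences and powers -/
def PwC (p : ℕ) {G : Type} [Group G] (Γ : ℕ → Subgroup G) : Prop :=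
  ∀ r j x y, (x ^ p ^ r)⁻¹ * y ^ p ^ r ∈ Γ (r + j) ↔ x⁻¹ * y ∈ Γ j

/-- closed normal subgroups are trivial or open -/
def AS {G : Type} [Group G] (Γ : ℕ → Subgroup G) : Prop :=
  ∀ N : Subgroup G, N.Normal → (∀ x, (∀ j, ∃ y ∈ N, y⁻¹ * x ∈ Γ j) → x ∈ N) →
    N = ⊥ ∨ ∃ j, Γ j ≤ N

/-! ### the abelian group `L` -/

/-- `p ^ j L` -/
def Lp (p : ℕ) (L : Type) [AddCommGroup L] (j : ℕ) : AddSubgroup L :=
  (nsmulAddMonoidHom (p ^ j) : L →+ L).range

theorem mem_Lp {p : ℕ} {L : Type} [AddCommGroup L] {j : ℕ} {a : L} :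
    a ∈ Lp p L j ↔ ∃ b, p ^ j • b = a := Iff.rfl

theorem Lp_anti (p : ℕ) (L : Type) [AddCommGroup L] : Antitone (Lp p L) := by
  refine antitone_nat_of_succ_le fun j a ha => ?_
  obtain ⟨b, rfl⟩ := mem_Lp.1 ha
  exact mem_Lp.2 ⟨p • b, by rw [← mul_smul, pow_succ]⟩

/-- the additive structure on a uniform group -/
structure Lie (p : ℕ) {G L : Type} [Group G] [AddCommGroup L] [DistribMulAction G L]
    (Γ : ℕ → Subgroup G) (ex : L ≃ G) : Prop where
  zero : ex 0 = 1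
  neg : ∀ a, ex (-a) = (ex a)⁻¹
  nsmul : ∀ (n : ℕ) a, ex (n • a) = ex a ^ n
  act : ∀ (g : G) a, ex (g • a) = g * ex a * g⁻¹
  cong : ∀ j a b, a - b ∈ Lp p L j ↔ (ex b)⁻¹ * ex a ∈ Γ j
  add : ∀ r s a b, a ∈ Lp p L r → b ∈ Lp p L s → (ex a * ex b)⁻¹ * ex (a + b) ∈ Γ (r + s + 1)

/-- isolated subgroup -/
def Iso (p : ℕ) {L : Type} [AddCommGroup L] (E : AddSubgroup L) : Prop :=
  ∀ a, p • a ∈ E → a ∈ E

/-- closed subgroup -/
def Cld (p : ℕ) {L : Type} [AddCommGroup L] (E : AddSubgroup L) : Prop :=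
  ∀ a, (∀ j, a ∈ E ⊔ Lp p L j) → a ∈ E

/-- translate of a subgroup -/
def mv {G L : Type} [Group G] [AddCommGroup L] [DistribMulAction G L] (g : G)
    (E : AddSubgroup L) : AddSubgroup L :=
  E.map (DistribSMul.toAddMonoidHom L g)

/-- irreducibility -/
def Irr (p : ℕ) (G L : Type) [Group G] [AddCommGroup L] [DistribMulAction G L] : Prop :=
  ∀ E : AddSubgroup L, Iso p E → Cld p E → (Set.range fun g : G => mv g E).Finite →
    E = ⊥ ∨ E = ⊤

/-- a chain of open subgroups with trivial intersection is a basis -/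
def Chev (p : ℕ) (L : Type) [AddCommGroup L] : Prop :=
  ∀ S : Set (AddSubgroup L), S.Nonempty → IsChain (· ≤ ·) S → (∀ E ∈ S, ∃ j, Lp p L j ≤ E) →
    (∀ a : L, a ≠ 0 → ∃ E ∈ S, a ∉ E) → ∀ m, ∃ E ∈ S, E ≤ Lp p L m

/-- the action separates the classes -/
def Sep (p : ℕ) {G : Type} (L : Type) [Group G] [AddCommGroup L] [DistribMulAction G L]
    (Γ : ℕ → Subgroup G) : Prop :=
  ∀ j, ∃ m, ∀ g : G, (∀ a : L, g • a - a ∈ Lp p L m) → g ∈ Γ j

/-! ### the limit ring -/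

/-- ring with a lattice -/
structure Amb {N : Type} [Ring N] (Λ : Subring N) (τ : N) : Prop where
  mem : τ ∈ Λ
  cen : ∀ x, τ * x = x * τ
  unit : IsUnit τ
  one_sub : ∀ x ∈ Λ, IsUnit (1 - τ * x)
  den : ∀ x, ∃ K : ℕ, τ ^ K * x ∈ Λ
  nontriv : (1 : N) ≠ 0
  art : IsArtinian N N

/-- the limit ring of a filtered ring -/
structure Ult (p : ℕ) {R N : Type} [Ring R] [Ring N] (F : ℕ → Set R) (b : R) (Λ : Subring N)
    (τ t : N) (Φ : (ℕ → R) →+* N) : Prop where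
  amb : Amb Λ τ
  mem : ∀ x, Φ x ∈ Λ
  deg : ∀ (K : ℕ) x, (∀ᶠ r in atTop, x r ∈ F (K * p ^ r)) → ∃ y ∈ Λ, Φ x = τ ^ K * y
  neg : ∀ x, (∀ K : ℕ, ∀ᶠ r in atTop, x r ∈ F (K * p ^ r)) → Φ x = 0
  tmem : t ∈ Λ
  tcen : ∀ x, t * x = x * t
  tdiv : ∀ m : ℕ, ∃ w ∈ Λ, τ = w * t ^ m
  bt : ∃ v ∈ Λ, ∃ u, v * u = 1 ∧ Φ (fun _ => b) = u * t
  bu : IsUnit (Φ fun r => b ^ p ^ r)

/-- the character of `L` with values in a commutative subring -/
structure Th (p : ℕ) {L K N : Type} [AddCommGroup L] [CommRing K] [Ring N] (κ : K →+* N)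
    (Λ : Subring N) (τ : K) (th : L → K) : Prop where
  inj : Function.Injective κ
  unit : ∀ x, IsUnit (κ x) → IsUnit x
  zero : th 0 = 1
  add : ∀ a b, th (a + b) = th a * th b
  sub : ∀ a, ∃ x ∈ Λ, κ (th a) - 1 = κ τ * x
  frob : ∀ a, th (p • a) - 1 = (th a - 1) ^ p

/-- left ideal attached to a subgroup -/
def JE {L K N : Type} [AddCommGroup L] [CommRing K] [Ring N] (κ : K →+* N) (th : L → K)
    (E : AddSubgroup L) : Ideal N :=
  Ideal.span ((fun a => κ (th a - 1)) '' (E : Set L))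

/-- sums of products of an element of `Λ` and an element of `Z` -/
def LR {K N : Type} [CommRing K] [Ring N] (κ : K →+* N) (Λ : Subring N) (Z : Set K) :
    AddSubgroup N :=
  AddSubgroup.closure {n | ∃ l ∈ Λ, ∃ z ∈ Z, n = l * κ z}

/-- radical of `τ R` in `R` -/
def Rad {K : Type} [CommRing K] (R : Subring K) (τ : K) : Set K :=
  {z | z ∈ R ∧ ∃ n : ℕ, ∃ ρ ∈ R, z ^ n = τ * ρ}

/-- a subring that orders the units -/
structure Val {K : Type} [CommRing K] (R : Subring K) (τ : K) : Prop where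
  mem : τ ∈ R
  unit : IsUnit τ
  total : ∀ s : Kˣ, (s : K) ∈ R ∨ ((s⁻¹ : Kˣ) : K) ∈ R
  one : (1 : K) ∉ Rad R τ

/-- the character seen from the subring -/
structure TV (p : ℕ) {L K : Type} [AddCommGroup L] [CommRing K] (R : Subring K) (τ : K)
    (th : L → K) : Prop where
  val : Val R τ
  zero : th 0 = 1
  add : ∀ a b, th (a + b) = th a * th b
  sub : ∀ a, ∃ ρ ∈ R, th a - 1 = τ * ρ
  frob : ∀ a, th (p • a) - 1 = (th a - 1) ^ p
  unit : ∀ a, a ≠ 0 → IsUnit (th a - 1)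
  den : ∀ a, a ≠ 0 → ∃ n : ℕ, ∃ ρ ∈ R, τ ^ n = (th a - 1) * ρ

/-- a ball -/
def Gap {L K : Type} [AddCommGroup L] [CommRing K] (R : Subring K) (τ : K) (th : L → K)
    (E : AddSubgroup L) : Prop :=
  ∀ a, a ∉ E → ∀ b ∈ E, ∃ z ∈ Rad R τ, th b - 1 = (th a - 1) * z

/-- the functions at our disposal -/
def AA (G : Type) {L K : Type} [Group G] [AddCommGroup L] [DistribMulAction G L] [CommRing K]
    (th : L → K) : Submodule K (G → K) :=
  Submodule.span K (Set.range fun x : L => fun h : G => th (h⁻¹ • x))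

theorem Rad.sub_R {K : Type} [CommRing K] {R : Subring K} {τ z : K} (h : z ∈ Rad R τ) :
    z ∈ R := h.1

theorem mem_Rad_iff {K : Type} [CommRing K] {R : Subring K} {τ : K} (hτ : τ ∈ R) {z : K}
    (hz : z ∈ R) : z ∈ Rad R τ ↔ (⟨z, hz⟩ : R) ∈ (Ideal.span {(⟨τ, hτ⟩ : R)}).radical := by
  constructor
  · rintro ⟨-, n, ρ, hρ, h⟩
    exact ⟨n, Ideal.mem_span_singleton.2 ⟨⟨ρ, hρ⟩, Subtype.ext (by simpa using h)⟩⟩
  · rintro ⟨n, h⟩
    obtain ⟨ρ, h⟩ := Ideal.mem_span_singleton.1 h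
    exact ⟨hz, n, ρ, ρ.2, by simpa using congrArg Subtype.val h⟩

theorem Rad.self {K : Type} [CommRing K] {R : Subring K} {τ : K} (hτ : τ ∈ R) : τ ∈ Rad R τ :=
  ⟨hτ, 1, 1, R.one_mem, by simp⟩

theorem Rad.zero {K : Type} [CommRing K] (R : Subring K) (τ : K) : (0 : K) ∈ Rad R τ :=
  ⟨R.zero_mem, 1, 0, R.zero_mem, by simp⟩

theorem Rad.add {K : Type} [CommRing K] {R : Subring K} {τ : K} (hτ : τ ∈ R) {x y : K}
    (hx : x ∈ Rad R τ) (hy : y ∈ Rad R τ) : x + y ∈ Rad R τ :=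
  (mem_Rad_iff hτ (R.add_mem hx.1 hy.1)).2
    (Ideal.add_mem _ ((mem_Rad_iff hτ hx.1).1 hx) ((mem_Rad_iff hτ hy.1).1 hy))

theorem Rad.mul_left {K : Type} [CommRing K] {R : Subring K} {τ : K} (hτ : τ ∈ R) {x y : K}
    (hx : x ∈ R) (hy : y ∈ Rad R τ) : x * y ∈ Rad R τ :=
  (mem_Rad_iff hτ (R.mul_mem hx hy.1)).2
    (Ideal.mul_mem_left _ (⟨x, hx⟩ : R) ((mem_Rad_iff hτ hy.1).1 hy))

theorem Rad.mul_right {K : Type} [CommRing K] {R : Subring K} {τ : K} (hτ : τ ∈ R) {x y : K}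
    (hx : x ∈ Rad R τ) (hy : y ∈ R) : x * y ∈ Rad R τ := by
  rw [mul_comm]; exact Rad.mul_left hτ hy hx

theorem Rad.neg {K : Type} [CommRing K] {R : Subring K} {τ : K} (hτ : τ ∈ R) {x : K}
    (hx : x ∈ Rad R τ) : -x ∈ Rad R τ := by
  have := Rad.mul_left hτ (R.neg_mem R.one_mem) hx
  rwa [neg_one_mul] at this

theorem Rad.sum {K : Type} [CommRing K] {R : Subring K} {τ : K} (hτ : τ ∈ R) {ι : Type}
    (s : Finset ι) (f : ι → K) (h : ∀ i ∈ s, f i ∈ Rad R τ) : ∑ i ∈ s, f i ∈ Rad R τ :=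
  Finset.sum_induction f (· ∈ Rad R τ) (fun _ _ => Rad.add hτ) (Rad.zero R τ) h

/-! ### the group algebra -/

/-- augmentation ideal -/
noncomputable def aug (k G : Type) [Field k] [Group G] : Submodule k (MonoidAlgebra k G) :=
  Submodule.span k (Set.range fun g : G => of k G g - 1)

/-- powers of the augmentation ideal -/
noncomputable def Mp (k G : Type) [Field k] [Group G] (n : ℕ) :
    Submodule k (MonoidAlgebra k G) :=
  aug k G ^ n * ⊤

/-- kernel of the map to the group algebra of `G ⧸ H` -/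
noncomputable def Kr (k : Type) {G : Type} [Field k] [Group G] (H : Subgroup G) :
    Submodule k (MonoidAlgebra k G) :=
  Submodule.span k {x | ∃ g, ∃ h ∈ H, x = of k G (g * h) - of k G g}

open Classical in
/-- restriction to a subset -/
noncomputable def res (k : Type) {G : Type} [Field k] [Group G] (S : Set G) :
    MonoidAlgebra k G →ₗ[k] MonoidAlgebra k G :=
  (MonoidAlgebra.basis G k).constr k fun g => if g ∈ S then of k G g else 0

/-- a coset as a set -/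
def cs {G : Type} [Group G] {H : Subgroup G} (c : G ⧸ H) : Set G := {g | (g : G ⧸ H) = c}

/-- two-sided translation -/
noncomputable def tr (k : Type) {G : Type} [Field k] [Group G] (a b : G) :
    MonoidAlgebra k G →ₗ[k] MonoidAlgebra k G :=
  LinearMap.mulLeft k (of k G a) ∘ₗ LinearMap.mulRight k (of k G b)

/-- forms that kill `Mp n` -/
noncomputable def Sn (k G : Type) [Field k] [Group G] (n : ℕ) :
    Submodule k (Module.Dual k (MonoidAlgebra k G)) :=
  (Mp k G n).dualAnnihilator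

/-- bi-invariant space of smooth forms -/
structure Bi {k G : Type} [Field k] [Group G]
    (W : Submodule k (Module.Dual k (MonoidAlgebra k G))) : Prop where
  inv : ∀ w ∈ W, ∀ a b : G, w ∘ₗ tr k a b ∈ W
  sm : ∀ w ∈ W, ∃ n, w ∈ Sn k G n

/-- the filtration attached to `W` -/
noncomputable def FF {k G : Type} [Field k] [Group G]
    (W : Submodule k (Module.Dual k (MonoidAlgebra k G))) (n : ℕ) :
    Submodule k (MonoidAlgebra k G) :=
  (W ⊓ Sn k G n).dualCoannihilator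

/-- the part of `W` whose pieces on the cosets of `H` stay in `W` -/
noncomputable def WH {k G : Type} [Field k] [Group G]
    (W : Submodule k (Module.Dual k (MonoidAlgebra k G))) (H : Subgroup G) :
    Submodule k (Module.Dual k (MonoidAlgebra k G)) :=
  ⨅ c : G ⧸ H, W.comap (res k (cs c)).dualMap

section api
variable {k G : Type} [Field k] [Group G]

theorem ext_of {M : Type} [AddCommGroup M] [Module k M] {f g : MonoidAlgebra k G →ₗ[k] M}
    (h : ∀ x : G, f (of k G x) = g (of k G x)) : f = g :=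
  (MonoidAlgebra.basis G k).ext fun x => h x

theorem span_of : Submodule.span k (Set.range (of k G)) = ⊤ :=
  (MonoidAlgebra.basis G k).span_eq

open Classical in
theorem res_of (S : Set G) (g : G) :
    res k S (of k G g) = if g ∈ S then of k G g else 0 :=
  (MonoidAlgebra.basis G k).constr_basis k _ g

theorem tr_apply (a b : G) (x : MonoidAlgebra k G) :
    tr k a b x = of k G a * (x * of k G b) := rfl

theorem sum_res {H : Subgroup G} [Fintype (G ⧸ H)] (x : MonoidAlgebra k G) :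
    ∑ c : G ⧸ H, res k (cs c) x = x := by
  classical
  have : (∑ c : G ⧸ H, res k (cs c)) = (LinearMap.id : _ →ₗ[k] MonoidAlgebra k G) := by
    refine ext_of fun g => ?_
    rw [LinearMap.sum_apply, Finset.sum_eq_single (g : G ⧸ H)]
    · rw [res_of, if_pos (show g ∈ cs (g : G ⧸ H) from rfl)]; rfl
    · intro c _ hc
      rw [res_of, if_neg (fun h : g ∈ cs c => hc (Eq.symm h))]
    · simp
  rw [← LinearMap.sum_apply, this]; rfl

theorem sub_one_mem_aug (g : G) : of k G g - 1 ∈ aug k G := Submodule.subset_span ⟨g, rfl⟩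

theorem top_mul_aug : (⊤ : Submodule k (MonoidAlgebra k G)) * aug k G ≤ aug k G := by
  rw [← span_of, aug, Submodule.span_mul_span, Submodule.span_le]
  rintro _ ⟨_, ⟨g, rfl⟩, _, ⟨h, rfl⟩, rfl⟩
  have : of k G g * (of k G h - 1) = (of k G (g * h) - 1) - (of k G g - 1) := by
    rw [map_mul]; noncomm_ring
  simp only [this]
  exact Submodule.sub_mem _ (sub_one_mem_aug _) (sub_one_mem_aug _)

theorem Mp_zero : Mp k G 0 = ⊤ := by rw [Mp, pow_zero, one_mul]

theorem Mp_succ (n : ℕ) : Mp k G (n + 1) = aug k G * Mp k G n := by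
  rw [Mp, Mp, pow_succ', mul_assoc]

theorem Mp_mul_right {n : ℕ} {x : MonoidAlgebra k G} (hx : x ∈ Mp k G n)
    (y : MonoidAlgebra k G) : x * y ∈ Mp k G n := by
  have : Mp k G n * ⊤ ≤ Mp k G n := by
    rw [Mp, mul_assoc]; exact mul_le_mul' le_rfl le_top
  exact this (Submodule.mul_mem_mul hx trivial)

theorem Mp_mul_left {n : ℕ} (y : MonoidAlgebra k G) {x : MonoidAlgebra k G}
    (hx : x ∈ Mp k G n) : y * x ∈ Mp k G n := by
  have : ⊤ * Mp k G n ≤ Mp k G n := by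
    cases n with
    | zero => rw [Mp_zero]; exact le_top
    | succ n => rw [Mp_succ, ← mul_assoc]; exact mul_le_mul' top_mul_aug le_rfl
  exact this (Submodule.mul_mem_mul trivial hx)

theorem Mp_mul {i j : ℕ} {x y : MonoidAlgebra k G} (hx : x ∈ Mp k G i) (hy : y ∈ Mp k G j) :
    x * y ∈ Mp k G (i + j) := by
  have h1 : ⊤ * Mp k G j ≤ Mp k G j := Submodule.mul_le.2 fun a _ b hb => Mp_mul_left a hb
  have : Mp k G i * Mp k G j ≤ Mp k G (i + j) := by
    calc Mp k G i * Mp k G j = aug k G ^ i * (⊤ * Mp k G j) := by rw [Mp, mul_assoc]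
      _ ≤ aug k G ^ i * Mp k G j := mul_le_mul' le_rfl h1
      _ = Mp k G (i + j) := by rw [Mp, Mp, pow_add, mul_assoc]
  exact this (Submodule.mul_mem_mul hx hy)

theorem Mp_anti : Antitone (Mp k G) := by
  refine antitone_nat_of_succ_le fun n => ?_
  rw [Mp_succ]
  exact Submodule.mul_le.2 fun a _ b hb => Mp_mul_left a hb

theorem sub_one_mem_Mp (g : G) : of k G g - 1 ∈ Mp k G 1 := by
  rw [Mp, pow_one, ← mul_one (of k G g - 1)]
  exact Submodule.mul_mem_mul (sub_one_mem_aug g) trivial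

theorem Mp_pow {x : MonoidAlgebra k G} (hx : x ∈ Mp k G 1) (n : ℕ) : x ^ n ∈ Mp k G n := by
  induction n with
  | zero => rw [Mp_zero]; trivial
  | succ n ih => rw [pow_succ]; exact Mp_mul ih hx

theorem Sn_mono : Monotone (Sn k G) := fun _ _ h =>
  Submodule.dualAnnihilator_anti (Mp_anti h)

theorem mem_Sn {n : ℕ} {w : Module.Dual k (MonoidAlgebra k G)} :
    w ∈ Sn k G n ↔ ∀ x ∈ Mp k G n, w x = 0 := Submodule.mem_dualAnnihilator w

theorem mem_FF {W : Submodule k (Module.Dual k (MonoidAlgebra k G))} {n : ℕ}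
    {x : MonoidAlgebra k G} : x ∈ FF W n ↔ ∀ w ∈ W ⊓ Sn k G n, w x = 0 :=
  Submodule.mem_dualCoannihilator x

theorem Mp_le_FF (W : Submodule k (Module.Dual k (MonoidAlgebra k G))) (n : ℕ) :
    Mp k G n ≤ FF W n := fun x hx => mem_FF.2 fun _ hw => mem_Sn.1 hw.2 x hx

theorem FF_anti (W : Submodule k (Module.Dual k (MonoidAlgebra k G))) : Antitone (FF W) :=
  fun _ _ h _ hx => mem_FF.2 fun w hw => mem_FF.1 hx w ⟨hw.1, Sn_mono h hw.2⟩

theorem mem_WH {W : Submodule k (Module.Dual k (MonoidAlgebra k G))} {H : Subgroup G}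
    {w : Module.Dual k (MonoidAlgebra k G)} :
    w ∈ WH W H ↔ ∀ c : G ⧸ H, w ∘ₗ res k (cs c) ∈ W := by
  simp only [WH, Submodule.mem_iInf, Submodule.mem_comap]
  rfl

end api

end Pool.Agent.P.MP_7cb106_nt.Q2
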