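import Pool.Agent.P.MP_7cb106_nt.Q2.IfaceC

/-! Proofs of the steps FNAK NAK PWN PE1 PE2 GM0 GMS PFA COM POW SURJ FIN INJ UFA. -/

set_option autoImplicit false

namespace Pool.Agent.P.MP_7cb106_nt.Q2

section
open Filter MonoidAlgebra

theorem fnak_one (p : ℕ) [Fact p.Prime] (Q : Type) [Group Q] [Finite Q] (hQ : IsPGroup p Q)
    (H N : Subgroup Q) [N.Normal] (hc : ⁅H, ⊤⁆ ≤ N)
    (h : H ≤ N ⊔ Subgroup.closure ((fun x : Q => x ^ p) '' (H : Set Q))) : H ≤ N := by
  let f := QuotientGroup.mk' N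
  have comm : ∀ x ∈ H, ∀ g, Commute (f x) (f g) := fun x hx g => by
    rw [← commutatorElement_eq_one_iff_commute, ← map_commutatorElement]
    exact (QuotientGroup.eq_one_iff _).2
      (hc (Subgroup.commutator_mem_commutator hx (Subgroup.mem_top g)))
  let S : Subgroup Q :=
    { carrier := {q | ∃ x ∈ H, f q = f x ^ p}
      one_mem' := ⟨1, H.one_mem, by simp⟩
      mul_mem' := by
        rintro a b ⟨x, hx, ha⟩ ⟨y, hy, hb⟩
        exact ⟨x * y, H.mul_mem hx hy, by rw [map_mul, map_mul, ha, hb, (comm x hx y).mul_pow]⟩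
      inv_mem' := by
        rintro a ⟨x, hx, ha⟩
        exact ⟨x⁻¹, H.inv_mem hx, by rw [map_inv, map_inv, ha, inv_pow]⟩ }
  have hS : H ≤ S := h.trans (sup_le
    (fun q hq => ⟨1, H.one_mem, by
      rw [map_one, one_pow]; exact (QuotientGroup.eq_one_iff _).2 hq⟩)
    ((Subgroup.closure_le S).2 (by
      rintro _ ⟨x, hx, rfl⟩
      exact ⟨x, hx, map_pow f x p⟩)))
  have key : ∀ n : ℕ, ∀ q ∈ H, ∃ x ∈ H, f q = f x ^ p ^ n := by
    intro n
    induction n with
    | zero => exact fun q hq => ⟨q, hq, by simp⟩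
    | succ n ih =>
      intro q hq
      obtain ⟨x, hx, e⟩ := ih q hq
      obtain ⟨y, hy, e'⟩ := hS hx
      exact ⟨y, hy, by rw [e, e', ← pow_mul, pow_succ']⟩
  obtain ⟨n, hn⟩ := IsPGroup.iff_card.1 hQ
  intro q hq
  obtain ⟨x, -, e⟩ := key n q hq
  rw [← map_pow, ← hn, pow_card_eq_one', map_one] at e
  exact (QuotientGroup.eq_one_iff _).1 e

theorem p_FNAK :
    S_FNAK := by
  intro p _ Q _ _ hQ H M hH hM h
  have h1 : H ≤ M ⊔ ⁅H, ⊤⁆ := fnak_one p Q hQ H _ le_sup_right h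
  let f := QuotientGroup.mk' M
  have h2 : H.map f ≤ ⁅H.map f, ⊤⁆ := by
    refine (Subgroup.map_mono h1).trans ?_
    rw [Subgroup.map_sup, Subgroup.map_commutator]
    refine sup_le ?_ (Subgroup.commutator_mono le_rfl le_top)
    rw [QuotientGroup.map_mk'_self]
    exact bot_le
  have h3 : ∀ n, H.map f ≤ (⊤ : Subgroup (Q ⧸ M)).lowerCentralSeries n := by
    intro n
    induction n with
    | zero => exact le_top
    | succ n ih => exact h2.trans (Subgroup.commutator_mono ih le_rfl)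
  have := (hQ.to_quotient M).isNilpotent
  obtain ⟨n, hn⟩ := Subgroup.nilpotent_iff_lowerCentralSeries.1 this
  have h4 := h3 n
  rw [hn, le_bot_iff, Subgroup.map_eq_bot_iff, QuotientGroup.ker_mk'] at h4
  exact h4

end

section
open Filter MonoidAlgebra

theorem p_NAK (hFNAK : S_FNAK) :
    S_NAK := by
  intro p _ G _ _ _ _ _ _ hP H M hH hM hc hle x hx
  by_contra hxM
  obtain ⟨U, hU⟩ := ProfiniteGrp.exist_openNormalSubgroup_sub_open_nhds_of_one
    (U := (fun g => x * g) ⁻¹' (M : Set G)ᶜ) (hc.isOpen_compl.preimage (by fun_prop))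
    (by simpa using hxM)
  have hfin : Finite (G ⧸ U.toSubgroup) := Subgroup.quotient_finite_of_isOpen _ U.isOpen
  have hs : Function.Surjective (QuotientGroup.mk' U.toSubgroup) := QuotientGroup.mk'_surjective _
  have h1 := hFNAK p (G ⧸ U.toSubgroup) (hP U) (H.map (QuotientGroup.mk' U.toSubgroup))
    (M.map (QuotientGroup.mk' U.toSubgroup)) (hH.map _ hs) (hM.map _ hs) (by
      refine Subgroup.map_le_iff_le_comap.2 (hle.trans (Subgroup.topologicalClosure_minimal _ ?_ ?_))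
      · refine sup_le (sup_le ?_ ?_) ?_
        · exact Subgroup.map_le_iff_le_comap.1 (le_sup_of_le_left le_sup_left)
        · refine Subgroup.map_le_iff_le_comap.1 (le_sup_of_le_left (le_sup_of_le_right ?_))
          rw [Subgroup.map_commutator]
          exact Subgroup.commutator_mono le_rfl le_top
        · rw [Subgroup.closure_le]
          rintro _ ⟨y, hy, rfl⟩
          refine Subgroup.mem_sup_right (Subgroup.subset_closure ⟨_, ⟨y, hy, rfl⟩, ?_⟩)
          exact (map_pow _ y p).symm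
      · refine Subgroup.isClosed_of_isOpen _ (Subgroup.isOpen_mono (H₁ := U.toSubgroup) ?_ U.isOpen)
        intro g hg
        rw [Subgroup.mem_comap, QuotientGroup.mk'_apply, (QuotientGroup.eq_one_iff g).2 hg]
        exact one_mem _)
  obtain ⟨m, hm, e⟩ := h1 ⟨x, hx, rfl⟩
  have h2 : x⁻¹ * m ∈ U.toSubgroup := QuotientGroup.eq.1 e.symm
  apply hU h2
  simpa using hm

end

section
open Filter MonoidAlgebra

theorem p_PWN :
    S_PWN := by
  intro p G _ _ _ H hH
  have h : (Subgroup.closure ((fun x : G => x ^ p) '' (H : Set G))).Normal := by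
    refine ⟨fun n hn g => ?_⟩
    induction hn using Subgroup.closure_induction with
    | mem x hx =>
      obtain ⟨y, hy, rfl⟩ := hx
      exact Subgroup.subset_closure ⟨g * y * g⁻¹, hH.conj_mem y hy g, conj_pow⟩
    | one => simpa using one_mem _
    | mul x y _ _ hx hy =>
      rw [show g * (x * y) * g⁻¹ = g * x * g⁻¹ * (g * y * g⁻¹) by group]
      exact mul_mem hx hy
    | inv x _ hx =>
      rw [show g * x⁻¹ * g⁻¹ = (g * x * g⁻¹)⁻¹ by group]
      exact inv_mem hx
  exact ⟨Subgroup.is_normal_topologicalClosure _, h⟩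

end

section
open Filter MonoidAlgebra

theorem pe1_a {Q : Type} [Group Q] {x c d : Q} (h : c * x = x * c * d) (hd : ∀ y, Commute d y)
    (n : ℕ) : c ^ n * x = x * c ^ n * d ^ n := by
  induction n with
  | zero => simp
  | succ n ih =>
    calc c ^ (n + 1) * x = c ^ n * (c * x) := by rw [pow_succ, mul_assoc]
      _ = c ^ n * x * c * d := by rw [h]; simp only [mul_assoc]
      _ = x * c ^ n * (d ^ n * c) * d := by rw [ih]; simp only [mul_assoc]
      _ = x * c ^ (n + 1) * d ^ (n + 1) := by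
        rw [((hd c).pow_left n).eq, pow_succ, pow_succ]; simp only [mul_assoc]

theorem pe1_b {Q : Type} [Group Q] {x c d : Q} (h : c * x = x * c * d) (hd : ∀ y, Commute d y)
    (n : ℕ) : (x * c) ^ n = x ^ n * c ^ n * d ^ n.choose 2 := by
  induction n with
  | zero => simp
  | succ n ih =>
    have e : (n + 1).choose 2 = n + n.choose 2 := by
      rw [Nat.choose_succ_succ, Nat.choose_one_right]
    calc (x * c) ^ (n + 1) = x ^ n * c ^ n * (d ^ n.choose 2 * (x * c)) := by
          rw [pow_succ, ih]; simp only [mul_assoc]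
      _ = x ^ n * (c ^ n * x) * c * d ^ n.choose 2 := by
          rw [((hd (x * c)).pow_left _).eq]; simp only [mul_assoc]
      _ = x ^ n * x * c ^ n * (d ^ n * c) * d ^ n.choose 2 := by
          rw [pe1_a h hd]; simp only [mul_assoc]
      _ = x ^ (n + 1) * c ^ (n + 1) * d ^ (n + 1).choose 2 := by
          rw [((hd c).pow_left n).eq, e, pow_add d, pow_succ, pow_succ]; simp only [mul_assoc]

open scoped commutatorElement in
theorem pe1_c {Q : Type} [Group Q] {p : ℕ} (hp : p ∣ p.choose 2) {x g : Q}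
    (hc : ⁅x⁻¹, g⁆ ^ p = 1) (hd : ∀ y, Commute ⁅⁅x⁻¹, g⁆⁻¹, x⁻¹⁆ y)
    (hd' : ⁅⁅x⁻¹, g⁆⁻¹, x⁻¹⁆ ^ p = 1) : g * x ^ p = x ^ p * g := by
  have h := pe1_b (x := x) (c := ⁅x⁻¹, g⁆) (by
    generalize ⁅x⁻¹, g⁆ = c
    rw [commutatorElement_def]; group) hd p
  obtain ⟨m, hm⟩ := hp
  rw [hm, pow_mul, hd', hc, one_pow, mul_one, mul_one,
    show x * ⁅x⁻¹, g⁆ = g * x * g⁻¹ by rw [commutatorElement_def]; group, conj_pow] at h
  exact mul_inv_eq_iff_eq_mul.1 h

theorem pe1_pow {p : ℕ} {G : Type} [Group G] {H : Subgroup G} {x : G} (hx : x ∈ H) :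
    x ^ p ∈ Subgroup.closure ((fun x : G => x ^ p) '' (H : Set G)) :=
  Subgroup.subset_closure ⟨x, hx, rfl⟩

open scoped commutatorElement in
theorem p_PE1 (hNAK : S_NAK) (hPWN : S_PWN) :
    S_PE1 := by
  intro p hp G _ _ _ _ _ _ hG h2 H hH hc
  have nM := (hPWN p G H hH).1
  have nP := (hPWN p G _ nM).1
  have nN : (⁅Pw p H, (⊤ : Subgroup G)⁆ : Subgroup G).Normal := inferInstance
  have nC := (hPWN p G _ nN).2
  refine hNAK p G hG _ _ nN nP (Subgroup.isClosed_topologicalClosure _) ?_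
  have cK := Subgroup.isClosed_topologicalClosure (Pw p (Pw p H) ⊔ ⁅⁅Pw p H, (⊤ : Subgroup G)⁆, (⊤ : Subgroup G)⁆ ⊔
    Subgroup.closure ((fun x : G => x ^ p) '' ((⁅Pw p H, (⊤ : Subgroup G)⁆ : Subgroup G) : Set G)))
  have lK := Subgroup.le_topologicalClosure (Pw p (Pw p H) ⊔ ⁅⁅Pw p H, (⊤ : Subgroup G)⁆, (⊤ : Subgroup G)⁆ ⊔
    Subgroup.closure ((fun x : G => x ^ p) '' ((⁅Pw p H, (⊤ : Subgroup G)⁆ : Subgroup G) : Set G)))
  have nK := Subgroup.is_normal_topologicalClosure (Pw p (Pw p H) ⊔ ⁅⁅Pw p H, (⊤ : Subgroup G)⁆, (⊤ : Subgroup G)⁆ ⊔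
    Subgroup.closure ((fun x : G => x ^ p) '' ((⁅Pw p H, (⊤ : Subgroup G)⁆ : Subgroup G) : Set G)))
  generalize Subgroup.topologicalClosure (Pw p (Pw p H) ⊔ ⁅⁅Pw p H, (⊤ : Subgroup G)⁆, (⊤ : Subgroup G)⁆ ⊔
    Subgroup.closure ((fun x : G => x ^ p) '' ((⁅Pw p H, (⊤ : Subgroup G)⁆ : Subgroup G) : Set G))) = K
    at cK lK nK ⊢
  rw [sup_le_iff, sup_le_iff] at lK
  obtain ⟨⟨l1, l2⟩, l3⟩ := lK
  have mem : ∀ x, x ∈ (Subgroup.center (G ⧸ K)).comap (QuotientGroup.mk' K) ↔
      ∀ g, ⁅x, g⁆ ∈ K := fun x => by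
    rw [Subgroup.mem_comap, Subgroup.mem_center_iff, (QuotientGroup.mk'_surjective K).forall]
    refine forall_congr' fun g => ?_
    rw [← QuotientGroup.eq_one_iff, ← QuotientGroup.mk'_apply, map_commutatorElement,
      commutatorElement_eq_one_iff_mul_comm, eq_comm]
  have key : Pw p H ≤ (Subgroup.center (G ⧸ K)).comap (QuotientGroup.mk' K) := by
    refine Subgroup.topologicalClosure_minimal _ ((Subgroup.closure_le _).2 ?_) ?_
    · rintro _ ⟨x, hx, rfl⟩
      refine Subgroup.mem_comap.2 (Subgroup.mem_center_iff.2 fun q => ?_)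
      obtain ⟨g, rfl⟩ := QuotientGroup.mk'_surjective K q
      have c1 : ⁅x⁻¹, g⁆ ∈ Pw p H :=
        hc (Subgroup.commutator_mem_commutator (H.inv_mem hx) (Subgroup.mem_top g))
      have d1 : ⁅⁅x⁻¹, g⁆⁻¹, x⁻¹⁆ ∈ (⁅Pw p H, (⊤ : Subgroup G)⁆ : Subgroup G) :=
        Subgroup.commutator_mem_commutator (inv_mem c1) (Subgroup.mem_top _)
      have one : ∀ y ∈ K, QuotientGroup.mk' K y = 1 := fun y hy => (QuotientGroup.eq_one_iff y).2 hy
      rw [map_pow]
      refine pe1_c (hp.1.dvd_choose_self two_ne_zero (lt_of_le_of_ne hp.1.two_le h2.symm)) ?_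
        (fun y => ?_) ?_
      · simpa only [map_pow, map_commutatorElement, map_inv] using
          one _ (l1 (Subgroup.le_topologicalClosure _ (pe1_pow c1)))
      · have := (mem _).2 fun g => l2 (Subgroup.commutator_mem_commutator d1 (Subgroup.mem_top g))
        simpa only [map_commutatorElement, map_inv, commute_iff_eq] using
          (Subgroup.mem_center_iff.1 (Subgroup.mem_comap.1 this) y).symm
      · simpa only [map_pow, map_commutatorElement, map_inv] using one _ (l3 (pe1_pow d1))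
    · have e : (((Subgroup.center (G ⧸ K)).comap (QuotientGroup.mk' K) : Subgroup G) : Set G) =
          ⋂ g, (fun x => x * g * x⁻¹ * g⁻¹) ⁻¹' (K : Set G) := Set.ext fun x => by
        rw [Set.mem_iInter]; exact mem x
      rw [e]
      exact isClosed_iInter fun g => cK.preimage (by fun_prop)
  exact Subgroup.commutator_le.2 fun x hx g _ => (mem x).1 (key hx) g

end

section
open Filter MonoidAlgebra

open scoped commutatorElement in
lemma pe2_cen {G : Type} [Group G] [TopologicalSpace G] [IsTopologicalGroup G] (K H : Subgroup G)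
    [K.Normal] (hK : IsClosed (K : Set G))
    (h : ∀ x ∈ H, ∀ g, ⁅⁅x, g⁆, x⁆ ∈ K ∧ ⁅x, g⁆ ^ 2 ∈ K) : ∀ y ∈ Pw 2 H, ∀ g, ⁅y, g⁆ ∈ K := by
  have e : ∀ y : G, y ∈ (Subgroup.center (G ⧸ K)).comap (QuotientGroup.mk' K) ↔
      ∀ g, ⁅y, g⁆ ∈ K := fun y => by
    rw [Subgroup.mem_comap, Subgroup.mem_center_iff]
    simp only [← QuotientGroup.eq_one_iff (N := K)]
    refine ⟨fun a g => ?_, fun a g => ?_⟩
    · change QuotientGroup.mk' K ⁅y, g⁆ = 1
      rw [map_commutatorElement, commutatorElement_eq_one_iff_mul_comm, a]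
    · obtain ⟨g, rfl⟩ := QuotientGroup.mk'_surjective K g
      have : QuotientGroup.mk' K ⁅y, g⁆ = 1 := a g
      rw [map_commutatorElement, commutatorElement_eq_one_iff_mul_comm] at this
      exact this.symm
  intro y hy
  refine (e y).1 (Subgroup.topologicalClosure_minimal _ ((Subgroup.closure_le _).2 ?_) ?_ hy)
  · rintro _ ⟨x, hx, rfl⟩
    refine (e _).2 fun g => ?_
    convert K.mul_mem (K.inv_mem (h x hx g).1) (h x hx g).2 using 1
    simp only [commutatorElement_def, sq, mul_inv_rev, inv_inv, mul_assoc, inv_mul_cancel_left,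
      mul_inv_cancel_left]
  · rw [show ((Subgroup.center (G ⧸ K)).comap (QuotientGroup.mk' K) : Set G) =
      ⋂ g, (fun y => y * g * y⁻¹ * g⁻¹) ⁻¹' K from Set.ext fun y => (e y).trans (by
        simp [commutatorElement_def])]
    exact isClosed_iInter fun g => hK.preimage (by fun_prop)

theorem p_PE2 (hNAK : S_NAK) (hPWN : S_PWN) :
    S_PE2 := by
  intro G _ _ _ _ _ _ hP H hH h
  have n1 := (hPWN 2 G H hH).1
  have n2 := (hPWN 2 G _ n1).1
  have n3 := (hPWN 2 G _ n2).1
  have n4 := (hPWN 2 G ⁅Pw 2 H, (⊤ : Subgroup G)⁆ inferInstance).2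
  refine hNAK 2 G hP _ _ inferInstance n3 (Subgroup.isClosed_topologicalClosure _) ?_
  set K0 := Pw 2 (Pw 2 (Pw 2 H)) ⊔ ⁅⁅Pw 2 H, (⊤ : Subgroup G)⁆, (⊤ : Subgroup G)⁆ ⊔
    Subgroup.closure ((fun x : G => x ^ 2) '' ((⁅Pw 2 H, (⊤ : Subgroup G)⁆ : Subgroup G) : Set G)) with hK0
  have n5 : K0.Normal := inferInstance
  have n6 := Subgroup.is_normal_topologicalClosure K0
  have hc := Subgroup.isClosed_topologicalClosure K0
  have hl := Subgroup.le_topologicalClosure K0
  have s1 := pe2_cen _ (Pw 2 H) hc fun x hx g => by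
    have m := Subgroup.commutator_mem_commutator hx (Subgroup.mem_top g)
    exact ⟨hl (Subgroup.mem_sup_left (Subgroup.mem_sup_right
      (Subgroup.commutator_mem_commutator m (Subgroup.mem_top x)))),
      hl (Subgroup.mem_sup_right (Subgroup.subset_closure ⟨_, m, rfl⟩))⟩
  have s2 := pe2_cen _ H hc fun x hx g => by
    have m := h (Subgroup.commutator_mem_commutator hx (Subgroup.mem_top g))
    exact ⟨s1 _ m x, hl (Subgroup.mem_sup_left (Subgroup.mem_sup_left
      (Subgroup.le_topologicalClosure _ (Subgroup.subset_closure ⟨_, m, rfl⟩))))⟩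
  exact Subgroup.commutator_le.2 fun y hy g _ => s2 y hy g

end

section
open Filter MonoidAlgebra

theorem gm0_le (p : ℕ) {G : Type} [Group G] [TopologicalSpace G] [IsTopologicalGroup G]
    (H : Subgroup G) (hH : IsClosed (H : Set G)) : Pw p H ≤ H := by
  refine Subgroup.topologicalClosure_minimal _ ?_ hH
  rw [Subgroup.closure_le]
  rintro _ ⟨x, hx, rfl⟩
  exact H.pow_mem hx p

theorem gm0_pow (p : ℕ) {G : Type} [Group G] [TopologicalSpace G] [IsTopologicalGroup G]
    (H : Subgroup G) (x : G) (hx : x ∈ H) : x ^ p ∈ Pw p H :=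
  Subgroup.le_topologicalClosure _ (Subgroup.subset_closure ⟨x, hx, rfl⟩)

theorem gm0_closed (p : ℕ) (G : Type) [Group G] [TopologicalSpace G] [IsTopologicalGroup G]
    (r : ℕ) : IsClosed (Gm p G r : Set G) := by
  cases r with
  | zero => exact isClosed_univ
  | succ r => exact Subgroup.isClosed_topologicalClosure _

theorem p_GM0 (hPWN : S_PWN) :
    S_GM0 := by
  intro p G _ _ _ r
  refine ⟨?_, gm0_closed p G r, gm0_le p _ (gm0_closed p G r), fun x hx => gm0_pow p _ x hx⟩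
  induction r with
  | zero => exact (inferInstance : (⊤ : Subgroup G).Normal)
  | succ r ih => exact (hPWN p G _ ih).1

end

section
open Filter MonoidAlgebra

theorem p_GMS (hFNAK : S_FNAK) (hGM0 : S_GM0) :
    S_GMS := by
  intro p _ G _ _ _ _ _ _ hP
  have h1 : ∀ U : OpenNormalSubgroup G, ∃ r, Gm p G r ≤ U.toSubgroup := fun U => by
    have : Finite (G ⧸ U.toSubgroup) := Subgroup.quotient_finite_of_isOpen _ U.isOpen
    let π := QuotientGroup.mk' U.toSubgroup
    have ha : Antitone fun r => (Gm p G r).map π :=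
      antitone_nat_of_succ_le fun r => Subgroup.map_mono (hGM0 p G r).2.2.1
    obtain ⟨r, hr⟩ := WellFoundedLT.antitone_chain_condition ha
    refine ⟨r, ?_⟩
    have hn : ((Gm p G r).map π).Normal :=
      (hGM0 p G r).1.map π (QuotientGroup.mk'_surjective _)
    have hle : (Gm p G r).map π ≤
        Subgroup.closure ((fun x => x ^ p) '' ((Gm p G r).map π : Set (G ⧸ U.toSubgroup))) := by
      refine (hr (r + 1) r.le_succ).le.trans (Subgroup.map_le_iff_le_comap.2 ?_)
      refine Subgroup.topologicalClosure_minimal _ ((Subgroup.closure_le _).2 ?_) ?_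
      · rintro _ ⟨x, hx, rfl⟩
        exact Subgroup.subset_closure ⟨π x, ⟨x, hx, rfl⟩, (map_pow π x p).symm⟩
      · refine Subgroup.isClosed_of_isOpen _ (Subgroup.isOpen_mono (fun x hx => ?_) U.isOpen)
        rw [Subgroup.mem_comap, show π x = 1 from (QuotientGroup.eq_one_iff x).2 hx]
        exact Subgroup.one_mem _
    have := hFNAK p _ (hP U) _ ⊥ hn inferInstance (hle.trans le_sup_right)
    intro x hx
    exact (QuotientGroup.eq_one_iff x).1 (Subgroup.mem_bot.1 (this ⟨x, hx, rfl⟩))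
  refine ⟨h1, fun x hx => by_contra fun hne => ?_⟩
  obtain ⟨U, hU⟩ := ProfiniteGrp.exist_openNormalSubgroup_sub_open_nhds_of_one
    (isOpen_compl_singleton (x := x)) (Set.mem_compl_singleton_iff.2 fun a => hne a.symm)
  obtain ⟨r, hr⟩ := h1 U
  exact hU (hr (hx r)) rfl

end

section
open Filter MonoidAlgebra

theorem p_PFA (hGM0 : S_GM0) (hPE1 : S_PE1) (hPE2 : S_PE2) (hGMS : S_GMS) :
    S_PFA := by
  intro p hp G _ _ _ _ _ _ hP hc
  have key : ∀ c : ℕ, 1 ≤ c → 2 ≤ (p - 1) * c → (∀ r, ⁅Gm p G r, ⊤⁆ ≤ Gm p G (r + c)) →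
      PF p c (Gm p G) := fun c h1 h2 h3 =>
    { c1 := h1
      c2 := h2
      top := rfl
      anti := antitone_nat_of_succ_le fun r => (hGM0 p G r).2.2.1
      normal := fun r => (hGM0 p G r).1
      closed := fun r => (hGM0 p G r).2.1
      succ := fun _ => rfl
      pow_mem := fun r x hx => (hGM0 p G r).2.2.2 x hx
      com1 := fun r x g hx => by
        have := h3 r (Subgroup.commutator_mem_commutator hx (Subgroup.mem_top g))
        rwa [commutatorElement_def] at this
      sep := (hGMS p G hP).2 }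
  by_cases h2 : p = 2
  · subst h2
    refine ⟨2, key 2 (by norm_num) (by norm_num) fun r => ?_⟩
    induction r with
    | zero =>
      refine le_trans hc ?_
      refine Subgroup.topologicalClosure_minimal _ ?_ (hGM0 2 G 2).2.1
      rw [Subgroup.closure_le]
      rintro _ ⟨x, rfl⟩
      have h1 : x ^ 2 ∈ Gm 2 G 1 := (hGM0 2 G 0).2.2.2 x (Subgroup.mem_top x)
      have h3 := (hGM0 2 G 1).2.2.2 _ h1
      rw [← pow_mul] at h3
      simpa using h3
    | succ r ih =>
      have := hPE2 G hP (Gm 2 G r) (hGM0 2 G r).1 ih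
      have e : r + 1 + 2 = r + 2 + 1 := by ring
      rw [e]
      exact this
  · have h3 : 2 ≤ p := hp.out.two_le
    refine ⟨1, key 1 le_rfl (by omega) fun r => ?_⟩
    induction r with
    | zero =>
      refine le_trans hc ?_
      refine Subgroup.topologicalClosure_minimal _ ?_ (hGM0 p G 1).2.1
      rw [Subgroup.closure_le]
      rintro _ ⟨x, rfl⟩
      have h1 : x ^ p ∈ Gm p G 1 := (hGM0 p G 0).2.2.2 x (Subgroup.mem_top x)
      simpa [h2] using h1
    | succ r ih => exact hPE1 p G hP h2 (Gm p G r) (hGM0 p G r).1 ih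

end

section
open Filter MonoidAlgebra

/-- the elements that commute with `x` modulo `K` -/
def com_H {G : Type} [Group G] (K : Subgroup G) [hK : K.Normal] (x : G) : Subgroup G where
  carrier := {y | x * y * x⁻¹ * y⁻¹ ∈ K}
  one_mem' := by simp
  mul_mem' := by
    intro y z hy hz
    have e : x * (y * z) * x⁻¹ * (y * z)⁻¹ =
        (x * y * x⁻¹ * y⁻¹) * (y * (x * z * x⁻¹ * z⁻¹) * y⁻¹) := by group
    show x * (y * z) * x⁻¹ * (y * z)⁻¹ ∈ K
    rw [e]
    exact K.mul_mem hy (hK.conj_mem _ hz y)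
  inv_mem' := by
    intro y hy
    have e : x * y⁻¹ * x⁻¹ * y⁻¹⁻¹ = y⁻¹ * (x * y * x⁻¹ * y⁻¹)⁻¹ * y⁻¹⁻¹ := by group
    show x * y⁻¹ * x⁻¹ * y⁻¹⁻¹ ∈ K
    rw [e]
    exact hK.conj_mem _ (K.inv_mem hy) y⁻¹

theorem com_pow {Q : Type} [Group Q] (x y : Q) (n : ℕ)
    (h : Commute (x * y * x⁻¹ * y⁻¹) y) :
    x * y ^ n * x⁻¹ * (y ^ n)⁻¹ = (x * y * x⁻¹ * y⁻¹) ^ n := by
  have e1 : x * y ^ n * x⁻¹ = (x * y * x⁻¹) ^ n := (conj_pow ..).symm
  have e2 : x * y * x⁻¹ = (x * y * x⁻¹ * y⁻¹) * y := by group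
  rw [e1]
  conv_lhs => rw [e2, h.mul_pow]
  group

theorem p_COM :
    S_COM := by
  intro p c G _ _ _ Γ h r s
  induction s with
  | zero => intro x y hx _; simpa using h.com1 r x y hx
  | succ s ih =>
    intro x y hx hy
    have := h.normal (r + (s + 1) + c)
    have hcl : IsClosed (com_H (Γ (r + (s + 1) + c)) x : Set G) := by
      have : (com_H (Γ (r + (s + 1) + c)) x : Set G) =
          (fun y : G => x * y * x⁻¹ * y⁻¹) ⁻¹' (Γ (r + (s + 1) + c) : Set G) := rfl
      rw [this]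
      exact (h.closed _).preimage (by fun_prop)
    have hle : Γ (s + 1) ≤ com_H (Γ (r + (s + 1) + c)) x := by
      rw [h.succ s, Pw]
      refine Subgroup.topologicalClosure_minimal _ ?_ hcl
      rw [Subgroup.closure_le]
      rintro _ ⟨z, hz, rfl⟩
      have hw : x * z * x⁻¹ * z⁻¹ ∈ Γ (r + s + c) := ih x z hx hz
      show x * z ^ p * x⁻¹ * (z ^ p)⁻¹ ∈ Γ (r + (s + 1) + c)
      rw [← QuotientGroup.eq_one_iff]
      have hc : Commute
          (((x * z * x⁻¹ * z⁻¹ : G) : G ⧸ Γ (r + (s + 1) + c))) (z : G ⧸ Γ (r + (s + 1) + c)) := by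
        have h1 : (x * z * x⁻¹ * z⁻¹) * z * (x * z * x⁻¹ * z⁻¹)⁻¹ * z⁻¹ ∈ Γ (r + (s + 1) + c) :=
          h.anti (by have := h.c1; omega) (h.com1 _ _ z hw)
        rw [← QuotientGroup.eq_one_iff] at h1
        rw [← commutatorElement_eq_one_iff_commute, commutatorElement_def]
        simpa using h1
      have h2 : (x * z * x⁻¹ * z⁻¹) ^ p ∈ Γ (r + (s + 1) + c) := by
        have := h.pow_mem _ _ hw
        rwa [show r + s + c + 1 = r + (s + 1) + c by omega] at this
      rw [← QuotientGroup.eq_one_iff] at h2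
      have h3 := com_pow (x : G ⧸ Γ (r + (s + 1) + c)) (z : G ⧸ Γ (r + (s + 1) + c)) p
        (by simpa using hc)
      simp only [QuotientGroup.mk_mul, QuotientGroup.mk_inv, QuotientGroup.mk_pow] at h2 ⊢
      rw [h3, h2]
    exact hle hy

end

section
open Filter MonoidAlgebra

theorem pow_swap {Q : Type} [Group Q] (a b d : Q) (h : b * a = a * b * d)
    (hb : Commute d b) (n : ℕ) : b ^ n * a = a * b ^ n * d ^ n := by
  induction n with
  | zero => simp
  | succ n ih =>
    have h1 : d ^ n * b = b * d ^ n := (hb.pow_left n).eq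
    have h2 : d * b ^ n = b ^ n * d := (hb.pow_right n).eq
    calc b ^ (n + 1) * a = b * (b ^ n * a) := by rw [pow_succ', mul_assoc]
      _ = (b * a) * b ^ n * d ^ n := by rw [ih]; simp only [mul_assoc]
      _ = a * b * (d * b ^ n) * d ^ n := by rw [h]; simp only [mul_assoc]
      _ = a * b ^ (n + 1) * d ^ (n + 1) := by
        rw [h2, pow_succ' b, pow_succ' d]; simp only [mul_assoc]

theorem pow_prod {Q : Type} [Group Q] (a b d : Q) (h : b * a = a * b * d)
    (ha : Commute d a) (hb : Commute d b) (n : ℕ) :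
    (a * b) ^ n = a ^ n * b ^ n * d ^ (n.choose 2) := by
  induction n with
  | zero => simp
  | succ n ih =>
    have hc : (n + 1).choose 2 = n + n.choose 2 := by
      rw [Nat.choose_succ_succ' n 1, Nat.choose_one_right]
    have h1 : d ^ (n.choose 2) * (a * b) = (a * b) * d ^ (n.choose 2) :=
      ((ha.mul_right hb).pow_left _).eq
    have h2 : d ^ n * b = b * d ^ n := (hb.pow_left n).eq
    calc (a * b) ^ (n + 1) = a ^ n * b ^ n * (d ^ (n.choose 2) * (a * b)) := by
          rw [pow_succ, ih]; simp only [mul_assoc]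
      _ = a ^ n * (b ^ n * a) * b * d ^ (n.choose 2) := by rw [h1]; simp only [mul_assoc]
      _ = a ^ n * a * b ^ n * (d ^ n * b) * d ^ (n.choose 2) := by
          rw [pow_swap a b d h hb n]; simp only [mul_assoc]
      _ = a ^ (n + 1) * b ^ (n + 1) * d ^ ((n + 1).choose 2) := by
          rw [h2, hc, pow_add d, pow_succ a, pow_succ b]; simp only [mul_assoc]

theorem p_POW :
    S_POW := by
  intro p c hp G _ _ _ Γ hP hC r s x y hx hy
  have hpp : p.Prime := hp.out
  have hN : (Γ (r + s + 2)).Normal := hP.normal _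
  have hD : y⁻¹ * x⁻¹ * y * x ∈ Γ (s + r + c) := by
    have := hC s r y⁻¹ x⁻¹ ((Γ s).inv_mem hy) ((Γ r).inv_mem hx)
    simpa using this
  have hc1 := hP.c1
  have hD1 : y⁻¹ * x⁻¹ * y * x ∈ Γ (r + s + 1) := hP.anti (by omega) hD
  set D := y⁻¹ * x⁻¹ * y * x with hDdef
  let π : G →* G ⧸ Γ (r + s + 2) := QuotientGroup.mk' _
  have hker : ∀ g, π g = 1 ↔ g ∈ Γ (r + s + 2) := fun g => by
    simp only [π, QuotientGroup.mk'_apply, QuotientGroup.eq_one_iff]
  have hcen : ∀ g, Commute (π D) (π g) := fun g => by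
    have h1 : D * g * D⁻¹ * g⁻¹ ∈ Γ (r + s + 2) :=
      hP.anti (by omega) (hP.com1 _ D g hD1)
    have h2 := (hker _).2 h1
    simp only [map_mul, map_inv] at h2
    have h3 : π D * π g = (π D * π g * (π D)⁻¹ * (π g)⁻¹) * (π g * π D) := by group
    show π D * π g = π g * π D
    rw [h3, h2, one_mul]
  have hsw : π y * π x = π x * π y * π D := by
    rw [← map_mul, ← map_mul, ← map_mul, hDdef]
    congr 1
    group
  have hch : π D ^ (p.choose 2) = 1 := by
    by_cases h2 : 2 ≤ c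
    · have : π D = 1 := (hker _).2 (hP.anti (by omega) hD)
      rw [this, one_pow]
    · have hc : c = 1 := by omega
      have hc2 := hP.c2
      rw [hc, mul_one] at hc2
      have hdv : p ∣ p.choose 2 := hpp.dvd_choose_self (by omega) (by omega)
      obtain ⟨k, hk⟩ := hdv
      have hp1 : π D ^ p = 1 := by
        rw [← map_pow]
        exact (hker _).2 (hP.pow_mem _ D hD1)
      rw [hk, pow_mul, hp1, one_pow]
  have hmain := pow_prod (π x) (π y) (π D) hsw (hcen x) (hcen y) p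
  rw [hch, mul_one] at hmain
  refine (hker _).1 ?_
  simp only [map_mul, map_inv, map_pow]
  rw [hmain, inv_mul_cancel]

end

section
open Filter MonoidAlgebra

theorem surj_one {p c : ℕ} {G : Type} [Group G] [TopologicalSpace G] [IsTopologicalGroup G]
    [CompactSpace G] [T2Space G] {Γ : ℕ → Subgroup G} (h : PF p c Γ) (hm : PwM p Γ) (r : ℕ)
    {g : G} (hg : g ∈ Γ (r + 1)) : ∃ x ∈ Γ r, (x ^ p)⁻¹ * g ∈ Γ (r + 2) := by
  let K : Subgroup G :=
    { carrier := {g | ∃ x ∈ Γ r, (x ^ p)⁻¹ * g ∈ Γ (r + 2)}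
      one_mem' := ⟨1, one_mem _, by simp⟩
      mul_mem' := by
        rintro a b ⟨x, hx, ha⟩ ⟨y, hy, hb⟩
        refine ⟨x * y, mul_mem hx hy, ?_⟩
        have := mul_mem (mul_mem (inv_mem (h.anti (show r + 2 ≤ r + r + 2 by omega)
          (hm r r x y hx hy))) ((h.normal _).conj_mem _ ha (y ^ p)⁻¹)) hb
        simpa [mul_assoc] using this
      inv_mem' := by
        rintro a ⟨x, hx, ha⟩
        refine ⟨x⁻¹, inv_mem hx, ?_⟩
        simpa [mul_assoc] using (h.normal _).conj_mem _ (inv_mem ha) (x ^ p) }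
  have hK : IsClosed (K : Set G) := by
    have e : (K : Set G) = (fun z : G × G => z.1 ^ p * z.2) '' (Γ r ×ˢ Γ (r + 2)) := by
      ext a
      refine ⟨fun ⟨x, hx, ha⟩ => ⟨(x, _), ⟨hx, ha⟩, by simp⟩, ?_⟩
      rintro ⟨⟨x, z⟩, ⟨hx, hz⟩, rfl⟩
      exact ⟨x, hx, by simpa using hz⟩
    rw [e]
    exact (((h.closed r).isCompact.prod (h.closed _).isCompact).image (by fun_prop)).isClosed
  rw [h.succ] at hg
  refine Subgroup.topologicalClosure_minimal _ ((Subgroup.closure_le K).2 ?_) hK hg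
  rintro _ ⟨x, hx, rfl⟩
  exact ⟨x, hx, by simp⟩

theorem p_SURJ :
    S_SURJ := by
  intro p c G _ _ _ _ _ Γ h hm r g hg
  have hc : ∀ j, IsClosed {x | x ∈ Γ r ∧ (x ^ p)⁻¹ * g ∈ Γ (r + 1 + j + 1)} := fun j =>
    (h.closed r).inter ((h.closed _).preimage (f := fun x => (x ^ p)⁻¹ * g) (by fun_prop))
  obtain ⟨x, hx⟩ := IsCompact.nonempty_iInter_of_sequence_nonempty_isCompact_isClosed
    (fun j => {x | x ∈ Γ r ∧ (x ^ p)⁻¹ * g ∈ Γ (r + 1 + j + 1)})
    (fun j x hx => ⟨hx.1, h.anti (by omega) hx.2⟩) (fun j => by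
      induction j with
      | zero => exact surj_one h hm r hg
      | succ j ih =>
        obtain ⟨x, hx, e⟩ := ih
        obtain ⟨y, hy, e'⟩ := surj_one h hm _ e
        refine ⟨x * y, mul_mem hx (h.anti (by omega) hy), ?_⟩
        have := mul_mem (inv_mem (h.anti (show r + 1 + j + 2 ≤ r + (r + 1 + j) + 2 by omega)
          (hm _ _ x y hx hy))) e'
        show _ ∈ Γ (r + 1 + j + 2)
        simpa [mul_assoc] using this) (hc 0).isCompact hc
  rw [Set.mem_iInter] at hx
  exact ⟨x, (hx 0).1, inv_mul_eq_one.1 (h.sep _ fun j => h.anti (by omega) (hx j).2)⟩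

end

section
open Filter MonoidAlgebra

theorem fin_one {p : ℕ} (hp : 0 < p) {G : Type} [Group G] [TopologicalSpace G]
    [IsTopologicalGroup G] (N : Subgroup G) [N.Normal] (hc : IsClosed (N : Set G))
    (h1 : ∀ x g : G, x * g * x⁻¹ * g⁻¹ ∈ N) (h2 : ∀ x : G, x ^ p ∈ N) (S : Finset G)
    (hS : (Subgroup.closure (S : Set G)).topologicalClosure = ⊤) : Finite (G ⧸ N) := by
  let : CommGroup (G ⧸ N) := { (inferInstance : Group (G ⧸ N)) with
    mul_comm := fun a b => by
      obtain ⟨x, rfl⟩ := QuotientGroup.mk_surjective a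
      obtain ⟨y, rfl⟩ := QuotientGroup.mk_surjective b
      rw [← QuotientGroup.mk_mul, ← QuotientGroup.mk_mul, QuotientGroup.eq]
      have := h1 y⁻¹ x⁻¹
      simpa [mul_assoc] using this }
  let H : Subgroup (G ⧸ N) := Subgroup.closure (QuotientGroup.mk' N '' (S : Set G))
  have : Finite (QuotientGroup.mk' N '' (S : Set G)) := (S.finite_toSet.image _).to_subtype
  have : Group.FG H := Group.closure_finite_fg _
  have hH : Finite H := CommGroup.finite_of_fg_isMulTorsion H fun a => by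
    refine isOfFinOrder_iff_pow_eq_one.2 ⟨p, hp, Subtype.ext ?_⟩
    obtain ⟨x, hx⟩ := QuotientGroup.mk_surjective a.1
    rw [Subgroup.coe_pow, ← hx, ← QuotientGroup.mk_pow]
    exact (QuotientGroup.eq_one_iff _).2 (h2 x)
  have e : ((H.comap (QuotientGroup.mk' N) : Subgroup G) : Set G) =
      ⋃ a : H, (fun g => (a.1.out)⁻¹ * g) ⁻¹' (N : Set G) := by
    ext g
    simp only [Set.mem_iUnion, Set.mem_preimage, SetLike.mem_coe, ← QuotientGroup.eq,
      QuotientGroup.out_eq', Subgroup.mem_comap, QuotientGroup.mk'_apply]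
    exact ⟨fun h => ⟨⟨_, h⟩, rfl⟩, fun ⟨a, ha⟩ => ha ▸ a.2⟩
  have hK : (⊤ : Subgroup G) ≤ H.comap (QuotientGroup.mk' N) := by
    rw [← hS]
    refine Subgroup.topologicalClosure_minimal _ ((Subgroup.closure_le _).2 fun x hx =>
      Subgroup.subset_closure ⟨x, hx, rfl⟩) ?_
    rw [e]
    exact isClosed_iUnion_of_finite fun a => hc.preimage (by fun_prop)
  refine Finite.of_surjective (fun a : H => a.1) fun a => ?_
  obtain ⟨x, rfl⟩ := QuotientGroup.mk_surjective a
  exact ⟨⟨_, hK (Subgroup.mem_top x)⟩, rfl⟩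

theorem p_FIN :
    S_FIN := by
  rintro p c hp G _ _ _ Γ h hM hs ⟨S, hS⟩
  have h0 : ∀ x : G, x ∈ Γ 0 := fun x => h.top ▸ Subgroup.mem_top x
  have := h.normal 1
  have f1 : Finite (G ⧸ Γ 1) := fin_one hp.out.pos (Γ 1) (h.closed 1)
    (fun x g => h.anti (by have := h.c1; omega) (h.com1 0 x g (h0 x)))
    (fun x => h.pow_mem 0 x (h0 x)) S hS
  have A : ∀ r, ∃ T : Set G, T.Finite ∧ (∀ t ∈ T, t ∈ Γ r) ∧
      ∀ g ∈ Γ r, ∃ t ∈ T, t⁻¹ * g ∈ Γ (r + 1) := by
    intro r
    induction r with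
    | zero =>
      refine ⟨Set.range fun a : G ⧸ Γ 1 => a.out, Set.finite_range _, fun t _ => h0 t,
        fun g _ => ⟨_, ⟨(g : G ⧸ Γ 1), rfl⟩, ?_⟩⟩
      exact QuotientGroup.eq.1 (QuotientGroup.out_eq' _)
    | succ r ih =>
      obtain ⟨T, h1, h2, h3⟩ := ih
      refine ⟨(fun t => t ^ p) '' T, h1.image _, ?_, fun g hg => ?_⟩
      · rintro _ ⟨t, ht, rfl⟩
        exact h.pow_mem r t (h2 t ht)
      · obtain ⟨x, hx, rfl⟩ := hs r g hg
        obtain ⟨t, ht, hz⟩ := h3 x hx
        refine ⟨_, ⟨t, ht, rfl⟩, ?_⟩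
        have := (Γ (r + 1 + 1)).mul_mem (h.pow_mem _ _ hz)
          (h.anti (by omega) (hM r (r + 1) t _ (h2 t ht) hz))
        simpa [mul_assoc] using this
  have B : ∀ r, ∃ U : Set G, U.Finite ∧ ∀ g, ∃ u ∈ U, u⁻¹ * g ∈ Γ r := by
    intro r
    induction r with
    | zero => exact ⟨{1}, Set.finite_singleton _, fun g => ⟨1, rfl, h0 _⟩⟩
    | succ r ih =>
      obtain ⟨U, h1, h2⟩ := ih
      obtain ⟨T, h3, -, h4⟩ := A r
      refine ⟨Set.image2 (· * ·) U T, h1.image2 _ h3, fun g => ?_⟩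
      obtain ⟨u, hu, hg⟩ := h2 g
      obtain ⟨t, ht, hz⟩ := h4 _ hg
      exact ⟨_, ⟨u, hu, t, ht, rfl⟩, by simpa [mul_assoc] using hz⟩
  intro r
  obtain ⟨U, h1, h2⟩ := B r
  have := h1.to_subtype
  have : Finite (G ⧸ Γ r) := Finite.of_surjective (fun u : U => (u.1 : G ⧸ Γ r)) fun a => by
    obtain ⟨x, rfl⟩ := QuotientGroup.mk_surjective a
    obtain ⟨u, hu, hx⟩ := h2 x
    exact ⟨⟨u, hu⟩, QuotientGroup.eq.2 hx⟩
  exact Subgroup.finiteIndex_of_finite_quotient

end

section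
open Filter MonoidAlgebra

theorem p_INJ :
    S_INJ := by
  intro p c G _ _ _ _ _ Γ h hM hs hi r x hx
  have step : ∀ s, x ∈ Γ s → x ^ p ∈ Γ (s + 2) → x ∈ Γ (s + 1) := by
    intro s h1 h2
    let C : ℕ → Set G := fun j => {y | x⁻¹ * y ∈ Γ (s + 1) ∧ y ^ p ∈ Γ (s + 2 + j)}
    have hcl : ∀ j, IsClosed (C j) := fun j =>
      ((h.closed (s + 1)).preimage (continuous_const.mul continuous_id)).inter
        ((h.closed (s + 2 + j)).preimage (continuous_pow p))
    have hne : ∀ j, (C j).Nonempty := by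
      intro j
      induction j with
      | zero => exact ⟨x, by simp, h2⟩
      | succ j ih =>
        obtain ⟨y, y1, y2⟩ := ih
        obtain ⟨z, z1, z2⟩ := hs (s + 1 + j) (y ^ p) (by rwa [add_right_comm])
        have y3 : y ∈ Γ s := by
          have := (Γ s).mul_mem h1 (h.anti (Nat.le_succ s) y1)
          rwa [mul_inv_cancel_left] at this
        have h3 := hM s (s + 1 + j) y z⁻¹ y3 ((Γ _).inv_mem z1)
        rw [inv_pow, z2, mul_inv_cancel, inv_one, one_mul] at h3
        refine ⟨y * z⁻¹, ?_, h.anti (by omega) h3⟩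
        rw [← mul_assoc]
        exact (Γ _).mul_mem y1 ((Γ _).inv_mem (h.anti (by omega) z1))
    obtain ⟨y, hy⟩ := IsCompact.nonempty_iInter_of_sequence_nonempty_isCompact_isClosed C
      (fun j y hy => ⟨hy.1, h.anti (by omega) hy.2⟩) hne (hcl 0).isCompact hcl
    rw [Set.mem_iInter] at hy
    have h4 : y = 1 := hi y (h.sep _ fun j => h.anti (by omega) (hy j).2)
    have h5 := (hy 0).1
    rw [h4, mul_one] at h5
    exact (Γ _).inv_mem_iff.1 h5
  have key : ∀ s, s ≤ r → x ∈ Γ s := by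
    intro s
    induction s with
    | zero => intro _; rw [h.top]; trivial
    | succ s ih => intro e; exact step s (ih (by omega)) (h.anti (by omega) hx)
  exact key r le_rfl

end

section
open Filter MonoidAlgebra

theorem ufa_closed {G : Type} [Group G] [TopologicalSpace G] [IsTopologicalGroup G]
    (H : Subgroup G) (hH : IsOpen (H : Set G)) (C : Set G) (h : ∀ x ∈ C, ∀ g ∈ H, x * g ∈ C) :
    IsClosed C := by
  rw [← isOpen_compl_iff, isOpen_iff_forall_mem_open]
  intro x hx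
  refine ⟨(fun y => y⁻¹ * x) ⁻¹' (H : Set G), fun y hy hC => hx ?_,
    hH.preimage (by fun_prop), by simp⟩
  have := h y hC _ hy
  simpa using this

theorem p_UFA (hCOM : S_COM) (hPOW : S_POW) (hSURJ : S_SURJ) (hFIN : S_FIN) (hINJ : S_INJ) :
    S_UFA := by
  intro p c _ G _ _ _ _ _ Γ h hS htf
  have h1 := hCOM p c G Γ h
  have h2 := hPOW p c G Γ h h1
  have h3 := hSURJ p c G Γ h h2
  have h4 := hFIN p c G Γ h h2 h3 hS
  have h5 := hINJ p c G Γ h h2 h3 htf
  have ho : ∀ r, IsOpen (Γ r : Set G) := fun r =>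
    haveI := h4 r
    Subgroup.isOpen_of_isClosed_of_finiteIndex _ (h.closed r)
  refine ⟨⟨h.c1, h.c2, h.top, h.anti, h.normal, h4, h.pow_mem, h3, h5, h1, h2, h.sep, ?_⟩, ho⟩
  intro S hne hd hn hsat
  have hc : ∀ C ∈ S, IsClosed C := fun C hC => by
    obtain ⟨m, hm⟩ := hsat C hC
    exact ufa_closed (Γ m) (ho m) C hm
  have : Nonempty S := hne.to_subtype
  exact IsCompact.nonempty_sInter_of_directed_nonempty_isCompact_isClosed hd hn
    (fun C hC => (hc C hC).isCompact) hc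

end

end Pool.Agent.P.MP_7cb106_nt.Q2
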