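import Mathlib

/-! The completed group algebra of a profinite group. -/

set_option autoImplicit false

namespace Pool.Agent.P.MP_7cb106_nt.Q2

/-- The completed group algebra `k[[G]]`: the inverse limit of the group algebras `k[G/V]` over the
open normal subgroups `V` of `G`. -/
def Iw (k G : Type) [Field k] [Group G] [TopologicalSpace G] :
    Subalgebra k (∀ V : OpenNormalSubgroup G, MonoidAlgebra k (G ⧸ V.toSubgroup)) where
  carrier := {x | ∀ (V W : OpenNormalSubgroup G) (h : V.toSubgroup ≤ W.toSubgroup),
    MonoidAlgebra.mapDomainAlgHom k k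
      (QuotientGroup.map V.toSubgroup W.toSubgroup (MonoidHom.id G) h) (x V) = x W}
  mul_mem' := fun hx hy V W h => by rw [Pi.mul_apply, map_mul, hx V W h, hy V W h, Pi.mul_apply]
  add_mem' := fun hx hy V W h => by rw [Pi.add_apply, map_add, hx V W h, hy V W h, Pi.add_apply]
  algebraMap_mem' := fun c V W h => AlgHom.commutes _ c

/-- The element `g` of `G` seen in `k[[G]]`. -/
noncomputable def Iw.el (k : Type) {G : Type} [Field k] [Group G] [TopologicalSpace G] (g : G) :
    Iw k G :=
  ⟨fun V => MonoidAlgebra.of k (G ⧸ V.toSubgroup) (g : G ⧸ V.toSubgroup), fun V W h => by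
    simp [MonoidAlgebra.mapDomainAlgHom]⟩

/-- `k[[U]]` inside `k[[G]]`: the elements whose image in every `k[G/V]` is a linear combination of
classes of elements of `U`. -/
def Iw.sub (k : Type) {G : Type} [Field k] [Group G] [TopologicalSpace G] (U : Subgroup G) :
    Set (Iw k G) :=
  {x | ∀ V : OpenNormalSubgroup G, x.1 V ∈ Submodule.span k
    ((fun u : G => MonoidAlgebra.of k (G ⧸ V.toSubgroup) (u : G ⧸ V.toSubgroup)) '' (U : Set G))}

end Pool.Agent.P.MP_7cb106_nt.Q2
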