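import Mathlib

namespace Pool.Agent.P.MP_7cb106_nt.Q2.Mic

open OreLocalization

theorem pow_central {Q : Type} [Ring Q] (p : ℕ) [hp : Fact p.Prime] (hpQ : (p : Q) = 0)
    (t : Q) (N : ℕ) (htN : t ^ N = 0) (htc : ∀ x, t * x = x * t)
    (hcomm : ∀ x y : Q, ∃ z, x * y - y * x = t * z) (s y : Q) :
    s ^ (p ^ N) * y = y * s ^ (p ^ N) := by
  rcases subsingleton_or_nontrivial Q with hQ | hQ
  · exact Subsingleton.elim _ _
  let L : Module.End ℤ Q := LinearMap.mulLeft ℤ s
  let R : Module.End ℤ Q := LinearMap.mulRight ℤ s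
  have hLR : Commute L R := by
    ext x
    simp [L, R, mul_assoc]
  have : Nontrivial (Module.End ℤ Q) := by
    refine ⟨0, 1, fun h => ?_⟩
    have := congrArg (fun f : Module.End ℤ Q => f 1) h
    simp at this
  have : CharP (Module.End ℤ Q) p := by
    refine (CharP.charP_iff_prime_eq_zero hp.out).2 ?_
    ext x
    simp [hpQ]
  have h1 : ∀ n : ℕ, ∀ x : Q, ∃ z, ((L - R) ^ n) x = t ^ n * z := by
    intro n
    induction n with
    | zero => intro x; exact ⟨x, by simp⟩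
    | succ n ih =>
      intro x
      obtain ⟨z, hz⟩ := ih x
      obtain ⟨w, hw⟩ := hcomm s z
      refine ⟨w, ?_⟩
      have hc : Commute t s := htc s
      rw [pow_succ', Module.End.mul_apply, hz]
      simp only [L, R, LinearMap.sub_apply, LinearMap.mulLeft_apply, LinearMap.mulRight_apply]
      rw [← mul_assoc, ← (hc.pow_left n).eq, mul_assoc, mul_assoc, ← mul_sub, hw, ← mul_assoc,
        ← pow_succ]
  have h2 := sub_pow_char_pow_of_commute p N hLR
  obtain ⟨z, hz⟩ := h1 (p ^ N) y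
  have hle : N ≤ p ^ N := (Nat.lt_pow_self hp.out.one_lt).le
  have h3 : t ^ (p ^ N) = 0 := pow_eq_zero_of_le hle htN
  rw [h2, h3, zero_mul] at hz
  simp only [L, R, LinearMap.sub_apply, LinearMap.pow_mulLeft, LinearMap.pow_mulRight,
    LinearMap.mulLeft_apply, LinearMap.mulRight_apply] at hz
  exact sub_eq_zero.1 hz

/-- localisation at the central elements whose image avoids a prime -/
theorem loc_exists {Q B : Type} [Ring Q] [CommRing B] (π : Q →+* B) (P : Ideal B) [hP : P.IsPrime]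
    (q : ℕ) (hq : 0 < q) (hcen : ∀ s y : Q, s ^ q * y = y * s ^ q) :
    ∃ (O : Type) (_ : Ring O) (φ : Q →+* O),
      (∀ s, π s ∉ P → IsUnit (φ s)) ∧
      (∀ o, ∃ s a, π s ∉ P ∧ (∀ y, s * y = y * s) ∧ φ s * o = φ a) ∧
      (∀ a, φ a = 0 → ∃ s, π s ∉ P ∧ (∀ y, s * y = y * s) ∧ s * a = 0) ∧
      (∀ (T : Type) [Ring T] (f : Q →+* T), (∀ s, π s ∉ P → IsUnit (f s)) →
        ∃ g : O →+* T, ∀ a, g (φ a) = f a) := by
  let S : Submonoid Q :=
    { carrier := {s | π s ∉ P ∧ ∀ y, s * y = y * s}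
      one_mem' := ⟨by simpa using (Ideal.ne_top_iff_one P).1 hP.ne_top, by simp⟩
      mul_mem' := by
        rintro a b ⟨ha, ha'⟩ ⟨hb, hb'⟩
        refine ⟨?_, fun y => ?_⟩
        · rw [map_mul]
          exact fun h => (hP.mem_or_mem h).elim ha hb
        · rw [mul_assoc, hb', ← mul_assoc, ha', mul_assoc] }
  let _ : OreSet S :=
    { ore_right_cancel := fun r₁ r₂ s h => ⟨s, by rw [s.2.2, s.2.2, h]⟩
      oreNum := fun r _ => r
      oreDenom := fun _ s => s
      ore_eq := fun r s => s.2.2 r }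
  refine ⟨Q[S⁻¹], inferInstance, numeratorRingHom, ?_, ?_, ?_, ?_⟩
  · intro s hs
    have hmem : s ^ q ∈ S := ⟨by rw [map_pow]; exact fun h => hs (hP.mem_of_pow_mem _ h), hcen s⟩
    have hu : IsUnit (numeratorRingHom (S := S) (s ^ q)) := numerator_isUnit (⟨_, hmem⟩ : S)
    rw [map_pow] at hu
    exact (isUnit_pow_iff hq.ne').1 hu
  · intro o
    induction o using OreLocalization.ind with
    | _ a s =>
      refine ⟨s, a, s.2.1, s.2.2, ?_⟩
      exact OreLocalization.mul_cancel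
  · intro a ha
    have ha' : (a /ₒ (1 : S)) = (0 : Q) /ₒ (1 : S) := ha.trans OreLocalization.zero_def
    obtain ⟨u, v, h1, h2⟩ := oreDiv_eq_iff.1 ha'
    refine ⟨u, u.2.1, u.2.2, ?_⟩
    have h3 : (u : Q) = v := by simpa using h2
    rw [h3]
    simpa using h1.symm
  · intro T _ f hf
    let fS : S →* Tˣ :=
      { toFun := fun s => (hf s s.2.1).unit
        map_one' := by ext; simp
        map_mul' := fun a b => by ext; simp }
    exact ⟨universalHom f fS (fun s => rfl), fun a => universalHom_commutes _ _ _⟩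

theorem length_quot {O C : Type} [Ring O] [CommRing C] (ψ : O →+* C)
    (hs : Function.Surjective ψ) (t : O) (hker : ∀ o, ψ o = 0 ↔ ∃ z, o = z * t) :
    Module.length O (O ⧸ Ideal.span {t}) = Module.length C C := by
  have : RingHomSurjective ψ := ⟨hs⟩
  have hle : Ideal.span {t} ≤ LinearMap.ker ψ.toSemilinearMap := by
    rw [Ideal.span_le]
    rintro x rfl
    exact (hker x).2 ⟨1, by simp⟩
  let f : (O ⧸ Ideal.span {t}) →ₛₗ[ψ] C := Submodule.liftQ _ ψ.toSemilinearMap hle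
  have hf : Function.Bijective f := by
    constructor
    · rw [← LinearMap.ker_eq_bot]
      apply Submodule.ker_liftQ_eq_bot
      intro x hx
      obtain ⟨z, rfl⟩ := (hker x).1 hx
      exact Ideal.mul_mem_left _ _ (Ideal.subset_span rfl)
    · intro c
      obtain ⟨o, rfl⟩ := hs c
      exact ⟨Submodule.Quotient.mk o, rfl⟩
  rw [Module.length, Module.length, WithBot.unbot_inj,
    Order.krullDim_eq_of_orderIso (Submodule.orderIsoMapComapOfBijective f hf)]

theorem level {Q B : Type} [Ring Q] [CommRing B] (p : ℕ) [hp : Fact p.Prime] (hpQ : (p : Q) = 0)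
    (t : Q) (htc : ∀ x, t * x = x * t) (hreg : ∀ x, x * t = 0 → x = 0)
    (π : Q →+* B) (hs : Function.Surjective π) (hker : ∀ x, π x = 0 ↔ ∃ z, x = z * t)
    (P : Ideal B) [hP : P.IsPrime] (N : ℕ) (hN : 0 < N) :
    ∃ (O : Type) (_ : Ring O) (lam : Q →+* O),
      (∀ x : Q, (∀ y, x * y = y * x) → ∀ o, lam x * o = o * lam x) ∧
      lam t ^ N = 0 ∧ (∀ c, c < N → lam t ^ c ≠ 0) ∧
      (∀ c o, c ≤ N → lam t ^ c * o = 0 → ∃ o', o = o' * lam t ^ (N - c)) ∧
      (∀ s, π s ∉ P → IsUnit (lam s)) ∧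
      Module.length O (O ⧸ Ideal.span {lam t}) =
        Module.length (Localization.AtPrime P) (Localization.AtPrime P) ∧
      (∀ j x, j ≤ N → ((∃ s z, π s ∉ P ∧ s * x = z * t ^ j) ↔ ∃ o, lam x = o * lam t ^ j)) ∧
      (∀ σ : Q →+* Q, σ t = t → (∀ x, π (σ x) = π x) →
        ∃ τ : O →+* O, ∀ x, τ (lam x) = lam (σ x)) := by
  have htn : ∀ (n : ℕ) x, t ^ n * x = x * t ^ n := fun n x =>
    ((show Commute t x from htc x).pow_left n).eq
  have hregn : ∀ (n : ℕ) x, x * t ^ n = 0 → x = 0 := by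
    intro n
    induction n with
    | zero => intro x hx; simpa using hx
    | succ n ih => intro x hx; rw [pow_succ, ← mul_assoc] at hx; exact ih _ (hreg _ hx)
  let I : Ideal Q := Ideal.span {t ^ N}
  have hI : ∀ x, x ∈ I ↔ ∃ z, x = z * t ^ N := fun x => by
    rw [Ideal.mem_span_singleton']
    exact ⟨fun ⟨z, hz⟩ => ⟨z, hz.symm⟩, fun ⟨z, hz⟩ => ⟨z, hz.symm⟩⟩
  have : I.IsTwoSided := ⟨fun {a} b ha => by
    obtain ⟨z, rfl⟩ := (hI a).1 ha
    exact (hI _).2 ⟨z * b, by rw [mul_assoc, htn, mul_assoc]⟩⟩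
  let mk : Q →+* Q ⧸ I := Ideal.Quotient.mk I
  have hmks : Function.Surjective mk := Ideal.Quotient.mk_surjective
  have hmk0 : ∀ x, mk x = 0 ↔ ∃ z, x = z * t ^ N := fun x => by
    rw [← hI]; exact Ideal.Quotient.eq_zero_iff_mem
  have hπt : π t = 0 := (hker t).2 ⟨1, by simp⟩
  let π' : Q ⧸ I →+* B := Ideal.Quotient.lift I π (fun a ha => by
    obtain ⟨z, rfl⟩ := (hI a).1 ha
    rw [map_mul, map_pow, hπt, zero_pow hN.ne', mul_zero])
  have hπ' : ∀ x, π' (mk x) = π x := fun x => rfl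
  have hcen : ∀ s y : Q ⧸ I, s ^ (p ^ N) * y = y * s ^ (p ^ N) := by
    refine pow_central p ?_ (mk t) N ?_ ?_ ?_
    · rw [← map_natCast mk, hpQ, map_zero]
    · rw [← map_pow]; exact (hmk0 _).2 ⟨1, by simp⟩
    · intro x
      obtain ⟨x, rfl⟩ := hmks x
      rw [← map_mul, ← map_mul, htc]
    · intro x y
      obtain ⟨x, rfl⟩ := hmks x
      obtain ⟨y, rfl⟩ := hmks y
      obtain ⟨z, hz⟩ := (hker (x * y - y * x)).1 (by simp [mul_comm])
      exact ⟨mk z, by rw [← map_mul, ← map_mul, ← map_sub, hz, ← map_mul, htc]⟩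
  obtain ⟨O, _, φ, hu, hfr, hz, huniv⟩ := loc_exists π' P (p ^ N) (pow_pos hp.out.pos N) hcen
  let lam : Q →+* O := φ.comp mk
  have hlam : ∀ x, lam x = φ (mk x) := fun x => rfl
  have hu' : ∀ s, π s ∉ P → IsUnit (lam s) := fun s h => hu (mk s) h
  have hfr' : ∀ o, ∃ s a, π s ∉ P ∧ (∀ y, lam s * lam y = lam y * lam s) ∧ lam s * o = lam a := by
    intro o
    obtain ⟨s, a, h1, h2, h3⟩ := hfr o
    obtain ⟨s, rfl⟩ := hmks s
    obtain ⟨a, rfl⟩ := hmks a
    exact ⟨s, a, h1, fun y => by rw [hlam, hlam, ← map_mul, h2, map_mul], h3⟩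
  have hz' : ∀ a, lam a = 0 → ∃ s z, π s ∉ P ∧ s * a = z * t ^ N := by
    intro a ha
    obtain ⟨s, h1, -, h3⟩ := hz _ ha
    obtain ⟨s, rfl⟩ := hmks s
    obtain ⟨z, hz⟩ := (hmk0 (s * a)).1 (by rw [map_mul, h3])
    exact ⟨s, z, h1, hz⟩
  have hcent : ∀ x : Q, (∀ y, x * y = y * x) → ∀ o, lam x * o = o * lam x := by
    intro x hx o
    obtain ⟨s, a, h1, h2, h3⟩ := hfr' o
    refine (hu' s h1).mul_left_cancel ?_
    rw [← mul_assoc, h2, mul_assoc, h3, ← mul_assoc, h3, ← map_mul, ← map_mul, hx]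
  have hT : ∀ (n : ℕ) o, lam t ^ n * o = o * lam t ^ n := fun n o =>
    ((show Commute (lam t) o from hcent t htc o).pow_left n).eq
  have htN : lam t ^ N = 0 := by
    rw [← map_pow, hlam, (hmk0 _).2 ⟨1, by simp⟩, map_zero]
  have hdiv : ∀ s, π s ∉ P → ∀ (o w : O) (n : ℕ), lam s * o = w * lam t ^ n →
      ∃ o', o = o' * lam t ^ n := by
    intro s h o w n hw
    obtain ⟨u, hu⟩ := hu' s h
    refine ⟨↑u⁻¹ * w, ?_⟩
    rw [mul_assoc, ← hw, ← hu, Units.inv_mul_cancel_left]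
  have hmulP : ∀ s s', π s ∉ P → π s' ∉ P → π (s * s') ∉ P := fun s s' h h' hh => by
    rw [map_mul] at hh; exact (hP.mem_or_mem hh).elim h h'
  refine ⟨O, inferInstance, lam, hcent, htN, ?_, ?_, hu', ?_, ?_, ?_⟩
  · intro c hc h0
    rw [← map_pow] at h0
    obtain ⟨s, z, h1, h2⟩ := hz' _ h0
    apply h1
    obtain ⟨d, rfl⟩ := Nat.exists_eq_add_of_lt hc
    have h3 : s = z * t ^ d * t := by
      rw [← sub_eq_zero]
      apply hregn c
      rw [sub_mul, h2, mul_assoc, mul_assoc, ← pow_succ', ← pow_add, sub_eq_zero]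
      congr 2
      omega
    rw [h3, map_mul, hπt, mul_zero]
    exact P.zero_mem
  · intro c o hc h0
    obtain ⟨s, a, h1, h2, h3⟩ := hfr' o
    have h4 : lam (a * t ^ c) = 0 := by
      rw [map_mul, map_pow, ← h3, mul_assoc, ← hT, h0, mul_zero]
    obtain ⟨s', z, h5, h6⟩ := hz' _ h4
    obtain ⟨d, rfl⟩ := Nat.exists_eq_add_of_le hc
    have h7 : s' * a = z * t ^ d := by
      rw [← sub_eq_zero]
      apply hregn c
      rw [sub_mul, mul_assoc, h6, mul_assoc, ← pow_add, add_comm, sub_self]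
    rw [Nat.add_sub_cancel_left]
    refine hdiv (s' * s) (hmulP _ _ h5 h1) o (lam z) d ?_
    rw [map_mul, mul_assoc, h3, ← map_mul, h7, map_mul, map_pow]
  · obtain ⟨ψ, hψ⟩ := huniv (Localization.AtPrime P) ((algebraMap B _).comp π')
      (fun s h => IsLocalization.map_units (Localization.AtPrime P) (⟨π' s, h⟩ : P.primeCompl))
    have hψ' : ∀ x, ψ (lam x) = algebraMap B _ (π x) := fun x => hψ (mk x)
    refine length_quot ψ ?_ _ ?_
    · intro c
      obtain ⟨⟨a, u⟩, hc⟩ := IsLocalization.surj P.primeCompl c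
      obtain ⟨a, rfl⟩ := hs a
      obtain ⟨s, hs'⟩ := hs u
      have h1 : π s ∉ P := by rw [hs']; exact u.2
      obtain ⟨v, hv⟩ := hu' s h1
      refine ⟨lam a * ↑v⁻¹, ?_⟩
      have h2 : IsUnit (ψ (lam s)) := (hu' s h1).map ψ
      refine h2.mul_right_cancel ?_
      rw [← map_mul, ← hv, Units.inv_mul_cancel_right, hv, hψ', hψ', hs']
      exact hc.symm
    · intro o
      constructor
      · intro h0
        obtain ⟨s, a, h1, h2, h3⟩ := hfr' o
        have h4 : algebraMap B (Localization.AtPrime P) (π a) = 0 := by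
          rw [← hψ', ← h3, map_mul, h0, mul_zero]
        obtain ⟨u, hu⟩ := (IsLocalization.map_eq_zero_iff P.primeCompl _ _).1 h4
        obtain ⟨s', hs'⟩ := hs u
        have h5 : π s' ∉ P := by rw [hs']; exact u.2
        obtain ⟨z, hz⟩ := (hker (s' * a)).1 (by rw [map_mul, hs', hu])
        have := hdiv (s' * s) (hmulP _ _ h5 h1) o (lam z) 1 (by
          rw [map_mul, mul_assoc, h3, ← map_mul, hz, map_mul, pow_one])
        simpa using this
      · rintro ⟨z, rfl⟩
        rw [map_mul, hψ', hπt, map_zero, mul_zero]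
  · intro j x hj
    constructor
    · rintro ⟨s, z, h1, h2⟩
      exact hdiv s h1 _ (lam z) j (by rw [← map_mul, h2, map_mul, map_pow])
    · rintro ⟨o, ho⟩
      obtain ⟨s, a, h1, h2, h3⟩ := hfr' o
      have h4 : lam (s * x - a * t ^ j) = 0 := by
        rw [map_sub, map_mul, map_mul, ho, ← mul_assoc, h3, map_pow, sub_self]
      obtain ⟨s', z, h5, h6⟩ := hz' _ h4
      obtain ⟨d, rfl⟩ := Nat.exists_eq_add_of_le hj
      refine ⟨s' * s, s' * a + z * t ^ d, hmulP _ _ h5 h1, ?_⟩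
      rw [add_mul, mul_assoc z, ← pow_add, add_comm d j, ← h6, mul_assoc, mul_assoc, ← mul_add]
      congr 1
      abel
  · intro σ hσ hπσ
    let σ' : Q ⧸ I →+* O := Ideal.Quotient.lift I (lam.comp σ) (fun a ha => by
      obtain ⟨z, rfl⟩ := (hI a).1 ha
      simp [hσ, htN])
    obtain ⟨τ, hτ⟩ := huniv O σ' (fun s h => by
      obtain ⟨s, rfl⟩ := hmks s
      exact hu' (σ s) (by rw [hπσ]; exact h))
    exact ⟨τ, fun x => hτ (mk x)⟩

theorem length_atPrime {B : Type} [CommRing B] [IsNoetherianRing B] (P : Ideal B) [P.IsPrime]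
    (hP : P ∈ minimalPrimes B) :
    Module.length (Localization.AtPrime P) (Localization.AtPrime P) ≠ ⊤ := by
  have h : ringKrullDim (Localization.AtPrime P) = 0 := by
    rw [IsLocalization.AtPrime.ringKrullDim_eq_height P, Ideal.height_eq_zero_iff.2 hP]
    rfl
  have : Ring.KrullDimLE 0 (Localization.AtPrime P) := ⟨h.le⟩
  have : IsArtinianRing (Localization.AtPrime P) :=
    isArtinianRing_iff_isNoetherianRing_krullDimLE_zero.2 ⟨inferInstance, this⟩
  exact Module.length_ne_top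

/-- span of the products of `j` of the `b`'s -/
def Mon (k : Type) {R ι : Type} [Field k] [Ring R] [Algebra k R] (b : ι → R) (j : ℕ) :
    Submodule k R :=
  Submodule.span k {x | ∃ l : List ι, l.length = j ∧ x = (l.map b).prod}

open AddMonoidAlgebra in
/-- the Rees algebra inside the Laurent polynomials -/
def reesAlg {k R : Type} [Field k] [Ring R] [Algebra k R] (F : ℕ → Submodule k R)
    (h0 : F 0 = ⊤) (hanti : ∀ j, F (j + 1) ≤ F j)
    (hmul : ∀ i j x y, x ∈ F i → y ∈ F j → x * y ∈ F (i + j)) :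
    Subalgebra k (AddMonoidAlgebra R ℤ) where
  carrier := {x | ∀ j : ℤ, x.coeff j ∈ F j.toNat}
  mul_mem' := by
    intro x y hx hy j
    have hA : Antitone F := antitone_nat_of_succ_le hanti
    rw [coeff_mul]
    refine Submodule.sum_mem _ fun i _ => Submodule.sum_mem _ fun l _ => ?_
    dsimp only
    split_ifs with h
    · exact hA (by omega) (hmul _ _ _ _ (hx i) (hy l))
    · exact Submodule.zero_mem _
  add_mem' := by
    intro x y hx hy j
    simpa using (F _).add_mem (hx j) (hy j)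
  algebraMap_mem' := by
    intro c j
    by_cases h : j = 0
    · subst h; simp [h0]
    · simp [coe_algebraMap, h]

open AddMonoidAlgebra in
theorem rees {k R ι : Type} [Field k] [Ring R] [Algebra k R] [Finite ι]
    (p : ℕ) [CharP k p]
    (F : ℕ → Submodule k R) (b : ι → R)
    (h0 : F 0 = ⊤) (hanti : ∀ j, F (j + 1) ≤ F j)
    (hmul : ∀ i j x y, x ∈ F i → y ∈ F j → x * y ∈ F (i + j))
    (hb : ∀ i, b i ∈ F 1) (hcomm : ∀ i l, b i * b l - b l * b i ∈ F 3)
    (hgen : ∀ j, F j ≤ Mon k b j ⊔ F (j + 1))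
    (hinf : ∀ j0, ∃ j, j0 ≤ j ∧ ¬ F j ≤ F (j + 1)) :
    ∃ (Q : Type) (_ : Ring Q) (B : Type) (_ : CommRing B) (_ : IsNoetherianRing B)
      (t : Q) (π : Q →+* B) (C : R →+* Q) (β : ι → Q),
      (p : Q) = 0 ∧ (∀ x, t * x = x * t) ∧ (∀ x, x * t = 0 → x = 0) ∧ Function.Surjective π ∧
      (∀ x, π x = 0 ↔ ∃ z, x = z * t) ∧
      (∀ c : k, ∀ y, C (algebraMap k R c) * y = y * C (algebraMap k R c)) ∧
      (∀ j x, x ∈ F j → ∃ z, C x = z * t ^ j) ∧ (∀ i, C (b i) = β i * t) ∧
      (∃ i, ¬ IsNilpotent (π (β i))) ∧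
      (∀ s : R →ₐ[k] R, (∀ j x, x ∈ F j → s x ∈ F j) → (∀ i, s (b i) - b i ∈ F 2) →
        ∃ σ : Q →+* Q, σ t = t ∧ (∀ x, π (σ x) = π x) ∧ ∀ x, σ (C x) = C (s x)) := by
  classical
  have hA : Antitone F := antitone_nat_of_succ_le hanti
  let Q := reesAlg F h0 hanti hmul
  have hQ : ∀ x, x ∈ Q ↔ ∀ j : ℤ, x.coeff j ∈ F j.toNat := fun x => Iff.rfl
  have hsing : ∀ (j : ℤ) (x : R), x ∈ F j.toNat → single j x ∈ Q := by
    intro j x hx i
    rw [coeff_single, Finsupp.single_apply]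
    split_ifs with h
    · exact h ▸ hx
    · exact Submodule.zero_mem _
  let mono : ∀ (j : ℕ) (x : R), x ∈ F j → Q := fun j x hx => ⟨single (j : ℤ) x, hsing _ _ hx⟩
  let t : Q := ⟨single (-1) 1, hsing _ _ (by simp [h0])⟩
  have htn : ∀ n : ℕ, ((t ^ n : Q) : AddMonoidAlgebra R ℤ) = single (-(n : ℤ)) 1 := by
    intro n
    simp [t, single_pow, -LaurentPolynomial.single_eq_C_mul_T]
  have htc : ∀ x : Q, t * x = x * t := by
    intro x
    ext j
    simp [t, add_comm, -LaurentPolynomial.single_eq_C_mul_T]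
  have hreg : ∀ x : Q, x * t = 0 → x = 0 := by
    intro x hx
    ext j
    have := congrArg (fun y : Q => (y : AddMonoidAlgebra R ℤ).coeff (j - 1)) hx
    simpa [t, -LaurentPolynomial.single_eq_C_mul_T] using this
  have hdiv : ∀ x : Q, (∃ z, x = z * t) ↔
      ∀ j : ℤ, (x : AddMonoidAlgebra R ℤ).coeff j ∈ F (j + 1).toNat := by
    intro x
    constructor
    · rintro ⟨z, rfl⟩ j
      simpa [t, -LaurentPolynomial.single_eq_C_mul_T] using z.2 (j + 1)
    · intro h
      refine ⟨⟨(x : AddMonoidAlgebra R ℤ) * single 1 1, fun j => by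
        simpa [sub_eq_add_neg, -LaurentPolynomial.single_eq_C_mul_T] using h (j - 1)⟩, ?_⟩
      ext j
      simp [t, -LaurentPolynomial.single_eq_C_mul_T]
  let I : Ideal Q := Ideal.span {t}
  have hI : ∀ x, x ∈ I ↔ ∃ z, x = z * t := fun x => by
    rw [Ideal.mem_span_singleton']
    exact ⟨fun ⟨z, hz⟩ => ⟨z, hz.symm⟩, fun ⟨z, hz⟩ => ⟨z, hz.symm⟩⟩
  have : I.IsTwoSided := ⟨fun {a} b ha => by
    obtain ⟨z, rfl⟩ := (hI a).1 ha
    exact (hI _).2 ⟨z * b, by rw [mul_assoc, htc, mul_assoc]⟩⟩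
  let π : Q →ₐ[k] Q ⧸ I := Ideal.Quotient.mkₐ k I
  have hπs : Function.Surjective π := Ideal.Quotient.mk_surjective
  have hπ0 : ∀ x, π x = 0 ↔ ∃ z, x = z * t := fun x => by
    rw [← hI]; exact Ideal.Quotient.eq_zero_iff_mem
  have hmono0 : ∀ (j : ℕ) (x : R) (hx : x ∈ F j), π (mono j x hx) = 0 ↔ x ∈ F (j + 1) := by
    intro j x hx
    rw [hπ0, hdiv]
    constructor
    · intro h
      simpa [mono, -LaurentPolynomial.single_eq_C_mul_T] using h j
    · intro h i
      simp only [mono, coeff_single, Finsupp.single_apply]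
      split_ifs with h'
      · subst h'; exact h
      · exact Submodule.zero_mem _
  let β : ι → Q := fun i => mono 1 (b i) (hb i)
  have hprodF : ∀ l : List ι, (l.map b).prod ∈ F l.length := by
    intro l
    induction l with
    | nil => simp [h0]
    | cons i l ih => simpa [add_comm] using hmul _ _ _ _ (hb i) ih
  have hprod : ∀ l : List ι, mono l.length _ (hprodF l) = (l.map β).prod := by
    intro l
    induction l with
    | nil => ext1; simp [mono, one_def, -LaurentPolynomial.single_eq_C_mul_T]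
    | cons i l ih =>
      rw [List.map_cons (f := β), List.prod_cons, ← ih]
      ext1
      simp [mono, β, single_mul_single, add_comm, -LaurentPolynomial.single_eq_C_mul_T]
  have hMonF : ∀ j, Mon k b j ≤ F j := fun j => Submodule.span_le.2 (by
    rintro x ⟨l, rfl, rfl⟩; exact hprodF l)
  -- a subspace of the quotient containing the monomials of length j contains the degree j part
  have hdeg : ∀ (j : ℕ) (X : Submodule k (Q ⧸ I)),
      (∀ l : List ι, l.length = j → (l.map fun i => π (β i)).prod ∈ X) →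
      ∀ (x : R) (hx : x ∈ F j), π (mono j x hx) ∈ X := by
    intro j X hX x hx
    obtain ⟨m, hm, y, hy, rfl⟩ := Submodule.mem_sup.1 (hgen j hx)
    have h1 : mono j (m + y) hx = mono j m (hMonF j hm) + mono j y (hanti j hy) := by
      ext1; simp [mono, -LaurentPolynomial.single_eq_C_mul_T]
    rw [h1, map_add, (hmono0 j y (hanti j hy)).2 hy, add_zero]
    clear h1 hx
    induction hm using Submodule.span_induction with
    | mem x hx =>
      obtain ⟨l, rfl, rfl⟩ := hx
      have := hX l rfl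
      rw [hprod l, map_list_prod, List.map_map]
      exact this
    | zero =>
      have : mono j 0 (F j).zero_mem = 0 := by ext1; simp [mono, -LaurentPolynomial.single_eq_C_mul_T]
      rw [this, map_zero]; exact X.zero_mem
    | add x y hx hy ihx ihy =>
      have : mono j (x + y) (hMonF j ((Mon k b j).add_mem hx hy)) =
          mono j x (hMonF j hx) + mono j y (hMonF j hy) := by ext1; simp [mono, -LaurentPolynomial.single_eq_C_mul_T]
      rw [this, map_add]; exact X.add_mem ihx ihy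
    | smul c x hx ih =>
      have : mono j (c • x) (hMonF j ((Mon k b j).smul_mem c hx)) =
          c • mono j x (hMonF j hx) := by ext1; simp [mono, -LaurentPolynomial.single_eq_C_mul_T]
      rw [this, map_smul]; exact X.smul_mem c ih
  have hall : ∀ X : Submodule k (Q ⧸ I),
      (∀ l : List ι, (l.map fun i => π (β i)).prod ∈ X) → ∀ x : Q, π x ∈ X := by
    intro X hX x
    have h1 : x = ∑ j ∈ (x : AddMonoidAlgebra R ℤ).coeff.support,
        (⟨single j ((x : AddMonoidAlgebra R ℤ).coeff j), hsing _ _ (x.2 j)⟩ : Q) := by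
      ext1
      rw [AddSubmonoidClass.coe_finsetSum]
      exact (sum_coeff_single _).symm
    rw [h1, map_sum]
    refine X.sum_mem fun j _ => ?_
    rcases lt_or_ge j 0 with hj | hj
    · rw [(hπ0 _).2 ((hdiv _).2 ?_)]
      · exact X.zero_mem
      · intro i
        simp only [coeff_single, Finsupp.single_apply]
        split_ifs with h'
        · rw [show (i + 1).toNat = 0 by omega, h0]; trivial
        · exact Submodule.zero_mem _
    · obtain ⟨n, rfl⟩ := Int.eq_ofNat_of_zero_le hj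
      exact hdeg n X (fun l _ => hX l) _ (x.2 n)
  have hadj : Algebra.adjoin k (Set.range fun i => π (β i)) = ⊤ := by
    rw [eq_top_iff]
    intro y _
    obtain ⟨x, rfl⟩ := hπs y
    refine hall (Algebra.adjoin k (Set.range fun i => π (β i))).toSubmodule (fun l => ?_) x
    refine Subalgebra.list_prod_mem _ ?_
    intro z hz
    obtain ⟨i, -, rfl⟩ := List.mem_map.1 hz
    exact Algebra.subset_adjoin ⟨i, rfl⟩
  have hcβ : ∀ i l, π (β i) * π (β l) = π (β l) * π (β i) := by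
    intro i l
    have h1 : β i * β l - β l * β i = mono 2 _ (hanti 2 (hcomm i l)) := by
      ext1; simp [mono, β, single_mul_single, single_sub, -LaurentPolynomial.single_eq_C_mul_T]
    rw [← sub_eq_zero, ← map_mul, ← map_mul, ← map_sub, h1]
    exact (hmono0 2 _ (hanti 2 (hcomm i l))).2 (hcomm i l)
  have hcB : ∀ x y : Q ⧸ I, x * y = y * x := by
    intro x y
    refine (Algebra.commute_of_mem_adjoin_of_forall_mem_commute (R := k)
      (s := Set.range fun i => π (β i)) (hadj ▸ Algebra.mem_top) ?_).eq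
    rintro _ ⟨i, rfl⟩
    refine (Algebra.commute_of_mem_adjoin_of_forall_mem_commute (R := k)
      (s := Set.range fun i => π (β i)) (hadj ▸ Algebra.mem_top) ?_).symm
    rintro _ ⟨l, rfl⟩
    exact hcβ i l
  let instB : CommRing (Q ⧸ I) := { (inferInstance : Ring (Q ⧸ I)) with mul_comm := hcB }
  have hft : Algebra.FiniteType k (Q ⧸ I) :=
    ⟨⟨(Set.finite_range fun i => π (β i)).toFinset, by rw [Set.Finite.coe_toFinset, hadj]⟩⟩
  have hNoeth : IsNoetherianRing (Q ⧸ I) := Algebra.FiniteType.isNoetherianRing k _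
  let C : R →+* Q :=
    (singleZeroRingHom : R →+* AddMonoidAlgebra R ℤ).codRestrict Q.toSubring
      (fun x => hsing 0 x (by simp [h0]))
  have hC : ∀ x, (C x : AddMonoidAlgebra R ℤ) = single 0 x := fun x => rfl
  have hCm : ∀ (j : ℕ) x (hx : x ∈ F j), C x = mono j x hx * t ^ j := by
    intro j x hx
    ext1
    rw [hC, Subalgebra.coe_mul, htn]
    simp [mono, single_mul_single, -LaurentPolynomial.single_eq_C_mul_T]
  refine ⟨Q, inferInstance, Q ⧸ I, instB, hNoeth, t, (π : Q →+* Q ⧸ I), C, β, ?_, htc, hreg, hπs,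
    hπ0, ?_, fun j x hx => ⟨_, hCm j x hx⟩, fun i => by simpa using hCm 1 _ (hb i), ?_, ?_⟩
  · rw [← map_natCast (algebraMap k Q), CharP.cast_eq_zero, map_zero]
  · intro c y
    have : C (algebraMap k R c) = algebraMap k Q c := by
      ext1; simp [hC, coe_algebraMap, -LaurentPolynomial.single_eq_C_mul_T]
    rw [this, Algebra.commutes]
  · by_contra hn
    push Not at hn
    let J : Ideal (Q ⧸ I) := Ideal.span (Set.range fun i => π (β i))
    have hJ : J ≤ (⊥ : Ideal (Q ⧸ I)).radical := Ideal.span_le.2 (by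
      rintro _ ⟨i, rfl⟩
      exact hn i)
    obtain ⟨n, hn'⟩ := Ideal.exists_pow_le_of_le_radical_of_fg hJ
      (Submodule.fg_span (Set.finite_range _))
    obtain ⟨j, hj, hF⟩ := hinf n
    refine hF fun x hx => (hmono0 j x hx).1 ?_
    refine (Submodule.mem_bot k).1 (hdeg j ⊥ (fun l hl => ?_) x hx)
    have h2 : ∀ l : List ι, (l.map fun i => π (β i)).prod ∈ J ^ l.length := by
      intro l
      induction l with
      | nil => simp
      | cons i l ih =>
        rw [List.map_cons, List.prod_cons, List.length_cons, pow_succ']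
        exact Ideal.mul_mem_mul (Ideal.subset_span ⟨i, rfl⟩) ih
    exact hn' (Ideal.pow_le_pow_right (hl ▸ hj) (h2 l))
  · intro s hsF hsb
    let σ : Q →ₐ[k] Q :=
      ((mapAlgHom ℤ s).comp Q.val).codRestrict Q (fun x j => by
        simpa using hsF _ _ (x.2 j))
    have hσ : ∀ x : Q, (σ x : AddMonoidAlgebra R ℤ) = mapAlgHom ℤ s x := fun x => rfl
    have hσt : σ t = t := by ext1; simp [hσ, t, -LaurentPolynomial.single_eq_C_mul_T]
    refine ⟨σ, hσt, ?_, fun x => by ext1; simp [hσ, hC, -LaurentPolynomial.single_eq_C_mul_T]⟩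
    let σ' : (Q ⧸ I) →ₐ[k] (Q ⧸ I) := Ideal.Quotient.liftₐ I (π.comp σ) (fun a ha => by
      obtain ⟨z, rfl⟩ := (hI a).1 ha
      rw [AlgHom.comp_apply, map_mul, hσt]
      exact (hπ0 _).2 ⟨_, rfl⟩)
    have hσ' : ∀ x, σ' (π x) = π (σ x) := fun x => rfl
    have h3 : σ' = AlgHom.id k _ := by
      refine AlgHom.ext_of_adjoin_eq_top hadj ?_
      rintro _ ⟨i, rfl⟩
      have h1 : σ (β i) - β i = mono 1 _ (hanti 1 (hsb i)) := by
        ext1; simp [mono, β, hσ, single_sub, -LaurentPolynomial.single_eq_C_mul_T]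
      change σ' (π (β i)) = π (β i)
      rw [hσ', ← sub_eq_zero, ← map_sub, h1]
      exact (hmono0 1 _ (hanti 1 (hsb i))).2 (hsb i)
    intro x
    change π (σ x) = π x
    rw [← hσ', h3]
    rfl

theorem micro {k R ι : Type} [Field k] [Ring R] [Algebra k R] [Finite ι]
    (p : ℕ) [Fact p.Prime] [CharP k p]
    (F : ℕ → Submodule k R) (b : ι → R)
    (h0 : F 0 = ⊤) (hanti : ∀ j, F (j + 1) ≤ F j)
    (hmul : ∀ i j x y, x ∈ F i → y ∈ F j → x * y ∈ F (i + j))
    (hb : ∀ i, b i ∈ F 1) (hcomm : ∀ i l, b i * b l - b l * b i ∈ F 3)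
    (hgen : ∀ j, F j ≤ Mon k b j ⊔ F (j + 1))
    (hinf : ∀ j0, ∃ j, j0 ≤ j ∧ ¬ F j ≤ F (j + 1)) :
    ∃ (i0 : ι) (rho : ℕ) (F' : ℕ → Set R), ∀ N : ℕ,
      ∃ (O : Type) (_ : Ring O) (t : O) (io : R →+* O),
        (∀ o, t * o = o * t) ∧
        (∀ c : k, ∀ o, io (algebraMap k R c) * o = o * io (algebraMap k R c)) ∧
        (∀ j x, x ∈ F j → ∃ o, io x = o * t ^ j) ∧
        t ^ N = 0 ∧ (∀ c, c < N → t ^ c ≠ 0) ∧
        (∀ c o, c ≤ N → t ^ c * o = 0 → ∃ o', o = o' * t ^ (N - c)) ∧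
        (∃ u : Oˣ, io (b i0) = u * t) ∧
        Module.length O (O ⧸ Ideal.span {t}) ≤ rho ∧
        (∀ j x, j ≤ N → (x ∈ F' j ↔ ∃ o, io x = o * t ^ j)) ∧
        (∀ s : R →ₐ[k] R, (∀ j x, x ∈ F j → s x ∈ F j) → (∀ i, s (b i) - b i ∈ F 2) →
          ∃ tau : O →+* O, tau t = t ∧ ∀ x, tau (io x) = io (s x)) := by
  obtain ⟨Q, _, B, _, _, t, π, C, β, hpQ, htc, hreg, hs, hker, hCk, hCF, hCb, ⟨i0, hi0⟩, hσ⟩ :=
    rees p F b h0 hanti hmul hb hcomm hgen hinf
  obtain ⟨P, hP, hiP⟩ : ∃ P ∈ minimalPrimes B, π (β i0) ∉ P := by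
    by_contra hn
    push Not at hn
    apply hi0
    rw [← mem_nilradical, nilradical, ← Ideal.sInf_minimalPrimes]
    exact Submodule.mem_sInf.2 hn
  have : P.IsPrime := hP.1.1
  obtain ⟨rho, hrho⟩ := ENat.ne_top_iff_exists.1 (length_atPrime P hP)
  have h1P : π 1 ∉ P := by simpa using (Ideal.ne_top_iff_one P).1 this.ne_top
  refine ⟨i0, rho, fun j => {x | ∃ s z, π s ∉ P ∧ s * C x = z * t ^ j}, fun N => ?_⟩
  rcases Nat.eq_zero_or_pos N with rfl | hN
  · refine ⟨PUnit, inferInstance, 0, ⟨⟨⟨fun _ => 0, rfl⟩, fun _ _ => rfl⟩, rfl, fun _ _ => rfl⟩,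
      fun _ => rfl, fun _ _ => rfl, fun _ _ _ => ⟨0, rfl⟩, rfl, fun c hc => absurd hc (by omega),
      fun _ _ _ _ => ⟨0, rfl⟩, ⟨1, rfl⟩, by simp, fun j x hj => ?_,
      fun _ _ _ => ⟨RingHom.id _, rfl, fun _ => rfl⟩⟩
    obtain rfl : j = 0 := by omega
    exact ⟨fun _ => ⟨0, rfl⟩, fun _ => ⟨1, C x, h1P, by simp⟩⟩
  obtain ⟨O, _, lam, hcent, htN, hne, hc3, hu, hlen, hc6, hc7⟩ :=
    level p hpQ t htc hreg π hs hker P N hN
  refine ⟨O, inferInstance, lam t, lam.comp C, hcent t htc, fun c => hcent _ (hCk c), ?_, htN, hne,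
    hc3, ?_, by rw [hlen, ← hrho], fun j x hj => hc6 j (C x) hj, ?_⟩
  · intro j x hx
    obtain ⟨z, hz⟩ := hCF j x hx
    exact ⟨lam z, by rw [RingHom.comp_apply, hz, map_mul, map_pow]⟩
  · obtain ⟨u, hu⟩ := hu _ hiP
    exact ⟨u, by rw [RingHom.comp_apply, hCb, map_mul, hu]⟩
  · intro s h1 h2
    obtain ⟨σ, hσt, hσπ, hσC⟩ := hσ s h1 h2
    obtain ⟨τ, hτ⟩ := hc7 σ hσt hσπ
    exact ⟨τ, by rw [hτ, hσt], fun x => by rw [RingHom.comp_apply, hτ, hσC]; rfl⟩

end Pool.Agent.P.MP_7cb106_nt.Q2.Mic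

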