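import Pool.Agent.P.MP_7cb106_nt.Q2.BaseX
import Pool.Agent.P.MP_7cb106_nt.Q2.BaseIw

/-! Definitions for prime ideals of the completed group algebra. -/

set_option autoImplicit false

namespace Pool.Agent.P.MP_7cb106_nt.Q2

open Filter MonoidAlgebra

/-- the filtration of `G0` seen in `G` -/
def GX {G : Type} [Group G] {G0 : Subgroup G} (Γ : ℕ → Subgroup G0) (r : ℕ) : Subgroup G :=
  (Γ r).map G0.subtype

/-- span of the elements `h - 1`, `h ∈ H` -/
noncomputable def augS (k : Type) {G : Type} [Field k] [Group G] (H : Subgroup G) :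
    Submodule k (MonoidAlgebra k G) :=
  Submodule.span k ((fun g : G => of k G g - 1) '' (H : Set G))

/-- powers of the ideal generated by `H - 1` -/
noncomputable def DA (k : Type) {G : Type} [Field k] [Group G] (H : Subgroup G) (j : ℕ) :
    Submodule k (MonoidAlgebra k G) :=
  augS k H ^ j * ⊤

/-- the generators `g - 1` -/
noncomputable def bX (k : Type) {G : Type} [Field k] [Group G] {G0 : Subgroup G}
    (Γ : ℕ → Subgroup G0) (q : G0 ⧸ Γ 1) : MonoidAlgebra k G :=
  of k G (q.out : G0) - 1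

/-- a multiplicative filtration -/
structure MF {k R : Type} [Field k] [Ring R] [Algebra k R] (F : ℕ → Submodule k R) : Prop where
  top : F 0 = ⊤
  anti : Antitone F
  mul : ∀ i j x y, x ∈ F i → y ∈ F j → x * y ∈ F (i + j)

/-- the graded ring is generated by commuting symbols and a finite group -/
structure FX {k R ι G : Type} [Field k] [Ring R] [Algebra k R] [Group G] (F : ℕ → Submodule k R)
    (b : ι → R) (u : G →* R) (G0 : Subgroup G) : Prop where
  mf : MF F
  bmem : ∀ i, b i ∈ F 1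
  comm : ∀ i l, b i * b l - b l * b i ∈ F 3
  umem : ∀ g ∈ G0, u g - 1 ∈ F 1
  conj : ∀ g i, ∃ y ∈ Mic.Mon k b 1, u g * b i - y * u g ∈ F 2
  gen : ∀ j, F j ≤ Mic.Mon k b j * Submodule.span k (Set.range u) ⊔ F (j + 1)

/-- `R` is the completion of the group algebra -/
structure Cpl {k G R : Type} [Field k] [Group G] [Ring R] [Algebra k R] (Γ : ℕ → Subgroup G)
    (inc : MonoidAlgebra k G →ₐ[k] R) (K : ℕ → Submodule k R) : Prop where
  anti : Antitone K
  left : ∀ n x y, y ∈ K n → x * y ∈ K n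
  right : ∀ n x y, x ∈ K n → x * y ∈ K n
  dense : ∀ n x, ∃ a, x - inc a ∈ K n
  ker : ∀ n a, inc a ∈ K n ↔ a ∈ Kr k (Γ n)
  sep : ∀ x, (∀ n, x ∈ K n) → x = 0
  cpl : ∀ x : ℕ → R, (∀ n, x (n + 1) - x n ∈ K n) → ∃ y, ∀ n, y - x n ∈ K n

/-- closure of the image of a subspace of the group algebra, plus `P` -/
def clo {k G R : Type} [Field k] [Group G] [Ring R] [Algebra k R]
    (inc : MonoidAlgebra k G →ₐ[k] R) (K : ℕ → Submodule k R) (P : Ideal R)
    (X : Submodule k (MonoidAlgebra k G)) : Set R :=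
  {y | ∀ n, ∃ a ∈ X, ∃ z ∈ P, y - z - inc a ∈ K n}

/-- the filtration of the completed ring attached to an ideal -/
noncomputable def FR {k G R : Type} [Field k] [Group G] [Ring R] [Algebra k R]
    (inc : MonoidAlgebra k G →ₐ[k] R) (K : ℕ → Submodule k R) (G0 : Subgroup G) (P : Ideal R)
    (j : ℕ) : Submodule k R :=
  Submodule.restrictScalars k P ⊔ (DA k G0 j).map inc.toLinearMap ⊔ K j

/-- completeness -/
def Cmp {k R : Type} [Field k] [Ring R] [Algebra k R] (F : ℕ → Submodule k R) : Prop :=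
  ∀ x : ℕ → R, (∀ n, x (n + 1) - x n ∈ F n) → ∃ y, ∀ n, y - x n ∈ F n

/-- standard bases, one step -/
def Std {k R : Type} [Field k] [Ring R] [Algebra k R] (F : ℕ → Submodule k R) : Prop :=
  ∀ S : Set (ℕ × R), (∀ x ∈ S, x.2 ∈ F x.1) → ∃ S0 : Finset (ℕ × R), ↑S0 ⊆ S ∧
    ∀ x ∈ S, ∃ f : ℕ × R → R, (∀ y, f y ∈ F (x.1 - y.1)) ∧
      x.2 - ∑ y ∈ S0, f y * y.2 ∈ F (x.1 + 1)

/-- right multiplication by `c` loses at most `c0` degrees -/
def ARc {k R : Type} [Field k] [Ring R] [Algebra k R] (F : ℕ → Submodule k R) (c : R) (c0 : ℕ) :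
    Prop :=
  ∀ j x, x * c ∈ F (j + c0) → x ∈ F j

/-- `c` becomes a divisor of a power of `t` in the limit ring -/
def Gen (p : ℕ) {R N : Type} [Ring R] [Ring N] (Λ : Subring N) (t : N) (Φ : (ℕ → R) →+* N)
    (c : R) : Prop :=
  (∃ e : ℕ, ∃ W ∈ Λ, t ^ e = W * Φ fun _ => c) ∧ ∃ V, V * Φ (fun r => c ^ p ^ r) = 1

/-- a finite algebra over a commutative Noetherian subring of the centre -/
def FinC (B : Type) [Ring B] : Prop :=
  ∃ (Z : Type) (_ : CommRing Z) (_ : Algebra Z B), Function.Injective (algebraMap Z B) ∧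
    IsNoetherianRing Z ∧ Module.Finite Z B

/-- closed for the filtration `Γ` -/
def ClG {G : Type} [Group G] (Γ : ℕ → Subgroup G) (H : Subgroup G) : Prop :=
  ∀ x, (∀ j, ∃ y ∈ H, y⁻¹ * x ∈ Γ j) → x ∈ H

/-- `y` is the piece of `x` on the coset `q` -/
def Pc {k G R : Type} [Field k] [Group G] [Ring R] [Algebra k R]
    (inc : MonoidAlgebra k G →ₐ[k] R) (K : ℕ → Submodule k R) {H : Subgroup G} (j : ℕ)
    (q : G ⧸ H) (x y : R) : Prop :=
  ∀ n, j ≤ n → ∀ a, x - inc a ∈ K n → y - inc (res k (cs q) a) ∈ K n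

end Pool.Agent.P.MP_7cb106_nt.Q2
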