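import Pool.Agent.P.MP_7cb106_nt.Q2.Iface

/-! Definitions for groups with an open normal uniform subgroup. -/

set_option autoImplicit false

namespace Pool.Agent.P.MP_7cb106_nt.Q2

open Filter MonoidAlgebra

/-- group side: `Γ 0` is a normal subgroup of finite index with logarithm `L` -/
structure GD (p : ℕ) {G L : Type} [Group G] [AddCommGroup L] [DistribMulAction G L]
    (Γ : ℕ → Subgroup G) (ex : L → G) : Prop where
  anti : Antitone Γ
  normal : ∀ r, (Γ r).Normal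
  fin : ∀ r, (Γ r).FiniteIndex
  zero : ex 0 = 1
  frob : ∀ a, ex (p • a) = ex a ^ p
  act : ∀ (g : G) a, ex (g • a) = g * ex a * g⁻¹
  mem : ∀ r a, ex a ^ p ^ r ∈ Γ r
  add : ∀ r a b, (ex a ^ p ^ r * ex b ^ p ^ r)⁻¹ * ex (a + b) ^ p ^ r ∈ Γ (2 * r)
  cong : ∀ r j a b, a - b ∈ Lp p L j → (ex b ^ p ^ r)⁻¹ * ex a ^ p ^ r ∈ Γ (r + j)
  cont : ∀ j (g : G) (a : L), g ∈ Γ j → g • a - a ∈ Lp p L j
  lfin : ∀ j, Finite (L ⧸ Lp p L j)
  chev : Chev p L

/-- ring side: a filtration of the group algebra by left ideals, adapted to `Γ` -/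
structure FD (p : ℕ) {k G : Type} [Field k] [Group G] (Γ : ℕ → Subgroup G)
    (F : ℕ → Submodule k (MonoidAlgebra k G)) : Prop where
  anti : Antitone F
  left : ∀ n x y, y ∈ F n → x * y ∈ F n
  lev : ∀ r g, g ∈ Γ r → of k G g - 1 ∈ F (p ^ r)

/-- the limit ring of a filtered ring, without a distinguished element -/
structure Ult0 (p : ℕ) {R N : Type} [Ring R] [Ring N] (F : ℕ → Set R) (Λ : Subring N)
    (τ t : N) (Φ : (ℕ → R) →+* N) : Prop where
  amb : Amb Λ τ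
  mem : ∀ x, Φ x ∈ Λ
  deg : ∀ (K : ℕ) x, (∀ᶠ r in atTop, x r ∈ F (K * p ^ r)) → ∃ y ∈ Λ, Φ x = τ ^ K * y
  neg : ∀ x, (∀ K : ℕ, ∀ᶠ r in atTop, x r ∈ F (K * p ^ r)) → Φ x = 0
  tmem : t ∈ Λ
  tcen : ∀ x, t * x = x * t
  tdiv : ∀ m : ℕ, ∃ w ∈ Λ, τ = w * t ^ m

/-- the character of `L` in the limit ring -/
noncomputable def thX (p : ℕ) (k : Type) {G L N : Type} [Field k] [Group G] [Ring N] (ex : L → G)
    (Φ : (ℕ → MonoidAlgebra k G) →+* N) (a : L) : N :=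
  Φ fun r => of k G (ex a ^ p ^ r)

/-- hypothesis (U) -/
def AllGood (p : ℕ) (G : Type) {L N : Type} [Group G] [AddCommGroup L] [DistribMulAction G L]
    [Ring N] (th : L → N) : Prop :=
  ∀ E : AddSubgroup L, Iso p E → Cld p E → (Set.range fun g : G => mv g E).Finite → E ≠ ⊥ →
    Ideal.span ((fun a => th a - 1) '' (E : Set L)) = ⊤

end Pool.Agent.P.MP_7cb106_nt.Q2
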