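import Mathlib

/-! A lemma of Chevalley on decreasing chains of closed subspaces. -/

set_option autoImplicit false

namespace Pool.Agent.P.MP_7cb106_nt.Q2.NE

theorem chevalley {k V : Type} [Field k] [AddCommGroup V] [Module k V] (D X : ℕ → Submodule k V)
    (hD : Antitone D) (hfin : ∀ n, FiniteDimensional k (V ⧸ D n))
    (hcpl : ∀ a : ℕ → V, (∀ n, a (n + 1) - a n ∈ D n) → ∃ b, ∀ n, b - a n ∈ D n)
    (hX : Antitone X) (hcl : ∀ j x, (∀ n, x ∈ X j ⊔ D n) → x ∈ X j) (n : ℕ) :
    ∃ j, X j ≤ (⨅ j, X j) ⊔ D n := by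
  have h1 : ∀ n, ∃ j, ∀ j', X j ≤ X j' ⊔ D n := by
    intro n
    have := hfin n
    obtain ⟨j, hj⟩ := IsArtinian.monotone_stabilizes (R := k) (M := V ⧸ D n)
      ⟨fun j => OrderDual.toDual ((X j).map (D n).mkQ), fun i j h => Submodule.map_mono (hX h)⟩
    refine ⟨j, fun j' => ?_⟩
    rcases le_total j j' with h | h
    · have h2 : (X j).map (D n).mkQ = (X j').map (D n).mkQ := hj j' h
      have h3 := congrArg (Submodule.comap (D n).mkQ) h2
      rw [Submodule.comap_map_mkQ, Submodule.comap_map_mkQ] at h3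
      exact le_sup_right.trans (h3.le.trans (sup_comm _ _).le)
    · exact le_sup_of_le_left (hX h)
  choose J hJ using h1
  refine ⟨J n, fun x hx => ?_⟩
  have h2 : ∀ m, ∀ y ∈ X (J m), ∃ z ∈ X (J (m + 1)), z - y ∈ D m := fun m y hy => by
    obtain ⟨z, hz, d, hd, rfl⟩ := Submodule.mem_sup.1 (hJ m (J (m + 1)) hy)
    exact ⟨z, hz, by simpa using hd⟩
  choose! f hf hf' using h2
  let a : ℕ → V := fun m => Nat.rec x (fun i y => f (n + i) y) m
  have ha : ∀ m, a m ∈ X (J (n + m)) := by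
    intro m
    induction m with
    | zero => exact hx
    | succ m ih => exact hf _ _ ih
  have hs : ∀ m, a (m + 1) - a m ∈ D (n + m) := fun m => hf' _ _ (ha m)
  obtain ⟨b, hb⟩ := hcpl a fun m => hD (Nat.le_add_left m n) (hs m)
  have h3 : ∀ m, a m - x ∈ D n := by
    intro m
    induction m with
    | zero => exact (sub_self x).symm ▸ zero_mem _
    | succ m ih => simpa using add_mem (hD (Nat.le_add_right n m) (hs m)) ih
  refine Submodule.mem_sup.2 ⟨b, (Submodule.mem_iInf _).2 fun j => hcl j b fun m => ?_, x - b, ?_,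
    by simp⟩
  · have h4 := sup_le_sup_left (hD (Nat.le_add_left m n)) (X j) (hJ (n + m) j (ha m))
    simpa using add_mem (Submodule.mem_sup_right (hb m)) h4
  · simpa using neg_mem (add_mem (hb n) (h3 n))

end Pool.Agent.P.MP_7cb106_nt.Q2.NE
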