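import Pool.Agent.P.MP_7cb106_nt.Q2.Iface

/-! The normal subgroups attached to a stable isolated subgroup of `L`. -/

set_option autoImplicit false

namespace Pool.Agent.P.MP_7cb106_nt.Q2.NE

open Subgroup
open scoped commutatorElement

variable {G : Type} [Group G]

lemma pow_mul_cls {a b c : G} (h : b * a = c * a * b) (ha : Commute c a) (hb : Commute c b)
    (n : ℕ) : (a * b) ^ n = c ^ n.choose 2 * a ^ n * b ^ n := by
  have h1 : ∀ n : ℕ, b ^ n * a = c ^ n * a * b ^ n := by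
    intro n
    induction n with
    | zero => simp
    | succ n ih =>
      calc b ^ (n + 1) * a = b * (b ^ n * a) := by rw [pow_succ', mul_assoc]
        _ = b * c ^ n * a * b ^ n := by rw [ih]; simp only [mul_assoc]
        _ = c ^ n * (b * a) * b ^ n := by rw [← (hb.pow_left n).eq]; simp only [mul_assoc]
        _ = c ^ (n + 1) * a * b ^ (n + 1) := by
          rw [h, pow_succ c, pow_succ' b]; simp only [mul_assoc]
  induction n with
  | zero => simp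
  | succ n ih =>
    calc (a * b) ^ (n + 1) = c ^ n.choose 2 * a ^ n * (b ^ n * a) * b := by
          rw [pow_succ, ih]; simp only [mul_assoc]
      _ = c ^ n.choose 2 * (a ^ n * c ^ n) * a * (b ^ n * b) := by
          rw [h1]; simp only [mul_assoc]
      _ = c ^ (n + 1).choose 2 * a ^ (n + 1) * b ^ (n + 1) := by
          rw [← (ha.pow_pow n n).eq, Nat.choose_succ_succ' n 1, Nat.choose_one_right, add_comm n (n.choose _),
            pow_add c, pow_succ a, pow_succ b]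
          simp only [mul_assoc]

lemma comm_iff {K : Subgroup G} [K.Normal] {x y : G} :
    ⁅x, y⁆ ∈ K ↔ Commute (x : G ⧸ K) y := by
  rw [← QuotientGroup.eq_one_iff, ← commutatorElement_eq_one_iff_commute]
  rfl

lemma comm_symm {K : Subgroup G} {x y : G} (h : ⁅x, y⁆ ∈ K) : ⁅y, x⁆ ∈ K := by
  rw [← commutatorElement_inv]; exact K.inv_mem h

/-- `(a b)^n = a^n b^n` modulo `K`. -/
lemma pow_mul_cg {K : Subgroup G} [K.Normal] {a b : G} {n : ℕ} (ha : ⁅⁅b, a⁆, a⁆ ∈ K)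
    (hb : ⁅⁅b, a⁆, b⁆ ∈ K) (hc : ⁅b, a⁆ ^ n.choose 2 ∈ K) :
    (((a * b) ^ n : G) : G ⧸ K) = (a ^ n * b ^ n : G) := by
  have h := pow_mul_cls (a := (a : G ⧸ K)) (b := b) (c := (⁅b, a⁆ : G))
    (by rw [← QuotientGroup.mk_mul, ← QuotientGroup.mk_mul, ← QuotientGroup.mk_mul]
        congr 1; rw [commutatorElement_def]; group) (comm_iff.1 ha) (comm_iff.1 hb) n
  rw [← QuotientGroup.mk_pow K ⁅b, a⁆, (QuotientGroup.eq_one_iff _).2 hc, one_mul] at h
  simpa using h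

/-- the commutator with a power -/
lemma comm_pow {K : Subgroup G} [K.Normal] {g x : G} {n : ℕ} (ha : ⁅⁅x, ⁅g, x⁆⁆, ⁅g, x⁆⁆ ∈ K)
    (hb : ⁅⁅x, ⁅g, x⁆⁆, x⁆ ∈ K) (hc : ⁅x, ⁅g, x⁆⁆ ^ n.choose 2 ∈ K) :
    ((⁅g, x ^ n⁆ : G) : G ⧸ K) = (⁅g, x⁆ ^ n : G) := by
  have h := pow_mul_cg ha hb hc
  have e : (⁅g, x⁆ * x) ^ n = ⁅g, x ^ n⁆ * x ^ n := by
    have : ⁅g, x⁆ * x = g * x * g⁻¹ := by rw [commutatorElement_def]; group
    rw [this, conj_pow, commutatorElement_def]; group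
  rw [e, QuotientGroup.mk_mul, QuotientGroup.mk_mul] at h
  exact mul_right_cancel h

lemma mem_of_cg {K : Subgroup G} [K.Normal] {x y : G} (h : (x : G ⧸ K) = y) (hy : y ∈ K) :
    x ∈ K := by
  rw [← QuotientGroup.eq_one_iff] at hy ⊢
  exact h.trans hy

lemma comm_mem {K : Subgroup G} [K.Normal] {x : G} (hx : x ∈ K) (y : G) : ⁅x, y⁆ ∈ K :=
  commutator_le_left K ⊤ (commutator_mem_commutator hx (mem_top y))

variable {p c : ℕ} {L : Type} [AddCommGroup L] [DistribMulAction G L] {Γ : ℕ → Subgroup G}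
  {ex : L ≃ G} {E : AddSubgroup L}

omit [Group G] [DistribMulAction G L] in
lemma iso_sup (hE : Iso p E) {m : ℕ} {a : L} (h : p • a ∈ E ⊔ Lp p L (m + 1)) :
    a ∈ E ⊔ Lp p L m := by
  obtain ⟨e, he, _, ⟨l, rfl⟩, h⟩ := AddSubgroup.mem_sup.1 h
  refine AddSubgroup.mem_sup.2 ⟨a - p ^ m • l, hE _ ?_, p ^ m • l, ⟨l, rfl⟩, by simp⟩
  rw [smul_sub, ← h, ← mul_smul, ← pow_succ']
  simpa using he

omit [Group G] [DistribMulAction G L] in
lemma iso_sup_pow (hE : Iso p E) {m : ℕ} (s : ℕ) {a : L} (h : p ^ s • a ∈ E ⊔ Lp p L (m + s)) :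
    a ∈ E ⊔ Lp p L m := by
  induction s with
  | zero => simpa using h
  | succ s ih => exact ih (iso_sup hE (by rwa [← mul_smul, ← pow_succ']))

omit [Group G] [DistribMulAction G L] in
lemma smul_sup {m : ℕ} {a : L} (h : a ∈ E ⊔ Lp p L m) : p • a ∈ E ⊔ Lp p L (m + 1) := by
  obtain ⟨e, he, _, ⟨l, rfl⟩, rfl⟩ := AddSubgroup.mem_sup.1 h
  exact AddSubgroup.mem_sup.2 ⟨p • e, E.nsmul_mem he _, _, ⟨l, rfl⟩, by
    simp [pow_succ', mul_smul]⟩

/-- approximate version of the subgroup -/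
def NN (p : ℕ) (Γ : ℕ → Subgroup G) (ex : L ≃ G) (E : AddSubgroup L) (r i : ℕ) (x : G) : Prop :=
  x ∈ Γ r ∧ ex.symm x ∈ E ⊔ Lp p L (r + i)

lemma symm_pow (T : Lie p Γ ex) (n : ℕ) (x : G) : ex.symm (x ^ n) = n • ex.symm x := by
  rw [Equiv.symm_apply_eq, T.nsmul, Equiv.apply_symm_apply]

lemma symm_inv (T : Lie p Γ ex) (x : G) : ex.symm x⁻¹ = -ex.symm x := by
  rw [Equiv.symm_apply_eq, T.neg, Equiv.apply_symm_apply]

lemma symm_conj (T : Lie p Γ ex) (g x : G) : ex.symm (g * x * g⁻¹) = g • ex.symm x := by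
  rw [Equiv.symm_apply_eq, T.act, Equiv.apply_symm_apply]

omit [DistribMulAction G L] in
lemma NN.mono (U : UF p c Γ) {r i r' i' : ℕ} {x : G} (h : NN p Γ ex E r i x) (h1 : r' ≤ r)
    (h2 : r' + i' ≤ r + i) : NN p Γ ex E r' i' x :=
  ⟨U.anti h1 h.1, sup_le_sup_left (Lp_anti p L h2) E h.2⟩

lemma NN.cg (U : UF p c Γ) (T : Lie p Γ ex) {r i : ℕ} {x y : G} (h : NN p Γ ex E r i x)
    (e : x⁻¹ * y ∈ Γ (r + i)) : NN p Γ ex E r i y := by
  refine ⟨by simpa using (Γ r).mul_mem h.1 (U.anti (by omega) e), ?_⟩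
  have h1 := (T.cong (r + i) (ex.symm y) (ex.symm x)).2 (by simpa using e)
  simpa using AddSubgroup.add_mem _ h.2 (AddSubgroup.mem_sup_right h1)

lemma NN.pow (U : UF p c Γ) (T : Lie p Γ ex) {r i : ℕ} {x : G} (h : NN p Γ ex E r i x) :
    NN p Γ ex E (r + 1) i (x ^ p) :=
  ⟨U.pow_mem _ _ h.1, by rw [symm_pow T, add_right_comm]; exact smul_sup h.2⟩

lemma NN.root (U : UF p c Γ) (T : Lie p Γ ex) (hE : Iso p E) {r i : ℕ} {x : G}
    (h : NN p Γ ex E (r + 1) i (x ^ p)) : NN p Γ ex E r i x :=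
  ⟨U.pow_inj _ _ h.1, iso_sup hE (by have := h.2; rwa [symm_pow T, add_right_comm] at this)⟩

/-- the subgroup, once closure under products is known -/
def NS (T : Lie p Γ ex) {r i : ℕ}
    (h : ∀ x y, NN p Γ ex E r i x → NN p Γ ex E r i y → NN p Γ ex E r i (x * y)) : Subgroup G where
  carrier := {x | NN p Γ ex E r i x}
  mul_mem' := h _ _
  one_mem' := ⟨one_mem _, by rw [← T.zero, Equiv.symm_apply_apply]; exact zero_mem _⟩
  inv_mem' := fun hx => ⟨inv_mem hx.1, by rw [symm_inv T]; exact neg_mem hx.2⟩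

lemma NN.conj (U : UF p c Γ) (T : Lie p Γ ex) (hs : ∀ g : G, ∀ e ∈ E, g • e ∈ E) {r i : ℕ} {x : G}
    (h : NN p Γ ex E r i x) (g : G) : NN p Γ ex E r i (g * x * g⁻¹) := by
  refine ⟨(U.normal r).conj_mem x h.1 g, ?_⟩
  obtain ⟨e, he, _, ⟨l, rfl⟩, h2⟩ := AddSubgroup.mem_sup.1 h.2
  rw [symm_conj T, ← h2, smul_add]
  exact AddSubgroup.add_mem_sup (hs g e he) ⟨g • l, by simp [smul_comm g]⟩

lemma base (hC : S_CONT) (U : UF p c Γ) (T : Lie p Γ ex) (hs : ∀ g : G, ∀ e ∈ E, g • e ∈ E)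
    {r i : ℕ} (hr : i ≤ r) :
    (∀ x y, NN p Γ ex E r i x → NN p Γ ex E r i y → NN p Γ ex E r i (x * y)) ∧
    ∀ s g y, g ∈ Γ s → NN p Γ ex E r i y → NN p Γ ex E (r + s + 1) i ⁅g, y⁆ := by
  obtain ⟨hL, hcont⟩ := hC p c G L Γ ex U T
  have hc := U.c1
  constructor
  · intro x y hx hy
    obtain ⟨a, rfl⟩ := ex.surjective x
    obtain ⟨b, rfl⟩ := ex.surjective y
    have ha := (hL r a).2 hx.1
    have hb := (hL r b).2 hy.1
    have h1 : NN p Γ ex E r i (ex (a + b)) :=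
      ⟨(hL _ _).1 (add_mem ha hb), by simpa using add_mem hx.2 hy.2⟩
    exact h1.cg U T (by simpa using inv_mem (U.anti (by omega : r + i ≤ r + r + 1) (T.add r r a b ha hb)))
  · intro s g y hg hy
    obtain ⟨b, rfl⟩ := ex.surjective y
    have hb := (hL r b).2 hy.1
    have hu : g • b - b ∈ Lp p L (r + s + 1) := Lp_anti p L (by omega) (hcont s r g b hg hb)
    have h1 : NN p Γ ex E (r + s + 1) i (ex (g • b - b)) := by
      refine ⟨(hL _ _).1 hu, ?_⟩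
      obtain ⟨e, he, l, hl, h2⟩ := AddSubgroup.mem_sup.1 hy.2
      rw [Equiv.symm_apply_apply] at h2 ⊢
      rw [← h2, smul_add, add_sub_add_comm]
      exact AddSubgroup.add_mem_sup (sub_mem (hs g e he) he)
        (Lp_anti p L (by omega) (hcont s _ g l hg hl))
    refine h1.cg U T ?_
    have h2 := T.add _ _ _ _ hu hb
    rw [sub_add_cancel, T.act] at h2
    have h3 := (U.normal _).conj_mem _ (U.anti (by omega : r + s + 1 + i ≤ r + s + 1 + r + 1) h2)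
      (ex b)
    simpa [commutatorElement_def, mul_assoc] using h3

lemma main (hC : S_CONT) (U : UF p c Γ) (T : Lie p Γ ex) (hE : Iso p E)
    (hs : ∀ g : G, ∀ e ∈ E, g • e ∈ E) (i : ℕ) : ∀ r, 1 ≤ r →
    (∀ x y, NN p Γ ex E r i x → NN p Γ ex E r i y → NN p Γ ex E r i (x * y)) ∧
    ∀ s g y, g ∈ Γ s → NN p Γ ex E r i y → NN p Γ ex E (r + s + 1) i ⁅g, y⁆ := by
  induction i with
  | zero => exact fun r _ => base hC U T hs (Nat.zero_le r)
  | succ i ih =>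
    have hc := U.c1
    suffices h : ∀ d r, 1 ≤ r → i + 1 ≤ r + d →
        (∀ x y, NN p Γ ex E r (i + 1) x → NN p Γ ex E r (i + 1) y →
          NN p Γ ex E r (i + 1) (x * y)) ∧
        ∀ s g y, g ∈ Γ s → NN p Γ ex E r (i + 1) y → NN p Γ ex E (r + s + 1) (i + 1) ⁅g, y⁆ from
      fun r hr => h (i + 1) r hr (by omega)
    intro d
    induction d with
    | zero => exact fun r _ h => base hC U T hs h
    | succ d ihd =>
      intro r hr hd
      have k : ∀ s g y, g ∈ Γ s → NN p Γ ex E r (i + 1) y →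
          NN p Γ ex E (r + s + 1) (i + 1) ⁅g, y⁆ := by
        intro s g y hg hy
        let K := NS T (ihd (r + s + 1 + 1) (by omega) (by omega)).1
        have : K.Normal := ⟨fun x hx g => NN.conj U T hs hx g⟩
        have h1 : ⁅g, y⁆ ∈ Γ (r + s + 1) := U.anti (by omega) (U.comm s r g y hg hy.1)
        have h2 : ⁅y, ⁅g, y⁆⁆ ∈ K := comm_symm (NN.mono U
          ((ih r hr).2 _ _ y h1 (hy.mono U le_rfl (by omega))) (by omega) (by omega))
        have h3 : ⁅g, y ^ p⁆ ∈ K := NN.mono U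
          ((ihd (r + 1) (by omega) (by omega)).2 s g _ hg (hy.pow U T)) (by omega) (by omega)
        exact NN.root U T hE
          (mem_of_cg (comm_pow (comm_mem h2 _) (comm_mem h2 _) (K.pow_mem h2 _)).symm h3)
      refine ⟨fun x y hx hy => ?_, k⟩
      let K := NS T (ihd (r + 1) (by omega) (by omega)).1
      have : K.Normal := ⟨fun x hx g => NN.conj U T hs hx g⟩
      have h2 : ⁅y, x⁆ ∈ K := NN.mono U (k r y x hy.1 hx) (by omega) (by omega)
      exact NN.root U T hE (mem_of_cg (pow_mul_cg (comm_mem h2 _) (comm_mem h2 _) (K.pow_mem h2 _))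
        (K.mul_mem (hx.pow U T) (hy.pow U T)))

/-- For `E` closed, isolated and stable, the exponential of `p ^ (i + 1) E` is a normal subgroup. -/
theorem exists_normal (hC : S_CONT) (U : UF p c Γ) (T : Lie p Γ ex) (hE : Iso p E) (hcl : Cld p E)
    (hs : ∀ g : G, ∀ e ∈ E, g • e ∈ E) :
    ∃ N : ℕ → Subgroup G, (∀ i x, x ∈ N i ↔ x ∈ Γ (i + 1) ∧ ex.symm x ∈ E) ∧ (∀ i, (N i).Normal) ∧
      (∀ s i g x, g ∈ Γ s → x ∈ N i → g * x * g⁻¹ * x⁻¹ ∈ N (i + s + 1)) ∧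
      (∀ i x, x ^ p ∈ N (i + 1) ↔ x ∈ N i) ∧ (∀ i x, x ∈ N (i + 1) → ∃ y ∈ N i, y ^ p = x) := by
  have key : ∀ r x, (∀ j, NN p Γ ex E r j x) ↔ x ∈ Γ r ∧ ex.symm x ∈ E := fun r x =>
    ⟨fun h => ⟨(h 0).1, hcl _ fun j => sup_le_sup_left (Lp_anti p L (by omega)) E (h j).2⟩,
      fun h j => ⟨h.1, AddSubgroup.mem_sup_left h.2⟩⟩
  let N : ℕ → Subgroup G := fun i => ⨅ j, NS T (main hC U T hE hs j (i + 1) (by omega)).1
  have hN : ∀ i x, x ∈ N i ↔ ∀ j, NN p Γ ex E (i + 1) j x := fun i x => mem_iInf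
  have hr : ∀ i x, x ^ p ∈ N (i + 1) ↔ x ∈ N i := fun i x => by
    rw [hN, hN]
    exact ⟨fun h j => (h j).root U T hE, fun h j => (h j).pow U T⟩
  refine ⟨N, fun i x => (hN i x).trans (key _ x),
    fun i => ⟨fun x hx g => (hN _ _).2 fun j => ((hN _ _).1 hx j).conj U T hs g⟩,
    fun s i g x hg hx => (hN _ _).2 fun j => NN.mono U
      ((main hC U T hE hs j (i + 1) (by omega)).2 s g x hg ((hN _ _).1 hx j)) (by omega) (by omega),
    hr, fun i x hx => ?_⟩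
  obtain ⟨y, -, rfl⟩ := U.pow_surj _ _ ((hN _ _).1 hx 0).1
  exact ⟨y, (hr i y).1 hx, rfl⟩

end Pool.Agent.P.MP_7cb106_nt.Q2.NE
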