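import Pool.Agent.P.MP_7cb106_nt.Q2.Base

/-! Statements of the steps. -/

set_option autoImplicit false

namespace Pool.Agent.P.MP_7cb106_nt.Q2

open Filter MonoidAlgebra

/-- a filtration by left ideals above the powers of the augmentation ideal -/
structure Fil {k G : Type} [Field k] [Group G] (F : ℕ → Submodule k (MonoidAlgebra k G)) :
    Prop where
  mp : ∀ n, Mp k G n ≤ F n
  anti : Antitone F
  left : ∀ n x y, y ∈ F n → x * y ∈ F n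

/-- the character of `L` in the limit ring -/
noncomputable def thN (p : ℕ) (k : Type) {G L N : Type} [Field k] [Group G] [Ring N] (ex : L ≃ G)
    (Φ : (ℕ → MonoidAlgebra k G) →+* N) (a : L) : N :=
  Φ fun r => of k G (ex a ^ p ^ r)

/-! ### powerful groups -/

-- deps:
def S_FNAK : Prop := ∀ (p : ℕ) [Fact p.Prime] (Q : Type) [Group Q] [Finite Q], IsPGroup p Q →
  ∀ H M : Subgroup Q, H.Normal → M.Normal →
  H ≤ M ⊔ ⁅H, ⊤⁆ ⊔ Subgroup.closure ((fun x : Q => x ^ p) '' (H : Set Q)) → H ≤ M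

-- deps: FNAK
def S_NAK : Prop := ∀ (p : ℕ) [Fact p.Prime] (G : Type) [Group G] [TopologicalSpace G]
  [IsTopologicalGroup G] [CompactSpace G] [T2Space G] [TotallyDisconnectedSpace G], ProP p G →
  ∀ H M : Subgroup G, H.Normal → M.Normal → IsClosed (M : Set G) →
  H ≤ (M ⊔ ⁅H, ⊤⁆ ⊔ Subgroup.closure ((fun x : G => x ^ p) '' (H : Set G))).topologicalClosure →
  H ≤ M

-- deps:
def S_PWN : Prop := ∀ (p : ℕ) (G : Type) [Group G] [TopologicalSpace G] [IsTopologicalGroup G]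
  (H : Subgroup G), H.Normal → (Pw p H).Normal ∧
    (Subgroup.closure ((fun x : G => x ^ p) '' (H : Set G))).Normal

-- deps: NAK PWN
def S_PE1 : Prop := ∀ (p : ℕ) [Fact p.Prime] (G : Type) [Group G] [TopologicalSpace G]
  [IsTopologicalGroup G] [CompactSpace G] [T2Space G] [TotallyDisconnectedSpace G], ProP p G →
  p ≠ 2 → ∀ H : Subgroup G, H.Normal → ⁅H, ⊤⁆ ≤ Pw p H → ⁅Pw p H, ⊤⁆ ≤ Pw p (Pw p H)

-- deps: NAK PWN
def S_PE2 : Prop := ∀ (G : Type) [Group G] [TopologicalSpace G]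
  [IsTopologicalGroup G] [CompactSpace G] [T2Space G] [TotallyDisconnectedSpace G], ProP 2 G →
  ∀ H : Subgroup G, H.Normal → ⁅H, ⊤⁆ ≤ Pw 2 (Pw 2 H) → ⁅Pw 2 H, ⊤⁆ ≤ Pw 2 (Pw 2 (Pw 2 H))

-- deps: PWN
def S_GM0 : Prop := ∀ (p : ℕ) (G : Type) [Group G] [TopologicalSpace G] [IsTopologicalGroup G]
  (r : ℕ), (Gm p G r).Normal ∧ IsClosed (Gm p G r : Set G) ∧ Gm p G (r + 1) ≤ Gm p G r ∧
    ∀ x ∈ Gm p G r, x ^ p ∈ Gm p G (r + 1)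

-- deps: FNAK GM0
def S_GMS : Prop := ∀ (p : ℕ) [Fact p.Prime] (G : Type) [Group G] [TopologicalSpace G]
  [IsTopologicalGroup G] [CompactSpace G] [T2Space G] [TotallyDisconnectedSpace G], ProP p G →
  (∀ U : OpenNormalSubgroup G, ∃ r, Gm p G r ≤ U.toSubgroup) ∧
  ∀ x : G, (∀ r, x ∈ Gm p G r) → x = 1

-- deps: GM0 PE1 PE2 GMS
def S_PFA : Prop := ∀ (p : ℕ) [Fact p.Prime] (G : Type) [Group G] [TopologicalSpace G]
  [IsTopologicalGroup G] [CompactSpace G] [T2Space G] [TotallyDisconnectedSpace G], ProP p G →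
  commutator G ≤ (Subgroup.closure
    (Set.range fun x : G => x ^ (if p = 2 then 4 else p))).topologicalClosure →
  ∃ c, PF p c (Gm p G)

-- deps:
def S_COM : Prop := ∀ (p c : ℕ) (G : Type) [Group G] [TopologicalSpace G]
  [IsTopologicalGroup G] (Γ : ℕ → Subgroup G), PF p c Γ → Com c Γ

-- deps:
def S_POW : Prop := ∀ (p c : ℕ) [Fact p.Prime] (G : Type) [Group G] [TopologicalSpace G]
  [IsTopologicalGroup G] (Γ : ℕ → Subgroup G), PF p c Γ → Com c Γ → PwM p Γ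

-- deps:
def S_SURJ : Prop := ∀ (p c : ℕ) (G : Type) [Group G] [TopologicalSpace G]
  [IsTopologicalGroup G] [CompactSpace G] [T2Space G] (Γ : ℕ → Subgroup G), PF p c Γ → PwM p Γ →
  ∀ r g, g ∈ Γ (r + 1) → ∃ x ∈ Γ r, x ^ p = g

-- deps:
def S_FIN : Prop := ∀ (p c : ℕ) [Fact p.Prime] (G : Type) [Group G] [TopologicalSpace G]
  [IsTopologicalGroup G] (Γ : ℕ → Subgroup G), PF p c Γ → PwM p Γ →
  (∀ r g, g ∈ Γ (r + 1) → ∃ x ∈ Γ r, x ^ p = g) →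
  (∃ S : Finset G, (Subgroup.closure (S : Set G)).topologicalClosure = ⊤) →
  ∀ r, (Γ r).FiniteIndex

-- deps:
def S_INJ : Prop := ∀ (p c : ℕ) (G : Type) [Group G] [TopologicalSpace G]
  [IsTopologicalGroup G] [CompactSpace G] [T2Space G] (Γ : ℕ → Subgroup G), PF p c Γ → PwM p Γ →
  (∀ r g, g ∈ Γ (r + 1) → ∃ x ∈ Γ r, x ^ p = g) → (∀ x : G, x ^ p = 1 → x = 1) →
  ∀ r x, x ^ p ∈ Γ (r + 1) → x ∈ Γ r

-- deps: COM POW SURJ FIN INJ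
def S_UFA : Prop := ∀ (p c : ℕ) [Fact p.Prime] (G : Type) [Group G] [TopologicalSpace G]
  [IsTopologicalGroup G] [CompactSpace G] [T2Space G] (Γ : ℕ → Subgroup G), PF p c Γ →
  (∃ S : Finset G, (Subgroup.closure (S : Set G)).topologicalClosure = ⊤) →
  (∀ x : G, x ^ p = 1 → x = 1) → UF p c Γ ∧ ∀ r, IsOpen (Γ r : Set G)

/-! ### the additive structure -/

-- deps:
def S_PWC : Prop := ∀ (p c : ℕ) (G : Type) [Group G] (Γ : ℕ → Subgroup G), UF p c Γ → PwC p Γ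

-- deps:
def S_PWS : Prop := ∀ (p c : ℕ) (G : Type) [Group G] (Γ : ℕ → Subgroup G), UF p c Γ →
  ∀ j r, (∀ x ∈ Γ j, x ^ p ^ r ∈ Γ (j + r)) ∧ ∀ g ∈ Γ (j + r), ∃ x ∈ Γ j, x ^ p ^ r = g

-- deps: PWC PWS
def S_PWI : Prop := ∀ (p c : ℕ) (G : Type) [Group G] (Γ : ℕ → Subgroup G), UF p c Γ →
  ∀ s s' r x y, x ∈ Γ s → y ∈ Γ s' →
    (x ^ p ^ r * y ^ p ^ r)⁻¹ * (x * y) ^ p ^ r ∈ Γ (s + s' + r + 1)

-- deps: PWC PWS
def S_LIE1 : Prop := ∀ (p c : ℕ) (G : Type) [Group G] (Γ : ℕ → Subgroup G), UF p c Γ →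
  ∀ x y : G, ∃ z : G, ∀ r, (x ^ p ^ r * y ^ p ^ r)⁻¹ * z ^ p ^ r ∈ Γ (2 * r)

-- deps: PWC PWS LIE1
def S_LIE2 : Prop := ∀ (p c : ℕ) (G : Type) [Group G] (Γ : ℕ → Subgroup G), UF p c Γ →
  ∃ (L : Type) (_ : AddCommGroup L) (ex : L ≃ G),
    ∀ a b r, (ex a ^ p ^ r * ex b ^ p ^ r)⁻¹ * ex (a + b) ^ p ^ r ∈ Γ (2 * r)

-- deps: PWC PWS PWI
def S_LIE3 : Prop := ∀ (p c : ℕ) (G L : Type) [Group G] [AddCommGroup L] (Γ : ℕ → Subgroup G)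
  (ex : L ≃ G), UF p c Γ →
  (∀ a b r, (ex a ^ p ^ r * ex b ^ p ^ r)⁻¹ * ex (a + b) ^ p ^ r ∈ Γ (2 * r)) →
  ∃ _ : DistribMulAction G L, Lie p Γ ex

-- deps:
def S_CONT : Prop := ∀ (p c : ℕ) (G L : Type) [Group G] [AddCommGroup L] [DistribMulAction G L]
  (Γ : ℕ → Subgroup G) (ex : L ≃ G), UF p c Γ → Lie p Γ ex →
  (∀ j a, a ∈ Lp p L j ↔ ex a ∈ Γ j) ∧
  ∀ s j (g : G) (a : L), g ∈ Γ s → a ∈ Lp p L j → g • a - a ∈ Lp p L (s + j + c)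

-- deps: CONT
def S_LFIN : Prop := ∀ (p c : ℕ) (G L : Type) [Group G] [AddCommGroup L] [DistribMulAction G L]
  (Γ : ℕ → Subgroup G) (ex : L ≃ G), UF p c Γ → Lie p Γ ex →
  (∀ j, Finite (L ⧸ Lp p L j)) ∧ Chev p L

-- deps: CONT
def S_SEP : Prop := ∀ (p c : ℕ) (G L : Type) [Group G] [AddCommGroup L] [DistribMulAction G L]
  (Γ : ℕ → Subgroup G) (ex : L ≃ G), UF p c Γ → Lie p Γ ex →
  (∀ z : G, (∀ g, z * g = g * z) → z = 1) → Sep p L Γ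

-- deps:
def S_IR1 : Prop := ∀ (p c m : ℕ) [Fact p.Prime] (L : Type) [AddCommGroup L] (E : AddSubgroup L)
  (A : L →+ L), 1 ≤ c → c ≤ m → Iso p E → (∀ a, A a - a ∈ Lp p L c) →
  (∀ e ∈ E, A e - e ∈ E ⊔ Lp p L m) → ∀ y, A y - y ∈ E ⊔ Lp p L m →
  (∀ n : ℕ, A^[n] y - y - n • (A y - y) ∈ E ⊔ Lp p L (m + 1)) ∧
  (2 ≤ (p - 1) * c → A^[p] y - y - p • (A y - y) ∈ E ⊔ Lp p L (m + 2))

-- deps: IR1 CONT
def S_IR2 : Prop := ∀ (p c : ℕ) [Fact p.Prime] (G L : Type) [Group G] [AddCommGroup L]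
  [DistribMulAction G L] (Γ : ℕ → Subgroup G) (ex : L ≃ G), UF p c Γ → Lie p Γ ex →
  ∀ E : AddSubgroup L, Iso p E → Cld p E → (Set.range fun g : G => mv g E).Finite →
  ∀ g : G, ∀ e ∈ E, g • e ∈ E

-- deps: IR1 CONT
def S_IR3 : Prop := ∀ (p c : ℕ) [Fact p.Prime] (G L : Type) [Group G] [AddCommGroup L]
  [DistribMulAction G L] (Γ : ℕ → Subgroup G) (ex : L ≃ G), UF p c Γ → Lie p Γ ex →
  ∀ E : AddSubgroup L, Iso p E → Cld p E → (∀ g : G, ∀ e ∈ E, g • e ∈ E) →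
  ∀ a ∈ E, ∀ b : L, ex a • b - b ∈ E

-- deps: IR1 CONT IR3 PWS
def S_IR4 : Prop := ∀ (p c : ℕ) [Fact p.Prime] (G L : Type) [Group G] [AddCommGroup L]
  [DistribMulAction G L] (Γ : ℕ → Subgroup G) (ex : L ≃ G), UF p c Γ → Lie p Γ ex → AS Γ →
  ∀ E : AddSubgroup L, Iso p E → Cld p E → (∀ g : G, ∀ e ∈ E, g • e ∈ E) → E ≠ ⊥ →
  ∀ (g : G) (b : L), g • b - b ∈ E

-- deps: CONT
def S_IR5 : Prop := ∀ (p c : ℕ) [Fact p.Prime] (G L : Type) [Group G] [AddCommGroup L]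
  [DistribMulAction G L] (Γ : ℕ → Subgroup G) (ex : L ≃ G), UF p c Γ → Lie p Γ ex → AS Γ →
  ∀ E : AddSubgroup L, Iso p E → Cld p E → E ≠ ⊥ → (∀ (g : G) (b : L), g • b - b ∈ E) → E = ⊤

-- deps: IR2 IR4 IR5
def S_IRR : Prop := ∀ (p c : ℕ) [Fact p.Prime] (G L : Type) [Group G] [AddCommGroup L]
  [DistribMulAction G L] (Γ : ℕ → Subgroup G) (ex : L ≃ G), UF p c Γ → Lie p Γ ex → AS Γ →
  Irr p G L

/-! ### the limit ring -/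

-- deps:
def S_NR1 : Prop := ∀ (O : Type) [Ring O] (t : O) (ρ : ℕ), (∀ o, t * o = o * t) →
  Module.length O (O ⧸ Ideal.span {t}) ≤ ρ →
  ∀ (Y : ℕ → Ideal O) (K : ℕ → ℕ) (x : ℕ → O), Monotone Y → Monotone K →
  (∀ i, x i ∈ Y (i + 1)) → ∃ i ≤ ρ, t ^ K i * x i ∈ Y i ⊔ Ideal.span {t ^ K (i + 1)}

-- deps: NR1
def S_NR2 : Prop := ∀ (p : ℕ) (O : ℕ → Type) [∀ r, Ring (O r)] (t : ∀ r, O r) (ρ : ℕ),
  (∀ r o, t r * o = o * t r) → (∀ r, Module.length (O r) (O r ⧸ Ideal.span {t r}) ≤ ρ) →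
  ∀ x : ℕ → ∀ r, O r, ∃ i ≤ ρ, ∃ K : ℕ, ∃ l : ℕ → ∀ r, O r, ∀ M : ℕ,
    ∀ᶠ r in (hyperfilter ℕ : Filter ℕ), ∃ o,
      t r ^ (K * p ^ r) * x i r - ∑ j ∈ Finset.range i, l j r * x j r = o * t r ^ (M * p ^ r)

-- deps:
def S_NR3 : Prop := ∀ (A : Type) [Ring A] (τ : A) (ρ : ℕ), (∀ o, τ * o = o * τ) →
  (∀ x, IsUnit (1 - τ * x)) → (∀ K : ℕ, τ ^ K ≠ 0) →
  (∀ x : ℕ → A, ∃ i ≤ ρ, ∃ K : ℕ, ∃ l : ℕ → A, τ ^ K * x i = ∑ j ∈ Finset.range i, l j * x j) →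
  ∃ (N : Type) (_ : Ring N) (φ : A →+* N), Amb φ.range (φ τ)

-- deps: NR2 NR3
def S_NR4 : Prop := ∀ (p : ℕ) [Fact p.Prime] (R : Type) [Ring R] (F : ℕ → Set R) (b : R) (ρ : ℕ),
  (∀ N : ℕ, ∃ (O : Type) (_ : Ring O) (t : O) (io : R →+* O), (∀ o, t * o = o * t) ∧
    (∀ j x, x ∈ F j → ∃ o, io x = o * t ^ j) ∧ t ^ N = 0 ∧ (∀ c, c < N → t ^ c ≠ 0) ∧
    (∃ u : Oˣ, io b = u * t) ∧ Module.length O (O ⧸ Ideal.span {t}) ≤ ρ) →
  ∃ (N : Type) (_ : Ring N) (Λ : Subring N) (τ t : N) (Φ : (ℕ → R) →+* N), Ult p F b Λ τ t Φ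

-- deps:
def S_KK : Prop := ∀ (N : Type) [Ring N] (S : Set N), (∀ x ∈ S, ∀ y ∈ S, x * y = y * x) →
  ∃ (K : Type) (_ : CommRing K) (κ : K →+* N), Function.Injective κ ∧
    (∀ x, IsUnit (κ x) → IsUnit x) ∧ (∀ x ∈ S, ∃ y, κ y = x) ∧
    ∀ x, (∀ o, x * o = o * x) → ∃ y, κ y = x

-- deps:
def S_UN1 : Prop := ∀ (p : ℕ) [Fact p.Prime] (L K N : Type) [AddCommGroup L] [CommRing K] [Ring N]
  (κ : K →+* N) (Λ : Subring N) (τ : K) (th : L → K), Amb Λ (κ τ) → Th p κ Λ τ th →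
  ∀ E : AddSubgroup L, Maximal (fun E => JE κ th E ≠ ⊤) E → Iso p E ∧ Cld p E

-- deps:
def S_UN2 : Prop := ∀ (p : ℕ) (L K N : Type) [AddCommGroup L] [CommRing K] [Ring N]
  (κ : K →+* N) (Λ : Subring N) (τ : K) (th : L → K), Amb Λ (κ τ) → Th p κ Λ τ th →
  {E : AddSubgroup L | Maximal (fun E => JE κ th E ≠ ⊤) E}.Finite

-- deps: UN1 UN2
def S_UN3 : Prop := ∀ (p : ℕ) [Fact p.Prime] (G L K N : Type) [Group G] [AddCommGroup L]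
  [DistribMulAction G L] [CommRing K] [Ring N] (κ : K →+* N) (Λ : Subring N) (τ : K) (th : L → K)
  (ι : G →* N), Amb Λ (κ τ) → Th p κ Λ τ th → (∀ g a, ι g * κ (th a) = κ (th (g • a)) * ι g) →
  Irr p G L → (∃ a, IsUnit (th a - 1)) → ∀ a, a ≠ 0 → IsUnit (th a - 1)

-- deps:
def S_ZORN : Prop := ∀ (K N : Type) [CommRing K] [Ring N] (κ : K →+* N) (Λ : Subring N) (τ : K),
  Amb Λ (κ τ) → ∃ R : Subring K, (∀ x, κ x ∈ Λ → x ∈ R) ∧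
    (∀ s : Kˣ, (s : K) ∈ R ∨ ((s⁻¹ : Kˣ) : K) ∈ R) ∧ (1 : N) ∉ LR κ Λ {z | ∃ ρ ∈ R, z = τ * ρ}

-- deps:
def S_TV : Prop := ∀ (p : ℕ) (L K N : Type) [AddCommGroup L] [CommRing K] [Ring N]
  (κ : K →+* N) (Λ : Subring N) (τ : K) (th : L → K) (R : Subring K), Amb Λ (κ τ) →
  Th p κ Λ τ th → (∀ a, a ≠ 0 → IsUnit (th a - 1)) → (∀ x, κ x ∈ Λ → x ∈ R) →
  (∀ s : Kˣ, (s : K) ∈ R ∨ ((s⁻¹ : Kˣ) : K) ∈ R) → (1 : N) ∉ LR κ Λ {z | ∃ ρ ∈ R, z = τ * ρ} →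
  TV p R τ th

-- deps:
def S_BALL : Prop := ∀ (p : ℕ) [Fact p.Prime] (L K : Type) [AddCommGroup L] [CommRing K]
  (R : Subring K) (τ : K) (th : L → K), TV p R τ th → Chev p L → (∃ a : L, a ≠ 0) →
  ∀ m, ∃ E : AddSubgroup L, E ≤ Lp p L m ∧ (∃ j, Lp p L j ≤ E) ∧ Gap R τ th E

open Classical in
-- deps:
def S_LAG : Prop := ∀ (p : ℕ) (L K : Type) [AddCommGroup L] [CommRing K]
  (R : Subring K) (τ : K) (th : L → K) (E : AddSubgroup L), TV p R τ th → Finite (L ⧸ E) →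
  Gap R τ th E → ∀ a : L, ∃ P : Polynomial K,
    ∀ b, P.eval (th b) - (if b - a ∈ E then 1 else 0) ∈ Rad R τ

open Classical in
-- deps: LAG
def S_APX : Prop := ∀ (p m : ℕ) (G L K : Type) [Group G] [AddCommGroup L] [DistribMulAction G L]
  [CommRing K] (R : Subring K) (τ : K) (th : L → K) (E : AddSubgroup L) (H : Subgroup G),
  TV p R τ th → Finite (L ⧸ E) → Gap R τ th E → E ≤ Lp p L m → H.Normal →
  (∀ g : G, (∀ a : L, g • a - a ∈ Lp p L m) → g ∈ H) →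
  ∀ c : G ⧸ H, ∃ φ ∈ AA G th, ∀ h : G, φ h - (if (h : G ⧸ H) = c then 1 else 0) ∈ Rad R τ

-- deps:
def S_ITER : Prop := ∀ (K N : Type) [CommRing K] [Ring N] (κ : K →+* N) (Λ : Subring N) (τ : K)
  (R : Subring K) (t : N) (n : ℕ), Amb Λ (κ τ) → τ ∈ R → t ∈ Λ → (∀ x, t * x = x * t) →
  (∀ m : ℕ, ∃ w ∈ Λ, κ τ = w * t ^ m) → t ^ n ∈ LR κ Λ (Rad R τ) →
  (1 : N) ∈ LR κ Λ {z | ∃ ρ ∈ R, z = τ * ρ}

/-! ### the group algebra -/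

-- deps: PWS
def S_MPK : Prop := ∀ (p c : ℕ) [Fact p.Prime] (k G : Type) [Field k] [CharP k p] [Group G]
  (Γ : ℕ → Subgroup G), UF p c Γ → (∀ r g, g ∈ Γ r → of k G g - 1 ∈ Mp k G (p ^ r)) ∧
  (∀ r x y, x⁻¹ * y ∈ Γ r → of k G y - of k G x ∈ Mp k G (p ^ r)) ∧
  ∀ r, Kr k (Γ r) ≤ Mp k G r

-- deps: MPK
def S_SFIN : Prop := ∀ (p c : ℕ) [Fact p.Prime] (k G : Type) [Field k] [CharP k p] [Group G]
  (Γ : ℕ → Subgroup G), UF p c Γ → ∀ n, FiniteDimensional k (Sn k G n)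

-- deps:
def S_NIL : Prop := ∀ (p c : ℕ) [Fact p.Prime] (k G : Type) [Field k] [CharP k p] [Group G]
  (Γ : ℕ → Subgroup G), UF p c Γ → ∀ j, ∃ n, Mp k G n ≤ Kr k (Γ j)

-- deps: MPK
def S_GEN : Prop := ∀ (p c : ℕ) [Fact p.Prime] (k G : Type) [Field k] [CharP k p] [Group G]
  (Γ : ℕ → Subgroup G), UF p c Γ →
  (∀ j, Mp k G j ≤ Mic.Mon k (fun q : G ⧸ Γ 1 => of k G q.out - 1) j ⊔ Mp k G (j + 1)) ∧
  ∀ x y : G, (of k G x - 1) * (of k G y - 1) - (of k G y - 1) * (of k G x - 1) ∈ Mp k G 3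

-- deps:
def S_FMUL : Prop := ∀ (k G : Type) [Field k] [Group G]
  (W : Submodule k (Module.Dual k (MonoidAlgebra k G))), Bi W → FF W 0 = ⊤ ∧
  ∀ i j x y, x ∈ FF W i → y ∈ FF W j → x * y ∈ FF W (i + j)

-- deps:
def S_FDU : Prop := ∀ (k G : Type) [Field k] [Group G]
  (W : Submodule k (Module.Dual k (MonoidAlgebra k G))), (∀ n, FiniteDimensional k (Sn k G n)) →
  ∀ j N, j ≤ N → FF W j = Mp k G j ⊔ FF W N

-- deps:
def S_FINF : Prop := ∀ (k G : Type) [Field k] [Group G]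
  (W : Submodule k (Module.Dual k (MonoidAlgebra k G))), (∀ n, FiniteDimensional k (Sn k G n)) →
  Bi W → ¬ FiniteDimensional k W → (∀ n, ¬ FF W n ≤ FF W (n + 1)) ∧
  ∀ n, n ≤ Module.finrank k (W ⊓ Sn k G n : Submodule k (Module.Dual k (MonoidAlgebra k G)))

-- deps: FINF
def S_WMIN : Prop := ∀ (k G : Type) [Field k] [Group G]
  (W : Submodule k (Module.Dual k (MonoidAlgebra k G))), (∀ n, FiniteDimensional k (Sn k G n)) →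
  Bi W → ¬ FiniteDimensional k W → ∃ V ≤ W, Bi V ∧ ¬ FiniteDimensional k V ∧
    ∀ V' ≤ V, Bi V' → ¬ FiniteDimensional k V' → V' = V

-- deps:
def S_WH1 : Prop := ∀ (k G : Type) [Field k] [Group G]
  (W : Submodule k (Module.Dual k (MonoidAlgebra k G))) (H : Subgroup G), Bi W → H.Normal →
  H.FiniteIndex → WH W H ≤ W ∧ Bi (WH W H)

-- deps: MPK
def S_WALL : Prop := ∀ (p c : ℕ) [Fact p.Prime] (k G : Type) [Field k] [CharP k p] [Group G]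
  (Γ : ℕ → Subgroup G) (W : Submodule k (Module.Dual k (MonoidAlgebra k G))), UF p c Γ → Bi W →
  W ≠ ⊥ → (∀ j, WH W (Γ j) = W) → ∀ n, Sn k G n ≤ W

-- deps:
def S_WDU : Prop := ∀ (k G : Type) [Field k] [Group G]
  (W : Submodule k (Module.Dual k (MonoidAlgebra k G))) (H : Subgroup G) [Fintype (G ⧸ H)],
  (∀ n, FiniteDimensional k (Sn k G n)) → Bi (WH W H) → FiniteDimensional k (WH W H) →
  ∃ n0, ∀ T, ∀ x ∈ Mp k G n0, ∃ f : G ⧸ H → MonoidAlgebra k G, (∀ q, f q ∈ FF W T) ∧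
    x - ∑ q, res k (cs q) (f q) ∈ Mp k G T

-- deps: MPK CONT
def S_TH : Prop := ∀ (p c : ℕ) [Fact p.Prime] (k G L N : Type) [Field k] [CharP k p] [Group G]
  [AddCommGroup L] [DistribMulAction G L] [Ring N] (Γ : ℕ → Subgroup G) (ex : L ≃ G)
  (F : ℕ → Submodule k (MonoidAlgebra k G)) (b : MonoidAlgebra k G) (Λ : Subring N) (τ t : N)
  (Φ : (ℕ → MonoidAlgebra k G) →+* N), UF p c Γ → Lie p Γ ex → Fil F →
  Ult p (fun n => (F n : Set (MonoidAlgebra k G))) b Λ τ t Φ →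
  thN p k ex Φ 0 = 1 ∧ (∀ a a', thN p k ex Φ (a + a') = thN p k ex Φ a * thN p k ex Φ a') ∧
  (∀ a, ∃ x ∈ Λ, thN p k ex Φ a - 1 = τ * x) ∧
  (∀ a, thN p k ex Φ (p • a) - 1 = (thN p k ex Φ a - 1) ^ p) ∧
  (∀ (g : G) a, Φ (fun _ => of k G g) * thN p k ex Φ a =
    thN p k ex Φ (g • a) * Φ (fun _ => of k G g)) ∧
  ∀ a, thN p k ex Φ a - 1 = Φ fun r => (of k G (ex a) - 1) ^ p ^ r

-- deps: MPK PWC
def S_KILL : Prop := ∀ (p c : ℕ) [Fact p.Prime] (k G L N : Type) [Field k] [CharP k p] [Group G]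
  [AddCommGroup L] [DistribMulAction G L] [Ring N] (Γ : ℕ → Subgroup G) (ex : L ≃ G)
  (F : ℕ → Submodule k (MonoidAlgebra k G)) (b : MonoidAlgebra k G) (Λ : Subring N) (τ t : N)
  (Φ : (ℕ → MonoidAlgebra k G) →+* N), UF p c Γ → Lie p Γ ex → Fil F →
  Ult p (fun n => (F n : Set (MonoidAlgebra k G))) b Λ τ t Φ →
  ∀ f : ℕ → MonoidAlgebra k G, (∀ r, f r ∈ F (p ^ (2 * r))) →
  ∀ (j : ℕ) [Fintype (G ⧸ Γ j)] (x : L) (M : ℕ), M ≤ p ^ j → ∃ y ∈ Λ,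
    ∑ q : G ⧸ Γ j, Φ (fun r => res k (cs q) (f r)) * thN p k ex Φ (q.out⁻¹ • x) = τ ^ M * y

-- deps:
def S_KIL2 : Prop := ∀ (p : ℕ) [Fact p.Prime] (G L K N : Type) [Group G] [AddCommGroup L]
  [DistribMulAction G L] [CommRing K] [Ring N] (κ : K →+* N) (Λ : Subring N) (τ : K) (th : L → K)
  (Γ : ℕ → Subgroup G) [∀ j, Fintype (G ⧸ Γ j)] (z : ∀ j, G ⧸ Γ j → N), Amb Λ (κ τ) →
  (∀ j (x : L) (M : ℕ), M ≤ p ^ j → ∃ y ∈ Λ,
    ∑ q : G ⧸ Γ j, z j q * κ (th (q.out⁻¹ • x)) = κ τ ^ M * y) →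
  ∀ φ ∈ AA G th, ∀ M : ℕ, ∃ j0, ∀ j, j0 ≤ j → ∃ y ∈ Λ,
    ∑ q : G ⧸ Γ j, z j q * κ (φ q.out) = κ τ ^ M * y

open Classical in
-- deps:
def S_RSUM : Prop := ∀ (k G : Type) [Field k] [Group G] (H H' : Subgroup G) [Fintype (G ⧸ H')],
  H' ≤ H → ∀ (c : G ⧸ H) (x : MonoidAlgebra k G),
    res k (cs c) x = ∑ q : G ⧸ H', if (q.out : G ⧸ H) = c then res k (cs q) x else 0

open Classical in
-- deps: KILL KIL2 RSUM
def S_COR1 : Prop := ∀ (p c : ℕ) [Fact p.Prime] (k G L K N : Type) [Field k] [CharP k p] [Group G]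
  [AddCommGroup L] [DistribMulAction G L] [CommRing K] [Ring N] (Γ : ℕ → Subgroup G) (ex : L ≃ G)
  (F : ℕ → Submodule k (MonoidAlgebra k G)) (b : MonoidAlgebra k G) (Λ : Subring N) (t : N)
  (Φ : (ℕ → MonoidAlgebra k G) →+* N) (κ : K →+* N) (τ : K) (th : L → K) (R : Subring K),
  UF p c Γ → Lie p Γ ex → Fil F →
  Ult p (fun n => (F n : Set (MonoidAlgebra k G))) b Λ (κ τ) t Φ →
  (∀ a, κ (th a) = thN p k ex Φ a) → τ ∈ R →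
  ∀ f : ℕ → MonoidAlgebra k G, (∀ r, f r ∈ F (p ^ (2 * r))) → ∀ (j : ℕ) (q : G ⧸ Γ j),
  (∃ φ ∈ AA G th, ∀ h : G, φ h - (if (h : G ⧸ Γ j) = q then 1 else 0) ∈ Rad R τ) →
  Φ (fun r => res k (cs q) (f r)) ∈ LR κ Λ (Rad R τ)

-- deps: SFIN GEN FMUL FDU FINF WDU NR4 TH KK UN3 ZORN TV BALL APX COR1 ITER LFIN
def S_CORE : Prop := ∀ (p c : ℕ) [Fact p.Prime] (k G L : Type) [Field k] [CharP k p] [Group G]
  [AddCommGroup L] [DistribMulAction G L] (Γ : ℕ → Subgroup G) (ex : L ≃ G)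
  (W : Submodule k (Module.Dual k (MonoidAlgebra k G))), UF p c Γ → Lie p Γ ex → Irr p G L →
  Sep p L Γ → Bi W → ¬ FiniteDimensional k W → ∀ j, Bi (WH W (Γ j)) →
  ¬ FiniteDimensional k (WH W (Γ j))

-- deps: LIE2 LIE3 IRR SEP SFIN WMIN WH1 WALL CORE
def S_DM : Prop := ∀ (p c : ℕ) [Fact p.Prime] (k G : Type) [Field k] [CharP k p] [Group G]
  (Γ : ℕ → Subgroup G), UF p c Γ → AS Γ → (∀ z : G, (∀ g, z * g = g * z) → z = 1) →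
  ∀ W : Submodule k (Module.Dual k (MonoidAlgebra k G)), Bi W →
  FiniteDimensional k W ∨ ∀ n, Sn k G n ≤ W

-- deps: NIL
def S_BRG : Prop := ∀ (p c : ℕ) [Fact p.Prime] (k G : Type) [Field k] [CharP k p] [Group G]
  [TopologicalSpace G] [IsTopologicalGroup G] (Γ : ℕ → Subgroup G), UF p c Γ →
  (∀ f : LocallyConstant G k, ∃ j, ∀ x, ∀ g ∈ Γ j, f (x * g) = f x) →
  (∀ W : Submodule k (Module.Dual k (MonoidAlgebra k G)), Bi W →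
    FiniteDimensional k W ∨ ∀ n, Sn k G n ≤ W) →
  ∀ W : Submodule k (LocallyConstant G k),
    (∀ f ∈ W, ∀ a b : G, f.comap ⟨fun x => a * x * b, by fun_prop⟩ ∈ W) →
    FiniteDimensional k W ∨ W = ⊤

-- deps:
def S_LCI : Prop := ∀ (k G : Type) [Group G] [TopologicalSpace G] [IsTopologicalGroup G]
  [CompactSpace G] [T2Space G] [TotallyDisconnectedSpace G] (f : LocallyConstant G k),
  ∃ U : OpenNormalSubgroup G, ∀ x, ∀ g ∈ U.toSubgroup, f (x * g) = f x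

-- deps: PFA UFA GMS DM BRG LCI
def S_FINAL : Prop := ∀ (p : ℕ) [Fact p.Prime] (k : Type) [Field k] [CharP k p]
  (G : Type) [Group G] [TopologicalSpace G] [IsTopologicalGroup G] [CompactSpace G] [T2Space G]
  [TotallyDisconnectedSpace G],
  (∀ U : OpenNormalSubgroup G, IsPGroup p (G ⧸ U.toSubgroup)) →
  (∃ S : Finset G, (Subgroup.closure (S : Set G)).topologicalClosure = ⊤) →
  commutator G ≤ (Subgroup.closure
    (Set.range fun x : G => x ^ (if p = 2 then 4 else p))).topologicalClosure →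
  (∀ x : G, IsOfFinOrder x → x = 1) → Finite (Subgroup.center G) →
  (∀ N : Subgroup G, N.Normal → IsClosed (N : Set G) → N = ⊥ ∨ N.FiniteIndex) →
  ∀ W : Submodule k (LocallyConstant G k),
    (∀ f ∈ W, ∀ a b : G, f.comap ⟨fun x => a * x * b, by fun_prop⟩ ∈ W) →
    FiniteDimensional k W ∨ W = ⊤

end Pool.Agent.P.MP_7cb106_nt.Q2
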