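import Pool.Agent.P.MP_7cb106_nt.Q2.Iface

/-! The core as a black box. -/

set_option autoImplicit false

namespace Pool.Agent.P.MP_7cb106_nt.Q2

open Filter MonoidAlgebra

-- deps: UN1 UN2
def S_UNU : Prop := ∀ (p : ℕ) [Fact p.Prime] (G L K N : Type) [Group G] [AddCommGroup L]
  [DistribMulAction G L] [CommRing K] [Ring N] (κ : K →+* N) (Λ : Subring N) (τ : K) (th : L → K)
  (ι : G →* N), Amb Λ (κ τ) → Th p κ Λ τ th → (∀ g a, ι g * κ (th a) = κ (th (g • a)) * ι g) →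
  (∀ E : AddSubgroup L, Iso p E → Cld p E → (Set.range fun g : G => mv g E).Finite → E ≠ ⊥ →
    JE κ th E = ⊤) → ∀ a, a ≠ 0 → IsUnit (th a - 1)

open Classical in
-- deps: KILL KIL2 RSUM
def S_COR2 : Prop := ∀ (p c : ℕ) [Fact p.Prime] (k G L K N : Type) [Field k] [CharP k p] [Group G]
  [AddCommGroup L] [DistribMulAction G L] [CommRing K] [Ring N] (Γ : ℕ → Subgroup G) (ex : L ≃ G)
  (F : ℕ → Submodule k (MonoidAlgebra k G)) (b : MonoidAlgebra k G) (Λ : Subring N) (t : N)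
  (Φ : (ℕ → MonoidAlgebra k G) →+* N) (κ : K →+* N) (τ : K) (th : L → K) (R : Subring K),
  UF p c Γ → Lie p Γ ex → Fil F →
  Ult p (fun n => (F n : Set (MonoidAlgebra k G))) b Λ (κ τ) t Φ →
  (∀ a, κ (th a) = thN p k ex Φ a) → τ ∈ R →
  ∀ f : ℕ → MonoidAlgebra k G, (∀ r, f r ∈ F (p ^ (2 * r))) →
  ∀ (H : Subgroup G) (j : ℕ), Γ j ≤ H → ∀ q : G ⧸ H,
  (∃ φ ∈ AA G th, ∀ h : G, φ h - (if (h : G ⧸ H) = q then 1 else 0) ∈ Rad R τ) →
  Φ (fun r => res k (cs q) (f r)) ∈ LR κ Λ (Rad R τ)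

-- deps: TH KK UNU ZORN TV BALL APX COR2 ITER LFIN
def S_CORC : Prop := ∀ (p c : ℕ) [Fact p.Prime] (k G L N : Type) [Field k] [CharP k p] [Group G]
  [AddCommGroup L] [DistribMulAction G L] [Ring N] (Γ : ℕ → Subgroup G) (ex : L ≃ G)
  (F : ℕ → Submodule k (MonoidAlgebra k G)) (b : MonoidAlgebra k G) (Λ : Subring N) (τ t : N)
  (Φ : (ℕ → MonoidAlgebra k G) →+* N), UF p c Γ → Lie p Γ ex → Fil F →
  Ult p (fun n => (F n : Set (MonoidAlgebra k G))) b Λ τ t Φ → (∃ a : L, a ≠ 0) →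
  (∀ E : AddSubgroup L, Iso p E → Cld p E → (Set.range fun g : G => mv g E).Finite → E ≠ ⊥ →
    Ideal.span ((fun a => thN p k ex Φ a - 1) '' (E : Set L)) = ⊤) →
  ∀ H : Subgroup G, H.Normal → (∃ j, Γ j ≤ H) →
  (∃ m, ∀ g : G, (∀ a : L, g • a - a ∈ Lp p L m) → g ∈ H) →
  ∀ (n : ℕ) (ι : Type) (s : Finset ι) (o : ι → N) (q : ι → G ⧸ H)
    (f : ι → ℕ → MonoidAlgebra k G), (∀ i, o i ∈ Λ) → (∀ i r, f i r ∈ F (p ^ (2 * r))) →
    t ^ n ≠ ∑ i ∈ s, o i * Φ (fun r => res k (cs (q i)) (f i r))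

end Pool.Agent.P.MP_7cb106_nt.Q2
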