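import Pool.Agent.P.MP_7cb106_nt.Q2.BaseX
import Pool.Agent.P.MP_7cb106_nt.Q2.IfaceC

/-! Statements of the steps: the core for groups with an open normal uniform subgroup. -/

set_option autoImplicit false

namespace Pool.Agent.P.MP_7cb106_nt.Q2

open Filter MonoidAlgebra

-- deps:
def S_THX : Prop := ∀ (p : ℕ) [Fact p.Prime] (k G L N : Type) [Field k] [CharP k p] [Group G]
  [AddCommGroup L] [DistribMulAction G L] [Ring N] (Γ : ℕ → Subgroup G) (ex : L → G)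
  (F : ℕ → Submodule k (MonoidAlgebra k G)) (Λ : Subring N) (τ t : N)
  (Φ : (ℕ → MonoidAlgebra k G) →+* N), GD p Γ ex → FD p Γ F →
  Ult0 p (fun n => (F n : Set (MonoidAlgebra k G))) Λ τ t Φ →
  thX p k ex Φ 0 = 1 ∧ (∀ a a', thX p k ex Φ (a + a') = thX p k ex Φ a * thX p k ex Φ a') ∧
  (∀ a, ∃ x ∈ Λ, thX p k ex Φ a - 1 = τ * x) ∧
  (∀ a, thX p k ex Φ (p • a) - 1 = (thX p k ex Φ a - 1) ^ p) ∧
  ∀ (g : G) a, Φ (fun _ => of k G g) * thX p k ex Φ a =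
    thX p k ex Φ (g • a) * Φ (fun _ => of k G g)

-- deps:
def S_KILX : Prop := ∀ (p : ℕ) [Fact p.Prime] (k G L N : Type) [Field k] [CharP k p] [Group G]
  [AddCommGroup L] [DistribMulAction G L] [Ring N] (Γ : ℕ → Subgroup G) (ex : L → G)
  (F : ℕ → Submodule k (MonoidAlgebra k G)) (Λ : Subring N) (τ t : N)
  (Φ : (ℕ → MonoidAlgebra k G) →+* N), GD p Γ ex → FD p Γ F →
  Ult0 p (fun n => (F n : Set (MonoidAlgebra k G))) Λ τ t Φ →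
  ∀ f : ℕ → MonoidAlgebra k G, (∀ r, f r ∈ F (p ^ (2 * r))) →
  ∀ (j : ℕ) [Fintype (G ⧸ Γ j)] (x : L) (M : ℕ), M ≤ p ^ j → ∃ y ∈ Λ,
    ∑ q : G ⧸ Γ j, Φ (fun r => res k (cs q) (f r)) * thX p k ex Φ (q.out⁻¹ • x) = τ ^ M * y

open Classical in
-- deps: KILX KIL2 RSUM
def S_CORX : Prop := ∀ (p : ℕ) [Fact p.Prime] (k G L K N : Type) [Field k] [CharP k p] [Group G]
  [AddCommGroup L] [DistribMulAction G L] [CommRing K] [Ring N] (Γ : ℕ → Subgroup G) (ex : L → G)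
  (F : ℕ → Submodule k (MonoidAlgebra k G)) (Λ : Subring N) (t : N)
  (Φ : (ℕ → MonoidAlgebra k G) →+* N) (κ : K →+* N) (τ : K) (th : L → K) (R : Subring K),
  GD p Γ ex → FD p Γ F → Ult0 p (fun n => (F n : Set (MonoidAlgebra k G))) Λ (κ τ) t Φ →
  (∀ a, κ (th a) = thX p k ex Φ a) → τ ∈ R →
  ∀ f : ℕ → MonoidAlgebra k G, (∀ r, f r ∈ F (p ^ (2 * r))) →
  ∀ (H : Subgroup G) (j : ℕ), Γ j ≤ H → ∀ q : G ⧸ H,
  (∃ φ ∈ AA G th, ∀ h : G, φ h - (if (h : G ⧸ H) = q then 1 else 0) ∈ Rad R τ) →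
  Φ (fun r => res k (cs q) (f r)) ∈ LR κ Λ (Rad R τ)

-- deps: THX KK UNU ZORN TV BALL APX CORX ITER
def S_CORY : Prop := ∀ (p : ℕ) [Fact p.Prime] (k G L N : Type) [Field k] [CharP k p] [Group G]
  [AddCommGroup L] [DistribMulAction G L] [Ring N] (Γ : ℕ → Subgroup G) (ex : L → G)
  (F : ℕ → Submodule k (MonoidAlgebra k G)) (Λ : Subring N) (τ t : N)
  (Φ : (ℕ → MonoidAlgebra k G) →+* N), GD p Γ ex → FD p Γ F →
  Ult0 p (fun n => (F n : Set (MonoidAlgebra k G))) Λ τ t Φ → AllGood p G (thX p k ex Φ) →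
  ∀ (H : Subgroup G) (j m : ℕ), H.Normal → Γ j ≤ H →
  (∀ g : G, (∀ a : L, g • a - a ∈ Lp p L m) → g ∈ H) →
  ∀ (c : ℕ) (ι : Type) (s : Finset ι) (v : ι → N) (q : ι → G ⧸ H) (f : ι → ℕ → MonoidAlgebra k G),
  (∀ i, v i ∈ Λ) → (∀ i r, f i r ∈ F (p ^ (2 * r))) →
  t ^ c ≠ ∑ i ∈ s, v i * Φ (fun r => res k (cs (q i)) (f i r))

end Pool.Agent.P.MP_7cb106_nt.Q2
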