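import Pool.Agent.P.MP_7cb106_nt.Q2.BaseP
import Pool.Agent.P.MP_7cb106_nt.Q2.IfaceX

/-! Statements of the steps: prime ideals of the completed group algebra. -/

set_option autoImplicit false

namespace Pool.Agent.P.MP_7cb106_nt.Q2

open Filter MonoidAlgebra

/-! ### group side -/

-- deps:
def S_GXN : Prop := ∀ (p c : ℕ) (G : Type) [Group G] (G0 : Subgroup G) (Γ : ℕ → Subgroup G0),
  G0.Normal → UF p c Γ → GX Γ 0 = G0 ∧ Antitone (GX Γ) ∧ (∀ r, (GX Γ r).Normal) ∧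
  (G0.FiniteIndex → ∀ r, (GX Γ r).FiniteIndex)

-- deps: GXN LIE2 LIE3 CONT LFIN PWC PWS
def S_GDX : Prop := ∀ (p c : ℕ) (G : Type) [Group G] (G0 : Subgroup G) (Γ : ℕ → Subgroup G0),
  G0.Normal → G0.FiniteIndex → UF p c Γ →
  ∃ (L : Type) (_ : AddCommGroup L) (_ : DistribMulAction G L) (ex : L ≃ G0),
    Lie p Γ ex ∧ GD p (GX Γ) (fun a => (ex a : G)) ∧ ∀ a : L, (∀ m, a ∈ Lp p L m) → a = 0

-- deps:
def S_SEPZ : Prop := ∀ (p : ℕ) (G L : Type) [Group G] [TopologicalSpace G] [IsTopologicalGroup G]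
  [CompactSpace G] [AddCommGroup L] [DistribMulAction G L] (Γ : ℕ → Subgroup G) (ex : L → G),
  GD p Γ ex → (∀ r, IsOpen (Γ r : Set G)) → (∀ a : L, (∀ m, a ∈ Lp p L m) → a = 0) →
  ∀ (H : Subgroup G) (j : ℕ), Γ j ≤ H → (∀ g : G, (∀ a, g * ex a = ex a * g) → g ∈ H) →
  ∃ m, ∀ g : G, (∀ a : L, g • a - a ∈ Lp p L m) → g ∈ H

/-! ### group algebra -/

-- deps: GXN MPK NIL
def S_DAF : Prop := ∀ (p c : ℕ) [Fact p.Prime] (k G : Type) [Field k] [CharP k p] [Group G]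
  (G0 : Subgroup G) (Γ : ℕ → Subgroup G0), G0.Normal → UF p c Γ →
  MF (DA k G0) ∧ (∀ r g, g ∈ GX Γ r → of k G g - 1 ∈ DA k G0 (p ^ r)) ∧
  (∀ j, Kr k (GX Γ j) ≤ DA k G0 j) ∧ ∀ j, ∃ n, DA k G0 n ≤ Kr k (GX Γ j)

-- deps: GEN DAF
def S_DAG : Prop := ∀ (p c : ℕ) [Fact p.Prime] (k G : Type) [Field k] [CharP k p] [Group G]
  (G0 : Subgroup G) (Γ : ℕ → Subgroup G0), G0.Normal → UF p c Γ →
  FX (DA k G0) (bX k Γ) (of k G) G0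

-- deps: DAF DAG
def S_FRX : Prop := ∀ (p c : ℕ) [Fact p.Prime] (k G R : Type) [Field k] [CharP k p] [Group G]
  [Ring R] [Algebra k R] (G0 : Subgroup G) (Γ : ℕ → Subgroup G0)
  (inc : MonoidAlgebra k G →ₐ[k] R) (K : ℕ → Submodule k R) (P : Ideal R),
  G0.Normal → UF p c Γ → Cpl (GX Γ) inc K → P.IsTwoSided →
  FX (FR inc K G0 P) (fun q => inc (bX k Γ q))
    ((inc : MonoidAlgebra k G →* R).comp (of k G)) G0 ∧
  FD p (GX Γ) (fun j => (FR inc K G0 P j).comap inc.toLinearMap)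

-- deps: DAF
def S_FRC : Prop := ∀ (p c : ℕ) [Fact p.Prime] (k G R : Type) [Field k] [CharP k p] [Group G]
  [Ring R] [Algebra k R] (G0 : Subgroup G) (Γ : ℕ → Subgroup G0)
  (inc : MonoidAlgebra k G →ₐ[k] R) (K : ℕ → Submodule k R),
  G0.Normal → UF p c Γ → Cpl (GX Γ) inc K →
  (∀ j, ∃ n, FR inc K G0 ⊥ n ≤ K j) ∧ ∀ P : Ideal R, Cmp (FR inc K G0 P)

-- deps:
def S_KRK : Prop := ∀ (k G : Type) [Field k] [Group G] (H : Subgroup G) [H.Normal]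
  (a : MonoidAlgebra k G), mapDomainAlgHom k k (QuotientGroup.mk' H) a = 0 ↔ a ∈ Kr k H

-- deps: KRK
def S_IW : Prop := ∀ (k G : Type) [Field k] [Group G] [TopologicalSpace G]
  (Γ : ℕ → Subgroup G), Antitone Γ → (∀ n, (Γ n).Normal) → (∀ n, IsOpen (Γ n : Set G)) →
  (∀ V : OpenNormalSubgroup G, ∃ n, Γ n ≤ V.toSubgroup) →
  ∃ (inc : MonoidAlgebra k G →ₐ[k] Iw k G) (K : ℕ → Submodule k (Iw k G)), Cpl Γ inc K ∧
    (∀ g, inc (of k G g) = Iw.el k g) ∧ ∀ U : Subgroup G,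
      clo inc K ⊥ (Submodule.span k (of k G '' (U : Set G))) ⊆ Iw.sub k U

-- deps:
def S_PIECE : Prop := ∀ (k G R : Type) [Field k] [Group G] [Ring R] [Algebra k R]
  (Γ : ℕ → Subgroup G) (inc : MonoidAlgebra k G →ₐ[k] R) (K : ℕ → Submodule k R)
  (H : Subgroup G) [H.Normal] [Fintype (G ⧸ H)] (j : ℕ), Antitone Γ → Cpl Γ inc K → Γ j ≤ H →
  (∀ (q : G ⧸ H) x, ∃ y, Pc inc K j q x y) ∧
  (∀ x (y : G ⧸ H → R), (∀ q, Pc inc K j q x (y q)) → ∑ q, y q = x) ∧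
  (∀ (q : G ⧸ H) (g : G) x y, Pc inc K j q x y →
    Pc inc K j (q * (g : G ⧸ H)) (x * inc (of k G g)) (y * inc (of k G g))) ∧
  ∀ (g : G) x y, Pc inc K j (g : G ⧸ H) x y →
    y * inc (of k G g⁻¹) ∈ clo inc K ⊥ (Submodule.span k (of k G '' (H : Set G))) ∧
    inc (of k G g⁻¹) * y ∈ clo inc K ⊥ (Submodule.span k (of k G '' (H : Set G)))

-- deps: PIECE
def S_PCI : Prop := ∀ (k G R : Type) [Field k] [Group G] [Ring R] [Algebra k R]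
  (Γ : ℕ → Subgroup G) (inc : MonoidAlgebra k G →ₐ[k] R) (K : ℕ → Submodule k R) (P : Ideal R)
  (H : Subgroup G) (j : ℕ), H.Normal → H.FiniteIndex → Antitone Γ → Cpl Γ inc K → Γ j ≤ H →
  P.IsTwoSided →
  (∀ (A : Ideal R) x, (∀ n, x ∈ Submodule.restrictScalars k A ⊔ K n) → x ∈ A) →
  P ≤ Ideal.span {y | ∃ q : G ⧸ H, ∃ x ∈ P, Pc inc K j q x y} ∧
  ∀ a ∈ Ideal.span {y | ∃ q : G ⧸ H, ∃ x ∈ P, Pc inc K j q x y}, ∀ z,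
    a * z ∈ Ideal.span {y | ∃ q : G ⧸ H, ∃ x ∈ P, Pc inc K j q x y}

-- deps:
def S_CLI : Prop := ∀ (k G R : Type) [Field k] [Group G] [Ring R] [Algebra k R]
  (Γ : ℕ → Subgroup G) (inc : MonoidAlgebra k G →ₐ[k] R) (K : ℕ → Submodule k R) (P : Ideal R)
  (C : Subgroup G), C.Normal → Cpl Γ inc K → P.IsTwoSided →
  ∃ I : Ideal R, (I : Set R) = clo inc K P (Kr k C) ∧ P ≤ I ∧ (∀ a ∈ I, ∀ z, a * z ∈ I) ∧
    ∀ g ∈ C, inc (of k G g) - 1 ∈ I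

/-! ### filtered rings -/

-- deps:
def S_CZ : Prop := ∀ (k B ι G : Type) [Field k] [Ring B] [Algebra k B] [Finite ι] [Group G]
  (β : ι → B) (u : G →* B) (G0 : Subgroup G), G0.FiniteIndex → (∀ g ∈ G0, u g = 1) →
  (∀ i l, β i * β l = β l * β i) →
  (∀ g i, ∃ y ∈ Algebra.adjoin k (Set.range β), u g * β i = y * u g) →
  (Algebra.adjoin k (Set.range β)).toSubmodule * Submodule.span k (Set.range u) = ⊤ → FinC B

-- deps: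
def S_LOC : Prop := ∀ (Z B : Type) [CommRing Z] [Ring B] [Algebra Z B], IsNoetherianRing Z →
  Module.Finite Z B → Nontrivial Z →
  ∃ (J : Ideal Z) (_ : J.IsPrime) (O : Type) (_ : Ring O) (ψ : B →+* O),
    (∀ z, z ∉ J → IsUnit (ψ (algebraMap Z B z))) ∧
    (∀ o, ∃ z, z ∉ J ∧ ∃ b, ψ (algebraMap Z B z) * o = ψ b) ∧
    (∀ b, ψ b = 0 → ∃ z, z ∉ J ∧ z • b = 0) ∧ Module.length O O ≠ ⊤

-- deps: CZ
def S_REES : Prop := ∀ (p : ℕ) (k R ι G : Type) [Field k] [CharP k p] [Ring R] [Algebra k R]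
  [Finite ι] [Group G] (F : ℕ → Submodule k R) (b : ι → R) (u : G →* R) (G0 : Subgroup G),
  FX F b u G0 → G0.FiniteIndex → Std F ∧
  ∃ (Q B : Type) (_ : Ring Q) (_ : Ring B) (t : Q) (π : Q →+* B) (C : R →+* Q),
    (p : Q) = 0 ∧ (∀ x, t * x = x * t) ∧ (∀ x, x * t = 0 → x = 0) ∧ Function.Surjective π ∧
    (∀ x, π x = 0 ↔ ∃ z, x = z * t) ∧ ((1 : R) ∉ F 1 → Nontrivial B) ∧ FinC B ∧
    (∀ j x, x ∈ F j → ∃ z, C x = z * t ^ j) ∧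
    ∀ c c0, ARc F c c0 → ∀ (j : ℕ) (x z : Q), x * C c = z * t ^ (j + c0) → ∃ z', x = z' * t ^ j

-- deps: LOC
def S_LEV : Prop := ∀ (p : ℕ) [Fact p.Prime] (Q B : Type) [Ring Q] [Ring B] (t : Q) (π : Q →+* B),
  (p : Q) = 0 → (∀ x, t * x = x * t) → (∀ x, x * t = 0 → x = 0) → Function.Surjective π →
  (∀ x, π x = 0 ↔ ∃ z, x = z * t) → Nontrivial B → FinC B →
  ∃ ρ : ℕ, ∀ N : ℕ, 0 < N → ∃ (O : Type) (_ : Ring O) (lam : Q →+* O),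
    (∀ o, lam t * o = o * lam t) ∧ lam t ^ N = 0 ∧ (∀ c, c < N → lam t ^ c ≠ 0) ∧
    Module.length O (O ⧸ Ideal.span {lam t}) ≤ ρ ∧
    ∀ (y : Q) (c0 : ℕ), (∀ (j : ℕ) (x z : Q), x * y = z * t ^ (j + c0) → ∃ z', x = z' * t ^ j) →
      ∀ o, o * lam y = 0 → ∃ o', o = o' * lam t ^ (N - c0)

-- deps:
def S_COKP : Prop := ∀ (O : Type) [Ring O] (t : O) (N ρ : ℕ), (∀ o, t * o = o * t) → t ^ N = 0 →
  Module.length O (O ⧸ Ideal.span {t}) ≤ ρ → ∀ (y : O) (c : ℕ),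
  (∀ o, o * y = 0 → ∃ o', o = o' * t ^ (N - c)) → ∃ w, t ^ (ρ * c) = w * y

-- deps: NR2 NR3
def S_NRX : Prop := ∀ (p : ℕ) [Fact p.Prime] (R : Type) [Ring R] (F : ℕ → Set R) (ρ : ℕ)
  (O : ℕ → Type) [∀ r, Ring (O r)] (t : ∀ r, O r) (io : ∀ r, R →+* O r),
  (∀ r o, t r * o = o * t r) → (∀ r j x, x ∈ F j → ∃ o, io r x = o * t r ^ j) →
  (∀ r, t r ^ p ^ (2 * r) = 0) → (∀ r c, c < p ^ (2 * r) → t r ^ c ≠ 0) →
  (∀ r, Module.length (O r) (O r ⧸ Ideal.span {t r}) ≤ ρ) →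
  ∃ (N : Type) (_ : Ring N) (Λ : Subring N) (Ψ : (∀ r, O r) →+* N) (Φ : (ℕ → R) →+* N),
    (∀ x, Ψ x ∈ Λ) ∧ (∀ x, Φ x = Ψ fun r => io r (x r)) ∧
    Ult0 p F Λ (Ψ fun r => t r ^ p ^ r) (Ψ t) Φ

-- deps: REES LEV COKP NRX
def S_LIM : Prop := ∀ (p : ℕ) [Fact p.Prime] (k R ι G : Type) [Field k] [CharP k p] [Ring R]
  [Algebra k R] [Finite ι] [Group G] (F : ℕ → Submodule k R) (b : ι → R) (u : G →* R)
  (G0 : Subgroup G), FX F b u G0 → G0.FiniteIndex → (1 : R) ∉ F 1 →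
  ∃ (N : Type) (_ : Ring N) (Λ : Subring N) (τ t : N) (Φ : (ℕ → R) →+* N),
    Ult0 p (fun n => (F n : Set R)) Λ τ t Φ ∧ ∀ c c0, ARc F c c0 → Gen p Λ t Φ c

-- deps:
def S_STD : Prop := ∀ (k R : Type) [Field k] [Ring R] [Algebra k R] (F : ℕ → Submodule k R),
  MF F → Std F → Cmp F → ∀ A : Ideal R, ∃ S0 : Finset (ℕ × R), (∀ y ∈ S0, y.2 ∈ A) ∧
    ∀ j x, x ∈ A → x ∈ F j → ∃ f : ℕ × R → R, (∀ y, f y ∈ F (j - y.1)) ∧
      ∀ n, x - ∑ y ∈ S0, f y * y.2 ∈ F n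

-- deps: STD
def S_STC : Prop := ∀ (k R : Type) [Field k] [Ring R] [Algebra k R] (F : ℕ → Submodule k R),
  MF F → Std F → Cmp F → (∀ x, (∀ n, x ∈ F n) → x = 0) → IsNoetherianRing R ∧
    ∀ (A : Ideal R) x, (∀ n, x ∈ Submodule.restrictScalars k A ⊔ F n) → x ∈ A

-- deps: STD
def S_STA : Prop := ∀ (k R : Type) [Field k] [Ring R] [Algebra k R] (F : ℕ → Submodule k R)
  (P : Ideal R), MF F → Std F → Cmp F → (∀ x, x ∈ P ↔ ∀ n, x ∈ F n) →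
  ∀ c, (∀ x, x * c ∈ P → x ∈ P) → ∃ c0, ARc F c c0

-- deps:
def S_GOLD : Prop := ∀ (R : Type) [Ring R], IsNoetherianRing R →
  (∀ a b : R, (∀ x, a * x * b = 0) → a = 0 ∨ b = 0) → ∀ I : Ideal R,
  (∀ a ∈ I, ∀ x, a * x ∈ I) → I ≠ ⊥ → ∃ c ∈ I, ∀ x, x * c = 0 → x = 0

-- deps: GOLD
def S_REG : Prop := ∀ (R : Type) [Ring R] (P I : Ideal R), IsNoetherianRing R → P.IsTwoSided →
  (∀ a b : R, (∀ x, a * x * b ∈ P) → a ∈ P ∨ b ∈ P) → P ≤ I → I ≠ P →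
  (∀ a ∈ I, ∀ x, a * x ∈ I) → ∃ c ∈ I, ∀ x, x * c ∈ P → x ∈ P

/-! ### hypothesis (U) -/

-- deps: GEN NIL
def S_JEN : Prop := ∀ (p c : ℕ) [Fact p.Prime] (k G : Type) [Field k] [CharP k p] [Group G]
  (Γ : ℕ → Subgroup G), UF p c Γ → ∃ (s : ℕ) (S : Finset G), ∀ r M, Mp k G (s * p ^ r) ≤
    Submodule.restrictScalars k (Ideal.span ((fun x : G => of k G (x ^ p ^ r) - 1) '' (S : Set G))) ⊔
      Kr k (Γ M)

-- deps: JEN IR2 CONT GXN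
def S_UG : Prop := ∀ (p c : ℕ) [Fact p.Prime] (k G L N : Type) [Field k] [CharP k p] [Group G]
  [AddCommGroup L] [DistribMulAction G L] [Ring N] (G0 : Subgroup G) (Γ : ℕ → Subgroup G0)
  (ex : L ≃ G0) (F : ℕ → Submodule k (MonoidAlgebra k G)) (Λ : Subring N) (τ t : N)
  (Φ : (ℕ → MonoidAlgebra k G) →+* N), G0.Normal → UF p c Γ → Lie p Γ ex → FD p (GX Γ) F →
  Ult0 p (fun n => (F n : Set (MonoidAlgebra k G))) Λ τ t Φ →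
  (∀ H : Subgroup G, H ≤ G0 → ClG (GX Γ) H → (∀ g ∈ G0, ∀ x ∈ H, g * x * g⁻¹ ∈ H) → H ≠ ⊥ →
    ∃ C : Subgroup G, C.Normal ∧ C ≤ H ∧ ∃ a : ℕ → MonoidAlgebra k G, (∀ r, a r ∈ Kr k C) ∧
      ∃ V, V * Φ (fun r => a r ^ p ^ r) = 1) →
  AllGood p G (thX p k (fun a => (ex a : G)) Φ)

/-! ### the theorem -/

-- deps: GXN FRX FRC REES STC STA REG LIM
def S_RING : Prop := ∀ (p c : ℕ) [Fact p.Prime] (k G R : Type) [Field k] [CharP k p] [Group G]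
  [Ring R] [Algebra k R] (G0 : Subgroup G) (Γ : ℕ → Subgroup G0)
  (inc : MonoidAlgebra k G →ₐ[k] R) (K : ℕ → Submodule k R) (P : Ideal R),
  G0.Normal → G0.FiniteIndex → UF p c Γ → Cpl (GX Γ) inc K → P.IsTwoSided → P ≠ ⊤ →
  (∀ a b : R, (∀ x, a * x * b ∈ P) → a ∈ P ∨ b ∈ P) →
  (∀ (A : Ideal R) x, (∀ n, x ∈ Submodule.restrictScalars k A ⊔ K n) → x ∈ A) ∧
  ∃ (N : Type) (_ : Ring N) (Λ : Subring N) (τ t : N) (Φ : (ℕ → R) →+* N),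
    Ult0 p (fun n => (FR inc K G0 P n : Set R)) Λ τ t Φ ∧
    ∀ I : Ideal R, P ≤ I → I ≠ P → (∀ a ∈ I, ∀ x, a * x ∈ I) → ∃ c ∈ I, Gen p Λ t Φ c

-- deps: GXN FRX RING PCI CLI UG CORY
def S_MAINN : Prop := ∀ (p c : ℕ) [Fact p.Prime] (k G L R : Type) [Field k] [CharP k p] [Group G]
  [AddCommGroup L] [DistribMulAction G L] [Ring R] [Algebra k R] (G0 : Subgroup G)
  (Γ : ℕ → Subgroup G0) (ex : L ≃ G0) (inc : MonoidAlgebra k G →ₐ[k] R) (K : ℕ → Submodule k R)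
  (P : Ideal R), G0.Normal → G0.FiniteIndex → UF p c Γ → Lie p Γ ex →
  GD p (GX Γ) (fun a => (ex a : G)) → Cpl (GX Γ) inc K → P.IsTwoSided → P ≠ ⊤ →
  (∀ a b : R, (∀ x, a * x * b ∈ P) → a ∈ P ∨ b ∈ P) →
  (∀ H : Subgroup G, H ≤ G0 → ClG (GX Γ) H → (∀ g ∈ G0, ∀ x ∈ H, g * x * g⁻¹ ∈ H) → H ≠ ⊥ →
    ∃ C : Subgroup G, C.Normal ∧ C ≤ H ∧ ∃ g ∈ C, inc (of k G g) - 1 ∉ P) →
  ∀ (H : Subgroup G) (j m : ℕ), H.Normal → GX Γ j ≤ H →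
  (∀ g : G, (∀ a : L, g • a - a ∈ Lp p L m) → g ∈ H) →
  ∀ x ∈ P, ∀ (q : G ⧸ H) y, Pc inc K j q x y → y ∈ P

-- deps: PFA UFA GMS GXN GDX SEPZ IW PIECE MAINN
def S_FINALN : Prop := ∀ (p : ℕ) [Fact p.Prime] (k : Type) [Field k] [CharP k p]
  (G : Type) [Group G] [TopologicalSpace G] [IsTopologicalGroup G] [CompactSpace G] [T2Space G]
  [TotallyDisconnectedSpace G] (G0 : Subgroup G), G0.Normal → IsOpen (G0 : Set G) →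
  (∀ V : OpenNormalSubgroup G0, IsPGroup p (G0 ⧸ V.toSubgroup)) →
  (∃ S : Finset G0, (Subgroup.closure (S : Set G0)).topologicalClosure = ⊤) →
  commutator G0 ≤ (Subgroup.closure
    (Set.range fun x : G0 => x ^ (if p = 2 then 4 else p))).topologicalClosure →
  (∀ x : G0, IsOfFinOrder x → x = 1) →
  (∀ H : Subgroup G, H ≤ G0 → IsClosed (H : Set G) → (∀ g ∈ G0, ∀ x ∈ H, g * x * g⁻¹ ∈ H) →
    H.normalCore.relIndex H ≠ 0) →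
  ∀ P : TwoSidedIdeal (Iw k G), P ≠ ⊤ → (∀ a b, (∀ x, a * x * b ∈ P) → a ∈ P ∨ b ∈ P) →
  {g : G | Iw.el k g - 1 ∈ P}.Finite →
  ∀ U : Subgroup G, IsOpen (U : Set G) → Subgroup.centralizer (G0 : Set G) ≤ U →
  (Submodule.span (Iw k G)ᵐᵒᵖ ((P : Set (Iw k G)) ∩ Iw.sub k U) : Set (Iw k G)) = P ∧
  (Submodule.span (Iw k G) ((P : Set (Iw k G)) ∩ Iw.sub k U) : Set (Iw k G)) = P

end Pool.Agent.P.MP_7cb106_nt.Q2
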