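import Pool.Agent.P.MP_7cb106_nt.Q2.IfaceZ

/-! Statements of the steps: arbitrary prime ideals. -/

set_option autoImplicit false

namespace Pool.Agent.P.MP_7cb106_nt.Q2

open Filter MonoidAlgebra

-- deps:
def S_UTF : Prop := ∀ (p c : ℕ) [Fact p.Prime] (G : Type) [Group G] (Γ : ℕ → Subgroup G),
  UF p c Γ → ∀ (x : G) (n : ℕ), 0 < n → x ^ n = 1 → x = 1

-- deps: GXN
def S_QUF : Prop := ∀ (p c : ℕ) (G : Type) [Group G] (G0 : Subgroup G) (Γ : ℕ → Subgroup G0)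
  (N : Subgroup G) [N.Normal], G0.Normal → UF p c Γ → ClG (GX Γ) N →
  ∃ (r0 : ℕ) (G1 : Subgroup (G ⧸ N)) (Γ' : ℕ → Subgroup G1), UF p c Γ' ∧
    ∀ r, GX Γ' r = (GX Γ (r0 + r)).map (QuotientGroup.mk' N)

-- deps: CLI KRK
def S_QCP : Prop := ∀ (k G R : Type) [Field k] [Group G] [Ring R] [Algebra k R]
  (Γ : ℕ → Subgroup G) (inc : MonoidAlgebra k G →ₐ[k] R) (K : ℕ → Submodule k R) (P : Ideal R)
  (N : Subgroup G) [N.Normal] (r0 : ℕ), Cpl Γ inc K → (∀ g ∈ N, inc (of k G g) - 1 ∈ P) →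
  (∀ x, (∀ n, x ∈ Submodule.restrictScalars k P ⊔ K n) → x ∈ P) →
  ∃ (R' : Type) (_ : Ring R') (_ : Algebra k R') (π : R →ₐ[k] R')
    (inc' : MonoidAlgebra k (G ⧸ N) →ₐ[k] R') (K' : ℕ → Submodule k R'),
    Function.Surjective π ∧ (∀ x, π x = 0 → x ∈ P) ∧
    Cpl (fun n => (Γ (r0 + n)).map (QuotientGroup.mk' N)) inc' K' ∧
    (∀ a, inc' (mapDomainAlgHom k k (QuotientGroup.mk' N) a) = π (inc a)) ∧
    ∀ n x, x ∈ K (r0 + n) → π x ∈ K' n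

-- deps:
def S_QPC : Prop := ∀ (k G R R' : Type) [Field k] [Group G] [Ring R] [Algebra k R] [Ring R']
  [Algebra k R'] (Γ : ℕ → Subgroup G) (inc : MonoidAlgebra k G →ₐ[k] R) (K : ℕ → Submodule k R)
  (N : Subgroup G) [N.Normal] (r0 : ℕ) (π : R →ₐ[k] R') (inc' : MonoidAlgebra k (G ⧸ N) →ₐ[k] R')
  (K' : ℕ → Submodule k R'), Antitone Γ → Cpl Γ inc K →
  Cpl (fun n => (Γ (r0 + n)).map (QuotientGroup.mk' N)) inc' K' →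
  (∀ a, inc' (mapDomainAlgHom k k (QuotientGroup.mk' N) a) = π (inc a)) →
  (∀ n x, x ∈ K (r0 + n) → π x ∈ K' n) →
  ∀ (H : Subgroup G) (j : ℕ), N ≤ H → Γ j ≤ H → ∀ (g : G) (x y : R),
  Pc inc K j (g : G ⧸ H) x y →
  Pc inc' K' j ((g : G ⧸ N) : (G ⧸ N) ⧸ H.map (QuotientGroup.mk' N)) (π x) (π y)

-- deps: IR1
def S_IR2X : Prop := ∀ (p c : ℕ) [Fact p.Prime] (G L : Type) [Group G] [AddCommGroup L]
  [DistribMulAction G L] (G2 : Subgroup G), 1 ≤ c → 2 ≤ (p - 1) * c →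
  (∀ g ∈ G2, ∀ a : L, g • a - a ∈ Lp p L c) →
  ∀ E : AddSubgroup L, Iso p E → Cld p E → (Set.range fun g : G => mv g E).Finite →
  ∀ g ∈ G2, ∀ e ∈ E, g • e ∈ E

-- deps: JEN IR2 IR2X CONT GXN
def S_UG2 : Prop := ∀ (p c : ℕ) [Fact p.Prime] (k G L N : Type) [Field k] [CharP k p] [Group G]
  [AddCommGroup L] [DistribMulAction G L] [Ring N] (G0 G2 : Subgroup G) (Γ : ℕ → Subgroup G0)
  (ex : L ≃ G0) (F : ℕ → Submodule k (MonoidAlgebra k G)) (Λ : Subring N) (τ t : N)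
  (Φ : (ℕ → MonoidAlgebra k G) →+* N), G0.Normal → UF p c Γ → Lie p Γ ex →
  GD p (GX Γ) (fun a => (ex a : G)) → (∀ g ∈ G2, ∀ a : L, g • a - a ∈ Lp p L c) → FD p (GX Γ) F →
  Ult0 p (fun n => (F n : Set (MonoidAlgebra k G))) Λ τ t Φ →
  (∀ H : Subgroup G, H ≤ G0 → ClG (GX Γ) H → (∀ g ∈ G2, ∀ x ∈ H, g * x * g⁻¹ ∈ H) → H ≠ ⊥ →
    ∃ C : Subgroup G, C.Normal ∧ C ≤ H ∧ ∃ a : ℕ → MonoidAlgebra k G, (∀ r, a r ∈ Kr k C) ∧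
      ∃ V, V * Φ (fun r => a r ^ p ^ r) = 1) →
  AllGood p G (thX p k (fun a => (ex a : G)) Φ)

-- deps: FRX RING PCI CLI UG2 CORY
def S_MAIN2 : Prop := ∀ (p c : ℕ) [Fact p.Prime] (k G L R : Type) [Field k] [CharP k p] [Group G]
  [AddCommGroup L] [DistribMulAction G L] [Ring R] [Algebra k R] (G0 G2 : Subgroup G)
  (Γ : ℕ → Subgroup G0) (ex : L ≃ G0) (inc : MonoidAlgebra k G →ₐ[k] R) (K : ℕ → Submodule k R)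
  (P : Ideal R), G0.Normal → G0.FiniteIndex → UF p c Γ → Lie p Γ ex →
  GD p (GX Γ) (fun a => (ex a : G)) → (∀ g ∈ G2, ∀ a : L, g • a - a ∈ Lp p L c) →
  Cpl (GX Γ) inc K → P.IsTwoSided → P ≠ ⊤ →
  (∀ a b : R, (∀ x, a * x * b ∈ P) → a ∈ P ∨ b ∈ P) →
  (∀ H : Subgroup G, H ≤ G0 → ClG (GX Γ) H → (∀ g ∈ G2, ∀ x ∈ H, g * x * g⁻¹ ∈ H) → H ≠ ⊥ →
    ∃ C : Subgroup G, C.Normal ∧ C ≤ H ∧ ∃ g ∈ C, inc (of k G g) - 1 ∉ P) →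
  ∀ (H : Subgroup G) (j m : ℕ), H.Normal → GX Γ j ≤ H →
  (∀ g : G, (∀ a : L, g • a - a ∈ Lp p L m) → g ∈ H) →
  ∀ x ∈ P, ∀ (q : G ⧸ H) y, Pc inc K j q x y → y ∈ P

-- deps: GXN GDX SEPZ RING CTRL UTF QUF QCP QPC MAIN2
def S_MAINQ : Prop := ∀ (p c : ℕ) [Fact p.Prime] (k G R : Type) [Field k] [CharP k p] [Group G]
  [TopologicalSpace G] [IsTopologicalGroup G] [CompactSpace G] [Ring R] [Algebra k R]
  (G0 : Subgroup G) (Γ : ℕ → Subgroup G0) (inc : MonoidAlgebra k G →ₐ[k] R)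
  (K : ℕ → Submodule k R) (P : Ideal R), G0.Normal → G0.FiniteIndex → UF p c Γ →
  (∀ r, IsOpen (GX Γ r : Set G)) → Cpl (GX Γ) inc K → P.IsTwoSided → P ≠ ⊤ →
  (∀ a b : R, (∀ x, a * x * b ∈ P) → a ∈ P ∨ b ∈ P) →
  (∀ H : Subgroup G, H ≤ G0 → ClG (GX Γ) H → (∀ g ∈ G0, ∀ x ∈ H, g * x * g⁻¹ ∈ H) →
    H.normalCore.relIndex H ≠ 0) →
  ∃ (r0 : ℕ) (Z : Subgroup G),
    (∀ g ∈ Z, ∀ u ∈ GX Γ r0, inc (of k G (g * u * g⁻¹ * u⁻¹)) - 1 ∈ P) ∧ ∀ x ∈ P,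
  x ∈ Submodule.span Rᵐᵒᵖ ((P : Set R) ∩ clo inc K ⊥ (Submodule.span k (of k G '' (Z : Set G)))) ∧
  x ∈ Submodule.span R ((P : Set R) ∩ clo inc K ⊥ (Submodule.span k (of k G '' (Z : Set G))))

-- deps: PFA UFA GMS GXN IW MAINQ
def S_FINALQ : Prop := ∀ (p : ℕ) [Fact p.Prime] (k : Type) [Field k] [CharP k p]
  (G : Type) [Group G] [TopologicalSpace G] [IsTopologicalGroup G] [CompactSpace G] [T2Space G]
  [TotallyDisconnectedSpace G] (G0 : Subgroup G), G0.Normal → IsOpen (G0 : Set G) →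
  (∀ V : OpenNormalSubgroup G0, IsPGroup p (G0 ⧸ V.toSubgroup)) →
  (∃ S : Finset G0, (Subgroup.closure (S : Set G0)).topologicalClosure = ⊤) →
  commutator G0 ≤ (Subgroup.closure
    (Set.range fun x : G0 => x ^ (if p = 2 then 4 else p))).topologicalClosure →
  (∀ x : G0, IsOfFinOrder x → x = 1) →
  (∀ H : Subgroup G, H ≤ G0 → IsClosed (H : Set G) → (∀ g ∈ G0, ∀ x ∈ H, g * x * g⁻¹ ∈ H) →
    H.normalCore.relIndex H ≠ 0) →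
  ∀ P : TwoSidedIdeal (Iw k G), P ≠ ⊤ → (∀ a b, (∀ x, a * x * b ∈ P) → a ∈ P ∨ b ∈ P) →
  ∃ (V : OpenNormalSubgroup G) (Z : Subgroup G),
    (∀ g ∈ Z, ∀ u ∈ V.toSubgroup, Iw.el k (g * u * g⁻¹ * u⁻¹) - 1 ∈ P) ∧ ∀ x ∈ P,
    x ∈ Submodule.span (Iw k G)ᵐᵒᵖ ((P : Set (Iw k G)) ∩ Iw.sub k Z) ∧
    x ∈ Submodule.span (Iw k G) ((P : Set (Iw k G)) ∩ Iw.sub k Z)

end Pool.Agent.P.MP_7cb106_nt.Q2
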