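import Pool.Agent.P.MP_7cb106_nt.Q2.IfaceP

/-! Statements of the steps: control by the centraliser itself. -/

set_option autoImplicit false

namespace Pool.Agent.P.MP_7cb106_nt.Q2

open Filter MonoidAlgebra

-- deps:
def S_RCL : Prop := ∀ (k G R : Type) [Field k] [Group G] [Ring R] [Algebra k R]
  (Γ : ℕ → Subgroup G) (inc : MonoidAlgebra k G →ₐ[k] R) (K : ℕ → Submodule k R),
  (∀ n, (Γ n).Normal) → Cpl Γ inc K →
  (∀ (A : Ideal R) x, (∀ n, x ∈ Submodule.restrictScalars k A ⊔ K n) → x ∈ A) →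
  ∀ (A : Submodule Rᵐᵒᵖ R) x, (∀ n, ∃ a ∈ A, x - a ∈ K n) → x ∈ A

-- deps: PIECE RCL
def S_CTRL : Prop := ∀ (k G R : Type) [Field k] [Group G] [Ring R] [Algebra k R]
  (Γ : ℕ → Subgroup G) (inc : MonoidAlgebra k G →ₐ[k] R) (K : ℕ → Submodule k R) (P : Ideal R)
  (Z : Subgroup G), Antitone Γ → (∀ n, (Γ n).Normal) → (∀ n, (Γ n).FiniteIndex) → Cpl Γ inc K →
  (∀ (A : Ideal R) x, (∀ n, x ∈ Submodule.restrictScalars k A ⊔ K n) → x ∈ A) →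
  P.IsTwoSided → Z.Normal →
  (∀ j, ∀ x ∈ P, ∀ (q : G ⧸ (Z ⊔ Γ j)) y, Pc inc K j q x y → y ∈ P) → ∀ x ∈ P,
  x ∈ Submodule.span Rᵐᵒᵖ ((P : Set R) ∩ clo inc K ⊥ (Submodule.span k (of k G '' (Z : Set G)))) ∧
  x ∈ Submodule.span R ((P : Set R) ∩ clo inc K ⊥ (Submodule.span k (of k G '' (Z : Set G))))

-- deps: PFA UFA GMS GXN GDX SEPZ IW RING MAINN CTRL
def S_FINALZ : Prop := ∀ (p : ℕ) [Fact p.Prime] (k : Type) [Field k] [CharP k p]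
  (G : Type) [Group G] [TopologicalSpace G] [IsTopologicalGroup G] [CompactSpace G] [T2Space G]
  [TotallyDisconnectedSpace G] (G0 : Subgroup G), G0.Normal → IsOpen (G0 : Set G) →
  (∀ V : OpenNormalSubgroup G0, IsPGroup p (G0 ⧸ V.toSubgroup)) →
  (∃ S : Finset G0, (Subgroup.closure (S : Set G0)).topologicalClosure = ⊤) →
  commutator G0 ≤ (Subgroup.closure
    (Set.range fun x : G0 => x ^ (if p = 2 then 4 else p))).topologicalClosure →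
  (∀ x : G0, IsOfFinOrder x → x = 1) →
  (∀ H : Subgroup G, H ≤ G0 → IsClosed (H : Set G) → (∀ g ∈ G0, ∀ x ∈ H, g * x * g⁻¹ ∈ H) →
    H.normalCore.relIndex H ≠ 0) →
  ∀ P : TwoSidedIdeal (Iw k G), P ≠ ⊤ → (∀ a b, (∀ x, a * x * b ∈ P) → a ∈ P ∨ b ∈ P) →
  {g : G | Iw.el k g - 1 ∈ P}.Finite →
  (Submodule.span (Iw k G)ᵐᵒᵖ ((P : Set (Iw k G)) ∩
    Iw.sub k (Subgroup.centralizer (G0 : Set G))) : Set (Iw k G)) = P ∧
  (Submodule.span (Iw k G) ((P : Set (Iw k G)) ∩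
    Iw.sub k (Subgroup.centralizer (G0 : Set G))) : Set (Iw k G)) = P

end Pool.Agent.P.MP_7cb106_nt.Q2
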