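import Pool.Agent.P.MP_7cb106_nt.Q2.IfaceP

/-! Step COKP. -/

set_option autoImplicit false

namespace Pool.Agent.P.MP_7cb106_nt.Q2

open Filter MonoidAlgebra

theorem cokp_len_mul {O : Type} [Ring O] (t a : O) :
    Module.length O (O ⧸ Ideal.span {t * a}) ≤
      Module.length O (O ⧸ Ideal.span {t}) + Module.length O (O ⧸ Ideal.span {a}) := by
  have hle : Submodule.span O {t * a} ≤ Submodule.span O {a} :=
    (Submodule.span_singleton_le_iff_mem _ _).2 (Submodule.mem_span_singleton.2 ⟨t, rfl⟩)
  let g := Submodule.factor hle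
  let f : (O ⧸ Submodule.span O {t}) →ₗ[O] O ⧸ Submodule.span O {t * a} :=
    Submodule.mapQ _ _ (LinearMap.toSpanSingleton O O a)
      ((Submodule.span_singleton_le_iff_mem _ _).2 (Submodule.mem_span_singleton_self _))
  have hr : LinearMap.range f = LinearMap.ker g := by
    apply le_antisymm
    · rintro _ ⟨x, rfl⟩
      obtain ⟨o, rfl⟩ := Submodule.mkQ_surjective _ x
      exact (Submodule.Quotient.mk_eq_zero _).2 (Submodule.mem_span_singleton.2 ⟨o, rfl⟩)
    · intro x hx
      obtain ⟨y, rfl⟩ := Submodule.mkQ_surjective _ x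
      obtain ⟨o, rfl⟩ := Submodule.mem_span_singleton.1 ((Submodule.Quotient.mk_eq_zero _).1 hx)
      exact ⟨Submodule.Quotient.mk o, rfl⟩
  change Module.length O (O ⧸ Submodule.span O {t * a}) ≤
    Module.length O (O ⧸ Submodule.span O {t}) + Module.length O (O ⧸ Submodule.span O {a})
  rw [Module.length_eq_add_of_exact (LinearMap.ker g).subtype g (Submodule.subtype_injective _)
    (Submodule.factor_surjective hle) (LinearMap.exact_subtype_ker_map g), ← hr]
  gcongr
  exact Module.length_le_of_surjective f.rangeRestrict f.surjective_rangeRestrict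

theorem cokp_len_pow {O : Type} [Ring O] (t : O) (ρ : ℕ)
    (h : Module.length O (O ⧸ Ideal.span {t}) ≤ ρ) (L : ℕ) :
    Module.length O (O ⧸ Ideal.span {t ^ L}) ≤ ((ρ * L : ℕ) : ℕ∞) := by
  induction L with
  | zero =>
    have : Subsingleton (O ⧸ Ideal.span {t ^ 0}) := by
      rw [pow_zero, Submodule.Quotient.subsingleton_iff]
      exact Ideal.span_singleton_one
    simp
  | succ L ih =>
    rw [pow_succ', Nat.mul_succ, add_comm, Nat.cast_add]
    exact (cokp_len_mul _ _).trans (add_le_add h ih)

theorem cokp_len_kill {O M : Type} [Ring O] [AddCommGroup M] [Module O M] (t : O)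
    (hc : ∀ o : O, t * o = o * t) (N : ℕ) (hN : t ^ N = 0) (l : ℕ) :
    ∀ K : Submodule O M, Order.height K ≤ (l : ℕ∞) → ∀ x ∈ K, t ^ l • x = 0 := by
  let f : M →ₗ[O] M :=
    { toFun := fun x => t • x
      map_add' := smul_add t
      map_smul' := fun o x => by simp only [smul_smul, hc, RingHom.id_apply] }
  induction l with
  | zero =>
    intro K hK x hx
    have h0 : Order.height K = 0 := by simpa using hK
    have h1 : K = ⊥ := (Order.height_eq_zero.1 h0).eq_bot
    rw [h1, Submodule.mem_bot] at hx
    rw [hx, smul_zero]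
  | succ l ih =>
    intro K hK x hx
    have hle : K.map f ≤ K := by
      rintro _ ⟨z, hz, rfl⟩
      exact K.smul_mem t hz
    rcases hle.lt_or_eq with h | h
    · have h1 := (Order.height_add_one_le h).trans hK
      have h2 : Order.height (K.map f) ≤ (l : ℕ∞) := by
        rw [Nat.cast_succ] at h1
        exact (ENat.add_le_add_iff_right ENat.one_ne_top).1 h1
      rw [pow_succ, mul_smul]
      exact ih _ h2 _ ⟨x, hx, rfl⟩
    · have h1 : ∀ n : ℕ, ∃ z ∈ K, t ^ n • z = x := by
        intro n
        induction n with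
        | zero => exact ⟨x, hx, by rw [pow_zero, one_smul]⟩
        | succ n ih' =>
          obtain ⟨z, hz, e⟩ := ih'
          rw [← h] at hz
          obtain ⟨z', hz', rfl⟩ := hz
          exact ⟨z', hz', by rw [pow_succ, mul_smul]; exact e⟩
      obtain ⟨z, -, e⟩ := h1 N
      rw [← e, hN, zero_smul, smul_zero]

theorem cokp_coker_pow {O : Type} [Ring O] (t : O) (hc : ∀ o : O, t * o = o * t) (N : ℕ)
    (hN : t ^ N = 0) (ρ : ℕ) (hlen : Module.length O (O ⧸ Ideal.span {t}) ≤ ρ) (y : O) (c : ℕ)
    (hy : ∀ o, o * y = 0 → ∃ o', o = o' * t ^ (N - c)) : ∃ w, t ^ (ρ * c) = w * y := by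
  set f := LinearMap.toSpanSingleton O O y with hf
  have h1 : Module.length O O =
      Module.length O (LinearMap.ker f) + Module.length O (LinearMap.range f) :=
    Module.length_eq_add_of_exact (LinearMap.ker f).subtype f.rangeRestrict
      (Submodule.subtype_injective _) f.surjective_rangeRestrict (by
        intro y
        simp only [Set.mem_range, Submodule.subtype_apply, Subtype.exists, LinearMap.mem_ker,
          exists_prop, exists_eq_right]
        rw [← LinearMap.mem_ker, LinearMap.ker_rangeRestrict, LinearMap.mem_ker])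
  have h2 : Module.length O O =
      Module.length O (LinearMap.range f) + Module.length O (O ⧸ LinearMap.range f) :=
    Module.length_eq_add_of_exact (LinearMap.range f).subtype (LinearMap.range f).mkQ
      (Submodule.subtype_injective _) (Submodule.mkQ_surjective _)
      (LinearMap.exact_subtype_mkQ _)
  have h3 : Module.length O O ≤ ((ρ * N : ℕ) : ℕ∞) := by
    have h := cokp_len_pow t ρ hlen N
    rw [hN, Ideal.span_singleton_zero] at h
    rw [← (Submodule.quotEquivOfEqBot (⊥ : Submodule O O) rfl).length_eq]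
    exact h
  have h4 : Module.length O (LinearMap.ker f) ≤ ((ρ * c : ℕ) : ℕ∞) := by
    refine le_trans ?_ (cokp_len_pow t ρ hlen c)
    let g := LinearMap.toSpanSingleton O O (t ^ (N - c))
    have hle : LinearMap.ker f ≤ LinearMap.range g := fun o ho => by
      obtain ⟨o', ho'⟩ := hy o ho
      exact ⟨o', ho'.symm⟩
    have hk : Ideal.span {t ^ c} ≤ LinearMap.ker g.rangeRestrict := by
      rw [LinearMap.ker_rangeRestrict, Ideal.span_le]
      rintro _ rfl
      change t ^ c * t ^ (N - c) = 0
      rw [← pow_add]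
      exact pow_eq_zero_of_le (by omega) hN
    refine (Module.length_le_of_injective _ (Submodule.inclusion_injective hle)).trans
      (Module.length_le_of_surjective (Submodule.liftQ _ g.rangeRestrict hk) ?_)
    intro z
    obtain ⟨o, rfl⟩ := g.surjective_rangeRestrict z
    exact ⟨Submodule.Quotient.mk o, rfl⟩
  have h5 : Module.length O (LinearMap.range f) ≠ ⊤ := by
    intro e
    rw [h2, e, top_add] at h3
    exact ENat.natCast_ne_top _ (top_le_iff.1 h3)
  have h6 : Module.length O (LinearMap.ker f) = Module.length O (O ⧸ LinearMap.range f) := by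
    rw [h1, add_comm] at h2
    exact (ENat.add_right_injective_of_ne_top h5) h2
  have h7 := cokp_len_kill t hc N hN (ρ * c) (⊤ : Submodule O (O ⧸ LinearMap.range f)) (by
    rw [← Module.length_eq_height, ← h6]; exact h4) (Submodule.Quotient.mk 1) trivial
  rw [← Submodule.Quotient.mk_smul, Submodule.Quotient.mk_eq_zero, smul_eq_mul, mul_one] at h7
  obtain ⟨w, hw⟩ := h7
  exact ⟨w, hw.symm⟩

theorem p_COKP :
    S_COKP := fun _ _ t N ρ hc hN hl y c hy => cokp_coker_pow t hc N hN ρ hl y c hy

end Pool.Agent.P.MP_7cb106_nt.Q2
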