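import Pool.Agent.P.MP_7cb106_nt.Q2.IfaceZ
import Pool.Agent.P.MP_7cb106_nt.Q2.HChev

/-! Step CTRL. -/

set_option autoImplicit false

namespace Pool.Agent.P.MP_7cb106_nt.Q2

open Filter MonoidAlgebra

section
variable {k G R : Type} [Field k] [Group G] [Ring R] [Algebra k R] {Γ : ℕ → Subgroup G}
  {inc : MonoidAlgebra k G →ₐ[k] R} {K : ℕ → Submodule k R}

/-- the closure as a subspace -/
noncomputable def ctrlC (inc : MonoidAlgebra k G →ₐ[k] R) (K : ℕ → Submodule k R) (H : Subgroup G) :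
    Submodule k R :=
  ⨅ n, (Submodule.span k (of k G '' (H : Set G))).map inc.toLinearMap ⊔ K n

lemma ctrl_mem {H : Subgroup G} {y : R} : y ∈ ctrlC inc K H ↔
    ∀ n, ∃ a ∈ Submodule.span k (of k G '' (H : Set G)), y - inc a ∈ K n := by
  rw [ctrlC, Submodule.mem_iInf]
  refine forall_congr' fun n => ⟨fun h => ?_, fun ⟨a, ha, h⟩ => ?_⟩
  · obtain ⟨_, ⟨a, ha, rfl⟩, z, hz, rfl⟩ := Submodule.mem_sup.1 h
    exact ⟨a, ha, by simpa using hz⟩
  · simpa using Submodule.add_mem_sup (Submodule.mem_map_of_mem (f := inc.toLinearMap) ha) h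

lemma ctrl_clo {H : Subgroup G} {y : R} :
    y ∈ clo inc K ⊥ (Submodule.span k (of k G '' (H : Set G))) ↔ y ∈ ctrlC inc K H := by
  rw [ctrl_mem]
  refine forall_congr' fun n => ⟨fun ⟨a, ha, z, hz, h⟩ => ⟨a, ha, ?_⟩,
    fun ⟨a, ha, h⟩ => ⟨a, ha, 0, zero_mem _, by simpa using h⟩⟩
  rwa [Ideal.mem_bot.1 hz, sub_zero] at h

lemma ctrl_fin (hc : Cpl Γ inc K) (n : ℕ) [(Γ n).FiniteIndex] : FiniteDimensional k (R ⧸ K n) := by
  have h : Submodule.span k (Set.range fun q : G ⧸ Γ n => (K n).mkQ (inc (of k G q.out))) = ⊤ := by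
    rw [eq_top_iff]
    rintro x -
    obtain ⟨x, rfl⟩ := (K n).mkQ_surjective x
    obtain ⟨a, ha⟩ := hc.dense n x
    have h1 : (K n).mkQ x = (K n).mkQ (inc a) := (Submodule.Quotient.eq _).2 ha
    have h2 : a ∈ Submodule.span k (Set.range (of k G)) := by rw [span_of]; trivial
    rw [h1]
    clear h1 ha
    induction h2 using Submodule.span_induction with
    | mem z hz =>
      obtain ⟨g, rfl⟩ := hz
      obtain ⟨y, hy⟩ := QuotientGroup.mk_out_eq_mul (Γ n) g
      refine Submodule.subset_span ⟨(g : G ⧸ Γ n), (Submodule.Quotient.eq _).2 ?_⟩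
      rw [← map_sub, hy]
      exact (hc.ker n _).2 (Submodule.subset_span ⟨g, y, y.2, rfl⟩)
    | zero => simp
    | add x y _ _ hx hy => rw [map_add, map_add]; exact add_mem hx hy
    | smul a x _ hx => rw [map_smul, map_smul]; exact Submodule.smul_mem _ _ hx
  exact ⟨h ▸ Submodule.fg_span (Set.finite_range _)⟩

lemma ctrl_inf (hc : Cpl Γ inc K) (hn : ∀ n, (Γ n).Normal) {C : Subgroup G} {y : R}
    (h : ∀ j, y ∈ ctrlC inc K (C ⊔ Γ j)) : y ∈ ctrlC inc K C := by
  refine ctrl_mem.2 fun n => ?_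
  obtain ⟨a, ha, ea⟩ := ctrl_mem.1 (h n) n
  have h1 : a ∈ Submodule.span k (of k G '' (C : Set G)) ⊔ Kr k (Γ n) := by
    refine Submodule.span_le.2 ?_ ha
    rintro _ ⟨g, hg, rfl⟩
    have := hn n
    obtain ⟨x, hx, z, hz, rfl⟩ := Subgroup.mem_sup_of_normal_right.1 hg
    have h2 : of k G (x * z) - of k G x ∈ Kr k (Γ n) := Submodule.subset_span ⟨x, z, hz, rfl⟩
    have h3 := Submodule.add_mem_sup (Submodule.subset_span (R := k)
      (Set.mem_image_of_mem (of k G) hx)) h2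
    rwa [add_sub_cancel] at h3
  obtain ⟨b, hb, z, hz, rfl⟩ := Submodule.mem_sup.1 h1
  refine ⟨b, hb, ?_⟩
  have h2 := add_mem ea ((hc.ker n z).2 hz)
  rwa [map_add, ← sub_sub, sub_add_cancel] at h2

end

theorem p_CTRL (hPIECE : S_PIECE) (hRCL : S_RCL) :
    S_CTRL := by
  intro k G R _ _ _ _ Γ inc K P C hanti hn hfi hc hcl hP hC hpc x hx
  set Y := (P : Set R) ∩ clo inc K ⊥ (Submodule.span k (of k G '' (C : Set G)))
  have hinv : ∀ g : G, inc (of k G g) * inc (of k G g⁻¹) = 1 := fun g => by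
    rw [← map_mul, ← map_mul, mul_inv_cancel, map_one, map_one]
  have hinv' : ∀ g : G, inc (of k G g⁻¹) * inc (of k G g) = 1 := fun g => by
    rw [← map_mul, ← map_mul, inv_mul_cancel, map_one, map_one]
  have key : ∀ n, ∃ (ι : Type) (s : Finset ι) (z : ι → R) (g : ι → G), ∑ i ∈ s, z i = x ∧ ∀ i,
      (∃ u ∈ Y, z i * inc (of k G (g i)⁻¹) - u ∈ K n) ∧
        ∃ u ∈ Y, inc (of k G (g i)⁻¹) * z i - u ∈ K n := by
    intro n
    obtain ⟨j, hj⟩ := NE.chevalley K (fun j => P.restrictScalars k ⊓ ctrlC inc K (C ⊔ Γ j)) hc.anti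
      (fun n => have := hfi n; ctrl_fin hc n) hc.cpl
      (fun i j h => inf_le_inf_left _ (iInf_mono fun n => sup_le_sup_right (Submodule.map_mono
        (Submodule.span_mono (Set.image_mono (sup_le_sup_left (hanti h) C)))) _))
      (fun j y hy => ⟨hcl P y fun n =>
          (sup_le_sup_right inf_le_left _ : _ ≤ P.restrictScalars k ⊔ K n) (hy n),
        (Submodule.mem_iInf _).2 fun n => (sup_le (inf_le_right.trans (iInf_le _ n)) le_sup_right :
          _ ≤ _ ⊔ K n) (hy n)⟩) n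
    have h0 : ∀ y ∈ P, y ∈ clo inc K ⊥ (Submodule.span k (of k G '' ((C ⊔ Γ j : Subgroup G) : Set G))) →
        ∃ u ∈ Y, y - u ∈ K n := by
      intro y h1 h2
      obtain ⟨u, hu, v, hv, rfl⟩ := Submodule.mem_sup.1 (hj ⟨h1, ctrl_clo.1 h2⟩)
      rw [Submodule.mem_iInf] at hu
      exact ⟨u, ⟨(hu 0).1, ctrl_clo.2 (ctrl_inf hc hn fun j => (hu j).2)⟩, by simpa using hv⟩
    have := hn j
    have := hfi j
    have : (C ⊔ Γ j).FiniteIndex := Subgroup.finiteIndex_of_le le_sup_right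
    have := Fintype.ofFinite (G ⧸ (C ⊔ Γ j))
    obtain ⟨h1, h2, -, h4⟩ := hPIECE k G R Γ inc K (C ⊔ Γ j) j hanti hc le_sup_right
    choose z hz using fun q => h1 q x
    refine ⟨_, Finset.univ, z, fun q => q.out, h2 x z hz, fun q => ?_⟩
    have h5 := h4 q.out x (z q) (by rw [QuotientGroup.out_eq']; exact hz q)
    have h6 := hpc j x hx q _ (hz q)
    exact ⟨h0 _ (P.mul_mem_right _ h6) h5.1, h0 _ (P.mul_mem_left _ h6) h5.2⟩
  constructor
  · refine hRCL k G R Γ inc K hn hc hcl _ x fun n => ?_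
    obtain ⟨ι, s, z, g, rfl, h⟩ := key n
    choose u hu hu' using fun i => (h i).1
    refine ⟨∑ i ∈ s, u i * inc (of k G (g i)), sum_mem fun i _ =>
      Submodule.smul_mem _ (MulOpposite.op _) (Submodule.subset_span (hu i)), ?_⟩
    rw [← Finset.sum_sub_distrib]
    refine sum_mem fun i _ => ?_
    have h1 := hc.right _ _ (inc (of k G (g i))) (hu' i)
    rwa [sub_mul, mul_assoc, hinv', mul_one] at h1
  · refine hcl _ x fun n => ?_
    obtain ⟨ι, s, z, g, rfl, h⟩ := key n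
    refine sum_mem fun i _ => ?_
    obtain ⟨u, hu, hu'⟩ := (h i).2
    have h1 := hc.left _ (inc (of k G (g i))) _ hu'
    rw [mul_sub, ← mul_assoc, hinv, one_mul] at h1
    have h2 := Submodule.add_mem_sup (S := Submodule.restrictScalars k (Submodule.span R Y))
      (Ideal.mul_mem_left (Submodule.span R Y) (inc (of k G (g i))) (Submodule.subset_span hu)) h1
    rwa [add_sub_cancel] at h2

end Pool.Agent.P.MP_7cb106_nt.Q2
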