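import Pool.Agent.P.MP_7cb106_nt.Q2.IfaceP

/-! Step FRX. -/

set_option autoImplicit false

namespace Pool.Agent.P.MP_7cb106_nt.Q2

open Filter MonoidAlgebra

section frx
variable {k G R : Type} [Field k] [Group G] [Ring R] [Algebra k R]
  (inc : MonoidAlgebra k G →ₐ[k] R) (K : ℕ → Submodule k R) (G0 : Subgroup G) (P : Ideal R)

theorem frx_mk {j : ℕ} {x z : R} {a : MonoidAlgebra k G} (hz : z ∈ P) (ha : a ∈ DA k G0 j)
    (hw : x - z - inc a ∈ K j) : x ∈ FR inc K G0 P j := by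
  have e : x = z + inc a + (x - z - inc a) := by abel
  rw [e]
  exact Submodule.add_mem_sup (Submodule.add_mem_sup hz ⟨a, ha, rfl⟩) hw

theorem frx_out {j : ℕ} {x : R} (hx : x ∈ FR inc K G0 P j) :
    ∃ z ∈ P, ∃ a ∈ DA k G0 j, x - z - inc a ∈ K j := by
  obtain ⟨u, hu, w, hw, rfl⟩ := Submodule.mem_sup.1 hx
  obtain ⟨z, hz, v, ⟨a, ha, rfl⟩, rfl⟩ := Submodule.mem_sup.1 hu
  refine ⟨z, hz, a, ha, ?_⟩
  have e : z + inc.toLinearMap a + w - z - inc a = w := by
    rw [AlgHom.toLinearMap_apply]; abel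
  rw [e]; exact hw

theorem frx_inc {j : ℕ} {a : MonoidAlgebra k G} (ha : a ∈ DA k G0 j) :
    inc a ∈ FR inc K G0 P j :=
  frx_mk inc K G0 P P.zero_mem ha (by simp)

theorem frx_key {Γ : ℕ → Subgroup G} (hc : Cpl Γ inc K) (hK : ∀ j, Kr k (Γ j) ≤ DA k G0 j)
    {j n : ℕ} (hn : j ≤ n) {x : R} (hx : x ∈ FR inc K G0 P j) :
    ∃ z ∈ P, ∃ a ∈ DA k G0 j, x - z - inc a ∈ K n := by
  obtain ⟨z, hz, a, ha, hw⟩ := frx_out inc K G0 P hx
  obtain ⟨a1, h1⟩ := hc.dense n (x - z - inc a)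
  have h2 : inc a1 ∈ K j := by
    have := (K j).sub_mem hw (hc.anti hn h1)
    rwa [sub_sub_cancel] at this
  refine ⟨z, hz, a + a1, (DA k G0 j).add_mem ha (hK j ((hc.ker j a1).1 h2)), ?_⟩
  rw [map_add, ← sub_sub]; exact h1

theorem frx_mon {ι : Type} (b : ι → MonoidAlgebra k G) (j : ℕ) :
    (Mic.Mon k b j).map inc.toLinearMap ≤ Mic.Mon k (fun q => inc (b q)) j := by
  rw [Mic.Mon, Submodule.map_span, Submodule.span_le]
  rintro _ ⟨_, ⟨l, hl, rfl⟩, rfl⟩
  refine Submodule.subset_span ⟨l, hl, ?_⟩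
  rw [AlgHom.toLinearMap_apply, map_list_prod, List.map_map]
  rfl

theorem frx_mf {Γ : ℕ → Subgroup G} (hc : Cpl Γ inc K) (hK : ∀ j, Kr k (Γ j) ≤ DA k G0 j)
    (hD : MF (DA k G0)) [P.IsTwoSided] : MF (FR inc K G0 P) where
  top := by
    rw [eq_top_iff]
    intro x _
    obtain ⟨a, ha⟩ := hc.dense 0 x
    exact frx_mk inc K G0 P P.zero_mem (a := a) (by rw [hD.top]; trivial) (by rwa [sub_zero])
  anti := fun j l h =>
    sup_le_sup (sup_le_sup_left (Submodule.map_mono (hD.anti h)) _) (hc.anti h)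
  mul := fun i j x y hx hy => by
    obtain ⟨z, hz, a, ha, hw⟩ := frx_key inc K G0 P hc hK (Nat.le_add_right i j) hx
    obtain ⟨z', hz', a', ha', hw'⟩ := frx_key inc K G0 P hc hK (Nat.le_add_left j i) hy
    refine frx_mk inc K G0 P (z := z * y + inc a * z') (a := a * a')
      (P.add_mem (Ideal.mul_mem_right y P hz) (P.mul_mem_left _ hz')) (hD.mul i j a a' ha ha') ?_
    have e : x * y - (z * y + inc a * z') - inc (a * a') =
        inc a * (y - z' - inc a') + (x - z - inc a) * y := by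
      rw [map_mul]; noncomm_ring
    rw [e]
    exact (K _).add_mem (hc.left _ _ _ hw') (hc.right _ _ _ hw)

end frx

theorem p_FRX (hDAF : S_DAF) (hDAG : S_DAG) :
    S_FRX := by
  intro p c _ k G R _ _ _ _ _ G0 Γ inc K P hN hU hc hP
  obtain ⟨hD, hlev, hK, -⟩ := hDAF p c k G G0 Γ hN hU
  have hX := hDAG p c k G G0 Γ hN hU
  have hmf := frx_mf inc K G0 P hc hK hD
  refine ⟨⟨hmf, fun i => frx_inc inc K G0 P (hX.bmem i), fun i l => ?_, fun g hg => ?_,
    fun g i => ?_, fun j x hx => ?_⟩, ⟨fun i j h => Submodule.comap_mono (hmf.anti h),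
    fun n x y hy => ?_, fun r g hg => frx_inc inc K G0 P (hlev r g hg)⟩⟩
  · have := frx_inc inc K G0 P (hX.comm i l)
    rwa [map_sub, map_mul, map_mul] at this
  · have := frx_inc inc K G0 P (hX.umem g hg)
    rwa [map_sub, map_one] at this
  · obtain ⟨y, hy, h⟩ := hX.conj g i
    refine ⟨inc y, frx_mon inc _ 1 ⟨y, hy, rfl⟩, ?_⟩
    have := frx_inc inc K G0 P h
    rwa [map_sub, map_mul, map_mul] at this
  · obtain ⟨z, hz, a, ha, hw⟩ := frx_key inc K G0 P hc hK (Nat.le_succ j) hx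
    obtain ⟨m, hm, a2, ha2, rfl⟩ := Submodule.mem_sup.1 (hX.gen j ha)
    have e : x = inc m + (x - inc m) := by abel
    rw [e]
    refine Submodule.add_mem_sup ?_ (frx_mk inc K G0 P hz ha2 ?_)
    · have h1 : inc m ∈ (Mic.Mon k (bX k Γ) j *
          Submodule.span k (Set.range (of k G))).map inc.toLinearMap := ⟨m, hm, rfl⟩
      rw [Submodule.map_mul] at h1
      refine mul_le_mul' (frx_mon inc _ j) ?_ h1
      rw [Submodule.map_span, Submodule.span_le]
      rintro _ ⟨_, ⟨g, rfl⟩, rfl⟩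
      exact Submodule.subset_span ⟨g, rfl⟩
    · have e2 : x - inc m - z - inc a2 = x - z - inc (m + a2) := by rw [map_add]; abel
      rw [e2]; exact hw
  · have h0 : inc x ∈ FR inc K G0 P 0 := by rw [hmf.top]; trivial
    have := hmf.mul 0 n _ _ h0 hy
    rw [zero_add] at this
    change inc (x * y) ∈ FR inc K G0 P n
    rw [map_mul]; exact this

end Pool.Agent.P.MP_7cb106_nt.Q2
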